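import Pool.Agent.ROB.SBasic

/-!
MP_7b7880_an, module ABS: `Stmt_Abs` from `Stmt_BV` and `Stmt_Soft`.
-/

namespace Pool.Agent.ROB.ABS

open MeasureTheory Set Filter
open scoped ContDiff ENNReal Topology

/-- Hyperplanes are null sets. -/
theorem null_hyper {n : ℕ} {v : E n} (hv : v ≠ 0) (r : ℝ) :
    volume {x : E n | inner ℝ v x = r} = 0 := by
  by_cases hne : {x : E n | inner ℝ v x = r}.Nonempty
  · obtain ⟨x0, hx0⟩ := hne
    set S : AffineSubspace ℝ (E n) :=
      AffineSubspace.mk' x0 (LinearMap.ker (innerSL ℝ v).toLinearMap) with hS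
    have hsub : {x : E n | inner ℝ v x = r} ⊆ (S : Set (E n)) := by
      intro x hx
      rw [hS]
      rw [SetLike.mem_coe, AffineSubspace.mem_mk']
      simp only [vsub_eq_sub, LinearMap.mem_ker, ContinuousLinearMap.coe_coe,
        innerSL_apply_apply, inner_sub_right]
      rw [mem_setOf_eq] at hx hx0
      rw [hx, hx0, sub_self]
    have hS' : S ≠ ⊤ := by
      intro h
      have : x0 + v ∈ S := by rw [h]; exact AffineSubspace.mem_top _ _ _
      rw [hS, AffineSubspace.mem_mk'] at this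
      simp only [vsub_eq_sub, add_sub_cancel_left, LinearMap.mem_ker, ContinuousLinearMap.coe_coe,
        innerSL_apply_apply] at this
      exact hv (inner_self_eq_zero.1 this)
    exact measure_mono_null hsub (Measure.addHaar_affineSubspace volume S hS')
  · rw [not_nonempty_iff_eq_empty.1 hne]; simp

theorem null_tie {n : ℕ} {ι : Type} {ξ : ι → E n} (c : ι → ℝ) {i j : ι} (h : ξ i ≠ ξ j) :
    volume {x : E n | ell ξ c i x = ell ξ c j x} = 0 := by
  refine measure_mono_null ?_ (null_hyper (sub_ne_zero.2 h) (c i - c j))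
  intro x hx
  simp only [mem_setOf_eq, ell, inner_sub_left] at hx ⊢
  linarith

section

variable {n : ℕ} {ι : Type} [Fintype ι] [Nonempty ι] {ξ : ι → E n} (c : ι → ℝ)

/-- At almost every point there is a unique maximiser. -/
theorem ae_max (hinj : Function.Injective ξ) :
    ∀ᵐ x : E n, ∃ i, ∀ j, j ≠ i → ell ξ c j x < ell ξ c i x := by
  have h : ∀ᵐ x : E n, ∀ i j, i ≠ j → ell ξ c i x ≠ ell ξ c j x := by
    rw [ae_all_iff]
    intro i
    rw [ae_all_iff]
    intro j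
    by_cases hij : i = j
    · exact Eventually.of_forall fun x h => absurd hij h
    · have := null_tie c (fun hh => hij (hinj hh) : ξ i ≠ ξ j)
      have h2 : ∀ᵐ x : E n, ¬ (ell ξ c i x = ell ξ c j x) := by
        rw [ae_iff]; simpa using this
      filter_upwards [h2] with x hx _
      exact hx
  filter_upwards [h] with x hx
  obtain ⟨i, -, hi⟩ := Finset.exists_max_image Finset.univ (fun i => ell ξ c i x)
    Finset.univ_nonempty
  exact ⟨i, fun j hj => lt_of_le_of_ne (hi j (Finset.mem_univ j)) (hx j i hj)⟩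

theorem tendsto_exp_div {b : ℝ} (hb : b < 0) :
    Tendsto (fun τ : ℝ => Real.exp (b / τ)) (𝓝[>] 0) (𝓝 0) := by
  refine Real.tendsto_exp_atBot.comp ?_
  have h := (tendsto_inv_nhdsGT_zero (𝕜 := ℝ)).const_mul_atTop_of_neg hb
  refine h.congr fun τ => ?_
  rw [div_eq_mul_inv]

theorem tendsto_sp_zero (i i0 : ι) (x : E n) (h : ell ξ c i x < ell ξ c i0 x) :
    Tendsto (fun τ : ℝ => sp ξ c τ i x) (𝓝[>] 0) (𝓝 0) := by
  refine squeeze_zero (fun τ => (sp_pos ξ c τ i x).le) (fun τ => sp_le_exp ξ c τ i i0 x) ?_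
  exact tendsto_exp_div (by linarith)

theorem tendsto_sp_one (i0 : ι) (x : E n) (h : ∀ j, j ≠ i0 → ell ξ c j x < ell ξ c i0 x) :
    Tendsto (fun τ : ℝ => sp ξ c τ i0 x) (𝓝[>] 0) (𝓝 1) := by
  classical
  have h1 : ∀ τ : ℝ, sp ξ c τ i0 x = 1 - ∑ j ∈ Finset.univ.erase i0, sp ξ c τ j x := by
    intro τ
    rw [← sp_sum ξ c τ x, ← Finset.add_sum_erase Finset.univ _ (Finset.mem_univ i0)]
    ring
  simp_rw [h1]
  have h2 : Tendsto (fun τ : ℝ => ∑ j ∈ Finset.univ.erase i0, sp ξ c τ j x) (𝓝[>] 0)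
      (𝓝 (∑ _j ∈ Finset.univ.erase i0, (0 : ℝ))) :=
    tendsto_finset_sum _ fun j hj => tendsto_sp_zero c j i0 x (h j (Finset.ne_of_mem_erase hj))
  simpa using h2.const_sub 1

theorem tendsto_sp_ind (Ω : Set (E n)) {i0 : ι} {x : E n} (hx : x ∈ Ω)
    (h : ∀ j, j ≠ i0 → ell ξ c j x < ell ξ c i0 x) (i : ι) :
    Tendsto (fun τ : ℝ => sp ξ c τ i x) (𝓝[>] 0)
      (𝓝 ((cell Ω ξ c i).indicator (fun _ => (1 : ℝ)) x)) := by
  classical
  by_cases hi : i = i0
  · subst hi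
    have : x ∈ cell Ω ξ c i := ⟨hx, fun j => by
      by_cases hj : j = i
      · rw [hj]
      · exact (h j hj).le⟩
    rw [indicator_of_mem this]
    exact tendsto_sp_one c i x h
  · have : x ∉ cell Ω ξ c i := fun hh => absurd (hh.2 i0) (not_le.2 (h i hi))
    rw [indicator_of_notMem this]
    exact tendsto_sp_zero c i i0 x (h i hi)

theorem tendsto_Psi {i0 : ι} {x : E n} (h : ∀ j, ell ξ c j x ≤ ell ξ c i0 x) :
    Tendsto (fun τ : ℝ => Psi ξ c τ x) (𝓝[>] 0) (𝓝 (ell ξ c i0 x)) := by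
  have h0 : Tendsto (fun τ : ℝ => ell ξ c i0 x + τ * Real.log (Fintype.card ι)) (𝓝[>] 0)
      (𝓝 (ell ξ c i0 x)) := by
    have : Tendsto (fun τ : ℝ => ell ξ c i0 x + τ * Real.log (Fintype.card ι)) (𝓝 0)
        (𝓝 (ell ξ c i0 x + 0 * Real.log (Fintype.card ι))) :=
      (tendsto_id.mul_const _).const_add _
    simpa using this.mono_left nhdsWithin_le_nhds
  refine tendsto_of_tendsto_of_tendsto_of_le_of_le' tendsto_const_nhds h0 ?_ ?_
  · filter_upwards [self_mem_nhdsWithin] with τ hτ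
    exact ell_le_Psi ξ c τ hτ i0 x
  · filter_upwards [self_mem_nhdsWithin] with τ hτ
    exact Psi_le_of_max ξ c τ hτ i0 x h

omit [Nonempty ι] in
theorem measurableSet_cell {Ω : Set (E n)} (hΩ : MeasurableSet Ω) (i : ι) :
    MeasurableSet (cell Ω ξ c i) := by
  have : cell Ω ξ c i = Ω ∩ ⋂ j, {x | ell ξ c j x ≤ ell ξ c i x} := by
    ext x; simp [cell]
  rw [this]
  exact hΩ.inter (MeasurableSet.iInter fun j =>
    (isClosed_le (ell_continuous ξ c j) (ell_continuous ξ c i)).measurableSet)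

omit [Nonempty ι] in
theorem ell_bound {Ω : Set (E n)} (hb : Bornology.IsBounded Ω) :
    ∃ B : ℝ, ∀ i, ∀ x ∈ Ω, ell ξ c i x ≤ B := by
  have hcpt : IsCompact (closure Ω) := hb.isCompact_closure
  have : ∀ i, ∃ B : ℝ, ∀ x ∈ Ω, ell ξ c i x ≤ B := by
    intro i
    obtain ⟨B, hB⟩ := hcpt.bddAbove_image (ell_continuous ξ c i).continuousOn
    exact ⟨B, fun x hx => hB ⟨x, subset_closure hx, rfl⟩⟩
  choose B hB using this
  obtain ⟨C, hC⟩ := (Set.finite_range B).bddAbove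
  exact ⟨C, fun i x hx => (hB i x hx).trans (hC ⟨i, rfl⟩)⟩

theorem Psi_le_bound {Ω : Set (E n)} {B : ℝ} (hB : ∀ i, ∀ x ∈ Ω, ell ξ c i x ≤ B)
    {x : E n} (hx : x ∈ Ω) {τ : ℝ} (hτ : 0 < τ) (hτ1 : τ < 1) :
    Psi ξ c τ x ≤ B + Real.log (Fintype.card ι) := by
  obtain ⟨i, -, hi⟩ := Finset.exists_max_image Finset.univ (fun i => ell ξ c i x)
    Finset.univ_nonempty
  have h1 := Psi_le_of_max ξ c τ hτ i x (fun j => hi j (Finset.mem_univ j))
  have hlog : 0 ≤ Real.log (Fintype.card ι) :=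
    Real.log_nonneg (by exact_mod_cast Fintype.card_pos)
  have := hB i x hx
  nlinarith

/-- Convergence of the volumes. -/
theorem tendsto_vol {Ω : Set (E n)} (hΩ : IsOpen Ω) (hb : Bornology.IsBounded Ω)
    (hinj : Function.Injective ξ) (i : ι) {q : ℝ} (hq : 0 < q) :
    Tendsto (fun τ : ℝ => ∫ x in Ω, sp ξ c τ i x ^ q) (𝓝[>] 0)
      (𝓝 (volume (cell Ω ξ c i)).toReal) := by
  have hfin : volume Ω < ⊤ := hb.measure_lt_top
  have : IsFiniteMeasure (volume.restrict Ω) := ⟨by simpa using hfin⟩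
  have h1 : (volume (cell Ω ξ c i)).toReal =
      ∫ x in Ω, (cell Ω ξ c i).indicator (fun _ => (1 : ℝ)) x := by
    rw [integral_indicator (measurableSet_cell c hΩ.measurableSet i)]
    simp only [integral_const, smul_eq_mul, mul_one, measureReal_def]
    rw [Measure.restrict_apply MeasurableSet.univ, univ_inter,
      Measure.restrict_apply (measurableSet_cell c hΩ.measurableSet i)]
    congr 2
    ext x
    constructor
    · intro hx; exact ⟨hx, hx.1⟩
    · intro hx; exact hx.1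
  rw [h1]
  refine tendsto_integral_filter_of_dominated_convergence (fun _ => (1 : ℝ)) ?_ ?_
    (integrable_const _) ?_
  · filter_upwards with τ
    exact ((sp_contDiff (m := 1) ξ c τ i).continuous.rpow_const
      (fun x => Or.inr hq.le)).aestronglyMeasurable
  · filter_upwards with τ
    filter_upwards with x
    rw [Real.norm_of_nonneg (Real.rpow_nonneg (sp_pos ξ c τ i x).le q)]
    exact Real.rpow_le_one (sp_pos ξ c τ i x).le (sp_le_one ξ c τ i x) hq.le
  · filter_upwards [ae_restrict_of_ae (ae_max c hinj), ae_restrict_mem hΩ.measurableSet]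
      with x hx hxΩ
    obtain ⟨i0, hi0⟩ := hx
    have h2 := (tendsto_sp_ind c Ω hxΩ hi0 i).rpow_const (p := q) (Or.inr hq.le)
    have h3 : ((cell Ω ξ c i).indicator (fun _ => (1 : ℝ)) x) ^ q =
        (cell Ω ξ c i).indicator (fun _ => (1 : ℝ)) x := by
      by_cases hxi : x ∈ cell Ω ξ c i
      · rw [indicator_of_mem hxi, Real.one_rpow]
      · rw [indicator_of_notMem hxi, Real.zero_rpow hq.ne']
    rwa [h3] at h2

/-- Convergence of the masses. -/
theorem tendsto_mass {Ω : Set (E n)} (hΩ : IsOpen Ω) (hb : Bornology.IsBounded Ω)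
    (hinj : Function.Injective ξ) (i : ι) :
    Tendsto (fun τ : ℝ => ∫ x in Ω, Real.exp (2 * Psi ξ c τ x) * sp ξ c τ i x) (𝓝[>] 0)
      (𝓝 (∫ x in cell Ω ξ c i, Real.exp (2 * ell ξ c i x))) := by
  have hfin : volume Ω < ⊤ := hb.measure_lt_top
  have : IsFiniteMeasure (volume.restrict Ω) := ⟨by simpa using hfin⟩
  obtain ⟨B, hB⟩ := ell_bound (ξ := ξ) c hb
  have hcell := measurableSet_cell (ξ := ξ) c hΩ.measurableSet i
  have h1 : ∫ x in cell Ω ξ c i, Real.exp (2 * ell ξ c i x) =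
      ∫ x in Ω, (cell Ω ξ c i).indicator (fun x => Real.exp (2 * ell ξ c i x)) x := by
    rw [integral_indicator hcell, Measure.restrict_restrict hcell]
    congr 2
    ext x
    constructor
    · intro hx; exact ⟨hx, hx.1⟩
    · intro hx; exact hx.1
  rw [h1]
  refine tendsto_integral_filter_of_dominated_convergence
    (fun _ => Real.exp (2 * (B + Real.log (Fintype.card ι)))) ?_ ?_ (integrable_const _) ?_
  · filter_upwards with τ
    exact ((Real.continuous_exp.comp (continuous_const.mul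
      (Psi_contDiff (m := 1) ξ c τ).continuous)).mul
      (sp_contDiff (m := 1) ξ c τ i).continuous).aestronglyMeasurable
  · have h01 : ∀ᶠ τ : ℝ in 𝓝[>] 0, τ < 1 := by
      filter_upwards [Ioo_mem_nhdsGT (zero_lt_one' ℝ)] with τ hτ using hτ.2
    filter_upwards [self_mem_nhdsWithin, h01] with τ hτ hτ1
    filter_upwards [ae_restrict_mem hΩ.measurableSet] with x hx
    rw [Real.norm_of_nonneg (mul_nonneg (Real.exp_pos _).le (sp_pos ξ c τ i x).le)]
    calc Real.exp (2 * Psi ξ c τ x) * sp ξ c τ i x ≤ Real.exp (2 * Psi ξ c τ x) * 1 :=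
          mul_le_mul_of_nonneg_left (sp_le_one ξ c τ i x) (Real.exp_pos _).le
      _ ≤ _ := by
          rw [mul_one]
          exact Real.exp_le_exp.2 (by linarith [Psi_le_bound c hB hx hτ hτ1])
  · filter_upwards [ae_restrict_of_ae (ae_max c hinj), ae_restrict_mem hΩ.measurableSet]
      with x hx hxΩ
    obtain ⟨i0, hi0⟩ := hx
    have h2 := tendsto_sp_ind c Ω hxΩ hi0 i
    have hmax : ∀ j, ell ξ c j x ≤ ell ξ c i0 x := fun j => by
      by_cases hj : j = i0
      · rw [hj]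
      · exact (hi0 j hj).le
    have h3 : Tendsto (fun τ : ℝ => Real.exp (2 * Psi ξ c τ x)) (𝓝[>] 0)
        (𝓝 (Real.exp (2 * ell ξ c i0 x))) :=
      (Real.continuous_exp.tendsto _).comp ((tendsto_Psi c hmax).const_mul 2)
    have h4 := h3.mul h2
    have h5 : Real.exp (2 * ell ξ c i0 x) * (cell Ω ξ c i).indicator (fun _ => (1 : ℝ)) x =
        (cell Ω ξ c i).indicator (fun x => Real.exp (2 * ell ξ c i x)) x := by
      by_cases hxi : x ∈ cell Ω ξ c i
      · rw [indicator_of_mem hxi, indicator_of_mem hxi, mul_one]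
        have : ell ξ c i0 x = ell ξ c i x := le_antisymm (hxi.2 i0) (hmax i)
        rw [this]
      · rw [indicator_of_notMem hxi, indicator_of_notMem hxi, mul_zero]
    rwa [h5] at h4

/-- Pointwise inequality: the pair sum dominates the derivatives of the weights. -/
theorem pair_le {τ : ℝ} (hτ : 0 < τ) (X : ι → E n)
    (b : ι → OrthonormalBasis (Fin n) ℝ (E n)) (lam : ι → Fin n → ℝ) {h N w : ℝ}
    (hh : 0 < h) (hN : 0 ≤ N) (hw : 0 ≤ w) (hlam : ∀ i l, 0 ≤ lam i l)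
    (hp1 : ∀ i j, h / 2 * ((∑ l, lam i l * |inner ℝ (b i l) (ξ i - ξ j)|) +
        ∑ l, lam j l * |inner ℝ (b j l) (ξ i - ξ j)|) ≤ inner ℝ (ξ i - ξ j) (X i - X j))
    (hp2 : ∀ i j, h / 2 * ((∑ l, |inner ℝ (b i l) (ξ i - ξ j)|) +
        ∑ l, |inner ℝ (b j l) (ξ i - ξ j)|) ≤ ‖ξ i - ξ j‖ ^ 2) (x : E n) :
    h / 2 * ∑ i, ∑ l, (lam i l + N * w) * |fderiv ℝ (sp ξ c τ i) x (b i l)| ≤
      1 / (2 * τ) * ∑ i, ∑ j, sp ξ c τ i x * sp ξ c τ j x *
        (inner ℝ (ξ i - ξ j) (X i - X j) + N * w * ‖ξ i - ξ j‖ ^ 2) := by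
  set p : ι → ℝ := fun i => sp ξ c τ i x with hp
  have hp0 : ∀ i, 0 ≤ p i := fun i => (sp_pos ξ c τ i x).le
  -- the one sided sum
  set S : ι → ι → ℝ := fun i j => ∑ l, (lam i l + N * w) * |inner ℝ (b i l) (ξ i - ξ j)| with hS
  have hS' : ∀ i j, ∑ l, (lam j l + N * w) * |inner ℝ (b j l) (ξ i - ξ j)| = S j i := by
    intro i j
    rw [hS]
    refine Finset.sum_congr rfl fun l _ => ?_
    rw [← neg_sub (ξ j) (ξ i), inner_neg_right, abs_neg]
  have hNw : 0 ≤ N * w := mul_nonneg hN hw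
  have hbr : ∀ i j, h / 2 * (S i j + S j i) ≤
      inner ℝ (ξ i - ξ j) (X i - X j) + N * w * ‖ξ i - ξ j‖ ^ 2 := by
    intro i j
    have h1 := hp1 i j
    have h2 := mul_le_mul_of_nonneg_left (hp2 i j) hNw
    have h3 : S i j = (∑ l, lam i l * |inner ℝ (b i l) (ξ i - ξ j)|) +
        N * w * ∑ l, |inner ℝ (b i l) (ξ i - ξ j)| := by
      rw [hS, Finset.mul_sum, ← Finset.sum_add_distrib]
      exact Finset.sum_congr rfl fun l _ => by ring
    have h4 : S j i = (∑ l, lam j l * |inner ℝ (b j l) (ξ i - ξ j)|) +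
        N * w * ∑ l, |inner ℝ (b j l) (ξ i - ξ j)| := by
      rw [← hS', Finset.mul_sum, ← Finset.sum_add_distrib]
      exact Finset.sum_congr rfl fun l _ => by ring
    rw [h3, h4]
    nlinarith
  -- double sum, symmetrised
  have hsum : h * ∑ i, ∑ j, p i * p j * S i j ≤ ∑ i, ∑ j, p i * p j *
      (inner ℝ (ξ i - ξ j) (X i - X j) + N * w * ‖ξ i - ξ j‖ ^ 2) := by
    have h1 : ∑ i, ∑ j, p i * p j * S j i = ∑ i, ∑ j, p i * p j * S i j := by
      rw [Finset.sum_comm]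
      refine Finset.sum_congr rfl fun i _ => Finset.sum_congr rfl fun j _ => ?_
      ring
    calc h * ∑ i, ∑ j, p i * p j * S i j
        = h / 2 * (∑ i, ∑ j, p i * p j * S i j + ∑ i, ∑ j, p i * p j * S j i) := by
          rw [h1]; ring
      _ = ∑ i, ∑ j, p i * p j * (h / 2 * (S i j + S j i)) := by
          rw [← Finset.sum_add_distrib, Finset.mul_sum]
          refine Finset.sum_congr rfl fun i _ => ?_
          rw [← Finset.sum_add_distrib, Finset.mul_sum]
          exact Finset.sum_congr rfl fun j _ => by ring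
      _ ≤ _ := Finset.sum_le_sum fun i _ => Finset.sum_le_sum fun j _ =>
          mul_le_mul_of_nonneg_left (hbr i j) (mul_nonneg (hp0 i) (hp0 j))
  -- derivatives
  have hder : ∀ i l, |fderiv ℝ (sp ξ c τ i) x (b i l)| ≤
      1 / τ * (p i * ∑ j, p j * |inner ℝ (b i l) (ξ i - ξ j)|) := by
    intro i l
    rw [sp_fderiv_apply ξ c τ hτ, abs_mul, abs_mul, abs_of_pos (by positivity : 0 < 1 / τ),
      abs_of_nonneg (hp0 i)]
    refine mul_le_mul_of_nonneg_left (mul_le_mul_of_nonneg_left ?_ (hp0 i)) (by positivity)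
    refine (Finset.abs_sum_le_sum_abs _ _).trans (Finset.sum_le_sum fun j _ => ?_)
    rw [abs_mul, abs_of_nonneg (hp0 j), real_inner_comm]
  have h1 : ∑ i, ∑ l, (lam i l + N * w) * |fderiv ℝ (sp ξ c τ i) x (b i l)| ≤
      1 / τ * ∑ i, ∑ j, p i * p j * S i j := by
    rw [Finset.mul_sum]
    refine Finset.sum_le_sum fun i _ => ?_
    calc ∑ l, (lam i l + N * w) * |fderiv ℝ (sp ξ c τ i) x (b i l)|
        ≤ ∑ l, (lam i l + N * w) *
          (1 / τ * (p i * ∑ j, p j * |inner ℝ (b i l) (ξ i - ξ j)|)) :=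
          Finset.sum_le_sum fun l _ => mul_le_mul_of_nonneg_left (hder i l)
            (add_nonneg (hlam i l) hNw)
      _ = _ := by
          simp only [hS, Finset.mul_sum]
          rw [Finset.sum_comm]
          refine Finset.sum_congr rfl fun j _ => Finset.sum_congr rfl fun l _ => ?_
          ring
  calc h / 2 * ∑ i, ∑ l, (lam i l + N * w) * |fderiv ℝ (sp ξ c τ i) x (b i l)|
      ≤ h / 2 * (1 / τ * ∑ i, ∑ j, p i * p j * S i j) :=
        mul_le_mul_of_nonneg_left h1 (by positivity)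
    _ = 1 / (2 * τ) * (h * ∑ i, ∑ j, p i * p j * S i j) := by field_simp
    _ ≤ _ := mul_le_mul_of_nonneg_left hsum (by positivity)

/-- Uniform exponential smallness of the weights where the maximum is small. -/
theorem exists_rho {Ω : Set (E n)} (hb : Bornology.IsBounded Ω) (e : ι → ℝ)
    (he : ∀ i, 0 ≤ e i)
    (hecell : ∀ i, ∀ x ∈ cell (closure Ω) ξ c i, e i ≤ Real.exp (2 * ell ξ c i x))
    {κ : ℝ} (hκ : κ < 1) :
    ∃ ρ : ℝ, 0 < ρ ∧ ∀ i, ∀ x ∈ Ω, ∀ τ : ℝ, 0 < τ →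
      Real.exp (2 * Psi ξ c τ x) < κ * e i → sp ξ c τ i x ≤ Real.exp (-ρ / τ) := by
  have hcpt : IsCompact (closure Ω) := hb.isCompact_closure
  have key : ∀ i, ∃ ρ : ℝ, 0 < ρ ∧ ∀ x ∈ Ω, ∀ τ : ℝ, 0 < τ →
      Real.exp (2 * Psi ξ c τ x) < κ * e i → sp ξ c τ i x ≤ Real.exp (-ρ / τ) := by
    intro i
    by_cases hei : e i = 0
    · refine ⟨1, one_pos, fun x _ τ _ h => ?_⟩
      rw [hei, mul_zero] at h
      exact absurd h (not_lt.2 (Real.exp_pos _).le)
    have hei' : 0 < e i := lt_of_le_of_ne (he i) (Ne.symm hei)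
    set K : Set (E n) := closure Ω ∩ ⋂ j, {x | Real.exp (2 * ell ξ c j x) ≤ κ * e i} with hK
    have hKcpt : IsCompact K := hcpt.inter_right (isClosed_iInter fun j =>
      isClosed_le (Real.continuous_exp.comp (continuous_const.mul (ell_continuous ξ c j)))
        continuous_const)
    set m : E n → ℝ := fun x => ∑ j, max (ell ξ c j x - ell ξ c i x) 0 with hm
    have hmc : Continuous m := continuous_finset_sum _ fun j _ =>
      ((ell_continuous ξ c j).sub (ell_continuous ξ c i)).max continuous_const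
    have hmpos : ∀ x ∈ K, 0 < m x := by
      intro x hx
      have : ∃ j, ell ξ c i x < ell ξ c j x := by
        by_contra hcon
        push Not at hcon
        have h1 := hecell i x ⟨hx.1, hcon⟩
        have h2 : Real.exp (2 * ell ξ c i x) ≤ κ * e i := mem_iInter.1 hx.2 i
        nlinarith
      obtain ⟨j, hj⟩ := this
      refine lt_of_lt_of_le (lt_max_of_lt_left (sub_pos.2 hj) :
        0 < max (ell ξ c j x - ell ξ c i x) 0) ?_
      exact Finset.single_le_sum (f := fun j => max (ell ξ c j x - ell ξ c i x) 0)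
        (fun j _ => le_max_right _ _) (Finset.mem_univ j)
    obtain ⟨ρ', hρ', hρm⟩ : ∃ ρ' : ℝ, 0 < ρ' ∧ ∀ x ∈ K, ρ' ≤ m x := by
      by_cases hKne : K.Nonempty
      · obtain ⟨z, hz, hzm⟩ := hKcpt.exists_isMinOn hKne hmc.continuousOn
        exact ⟨m z, hmpos z hz, fun x hx => hzm hx⟩
      · exact ⟨1, one_pos, fun x hx => absurd ⟨x, hx⟩ hKne⟩
    have hcard : (0 : ℝ) < Fintype.card ι := by exact_mod_cast Fintype.card_pos
    refine ⟨ρ' / Fintype.card ι, div_pos hρ' hcard, fun x hx τ hτ hlt => ?_⟩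
    have hxK : x ∈ K := by
      refine ⟨subset_closure hx, mem_iInter.2 fun j => ?_⟩
      have := ell_le_Psi ξ c τ hτ j x
      exact (Real.exp_le_exp.2 (by linarith)).trans hlt.le
    have h1 := hρm x hxK
    -- some index is large
    obtain ⟨j, hj⟩ : ∃ j, ρ' / Fintype.card ι ≤ ell ξ c j x - ell ξ c i x := by
      by_contra hcon
      push Not at hcon
      have h2 : m x < ∑ _j : ι, ρ' / Fintype.card ι := by
        rw [hm]
        refine Finset.sum_lt_sum_of_nonempty Finset.univ_nonempty fun j _ => ?_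
        exact max_lt (hcon j) (div_pos hρ' hcard)
      rw [Finset.sum_const, Finset.card_univ, nsmul_eq_mul, mul_div_cancel₀ _ hcard.ne'] at h2
      linarith
    refine (sp_le_exp ξ c τ i j x).trans (Real.exp_le_exp.2 ?_)
    exact div_le_div_of_nonneg_right (by linarith) hτ.le
  choose ρ hρ hρ2 using key
  obtain ⟨i0, -, hi0⟩ := Finset.exists_min_image Finset.univ ρ Finset.univ_nonempty
  refine ⟨ρ i0, hρ i0, fun i x hx τ hτ h => (hρ2 i x hx τ hτ h).trans (Real.exp_le_exp.2 ?_)⟩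
  have := hi0 i (Finset.mem_univ i)
  exact div_le_div_of_nonneg_right (by linarith) hτ.le

/-- Bound for the derivative of the weights. -/
theorem fderiv_sp_le {τ a : ℝ} (hτ : 0 < τ) (ha : ∀ i, ‖ξ i‖ ≤ a) (i : ι) (x v : E n)
    (hv : ‖v‖ = 1) : |fderiv ℝ (sp ξ c τ i) x v| ≤ 2 * a / τ * sp ξ c τ i x := by
  rw [sp_fderiv_apply ξ c τ hτ, abs_mul, abs_mul, abs_of_pos (by positivity : 0 < 1 / τ),
    abs_of_pos (sp_pos ξ c τ i x)]
  have h1 : |∑ j, sp ξ c τ j x * inner ℝ (ξ i - ξ j) v| ≤ 2 * a := by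
    refine (Finset.abs_sum_le_sum_abs _ _).trans ?_
    calc ∑ j, |sp ξ c τ j x * inner ℝ (ξ i - ξ j) v| ≤ ∑ j, sp ξ c τ j x * (2 * a) := by
          refine Finset.sum_le_sum fun j _ => ?_
          rw [abs_mul, abs_of_pos (sp_pos ξ c τ j x)]
          refine mul_le_mul_of_nonneg_left ?_ (sp_pos ξ c τ j x).le
          refine (abs_real_inner_le_norm _ _).trans ?_
          rw [hv, mul_one]
          refine (norm_sub_le _ _).trans ?_
          linarith [ha i, ha j]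
      _ = 2 * a := by rw [← Finset.sum_mul, sp_sum, one_mul]
  calc 1 / τ * (sp ξ c τ i x * |∑ j, sp ξ c τ j x * inner ℝ (ξ i - ξ j) v|)
      ≤ 1 / τ * (sp ξ c τ i x * (2 * a)) := by
        refine mul_le_mul_of_nonneg_left (mul_le_mul_of_nonneg_left h1 (sp_pos ξ c τ i x).le) ?_
        positivity
    _ = _ := by ring

theorem integrableOn_of_cont {Ω : Set (E n)} (hb : Bornology.IsBounded Ω) {F : E n → ℝ}
    (hF : Continuous F) : IntegrableOn F Ω volume :=
  (hF.continuousOn.integrableOn_compact hb.isCompact_closure).mono_set subset_closure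

theorem cont_abs_fderiv (τ : ℝ) (i : ι) (v : E n) :
    Continuous (fun x => |fderiv ℝ (sp ξ c τ i) x v|) :=
  ((sp_contDiff (m := 1) ξ c τ i).continuous_fderiv_apply (by simp)
    |>.comp (continuous_id.prodMk continuous_const)).abs

theorem core_tau (hBV : Stmt_BV) (hSoft : Stmt_Soft) (hn : 2 ≤ n) {Ω : Set (E n)}
    {σ : Measure (E n)} (hD : Dom Ω σ) {k a : ℝ} (hk : 0 < k) (ha : 0 < a)
    (hR : RobinHyp Ω σ k a) (X : ι → E n) (b : ι → OrthonormalBasis (Fin n) ℝ (E n))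
    (lam : ι → Fin n → ℝ) {h A₀ Λ M : ℝ} (e : ι → ℝ)
    (hξ : ∀ i, ‖ξ i‖ ≤ a) (hX : ∀ i, ‖X i‖ ≤ A₀) (hh : 0 < h)
    (hlam : ∀ i l, 0 ≤ lam i l ∧ lam i l ≤ Λ) (he : ∀ i, 0 ≤ e i ∧ e i ≤ M)
    (hp1 : ∀ i j, h / 2 * ((∑ l, lam i l * |inner ℝ (b i l) (ξ i - ξ j)|) +
        ∑ l, lam j l * |inner ℝ (b j l) (ξ i - ξ j)|) ≤ inner ℝ (ξ i - ξ j) (X i - X j))
    (hp2 : ∀ i j, h / 2 * ((∑ l, |inner ℝ (b i l) (ξ i - ξ j)|) +
        ∑ l, |inner ℝ (b j l) (ξ i - ξ j)|) ≤ ‖ξ i - ξ j‖ ^ 2)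
    {κ : ℝ} (hκ0 : 0 ≤ κ) (hκ1 : κ < 1) {ρ : ℝ}
    (hρ : ∀ i, ∀ x ∈ Ω, ∀ τ : ℝ, 0 < τ →
      Real.exp (2 * Psi ξ c τ x) < κ * e i → sp ξ c τ i x ≤ Real.exp (-ρ / τ))
    {τ : ℝ} (hτ : 0 < τ) (hτ1 : τ < 1) :
    h * n * ∑ i, (∏ l, (lam i l + ((n : ℝ) - 1) * ((1 - τ) * (κ * e i)))) ^ (1 / (n : ℝ)) *
        (∫ x in Ω, sp ξ c τ i x ^ ((n : ℝ) / ((n : ℝ) - 1))) ^ (((n : ℝ) - 1) / n) ≤
      (A₀ + h / 2 * n * (Λ + ((n : ℝ) - 1) * M)) * (σ univ).toReal +
        ((n : ℝ) - 1) * ∑ i, (k ^ 2 - ‖ξ i‖ ^ 2) *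
          (∫ x in Ω, Real.exp (2 * Psi ξ c τ x) * sp ξ c τ i x) +
        h / 2 * (Fintype.card ι * n * (((n : ℝ) - 1) * M)) * (volume Ω).toReal *
          (2 * a / τ * Real.exp (-ρ / τ)) := by
  have hfinσ := hD.fin
  have hn1 : (1 : ℝ) ≤ n := by exact_mod_cast (by omega : 1 ≤ n)
  have hnpos : (0 : ℝ) < n := by linarith
  obtain ⟨N, hNdef⟩ : ∃ N : ℝ, (n : ℝ) - 1 = N := ⟨_, rfl⟩
  have hN : 0 ≤ N := by rw [← hNdef]; linarith
  rw [hNdef]
  have hsoft := hSoft n Ω σ hD k a hk ha hR ι ξ c X A₀ N τ hξ hX hN hτ hτ1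
  set p : ι → E n → ℝ := fun i x => sp ξ c τ i x with hp
  have hpc : ∀ i, Continuous (p i) := fun i => (sp_contDiff (m := 1) ξ c τ i).continuous
  have hPc : Continuous (fun x => Real.exp (2 * Psi ξ c τ x)) :=
    Real.continuous_exp.comp (continuous_const.mul (Psi_contDiff (m := 1) ξ c τ).continuous)
  have hdc : ∀ i l, Continuous (fun x => |fderiv ℝ (p i) x (b i l)|) := fun i l =>
    cont_abs_fderiv c τ i (b i l)
  set D : ι → Fin n → ℝ := fun i l => ∫ x in Ω, |fderiv ℝ (p i) x (b i l)| with hDdef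
  set β : ι → Fin n → ℝ := fun i l => lam i l + N * ((1 - τ) * (κ * e i)) with hβ
  have hβ0 : ∀ i l, 0 ≤ β i l := fun i l =>
    add_nonneg (hlam i l).1 (mul_nonneg hN (mul_nonneg (by linarith)
      (mul_nonneg hκ0 (he i).1)))
  have hM0 : 0 ≤ M := (he (Classical.arbitrary ι)).1.trans (he (Classical.arbitrary ι)).2
  have hβM : ∀ i l, β i l ≤ Λ + N * M := by
    intro i l
    have h1 : (1 - τ) * (κ * e i) ≤ 1 * (1 * M) := by
      have : κ * e i ≤ 1 * M := mul_le_mul hκ1.le (he i).2 (he i).1 zero_le_one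
      exact mul_le_mul (by linarith) this (mul_nonneg hκ0 (he i).1) zero_le_one
    have := mul_le_mul_of_nonneg_left h1 hN
    have := (hlam i l).2
    rw [hβ]
    linarith
  set C1 : ℝ := N * M * (2 * a / τ * Real.exp (-ρ / τ)) with hC1
  -- pointwise inequality
  have hpt : ∀ x ∈ Ω, h / 2 * ∑ i, ∑ l, (β i l * |fderiv ℝ (p i) x (b i l)| - C1) ≤
      1 / (2 * τ) * ∑ i, ∑ j, sp ξ c τ i x * sp ξ c τ j x *
        (inner ℝ (ξ i - ξ j) (X i - X j) +
          N * (1 - τ) * Real.exp (2 * Psi ξ c τ x) * ‖ξ i - ξ j‖ ^ 2) := by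
    intro x hx
    have h1 := pair_le (ξ := ξ) c hτ X b lam (w := (1 - τ) * Real.exp (2 * Psi ξ c τ x)) hh hN
      (mul_nonneg (by linarith) (Real.exp_pos _).le) (fun i l => (hlam i l).1) hp1 hp2 x
    have h2 : ∀ i j, N * ((1 - τ) * Real.exp (2 * Psi ξ c τ x)) * ‖ξ i - ξ j‖ ^ 2 =
        N * (1 - τ) * Real.exp (2 * Psi ξ c τ x) * ‖ξ i - ξ j‖ ^ 2 := fun i j => by ring
    simp only [h2] at h1
    refine le_trans ?_ h1
    refine mul_le_mul_of_nonneg_left ?_ (by positivity)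
    refine Finset.sum_le_sum fun i _ => Finset.sum_le_sum fun l _ => ?_
    have hab : 0 ≤ |fderiv ℝ (p i) x (b i l)| := abs_nonneg _
    by_cases hlt : Real.exp (2 * Psi ξ c τ x) < κ * e i
    · have h3 := hρ i x hx τ hτ hlt
      have h4 := fderiv_sp_le (ξ := ξ) c hτ hξ i x (b i l) ((b i).norm_eq_one l)
      have h5 : |fderiv ℝ (p i) x (b i l)| ≤ 2 * a / τ * Real.exp (-ρ / τ) :=
        h4.trans (mul_le_mul_of_nonneg_left h3 (by positivity))
      have h6 : (1 - τ) * (κ * e i) ≤ M := by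
        have : κ * e i ≤ 1 * M := mul_le_mul hκ1.le (he i).2 (he i).1 zero_le_one
        nlinarith [mul_nonneg hκ0 (he i).1]
      have h7 : N * ((1 - τ) * (κ * e i)) * |fderiv ℝ (p i) x (b i l)| ≤ C1 := by
        rw [hC1, mul_assoc N M]
        rw [mul_assoc]
        refine mul_le_mul_of_nonneg_left ?_ hN
        exact mul_le_mul h6 h5 hab hM0
      have h8 : 0 ≤ N * ((1 - τ) * Real.exp (2 * Psi ξ c τ x)) * |fderiv ℝ (p i) x (b i l)| :=
        mul_nonneg (mul_nonneg hN (mul_nonneg (by linarith) (Real.exp_pos _).le)) hab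
      simp only [hβ]
      nlinarith
    · push Not at hlt
      have hC0 : 0 ≤ C1 := by rw [hC1]; positivity
      have h3 : β i l ≤ lam i l + N * ((1 - τ) * Real.exp (2 * Psi ξ c τ x)) := by
        simp only [hβ]
        have := mul_le_mul_of_nonneg_left
          (mul_le_mul_of_nonneg_left hlt (by linarith : (0 : ℝ) ≤ 1 - τ)) hN
        linarith
      have := mul_le_mul_of_nonneg_right h3 hab
      linarith
  -- integrate
  have hint1 : IntegrableOn (fun x => h / 2 * ∑ i, ∑ l,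
      (β i l * |fderiv ℝ (p i) x (b i l)| - C1)) Ω volume :=
    integrableOn_of_cont hD.bdd (continuous_const.mul (continuous_finset_sum _ fun i _ =>
      continuous_finset_sum _ fun l _ => (continuous_const.mul (hdc i l)).sub continuous_const))
  have hint2 : IntegrableOn (fun x => 1 / (2 * τ) * ∑ i, ∑ j, sp ξ c τ i x * sp ξ c τ j x *
        (inner ℝ (ξ i - ξ j) (X i - X j) +
          N * (1 - τ) * Real.exp (2 * Psi ξ c τ x) * ‖ξ i - ξ j‖ ^ 2)) Ω volume :=
    integrableOn_of_cont hD.bdd (continuous_const.mul (continuous_finset_sum _ fun i _ =>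
      continuous_finset_sum _ fun j _ => ((hpc i).mul (hpc j)).mul (continuous_const.add
        ((continuous_const.mul hPc).mul continuous_const))))
  have hI := (setIntegral_mono_on hint1 hint2 hD.isOpen.measurableSet hpt).trans hsoft
  have hI1 : ∫ x in Ω, h / 2 * ∑ i, ∑ l, (β i l * |fderiv ℝ (p i) x (b i l)| - C1) =
      h / 2 * ∑ i, ∑ l, (β i l * D i l - C1 * (volume Ω).toReal) := by
    rw [integral_const_mul]
    congr 1
    rw [integral_finset_sum _ fun i _ => ?_]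
    · refine Finset.sum_congr rfl fun i _ => ?_
      rw [integral_finset_sum _ fun l _ => ?_]
      · refine Finset.sum_congr rfl fun l _ => ?_
        rw [integral_sub, integral_const_mul, setIntegral_const, smul_eq_mul, measureReal_def,
          mul_comm C1]
        · exact integrableOn_of_cont hD.bdd (continuous_const.mul (hdc i l))
        · exact integrableOn_of_cont hD.bdd continuous_const
      · exact integrableOn_of_cont hD.bdd ((continuous_const.mul (hdc i l)).sub continuous_const)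
    · exact integrableOn_of_cont hD.bdd (continuous_finset_sum _ fun l _ =>
        (continuous_const.mul (hdc i l)).sub continuous_const)
  rw [hI1] at hI
  -- right side
  have hI2 : ∫ x in Ω, Real.exp (2 * Psi ξ c τ x) * ∑ i, sp ξ c τ i x * (k ^ 2 - ‖ξ i‖ ^ 2) =
      ∑ i, (k ^ 2 - ‖ξ i‖ ^ 2) * ∫ x in Ω, Real.exp (2 * Psi ξ c τ x) * sp ξ c τ i x := by
    have : ∀ x, Real.exp (2 * Psi ξ c τ x) * ∑ i, sp ξ c τ i x * (k ^ 2 - ‖ξ i‖ ^ 2) =
        ∑ i, (k ^ 2 - ‖ξ i‖ ^ 2) * (Real.exp (2 * Psi ξ c τ x) * sp ξ c τ i x) := by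
      intro x
      rw [Finset.mul_sum]
      exact Finset.sum_congr rfl fun i _ => by ring
    simp only [this]
    rw [integral_finset_sum _ fun i _ => ?_]
    · exact Finset.sum_congr rfl fun i _ => integral_const_mul _ _
    · exact integrableOn_of_cont hD.bdd (continuous_const.mul (hPc.mul (hpc i)))
  rw [hI2] at hI
  -- BV for every index
  have hbv : ∀ i, 2 * n * ((∏ l, β i l) ^ (1 / (n : ℝ)) *
      (∫ x in Ω, sp ξ c τ i x ^ ((n : ℝ) / N)) ^ (N / n)) ≤
      ∑ l, β i l * (D i l + ∫ x, p i x ∂σ) := by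
    intro i
    have := hBV n hn Ω σ hD (b i) (β i) (hβ0 i) (p i) (sp_contDiff ξ c τ i)
      (fun x => (sp_pos ξ c τ i x).le)
    rw [hNdef] at this
    calc _ = 2 * n * (∏ l, β i l) ^ (1 / (n : ℝ)) *
      (∫ x in Ω, p i x ^ ((n : ℝ) / N)) ^ (N / n) := by ring
      _ ≤ _ := this
  have hσint : ∀ i, Integrable (p i) σ := by
    intro i
    refine Integrable.of_bound (C := 1) (hpc i).aestronglyMeasurable ?_
    filter_upwards with x
    rw [Real.norm_of_nonneg (sp_pos ξ c τ i x).le]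
    exact sp_le_one ξ c τ i x
  have hσsum : ∑ i, ∫ x, p i x ∂σ = (σ univ).toReal := by
    rw [← integral_finset_sum _ fun i _ => hσint i]
    have : ∀ x, ∑ i, p i x = 1 := fun x => sp_sum ξ c τ x
    simp [this, measureReal_def]
  have hσ0 : ∀ i, 0 ≤ ∫ x, p i x ∂σ := fun i => integral_nonneg fun x => (sp_pos ξ c τ i x).le
  have hbd : ∑ i, ∑ l, β i l * ∫ x, p i x ∂σ ≤ n * (Λ + N * M) * (σ univ).toReal := by
    rw [← hσsum, Finset.mul_sum]
    refine Finset.sum_le_sum fun i _ => ?_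
    calc ∑ l, β i l * ∫ x, p i x ∂σ ≤ ∑ _l : Fin n, (Λ + N * M) * ∫ x, p i x ∂σ :=
          Finset.sum_le_sum fun l _ => mul_le_mul_of_nonneg_right (hβM i l) (hσ0 i)
      _ = _ := by simp; ring
  have hsumBV := Finset.sum_le_sum fun i (_ : i ∈ Finset.univ) => hbv i
  rw [← Finset.mul_sum] at hsumBV
  have hsplit : ∑ i, ∑ l, β i l * (D i l + ∫ x, p i x ∂σ) =
      (∑ i, ∑ l, β i l * D i l) + ∑ i, ∑ l, β i l * ∫ x, p i x ∂σ := by
    simp only [mul_add, Finset.sum_add_distrib]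
  rw [hsplit] at hsumBV
  have hsub : ∑ i, ∑ l, (β i l * D i l - C1 * (volume Ω).toReal) =
      (∑ i, ∑ l, β i l * D i l) - Fintype.card ι * (n * (C1 * (volume Ω).toReal)) := by
    simp only [Finset.sum_sub_distrib, Finset.sum_const, Finset.card_univ, Fintype.card_fin,
      nsmul_eq_mul]
  rw [hsub] at hI
  have hfin := mul_le_mul_of_nonneg_left hsumBV (by positivity : (0 : ℝ) ≤ h / 2)
  have hfin2 := mul_le_mul_of_nonneg_left hbd (by positivity : (0 : ℝ) ≤ h / 2)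
  have hC1' : h / 2 * (Fintype.card ι * (n * (C1 * (volume Ω).toReal))) =
      h / 2 * (Fintype.card ι * n * (N * M)) * (volume Ω).toReal *
          (2 * a / τ * Real.exp (-ρ / τ)) := by
    rw [hC1]; ring
  have hl : h * n * ∑ i, (∏ l, (lam i l + N * ((1 - τ) * (κ * e i)))) ^ (1 / (n : ℝ)) *
        (∫ x in Ω, sp ξ c τ i x ^ ((n : ℝ) / N)) ^ (N / n) =
      h / 2 * (2 * n * ∑ i, (∏ l, β i l) ^ (1 / (n : ℝ)) *
      (∫ x in Ω, sp ξ c τ i x ^ ((n : ℝ) / N)) ^ (N / n)) := by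
    simp only [hβ]; ring
  rw [hl, ← hC1']
  linarith

end

theorem tendsto_err {ρ : ℝ} (hρ : 0 < ρ) (a C : ℝ) :
    Tendsto (fun τ : ℝ => C * (2 * a / τ * Real.exp (-ρ / τ))) (𝓝[>] 0) (𝓝 0) := by
  have h1 : Tendsto (fun t : ℝ => t ^ 1 * Real.exp (-t)) atTop (𝓝 0) :=
    Real.tendsto_pow_mul_exp_neg_atTop_nhds_zero 1
  have h2 : Tendsto (fun τ : ℝ => ρ / τ) (𝓝[>] 0) atTop := by
    have h := (tendsto_inv_nhdsGT_zero (𝕜 := ℝ)).const_mul_atTop hρ
    exact h.congr fun τ => by rw [div_eq_mul_inv]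
  have h3 := (h1.comp h2).const_mul (C * (2 * a / ρ))
  rw [mul_zero] at h3
  refine h3.congr' ?_
  filter_upwards [self_mem_nhdsWithin] with τ hτ
  have hτ' : (τ : ℝ) ≠ 0 := ne_of_gt hτ
  simp only [Function.comp, pow_one, neg_div]
  field_simp

/-- Module ABS. -/
theorem abs_proof (hBV : Stmt_BV) (hSoft : Stmt_Soft) : Stmt_Abs := by
  intro n hn Ω σ hD k a hk ha hR ι _ _ ξ hinj c X b lam h A₀ Λ M e hξ hX hh hlam he hecell
    hp1 hp2
  have hn1 : (1 : ℝ) < n := by exact_mod_cast (by omega : 1 < n)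
  have hnpos : (0 : ℝ) < n := by linarith
  have hq : 0 < (n : ℝ) / ((n : ℝ) - 1) := div_pos hnpos (by linarith)
  -- limit in `τ` for fixed `κ`
  have step : ∀ κ : ℝ, 0 ≤ κ → κ < 1 →
      h * n * ∑ i, (∏ l, (lam i l + ((n : ℝ) - 1) * (κ * e i))) ^ (1 / (n : ℝ)) *
        (volume (cell Ω ξ c i)).toReal ^ (((n : ℝ) - 1) / n) ≤
      (A₀ + h / 2 * n * (Λ + ((n : ℝ) - 1) * M)) * (σ univ).toReal +
        ((n : ℝ) - 1) * ∑ i, (k ^ 2 - ‖ξ i‖ ^ 2) *
          ∫ x in cell Ω ξ c i, Real.exp (2 * ell ξ c i x) := by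
    intro κ hκ0 hκ1
    obtain ⟨ρ, hρ0, hρ⟩ := exists_rho (ξ := ξ) c hD.bdd e (fun i => (he i).1) hecell hκ1
    have hτ0 : Tendsto (fun τ : ℝ => τ) (𝓝[>] 0) (𝓝 0) := nhdsWithin_le_nhds
    have hL : Tendsto (fun τ : ℝ => h * n * ∑ i,
        (∏ l, (lam i l + ((n : ℝ) - 1) * ((1 - τ) * (κ * e i)))) ^ (1 / (n : ℝ)) *
        (∫ x in Ω, sp ξ c τ i x ^ ((n : ℝ) / ((n : ℝ) - 1))) ^ (((n : ℝ) - 1) / n)) (𝓝[>] 0)
        (𝓝 (h * n * ∑ i,
          (∏ l, (lam i l + ((n : ℝ) - 1) * ((1 - 0) * (κ * e i)))) ^ (1 / (n : ℝ)) *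
          (volume (cell Ω ξ c i)).toReal ^ (((n : ℝ) - 1) / n))) := by
      refine Tendsto.const_mul _ (tendsto_finset_sum _ fun i _ => Tendsto.mul ?_ ?_)
      · refine Tendsto.rpow_const ?_ (Or.inr (by positivity))
        exact tendsto_finset_prod _ fun l _ =>
          (((hτ0.const_sub 1).mul_const _).const_mul _).const_add _
      · refine Tendsto.rpow_const ?_ (Or.inr (div_nonneg (by linarith) hnpos.le))
        exact tendsto_vol c hD.isOpen hD.bdd hinj i hq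
    have hRt : Tendsto (fun τ : ℝ => (A₀ + h / 2 * n * (Λ + ((n : ℝ) - 1) * M)) *
        (σ univ).toReal + ((n : ℝ) - 1) * ∑ i, (k ^ 2 - ‖ξ i‖ ^ 2) *
          (∫ x in Ω, Real.exp (2 * Psi ξ c τ x) * sp ξ c τ i x) +
        h / 2 * (Fintype.card ι * n * (((n : ℝ) - 1) * M)) * (volume Ω).toReal *
          (2 * a / τ * Real.exp (-ρ / τ))) (𝓝[>] 0)
        (𝓝 ((A₀ + h / 2 * n * (Λ + ((n : ℝ) - 1) * M)) * (σ univ).toReal +
        ((n : ℝ) - 1) * (∑ i, (k ^ 2 - ‖ξ i‖ ^ 2) *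
          ∫ x in cell Ω ξ c i, Real.exp (2 * ell ξ c i x)) + 0)) := by
      refine Tendsto.add (Tendsto.const_add _ (Tendsto.const_mul _
        (tendsto_finset_sum _ fun i _ => Tendsto.const_mul _ ?_))) (tendsto_err hρ0 a _)
      exact tendsto_mass c hD.isOpen hD.bdd hinj i
    have hle := le_of_tendsto_of_tendsto hL hRt (by
      filter_upwards [Ioo_mem_nhdsGT (zero_lt_one' ℝ)] with τ hτ
      exact core_tau c hBV hSoft hn hD hk ha hR X b lam e hξ hX hh hlam he hp1 hp2 hκ0 hκ1 hρ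
        hτ.1 hτ.2)
    simpa using hle
  -- limit `κ → 1`
  have hκt : Tendsto (fun κ : ℝ => κ) (𝓝[<] 1) (𝓝 1) := nhdsWithin_le_nhds
  have hL : Tendsto (fun κ : ℝ => h * n * ∑ i,
      (∏ l, (lam i l + ((n : ℝ) - 1) * (κ * e i))) ^ (1 / (n : ℝ)) *
        (volume (cell Ω ξ c i)).toReal ^ (((n : ℝ) - 1) / n)) (𝓝[<] 1)
      (𝓝 (h * n * ∑ i, (∏ l, (lam i l + ((n : ℝ) - 1) * (1 * e i))) ^ (1 / (n : ℝ)) *
        (volume (cell Ω ξ c i)).toReal ^ (((n : ℝ) - 1) / n))) := by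
    refine Tendsto.const_mul _ (tendsto_finset_sum _ fun i _ => Tendsto.mul_const _ ?_)
    refine Tendsto.rpow_const ?_ (Or.inr (by positivity))
    exact tendsto_finset_prod _ fun l _ => ((hκt.mul_const _).const_mul _).const_add _
  have hfin := le_of_tendsto hL (by
    filter_upwards [Ioo_mem_nhdsLT (zero_lt_one' ℝ)] with κ hκ
    exact step κ hκ.1.le hκ.2)
  simpa using hfin

end Pool.Agent.ROB.ABS
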