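import Pool.Agent.ROB.Stmts

/-!
MP_7b7880_an, module AREA: surface integrals over Lipschitz graphs.
-/

namespace Pool.Agent.ROB.Area

open MeasureTheory Set Module
open scoped ENNReal NNReal MeasureTheory

variable {m : ℕ}

lemma surf_eq (m : ℕ) : surf (m + 1) = (Measure.euclideanHausdorffMeasure m : Measure (E (m + 1))) := by
  rw [Measure.euclideanHausdorffMeasure_def]
  have h1 : ((m + 1 : ℕ) : ℝ) - 1 = m := by push_cast; ring
  have h2 : finrank ℝ (E m) = m := finrank_euclideanSpace_fin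
  unfold surf
  rw [h1]
  congr 1
  show Measure.addHaarScalarFactor (volume : Measure (E m))
    (Measure.hausdorffMeasure (finrank ℝ (E m) : ℝ)) = _
  congr 1
  rw [h2]

lemma up_sub (v w : E m) (a b : ℝ) : up v a - up w b = up (v - w) (a - b) := by
  ext i
  refine Fin.lastCases ?_ (fun i => ?_) i
  · simp [up]
  · simp [up]

lemma up_add (v w : E m) (a b : ℝ) : up v a + up w b = up (v + w) (a + b) := by
  ext i
  refine Fin.lastCases ?_ (fun i => ?_) i
  · simp [up]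
  · simp [up]

lemma up_smul (c : ℝ) (v : E m) (a : ℝ) : up (c • v) (c * a) = c • up v a := by
  ext i
  refine Fin.lastCases ?_ (fun i => ?_) i
  · simp [up]
  · simp [up]

lemma inner_up (v w : E m) (a b : ℝ) : inner ℝ (up v a) (up w b) = inner ℝ v w + a * b := by
  simp only [PiLp.inner_apply, up]
  rw [Fin.sum_univ_castSucc]
  simp [mul_comm]

lemma norm_up_sq (v : E m) (a : ℝ) : ‖up v a‖ ^ 2 = ‖v‖ ^ 2 + a ^ 2 := by
  rw [← real_inner_self_eq_norm_sq, inner_up, real_inner_self_eq_norm_sq]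
  ring

lemma norm_up_zero (a : ℝ) : ‖up (0 : E m) a‖ = |a| := by
  have h := norm_up_sq (0 : E m) a
  rw [norm_zero] at h
  have h2 : ‖up (0 : E m) a‖ ^ 2 = |a| ^ 2 := by rw [h, sq_abs]; ring
  exact (pow_left_inj₀ (norm_nonneg _) (abs_nonneg _) two_ne_zero).mp h2

lemma norm_le_norm_up (v : E m) (a : ℝ) : ‖v‖ ≤ ‖up v a‖ := by
  have h := norm_up_sq v a
  have h2 : ‖v‖ ^ 2 ≤ ‖up v a‖ ^ 2 := by rw [h]; nlinarith [sq_nonneg a]
  exact (pow_le_pow_iff_left₀ (norm_nonneg _) (norm_nonneg _) two_ne_zero).mp h2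

/-- The linear graph map. -/
noncomputable def lin (p : E m →L[ℝ] ℝ) : E m →ₗ[ℝ] E (m + 1) where
  toFun v := up v (p v)
  map_add' v w := by rw [map_add, up_add]
  map_smul' c v := by
    simp only [map_smul, smul_eq_mul, RingHom.id_apply]
    exact up_smul c v (p v)

lemma lin_apply (p : E m →L[ℝ] ℝ) (v : E m) : lin p v = up v (p v) := rfl

lemma norm_sq_eq_sum (p : E m →L[ℝ] ℝ) :
    ‖p‖ ^ 2 = ∑ i, p (EuclideanSpace.basisFun (Fin m) ℝ i) ^ 2 := by
  set u := (InnerProductSpace.toDual ℝ (E m)).symm p with hu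
  have h1 : ‖p‖ = ‖u‖ := by rw [hu]; exact (LinearIsometryEquiv.norm_map _ _).symm
  have h2 : ∀ v, p v = inner ℝ u v := fun v => by
    rw [hu, InnerProductSpace.toDual_symm_apply]
  rw [h1]
  simp_rw [h2]
  rw [← (EuclideanSpace.basisFun (Fin m) ℝ).sum_sq_norm_inner_left u]
  simp

lemma normDet_lin (p : E m →L[ℝ] ℝ) : (lin p).normDet = Real.sqrt (1 + ‖p‖ ^ 2) := by
  have h := (lin p).normDet_sq_eq_det_gram (EuclideanSpace.basisFun (Fin m) ℝ)
  have h3 : Matrix.gram ℝ (fun i => lin p (EuclideanSpace.basisFun (Fin m) ℝ i)) =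
      1 + Matrix.replicateCol Unit (fun i => p (EuclideanSpace.basisFun (Fin m) ℝ i)) *
        Matrix.replicateRow Unit (fun i => p (EuclideanSpace.basisFun (Fin m) ℝ i)) := by
    ext i j
    rw [Matrix.gram_apply, lin_apply, lin_apply, inner_up]
    rw [(EuclideanSpace.basisFun (Fin m) ℝ).inner_eq_ite]
    simp [Matrix.one_apply, Matrix.mul_apply]
  rw [h3, Matrix.det_one_add_replicateCol_mul_replicateRow] at h
  have h4 : (lin p).normDet ^ 2 = 1 + ‖p‖ ^ 2 := by
    have h5 : (lin p).normDet ^ 2 = 1 + (fun i => p (EuclideanSpace.basisFun (Fin m) ℝ i)) ⬝ᵥ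
      (fun i => p (EuclideanSpace.basisFun (Fin m) ℝ i)) := by exact_mod_cast h
    rw [h5, norm_sq_eq_sum]
    simp [dotProduct, sq]
  rw [← h4, Real.sqrt_sq (LinearMap.normDet_nonneg _)]

lemma surf_image_lin (p : E m →L[ℝ] ℝ) (t : Set (E m)) :
    surf (m + 1) (lin p '' t) = ENNReal.ofReal (Real.sqrt (1 + ‖p‖ ^ 2)) * volume t := by
  have h := (lin p).euclideanHausdorffMeasure_image_eq_normDet_mul_volume t
  have h2 : finrank ℝ (E m) = m := finrank_euclideanSpace_fin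
  rw [h2] at h
  rw [surf_eq, h, normDet_lin]

lemma haus_le {X Y Z : Type*} [MetricSpace X] [MetricSpace Y] [MetricSpace Z]
    [MeasurableSpace Y] [BorelSpace Y] [MeasurableSpace Z] [BorelSpace Z]
    (a : X → Y) (b : X → Z) (t : Set X) (K : ℝ≥0)
    (h : ∀ x ∈ t, ∀ y ∈ t, dist (a x) (a y) ≤ K * dist (b x) (b y)) (d : ℝ) (hd : 0 ≤ d) :
    μH[d] (a '' t) ≤ (K : ℝ≥0∞) ^ d * μH[d] (b '' t) := by
  rcases t.eq_empty_or_nonempty with rfl | ⟨x0, hx0⟩
  · simp
  have : Nonempty X := ⟨x0⟩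
  have hL : LipschitzOnWith K (a ∘ Function.invFunOn b t) (b '' t) := by
    apply LipschitzOnWith.of_dist_le_mul
    intro z hz z' hz'
    have h1 := Function.invFunOn_mem hz
    have h2 := Function.invFunOn_eq hz
    have h1' := Function.invFunOn_mem hz'
    have h2' := Function.invFunOn_eq hz'
    have h3 := h _ h1 _ h1'
    rw [h2, h2'] at h3
    exact h3
  have hE : (a ∘ Function.invFunOn b t) '' (b '' t) = a '' t := by
    ext y
    constructor
    · rintro ⟨z, hz, rfl⟩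
      exact ⟨_, Function.invFunOn_mem hz, rfl⟩
    · rintro ⟨x, hx, rfl⟩
      refine ⟨b x, ⟨x, hx, rfl⟩, ?_⟩
      have hz : b x ∈ b '' t := ⟨x, hx, rfl⟩
      have h3 := h _ (Function.invFunOn_mem hz) x hx
      rw [Function.invFunOn_eq hz, dist_self, mul_zero] at h3
      exact dist_le_zero.mp h3
  have h4 := hL.hausdorffMeasure_image_le hd
  rw [hE] at h4
  exact h4

lemma surf_le (m : ℕ) {X : Type*} [MetricSpace X] (a b : X → E (m + 1)) (t : Set X) (K : ℝ≥0)
    (h : ∀ x ∈ t, ∀ y ∈ t, dist (a x) (a y) ≤ K * dist (b x) (b y)) :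
    surf (m + 1) (a '' t) ≤ (K : ℝ≥0∞) ^ m * surf (m + 1) (b '' t) := by
  have h1 := haus_le a b t K h (m : ℝ) (Nat.cast_nonneg m)
  rw [ENNReal.rpow_natCast] at h1
  rw [surf_eq, Measure.euclideanHausdorffMeasure_def, Measure.smul_apply, Measure.smul_apply]
  rw [ENNReal.smul_def, ENNReal.smul_def, smul_eq_mul, smul_eq_mul, mul_left_comm]
  gcongr

/-- The graph map. -/
noncomputable def gr (γ : E m → ℝ) (y : E m) : E (m + 1) := up y (γ y)

lemma gr_inj (γ : E m → ℝ) : Function.Injective (gr γ) := by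
  intro x y h
  have h1 : ‖x - y‖ ≤ ‖gr γ x - gr γ y‖ := by
    unfold gr
    rw [up_sub]
    exact norm_le_norm_up _ _
  rw [h, sub_self, norm_zero] at h1
  exact sub_eq_zero.mp (norm_le_zero_iff.mp h1)

lemma gr_lip (γ : E m → ℝ) (K : ℝ≥0) (hγ : LipschitzWith K γ) (x y : E m) :
    dist (gr γ x) (gr γ y) ≤ ((1 + K : ℝ≥0) : ℝ) * dist x y := by
  rw [dist_eq_norm, dist_eq_norm]
  unfold gr
  rw [up_sub]
  have h1 : up (x - y) (γ x - γ y) = up (x - y) 0 + up 0 (γ x - γ y) := by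
    rw [up_add, add_zero, zero_add]
  have h2 : ‖up (x - y) (0 : ℝ)‖ = ‖x - y‖ := by
    have h := norm_up_sq (x - y) 0
    rw [zero_pow two_ne_zero, add_zero] at h
    exact (pow_left_inj₀ (norm_nonneg _) (norm_nonneg _) two_ne_zero).mp h
  have h3 : |γ x - γ y| ≤ K * ‖x - y‖ := by
    have h := hγ.dist_le_mul x y
    rwa [Real.dist_eq, dist_eq_norm] at h
  rw [h1]
  refine (norm_add_le _ _).trans ?_
  rw [h2, norm_up_zero]
  push_cast
  linarith

lemma gr_cont (γ : E m → ℝ) (K : ℝ≥0) (hγ : LipschitzWith K γ) : Continuous (gr γ) :=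
  (LipschitzWith.of_dist_le_mul (gr_lip γ K hγ)).continuous

lemma gr_emb (γ : E m → ℝ) (K : ℝ≥0) (hγ : LipschitzWith K γ) : MeasurableEmbedding (gr γ) :=
  (gr_cont γ K hγ).measurableEmbedding (gr_inj γ)

lemma range_gr (γ : E m → ℝ) : range (gr γ) = {x : E (m + 1) | x (Fin.last m) = γ (low x)} := by
  ext x
  constructor
  · rintro ⟨y, rfl⟩
    have h : low (gr γ y) = y := by
      ext i
      simp [low, gr, up]
    show (gr γ y) (Fin.last m) = γ (low (gr γ y))
    rw [h]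
    simp [gr, up]
  · intro hx
    refine ⟨low x, ?_⟩
    ext i
    refine Fin.lastCases ?_ (fun i => ?_) i
    · have : x (Fin.last m) = γ (low x) := hx
      simp [gr, up, this]
    · simp [gr, up, low]

lemma surf_gr_le (γ : E m → ℝ) (K : ℝ≥0) (hγ : LipschitzWith K γ) (t : Set (E m)) :
    surf (m + 1) (gr γ '' t) ≤ ((1 + K : ℝ≥0) : ℝ≥0∞) ^ m * volume t := by
  have h := surf_le m (gr γ) (lin (0 : E m →L[ℝ] ℝ)) t (1 + K) (fun x _ y _ => by
    refine (gr_lip γ K hγ x y).trans ?_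
    have h1 : dist x y ≤ dist (lin (0 : E m →L[ℝ] ℝ) x) (lin (0 : E m →L[ℝ] ℝ) y) := by
      rw [dist_eq_norm, dist_eq_norm, lin_apply, lin_apply, up_sub]
      exact norm_le_norm_up _ _
    gcongr)
  rw [surf_image_lin] at h
  simpa using h

/-- The comparison on a piece. -/
lemma piece (γ : E m → ℝ) (t : Set (E m)) (p : E m →L[ℝ] ℝ) (q δ : ℝ≥0) (hq : 1 < q)
    (h1 : (1 : ℝ) + δ ≤ q) (h2 : 1 ≤ (q : ℝ) * (1 - δ)) (happ : ApproximatesLinearOn γ p t δ) :
    surf (m + 1) (gr γ '' t) ≤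
        (q : ℝ≥0∞) ^ m * (ENNReal.ofReal (Real.sqrt (1 + ‖p‖ ^ 2)) * volume t) ∧
      ENNReal.ofReal (Real.sqrt (1 + ‖p‖ ^ 2)) * volume t ≤
        (q : ℝ≥0∞) ^ m * surf (m + 1) (gr γ '' t) := by
  have key : ∀ x ∈ t, ∀ y ∈ t,
      |dist (gr γ x) (gr γ y) - dist (lin p x) (lin p y)| ≤ δ * dist (lin p x) (lin p y) := by
    intro x hx y hy
    rw [dist_eq_norm, dist_eq_norm]
    have e1 : ‖(gr γ x - gr γ y) - (lin p x - lin p y)‖ ≤ δ * ‖x - y‖ := by
      have e2 : (gr γ x - gr γ y) - (lin p x - lin p y) = up 0 (γ x - γ y - p (x - y)) := by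
        rw [lin_apply, lin_apply]
        unfold gr
        rw [up_sub, up_sub, up_sub, sub_self, map_sub]
      rw [e2, norm_up_zero]
      have := happ x hx y hy
      rwa [Real.norm_eq_abs] at this
    have e3 : ‖x - y‖ ≤ ‖lin p x - lin p y‖ := by
      rw [lin_apply, lin_apply, up_sub]
      exact norm_le_norm_up _ _
    refine (abs_norm_sub_norm_le _ _).trans (e1.trans ?_)
    gcongr
  constructor
  · rw [← surf_image_lin]
    apply surf_le
    intro x hx y hy
    have := (abs_le.mp (key x hx y hy)).2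
    have h3 : (1 + (δ : ℝ)) * dist (lin p x) (lin p y) ≤ q * dist (lin p x) (lin p y) := by
      gcongr
    linarith
  · rw [← surf_image_lin]
    apply surf_le
    intro x hx y hy
    have h3 := (abs_le.mp (key x hx y hy)).1
    have h4 : (1 - (δ : ℝ)) * dist (lin p x) (lin p y) ≤ dist (gr γ x) (gr γ y) := by linarith
    have h5 : (q : ℝ) * ((1 - (δ : ℝ)) * dist (lin p x) (lin p y)) ≤
      q * dist (gr γ x) (gr γ y) := by gcongr
    have h6 : 1 * dist (lin p x) (lin p y) ≤ (q * (1 - (δ : ℝ))) * dist (lin p x) (lin p y) := by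
      gcongr
    linarith

lemma sqrt_comp (a b δ q : ℝ) (_hb : 0 ≤ b) (ha : 0 ≤ a) (hδ : 0 ≤ δ) (h : |a - b| ≤ δ)
    (hq : 1 + δ ≤ q) : Real.sqrt (1 + a ^ 2) ≤ q * Real.sqrt (1 + b ^ 2) := by
  have hab : a ≤ b + δ := by linarith [(abs_le.mp h).2]
  have h1 : 1 + a ^ 2 ≤ (1 + δ) ^ 2 * (1 + b ^ 2) := by
    have h2 : a ^ 2 ≤ (b + δ) ^ 2 := by gcongr
    have h3 : 0 ≤ 2 * δ * (1 + b ^ 2 - b) + δ ^ 2 * b ^ 2 := by
      have : 0 ≤ 1 + b ^ 2 - b := by nlinarith [sq_nonneg (b - 1)]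
      positivity
    nlinarith
  calc Real.sqrt (1 + a ^ 2) ≤ Real.sqrt ((1 + δ) ^ 2 * (1 + b ^ 2)) := Real.sqrt_le_sqrt h1
    _ = (1 + δ) * Real.sqrt (1 + b ^ 2) := by
        rw [Real.sqrt_mul (by positivity), Real.sqrt_sq (by linarith)]
    _ ≤ q * Real.sqrt (1 + b ^ 2) := by gcongr

lemma le_of_cover {α : Type*} [MeasurableSpace α] (μ ν : Measure α) (T : ℕ → Set α)
    (hT : ∀ i, MeasurableSet (T i))
    (h : ∀ i, ∀ s ⊆ T i, MeasurableSet s → μ s ≤ ν s) (s : Set α) (hs : s ⊆ ⋃ i, T i)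
    (hm : MeasurableSet s) : μ s ≤ ν s := by
  have e : s = ⋃ i, s ∩ disjointed T i := by
    rw [← inter_iUnion, iUnion_disjointed, inter_eq_left.mpr hs]
  have hd : Pairwise (Function.onFun Disjoint fun i => s ∩ disjointed T i) := by
    intro i j hij
    exact ((disjoint_disjointed T hij).mono inter_subset_right inter_subset_right)
  have hmm : ∀ i, MeasurableSet (s ∩ disjointed T i) := fun i =>
    hm.inter (MeasurableSet.disjointed hT i)
  rw [e, measure_iUnion hd hmm, measure_iUnion hd hmm]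
  exact ENNReal.tsum_le_tsum
    (fun i => h i _ (inter_subset_right.trans (disjointed_subset T i)) (hmm i))

/-- The density. -/
noncomputable def JJ (γ : E m → ℝ) (y : E m) : ℝ≥0∞ :=
  ENNReal.ofReal (Real.sqrt (1 + ‖fderiv ℝ γ y‖ ^ 2))

lemma measurable_JJ (γ : E m → ℝ) : Measurable (JJ γ) := by
  unfold JJ
  have : Measurable (fderiv ℝ γ) := measurable_fderiv ℝ γ
  fun_prop

lemma both (γ : E m → ℝ) (K : ℝ≥0) (hγ : LipschitzWith K γ) (q : ℝ≥0) (hq : 1 < q)
    (s : Set (E m)) (hs : MeasurableSet s) :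
    Measure.comap (gr γ) (surf (m + 1)) s ≤
        ((q : ℝ≥0∞) ^ (m + 1) • (volume.withDensity (JJ γ) : Measure (E m))) s ∧
      (volume.withDensity (JJ γ) : Measure (E m)) s ≤
        ((q : ℝ≥0∞) ^ (m + 1) • Measure.comap (gr γ) (surf (m + 1))) s := by
  set ν := Measure.comap (gr γ) (surf (m + 1)) with hν
  set w : Measure (E m) := volume.withDensity (JJ γ) with hw
  have hνa : ∀ t : Set (E m), ν t = surf (m + 1) (gr γ '' t) := fun t =>
    (gr_emb γ K hγ).comap_apply _ _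
  -- choose delta
  have hq0 : (0 : ℝ) < q := by exact_mod_cast (zero_lt_one.trans hq)
  have hq1 : (1 : ℝ) < q := by exact_mod_cast hq
  obtain ⟨δ, hδ⟩ : ∃ δ : ℝ≥0, (δ : ℝ) = 1 - 1 / q :=
    ⟨⟨1 - 1 / q, by rw [sub_nonneg, div_le_one hq0]; exact hq1.le⟩, rfl⟩
  have hδ0 : (0 : ℝ) < δ := by rw [hδ, sub_pos, div_lt_one hq0]; exact hq1
  have hd1 : (1 : ℝ) + δ ≤ q := by
    rw [hδ]
    have : (1 : ℝ) / q * q = 1 := by field_simp
    have h4 : 0 < (1 : ℝ) / q := by positivity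
    nlinarith [sq_nonneg ((q : ℝ) - 1)]
  have hd2 : 1 ≤ (q : ℝ) * (1 - δ) := by
    rw [hδ]
    apply le_of_eq
    field_simp
    ring
  -- dense sequence
  obtain ⟨pk, hpk⟩ := TopologicalSpace.exists_dense_seq (E m →L[ℝ] ℝ)
  set D : Set (E m) := {x | DifferentiableAt ℝ γ x} with hD
  have hDm : MeasurableSet D := measurableSet_of_differentiableAt ℝ γ
  let Dk : ℕ → Set (E m) := fun k => D ∩ {x | ‖fderiv ℝ γ x - pk k‖ < δ / 2}
  have hDkm : ∀ k, MeasurableSet (Dk k) := fun k => by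
    refine hDm.inter ?_
    have h1 : Measurable (fun x => ‖fderiv ℝ γ x - pk k‖) :=
      ((measurable_fderiv ℝ γ).sub_const _).norm
    exact measurableSet_lt h1 measurable_const
  have hcov : D ⊆ ⋃ k, Dk k := by
    intro x hx
    obtain ⟨k, hk⟩ := hpk.exists_dist_lt (fderiv ℝ γ x) (half_pos hδ0)
    rw [mem_iUnion]
    refine ⟨k, hx, ?_⟩
    rwa [dist_eq_norm] at hk
  -- the claim on one D_k
  have claim : ∀ k, ∃ T : ℕ → Set (E m), (∀ n, MeasurableSet (T n)) ∧ Dk k ⊆ ⋃ n, T n ∧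
      ∀ n, ∀ u ⊆ T n, MeasurableSet u →
        ν u ≤ ((q : ℝ≥0∞) ^ (m + 1) • w) u ∧ w u ≤ ((q : ℝ≥0∞) ^ (m + 1) • ν) u := by
    intro k
    obtain ⟨t, A, _, htm, hsub, happ, hA⟩ :=
      exists_partition_approximatesLinearOn_of_hasFDerivWithinAt γ (Dk k) (fderiv ℝ γ)
        (fun x hx => (hx.1.hasFDerivAt).hasFDerivWithinAt) (fun _ => δ)
        (fun _ => by
          intro h0
          rw [h0] at hδ0
          simp at hδ0)
    refine ⟨fun n => Dk k ∩ t n, fun n => (hDkm k).inter (htm n), ?_, ?_⟩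
    · intro x hx
      obtain ⟨n, hn⟩ := mem_iUnion.mp (hsub hx)
      exact mem_iUnion.mpr ⟨n, hx, hn⟩
    · intro n u hu hum
      rcases u.eq_empty_or_nonempty with rfl | ⟨x0, hx0⟩
      · simp
      obtain ⟨y, hy, hAy⟩ := hA ⟨x0, (hu hx0).1⟩ n
      have hclose : ∀ x ∈ u, ‖fderiv ℝ γ x - A n‖ ≤ δ := by
        intro x hx
        have e1 : ‖fderiv ℝ γ x - pk k‖ < δ / 2 := (hu hx).1.2
        have e2 : ‖fderiv ℝ γ y - pk k‖ < δ / 2 := hy.2
        rw [hAy]
        have e3 : fderiv ℝ γ x - fderiv ℝ γ y =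
          (fderiv ℝ γ x - pk k) - (fderiv ℝ γ y - pk k) := by abel
        rw [e3]
        refine (norm_sub_le _ _).trans ?_
        linarith
      have hP := piece γ u (A n) q δ hq hd1 hd2 ((happ n).mono_set hu)
      rw [← hνa] at hP
      have hJ1 : ∀ x ∈ u, ENNReal.ofReal (Real.sqrt (1 + ‖A n‖ ^ 2)) ≤ q * JJ γ x := by
        intro x hx
        unfold JJ
        rw [show (q : ℝ≥0∞) = ENNReal.ofReal q by simp, ← ENNReal.ofReal_mul hq0.le]
        apply ENNReal.ofReal_le_ofReal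
        apply sqrt_comp _ _ δ q (norm_nonneg _) (norm_nonneg _) hδ0.le _ hd1
        rw [abs_sub_comm]
        exact (abs_norm_sub_norm_le _ _).trans (hclose x hx)
      have hJ2 : ∀ x ∈ u, JJ γ x ≤ q * ENNReal.ofReal (Real.sqrt (1 + ‖A n‖ ^ 2)) := by
        intro x hx
        unfold JJ
        rw [show (q : ℝ≥0∞) = ENNReal.ofReal q by simp, ← ENNReal.ofReal_mul hq0.le]
        apply ENNReal.ofReal_le_ofReal
        apply sqrt_comp _ _ δ q (norm_nonneg _) (norm_nonneg _) hδ0.le _ hd1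
        exact (abs_norm_sub_norm_le _ _).trans (hclose x hx)
      have hwu : w u = ∫⁻ x in u, JJ γ x := by rw [hw, withDensity_apply _ hum]
      have hI1 : ENNReal.ofReal (Real.sqrt (1 + ‖A n‖ ^ 2)) * volume u ≤ q * w u := by
        rw [hwu, ← lintegral_const_mul _ (measurable_JJ γ), ← setLIntegral_const]
        exact setLIntegral_mono ((measurable_JJ γ).const_mul _) hJ1
      have hI2 : w u ≤ q * (ENNReal.ofReal (Real.sqrt (1 + ‖A n‖ ^ 2)) * volume u) := by
        rw [hwu, ← mul_assoc, ← setLIntegral_const]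
        exact setLIntegral_mono measurable_const hJ2
      constructor
      · refine hP.1.trans ?_
        rw [Measure.smul_apply, smul_eq_mul, pow_succ (q : ℝ≥0∞) m, mul_assoc]
        gcongr
      · refine hI2.trans ?_
        rw [Measure.smul_apply, smul_eq_mul, pow_succ' (q : ℝ≥0∞) m, mul_assoc]
        exact mul_le_mul_right hP.2 _
  -- null part
  have hnull : ∀ u ⊆ Dᶜ, MeasurableSet u → ν u = 0 ∧ w u = 0 := by
    intro u hu hum
    have hv : volume u = 0 := by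
      have h1 : ∀ᵐ x : E m, DifferentiableAt ℝ γ x := hγ.ae_differentiableAt
      have h2 : volume (Dᶜ) = 0 := by
        rw [ae_iff] at h1
        exact h1
      exact measure_mono_null hu h2
    constructor
    · rw [hνa]
      have h3 := surf_gr_le γ K hγ u
      rw [hv, mul_zero] at h3
      exact le_antisymm h3 bot_le
    · rw [hw]
      exact withDensity_absolutelyContinuous _ _ hv
  have hDk : ∀ k, ∀ u ⊆ Dk k, MeasurableSet u →
        ν u ≤ ((q : ℝ≥0∞) ^ (m + 1) • w) u ∧ w u ≤ ((q : ℝ≥0∞) ^ (m + 1) • ν) u := by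
    intro k u hu hum
    obtain ⟨T, hTm, hTc, hT⟩ := claim k
    exact ⟨le_of_cover _ _ T hTm (fun i s hs hsm => (hT i s hs hsm).1) u (hu.trans hTc) hum,
      le_of_cover _ _ T hTm (fun i s hs hsm => (hT i s hs hsm).2) u (hu.trans hTc) hum⟩
  have hDD : ∀ u ⊆ D, MeasurableSet u →
        ν u ≤ ((q : ℝ≥0∞) ^ (m + 1) • w) u ∧ w u ≤ ((q : ℝ≥0∞) ^ (m + 1) • ν) u := by
    intro u hu hum
    exact ⟨le_of_cover _ _ Dk hDkm (fun i s hs hsm => (hDk i s hs hsm).1) u (hu.trans hcov) hum,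
      le_of_cover _ _ Dk hDkm (fun i s hs hsm => (hDk i s hs hsm).2) u (hu.trans hcov) hum⟩
  have hsplit : ∀ μ : Measure (E m), μ s = μ (s ∩ D) + μ (s \ D) := fun μ =>
    (measure_inter_add_sdiff s hDm).symm
  have hn := hnull (s \ D) (fun x hx => hx.2) (hs.diff hDm)
  have hp := hDD (s ∩ D) inter_subset_right (hs.inter hDm)
  constructor
  · rw [hsplit ν, hn.1, add_zero]
    exact hp.1.trans (measure_mono inter_subset_left)
  · rw [hsplit w, hn.2, add_zero]
    exact hp.2.trans (measure_mono inter_subset_left)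

lemma le_of_pow (m : ℕ) (a b : ℝ≥0∞) (h : ∀ q : ℝ≥0, 1 < q → a ≤ (q : ℝ≥0∞) ^ (m + 1) * b) :
    a ≤ b := by
  have h1 : Filter.Tendsto (fun q : ℝ≥0 => (q : ℝ≥0∞) ^ (m + 1) * b) (nhdsWithin 1 (Ioi 1))
      (nhds (((1 : ℝ≥0) : ℝ≥0∞) ^ (m + 1) * b)) := by
    apply ENNReal.Tendsto.mul_const
    · apply ENNReal.Tendsto.pow
      exact (ENNReal.continuous_coe.tendsto 1).mono_left nhdsWithin_le_nhds
    · left
      simp
  have h2 : a ≤ ((1 : ℝ≥0) : ℝ≥0∞) ^ (m + 1) * b :=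
    ge_of_tendsto h1 (eventually_nhdsWithin_of_forall (fun q hq => h q hq))
  simpa using h2

lemma comap_eq (γ : E m → ℝ) (K : ℝ≥0) (hγ : LipschitzWith K γ) :
    Measure.comap (gr γ) (surf (m + 1)) = (volume.withDensity (JJ γ) : Measure (E m)) := by
  ext s hs
  apply le_antisymm
  · apply le_of_pow m
    intro q hq
    exact (both γ K hγ q hq s hs).1
  · apply le_of_pow m
    intro q hq
    exact (both γ K hγ q hq s hs).2

end Pool.Agent.ROB.Area

namespace Pool.Agent.ROB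

open MeasureTheory Set

theorem area_proof : Stmt_Area := by
  intro m _ γ K hγ h hh
  rw [← Area.range_gr, ← (Area.gr_emb γ K hγ).map_comap, (Area.gr_emb γ K hγ).lintegral_map,
    Area.comap_eq γ K hγ]
  have h1 := lintegral_withDensity_eq_lintegral_mul (volume : Measure (E m)) (Area.measurable_JJ γ)
    (hh.comp (Area.gr_emb γ K hγ).measurable)
  refine h1.trans ?_
  apply lintegral_congr
  intro y
  rw [Pi.mul_apply, mul_comm]
  rfl

end Pool.Agent.ROB
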