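import Pool.Agent.ROB.Stmts

/-!
MP_7b7880_an, module BV: the Gagliardo-Nirenberg inequality for `p * 1_Ω` with boundary term.
-/

namespace Pool.Agent.ROB

namespace BV

open MeasureTheory Set Filter Topology ContinuousLinearMap
open scoped ContDiff ENNReal

variable {n : ℕ}

theorem dv_smul_const {h : E n → ℝ} {x : E n} (hh : DifferentiableAt ℝ h x) (v : E n) :
    dv (fun y => h y • v) x = fderiv ℝ h x v := by
  unfold dv
  rw [fderiv_smul_const hh]
  exact LinearMap.trace_smulRight _ _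

theorem integrableOn_bdd {f : E n → ℝ} (hf : Continuous f) {Ω : Set (E n)}
    (hΩ : Bornology.IsBounded Ω) : IntegrableOn f Ω volume :=
  (hf.continuousOn.integrableOn_compact hΩ.isCompact_closure).mono_set subset_closure

theorem integrable_sigma {f : E n → ℝ} (hf : Continuous f) {Ω : Set (E n)} {σ : Measure (E n)}
    (hD : Dom Ω σ) : Integrable f σ := by
  have := hD.fin
  have h1 : IntegrableOn f (closure Ω) σ :=
    hf.continuousOn.integrableOn_compact hD.bdd.isCompact_closure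
  have h2 : σ.restrict (closure Ω) = σ := Measure.restrict_eq_self_of_ae_mem hD.supp
  rwa [IntegrableOn, h2] at h1

theorem prod_integrable (ν : Measure (E n)) [SFinite ν] {φ h : E n → ℝ} (hφ : Continuous φ)
    (hφi : Integrable φ) (hc : Continuous h) (hh : Integrable h ν) :
    Integrable (fun z : E n × E n => φ (z.1 - z.2) * h z.2)
      ((volume : Measure (E n)).prod ν) := by
  have hm : Continuous (fun z : E n × E n => φ (z.1 - z.2) * h z.2) := by fun_prop
  rw [integrable_prod_iff' hm.aestronglyMeasurable]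
  constructor
  · exact Eventually.of_forall fun y => (hφi.comp_sub_right y).mul_const (h y)
  · have : (fun y => ∫ x, ‖φ (x - y) * h y‖) = fun y => (∫ x, ‖φ x‖) * ‖h y‖ := by
      funext y
      simp only [norm_mul]
      rw [integral_mul_const]
      congr 1
      exact integral_sub_right_eq_self (fun x => ‖φ x‖) y
    simp only
    rw [this]
    exact hh.norm.const_mul _

theorem mass (ν : Measure (E n)) [SFinite ν] {φ h : E n → ℝ} (hφ : Continuous φ)
    (hφi : Integrable φ) (hφ1 : ∫ x, φ x = 1) (hc : Continuous h) (hh : Integrable h ν) :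
    Integrable (fun x => ∫ y, φ (x - y) * h y ∂ν) ∧
      ∫ x, ∫ y, φ (x - y) * h y ∂ν = ∫ y, h y ∂ν := by
  have h1 := prod_integrable ν hφ hφi hc hh
  refine ⟨h1.integral_prod_left, ?_⟩
  rw [integral_integral_swap (f := fun x y => φ (x - y) * h y) h1]
  congr 1
  funext y
  rw [integral_mul_const, integral_sub_right_eq_self (fun x => φ x) y, hφ1, one_mul]

theorem conv_fderiv {φ F : E n → ℝ} (hφ : ContDiff ℝ 1 φ) (hφc : HasCompactSupport φ)
    (hF : LocallyIntegrable F volume) (x v : E n) :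
    fderiv ℝ (convolution φ F (lsmul ℝ ℝ) volume) x v = ∫ t, fderiv ℝ φ (x - t) v * F t := by
  have h1 := hφc.hasFDerivAt_convolution_left (lsmul ℝ ℝ) hφ hF x
  have h2 : ConvolutionExistsAt (fderiv ℝ φ) F x ((lsmul ℝ ℝ).precompL (E n)) volume :=
    (hφc.fderiv ℝ).convolutionExists_left _ (hφ.continuous_fderiv (by norm_num)) hF x
  have h3 := h2.integrable_swap
  rw [h1.fderiv, convolution_eq_swap, ContinuousLinearMap.integral_apply h3]
  rfl

/-- The pointwise bound for the derivative of the mollification. -/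
theorem point_bound {Ω : Set (E n)} {σ : Measure (E n)} (hD : Dom Ω σ) {φ p : E n → ℝ}
    (hφ : ContDiff ℝ 1 φ) (hφ0 : ∀ x, 0 ≤ φ x) (hp : ContDiff ℝ 1 p) (hp0 : ∀ x, 0 ≤ p x)
    (x v : E n) (hv : ‖v‖ = 1) :
    |∫ t in Ω, fderiv ℝ φ (x - t) v * p t| ≤
      (∫ t in Ω, φ (x - t) * |fderiv ℝ p t v|) + ∫ t, φ (x - t) * p t ∂σ := by
  set h : E n → ℝ := fun t => φ (x - t) * p t with hh
  have hφx : ContDiff ℝ 1 (fun t => φ (x - t)) := hφ.comp (contDiff_const.sub contDiff_id)
  have hhc : ContDiff ℝ 1 h := hφx.mul hp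
  have hfd : ∀ t, fderiv ℝ h t v = φ (x - t) * fderiv ℝ p t v - fderiv ℝ φ (x - t) v * p t := by
    intro t
    have h1 : HasFDerivAt (fun t => φ (x - t))
        ((fderiv ℝ φ (x - t)).comp (-(ContinuousLinearMap.id ℝ (E n)))) t := by
      have h2 : HasFDerivAt (fun t : E n => x - t) (-(ContinuousLinearMap.id ℝ (E n))) t :=
        (hasFDerivAt_id t).const_sub x
      exact (hφ.differentiable (by norm_num) (x - t)).hasFDerivAt.comp t h2
    have h3 : HasFDerivAt h _ t := h1.mul (hp.differentiable (by norm_num) t).hasFDerivAt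
    rw [h3.fderiv]
    simp
    ring
  have hX : ∀ s : ℝ, ContDiff ℝ 1 (fun t => (s * h t) • v) := fun s =>
    (contDiff_const.mul hhc).smul contDiff_const
  have hdv : ∀ s : ℝ, ∀ t, dv (fun t => (s * h t) • v) t = s * fderiv ℝ h t v := by
    intro s t
    rw [dv_smul_const ((hhc.differentiable (by norm_num) t).const_mul s)]
    rw [fderiv_const_mul (hhc.differentiable (by norm_num) t)]
    rfl
  have hh0 : ∀ t, 0 ≤ h t := fun t => mul_nonneg (hφ0 _) (hp0 _)
  have hgg : ∀ s : ℝ, |s| = 1 → s * ∫ t in Ω, fderiv ℝ h t v ≤ ∫ t, h t ∂σ := by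
    intro s hs
    have h1 := hD.ggi _ (hX s)
    simp only [hdv, norm_smul, hv, mul_one, Real.norm_eq_abs, abs_mul, hs, one_mul] at h1
    rw [integral_const_mul] at h1
    refine h1.trans_eq ?_
    congr 1
    funext t
    exact abs_of_nonneg (hh0 t)
  have habs : |∫ t in Ω, fderiv ℝ h t v| ≤ ∫ t, h t ∂σ := by
    rw [abs_le]
    have h1 := hgg 1 (by norm_num)
    have h2 := hgg (-1) (by norm_num)
    constructor <;> linarith
  have hc1 : Continuous fun t => φ (x - t) * fderiv ℝ p t v := by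
    have := hp.continuous_fderiv (by norm_num)
    have := hφ.continuous
    fun_prop
  have hc2 : Continuous fun t => fderiv ℝ h t v := by
    have := hhc.continuous_fderiv (by norm_num)
    fun_prop
  have e1 : ∫ t in Ω, fderiv ℝ φ (x - t) v * p t =
      (∫ t in Ω, φ (x - t) * fderiv ℝ p t v) - ∫ t in Ω, fderiv ℝ h t v := by
    rw [← integral_sub (integrableOn_bdd hc1 hD.bdd) (integrableOn_bdd hc2 hD.bdd)]
    congr 1
    funext t
    rw [hfd t]
    ring
  have e2 : |∫ t in Ω, φ (x - t) * fderiv ℝ p t v| ≤ ∫ t in Ω, φ (x - t) * |fderiv ℝ p t v| := by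
    refine (abs_integral_le_integral_abs).trans_eq ?_
    congr 1
    funext t
    rw [abs_mul, abs_of_nonneg (hφ0 _)]
  rw [e1]
  exact (abs_sub _ _).trans (add_le_add e2 habs)

/-- Bound for the `L^1` norm of a partial derivative of the mollification. -/
theorem deriv_bound {Ω : Set (E n)} {σ : Measure (E n)} (hD : Dom Ω σ) {φ p : E n → ℝ}
    (hφ : ContDiff ℝ 1 φ) (hφc : HasCompactSupport φ) (hφ0 : ∀ x, 0 ≤ φ x)
    (hφ1 : ∫ x, φ x = 1) (hp : ContDiff ℝ 1 p) (hp0 : ∀ x, 0 ≤ p x)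
    (hF : LocallyIntegrable (Ω.indicator p) volume) (hFc : HasCompactSupport (Ω.indicator p))
    (hcd : ContDiff ℝ 1 (convolution φ (Ω.indicator p) (lsmul ℝ ℝ) volume))
    (v : E n) (hv : ‖v‖ = 1) :
    ∫ x, |fderiv ℝ (convolution φ (Ω.indicator p) (lsmul ℝ ℝ) volume) x v| ≤
      (∫ t in Ω, |fderiv ℝ p t v|) + ∫ t, p t ∂σ := by
  have := hD.fin
  have hφi : Integrable φ := hφ.continuous.integrable_of_hasCompactSupport hφc
  have hpv : Continuous fun t => |fderiv ℝ p t v| := by
    have := hp.continuous_fderiv (by norm_num)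
    fun_prop
  obtain ⟨i1, m1⟩ := mass (volume.restrict Ω) hφ.continuous hφi hφ1 hpv
    (integrableOn_bdd hpv hD.bdd)
  obtain ⟨i2, m2⟩ := mass σ hφ.continuous hφi hφ1 hp.continuous (integrable_sigma hp.continuous hD)
  rw [← m1, ← m2, ← integral_add i1 i2]
  have hcs : HasCompactSupport (convolution φ (Ω.indicator p) (lsmul ℝ ℝ) volume) :=
    hφc.convolution (lsmul ℝ ℝ) hFc
  apply integral_mono _ (i1.add i2)
  · intro x
    simp only
    rw [conv_fderiv hφ hφc hF]
    have e1 : ∫ t, fderiv ℝ φ (x - t) v * Ω.indicator p t =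
        ∫ t in Ω, fderiv ℝ φ (x - t) v * p t := by
      rw [← integral_indicator hD.isOpen.measurableSet]
      congr 1
      funext t
      by_cases ht : t ∈ Ω <;> simp [ht]
    rw [e1]
    exact point_bound hD hφ hφ0 hp hp0 x v hv
  · apply Continuous.integrable_of_hasCompactSupport
    · have := hcd.continuous_fderiv (by norm_num)
      fun_prop
    · have h1 : HasCompactSupport (fderiv ℝ (convolution φ (Ω.indicator p) (lsmul ℝ ℝ) volume)) :=
        hcs.fderiv ℝ
      exact h1.comp_left (g := fun L : E n →L[ℝ] ℝ => |L v|) (by simp)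

/-- The sequence of bump functions. -/
noncomputable def bump (n : ℕ) (i : ℕ) : ContDiffBump (0 : E n) where
  rIn := 1 / (2 * ((i : ℝ) + 1))
  rOut := 1 / ((i : ℝ) + 1)
  rIn_pos := by positivity
  rIn_lt_rOut := by
    apply one_div_lt_one_div_of_lt (by positivity)
    have : (0 : ℝ) ≤ i := by positivity
    linarith

theorem main_bound (hLW : Stmt_LW) (hn : 2 ≤ n) {Ω : Set (E n)} {σ : Measure (E n)}
    (hD : Dom Ω σ) (b : OrthonormalBasis (Fin n) ℝ (E n)) {p : E n → ℝ}
    (hp : ContDiff ℝ 1 p) (hp0 : ∀ x, 0 ≤ p x) :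
    2 * (∫ x in Ω, p x ^ ((n : ℝ) / ((n : ℝ) - 1))) ^ (((n : ℝ) - 1) / n) ≤
      (∏ l, ((∫ t in Ω, |fderiv ℝ p t (b l)|) + ∫ t, p t ∂σ)) ^ (1 / (n : ℝ)) := by
  have := hD.fin
  have hn' : (2 : ℝ) ≤ n := by exact_mod_cast hn
  have hn1 : (0 : ℝ) < (n : ℝ) - 1 := by linarith
  have hn0 : (0 : ℝ) < n := by linarith
  set q : ℝ := (n : ℝ) / ((n : ℝ) - 1) with hq
  have hq0 : 0 < q := by positivity
  have hqi : ((n : ℝ) - 1) / n = q⁻¹ := by rw [hq]; field_simp
  rw [hqi]
  set F : E n → ℝ := Ω.indicator p with hFdef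
  have hF0 : ∀ x, 0 ≤ F x := fun x => indicator_nonneg (fun y _ => hp0 y) x
  have hFi : Integrable F := (integrable_indicator_iff hD.isOpen.measurableSet).2
    (integrableOn_bdd hp.continuous hD.bdd)
  have hFc : HasCompactSupport F := by
    refine HasCompactSupport.intro (hD.bdd.isCompact_closure) ?_
    intro x hx
    exact indicator_of_notMem (fun h => hx (subset_closure h)) _
  set A : Fin n → ℝ := fun l => (∫ t in Ω, |fderiv ℝ p t (b l)|) + ∫ t, p t ∂σ with hA
  have hA0 : ∀ l, 0 ≤ A l := fun l => add_nonneg (integral_nonneg fun t => abs_nonneg _)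
    (integral_nonneg fun t => hp0 t)
  set T : ℝ := (∏ l, A l) ^ (1 / (n : ℝ)) with hT
  have hT0 : 0 ≤ T := Real.rpow_nonneg (Finset.prod_nonneg fun l _ => hA0 l) _
  -- the mollifications
  set φ : ℕ → E n → ℝ := fun i => (bump n i).normed volume with hφdef
  set G : ℕ → E n → ℝ := fun i => convolution (φ i) F (lsmul ℝ ℝ) volume with hG
  have hφs : ∀ i, ContDiff ℝ 1 (φ i) := fun i => (bump n i).contDiff_normed
  have hφc : ∀ i, HasCompactSupport (φ i) := fun i => (bump n i).hasCompactSupport_normed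
  have hφ0 : ∀ i x, 0 ≤ φ i x := fun i x => (bump n i).nonneg_normed x
  have hφ1 : ∀ i, ∫ x, φ i x = 1 := fun i => (bump n i).integral_normed
  have hGs : ∀ i, ContDiff ℝ 1 (G i) := fun i => by
    have := (hφc i).contDiff_convolution_left (n := 1) (lsmul ℝ ℝ) (by exact_mod_cast hφs i)
      hFi.locallyIntegrable
    exact_mod_cast this
  have hGc : ∀ i, HasCompactSupport (G i) := fun i => (hφc i).convolution (lsmul ℝ ℝ) hFc
  have hG0 : ∀ i x, 0 ≤ G i x := by
    intro i x
    refine integral_nonneg fun t => ?_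
    exact mul_nonneg (hφ0 i t) (hF0 _)
  have hGle : ∀ i, ∫ x, G i x ^ q ≤ (T / 2) ^ q := by
    intro i
    have h1 := hLW n hn b (G i) (hGs i) (hGc i) (hG0 i)
    rw [hqi] at h1
    have h2 : (∏ l, ∫ x, |fderiv ℝ (G i) x (b l)|) ^ (1 / (n : ℝ)) ≤ T := by
      apply Real.rpow_le_rpow (Finset.prod_nonneg fun l _ => integral_nonneg fun t => abs_nonneg _)
        _ (by positivity)
      apply Finset.prod_le_prod (fun l _ => integral_nonneg fun t => abs_nonneg _)
      intro l _
      exact deriv_bound hD (hφs i) (hφc i) (hφ0 i) (hφ1 i) hp hp0 hFi.locallyIntegrable hFc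
        (hGs i) (b l) (b.orthonormal.1 l)
    have h3 : (∫ x, G i x ^ q) ^ q⁻¹ ≤ T / 2 := by
      have : 2 * (∫ x, G i x ^ q) ^ q⁻¹ ≤ T := h1.trans h2
      linarith
    have h4 : 0 ≤ ∫ x, G i x ^ q := integral_nonneg fun x => Real.rpow_nonneg (hG0 i x) _
    calc ∫ x, G i x ^ q = ((∫ x, G i x ^ q) ^ q⁻¹) ^ q := by
          rw [← Real.rpow_mul h4, inv_mul_cancel₀ hq0.ne', Real.rpow_one]
      _ ≤ (T / 2) ^ q := Real.rpow_le_rpow (Real.rpow_nonneg h4 _) h3 hq0.le
  -- convergence
  have hconv : ∀ᵐ x, Tendsto (fun i => G i x) atTop (𝓝 (F x)) := by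
    refine ContDiffBump.ae_convolution_tendsto_right_of_locallyIntegrable (K := 2) ?_ ?_
      hFi.locallyIntegrable
    · exact tendsto_one_div_add_atTop_nhds_zero_nat
    · refine Eventually.of_forall fun i => ?_
      show 1 / ((i : ℝ) + 1) ≤ 2 * (1 / (2 * ((i : ℝ) + 1)))
      apply le_of_eq
      field_simp
  have hconvq : ∀ᵐ x, Tendsto (fun i => ENNReal.ofReal (G i x ^ q)) atTop
      (𝓝 (ENNReal.ofReal (F x ^ q))) := by
    filter_upwards [hconv] with x hx
    exact ENNReal.tendsto_ofReal (hx.rpow_const (Or.inr hq0.le))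
  have hGqc : ∀ i, Continuous fun x => G i x ^ q := fun i =>
    (hGs i).continuous.rpow_const fun x => Or.inr hq0.le
  have hGqi : ∀ i, Integrable fun x => G i x ^ q := fun i =>
    (hGqc i).integrable_of_hasCompactSupport
      ((hGc i).comp_left (g := fun r : ℝ => r ^ q) (Real.zero_rpow hq0.ne'))
  have hfatou : ∫⁻ x, ENNReal.ofReal (F x ^ q) ≤ ENNReal.ofReal ((T / 2) ^ q) := by
    calc ∫⁻ x, ENNReal.ofReal (F x ^ q)
        = ∫⁻ x, liminf (fun i => ENNReal.ofReal (G i x ^ q)) atTop := by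
          apply lintegral_congr_ae
          filter_upwards [hconvq] with x hx
          exact hx.liminf_eq.symm
      _ ≤ liminf (fun i => ∫⁻ x, ENNReal.ofReal (G i x ^ q)) atTop :=
          lintegral_liminf_le fun i => (hGqc i).measurable.ennreal_ofReal
      _ ≤ ENNReal.ofReal ((T / 2) ^ q) := by
          refine liminf_le_of_frequently_le' (Eventually.of_forall fun i => ?_).frequently
          rw [← ofReal_integral_eq_lintegral_ofReal (hGqi i)
            (Eventually.of_forall fun x => Real.rpow_nonneg (hG0 i x) _)]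
          exact ENNReal.ofReal_le_ofReal (hGle i)
  have hFq : ∫ x, F x ^ q = ∫ x in Ω, p x ^ q := by
    rw [← integral_indicator hD.isOpen.measurableSet]
    congr 1
    funext x
    by_cases hx : x ∈ Ω
    · simp [hFdef, hx]
    · simp [hFdef, hx, Real.zero_rpow hq0.ne']
  have hfin : ∫ x in Ω, p x ^ q ≤ (T / 2) ^ q := by
    rw [← hFq, integral_eq_lintegral_of_nonneg_ae
      (Eventually.of_forall fun x => Real.rpow_nonneg (hF0 x) _)]
    · exact ENNReal.toReal_le_of_le_ofReal (by positivity) hfatou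
    · have h1 : Measurable F := hp.continuous.measurable.indicator hD.isOpen.measurableSet
      exact (h1.pow_const q).aestronglyMeasurable
  have h5 : 0 ≤ ∫ x in Ω, p x ^ q := integral_nonneg fun x => Real.rpow_nonneg (hp0 x) _
  have h6 : (∫ x in Ω, p x ^ q) ^ q⁻¹ ≤ T / 2 := by
    calc (∫ x in Ω, p x ^ q) ^ q⁻¹ ≤ ((T / 2) ^ q) ^ q⁻¹ :=
          Real.rpow_le_rpow h5 hfin (by positivity)
      _ = T / 2 := by
          rw [← Real.rpow_mul (by positivity), mul_inv_cancel₀ hq0.ne', Real.rpow_one]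
  linarith

end BV

open BV in
/-- A2: the Gagliardo-Nirenberg inequality for `p * 1_Ω`. -/
theorem bv_proof (hLW : Stmt_LW) : Stmt_BV := by
  intro n hn Ω σ hD b β hβ p hp hp0
  have hn' : (2 : ℝ) ≤ n := by exact_mod_cast hn
  have hn0 : (0 : ℝ) < n := by linarith
  have h1 := main_bound hLW hn hD b hp hp0
  set A : Fin n → ℝ := fun l => (∫ t in Ω, |fderiv ℝ p t (b l)|) + ∫ t, p t ∂σ with hA
  have hA0 : ∀ l, 0 ≤ A l := fun l => add_nonneg
    (MeasureTheory.integral_nonneg fun t => abs_nonneg _)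
    (MeasureTheory.integral_nonneg fun t => hp0 t)
  have h2 := Real.geom_mean_le_arith_mean_weighted Finset.univ (fun _ : Fin n => 1 / (n : ℝ))
    (fun l => β l * A l) (fun l _ => by positivity)
    (by simp; field_simp) (fun l _ => mul_nonneg (hβ l) (hA0 l))
  rw [Real.finsetProd_rpow _ _ (fun l _ => mul_nonneg (hβ l) (hA0 l)), Finset.prod_mul_distrib,
    Real.mul_rpow (Finset.prod_nonneg fun l _ => hβ l) (Finset.prod_nonneg fun l _ => hA0 l),
    ← Finset.mul_sum] at h2
  have h3 : (n : ℝ) * ((∏ l, β l) ^ (1 / (n : ℝ)) * (∏ l, A l) ^ (1 / (n : ℝ))) ≤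
      ∑ l, β l * A l := by
    calc (n : ℝ) * ((∏ l, β l) ^ (1 / (n : ℝ)) * (∏ l, A l) ^ (1 / (n : ℝ)))
        ≤ n * (1 / n * ∑ l, β l * A l) := mul_le_mul_of_nonneg_left h2 hn0.le
      _ = ∑ l, β l * A l := by field_simp
  refine le_trans ?_ h3
  have h4 : 0 ≤ (∏ l, β l) ^ (1 / (n : ℝ)) :=
    Real.rpow_nonneg (Finset.prod_nonneg fun l _ => hβ l) _
  calc 2 * n * (∏ l, β l) ^ (1 / (n : ℝ)) *
        (∫ x in Ω, p x ^ ((n : ℝ) / ((n : ℝ) - 1))) ^ (((n : ℝ) - 1) / n)
      = (n * (∏ l, β l) ^ (1 / (n : ℝ))) *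
        (2 * (∫ x in Ω, p x ^ ((n : ℝ) / ((n : ℝ) - 1))) ^ (((n : ℝ) - 1) / n)) := by ring
    _ ≤ (n * (∏ l, β l) ^ (1 / (n : ℝ))) * (∏ l, A l) ^ (1 / (n : ℝ)) :=
        mul_le_mul_of_nonneg_left h1 (by positivity)
    _ = _ := by ring

end Pool.Agent.ROB
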