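import Pool.Agent.ROB.Stmts

/-!
MP_7b7880_an, module D6 (BALL): area of the sphere and the Robin inequality on the ball, from
`Stmt_BallGG`.
-/

namespace Pool.Agent.ROB

namespace BallM

open Set Filter Topology MeasureTheory
open scoped ContDiff

variable {n : ℕ}

lemma dv_smul_id {w : E n → ℝ} {w' : E n →L[ℝ] ℝ} {x : E n} (hw : HasFDerivAt w w' x) :
    dv (fun z => w z • z) x = n * w x + w' x := by
  have h1 := hw.smul (hasFDerivAt_id x)
  have h2 : fderiv ℝ (fun z : E n => w z • z) x =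
      w x • ContinuousLinearMap.id ℝ (E n) + w'.smulRight x := h1.fderiv
  rw [dv, h2]
  have h3 : ((w x • ContinuousLinearMap.id ℝ (E n) + w'.smulRight x : E n →L[ℝ] E n) :
      E n →ₗ[ℝ] E n) = w x • LinearMap.id + (w' : E n →ₗ[ℝ] ℝ).smulRight x := by
    ext z
    simp
  rw [h3, map_add, map_smul, LinearMap.trace_id, LinearMap.trace_smulRight]
  simp [mul_comm]

lemma phi_deriv {y : ℝ → ℝ} (hy : ∀ s : ℝ, 0 ≤ s → ContDiffAt ℝ 1 y s) (k : ℝ) (x : E n) :
    HasFDerivAt (fun z : E n => k ^ 2 * y (k ^ 2 * ‖z‖ ^ 2))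
      (k ^ 2 • (deriv y (k ^ 2 * ‖x‖ ^ 2) • (k ^ 2 • ((2 : ℝ) • innerSL ℝ x)))) x := by
  have h1 : HasFDerivAt (fun z : E n => k ^ 2 * ‖z‖ ^ 2) (k ^ 2 • ((2 : ℝ) • innerSL ℝ x)) x := by
    have := (hasStrictFDerivAt_norm_sq x).hasFDerivAt.const_mul (k ^ 2)
    refine this.congr_fderiv ?_
    ext z
    simp
  have h2 : HasDerivAt y (deriv y (k ^ 2 * ‖x‖ ^ 2)) (k ^ 2 * ‖x‖ ^ 2) :=
    ((hy _ (by positivity)).differentiableAt (by norm_num)).hasDerivAt
  have h3 := HasDerivAt.comp_hasFDerivAt (f := fun z : E n => k ^ 2 * ‖z‖ ^ 2) x h2 h1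
  exact h3.const_mul (k ^ 2)

lemma phi_contDiff {y : ℝ → ℝ} (hy : ∀ s : ℝ, 0 ≤ s → ContDiffAt ℝ 1 y s) (k : ℝ) :
    ContDiff ℝ 1 (fun z : E n => k ^ 2 * y (k ^ 2 * ‖z‖ ^ 2)) := by
  rw [contDiff_iff_contDiffAt]
  intro x
  refine contDiffAt_const.mul ?_
  refine ContDiffAt.comp (f := fun z : E n => k ^ 2 * ‖z‖ ^ 2) x (hy _ (by positivity)) ?_
  exact (contDiff_const.mul (contDiff_norm_sq ℝ)).contDiffAt

lemma dv_continuous {X : E n → E n} (hX : ContDiff ℝ 1 X) : Continuous (dv X) := by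
  have h1 : Continuous (fderiv ℝ X) := hX.continuous_fderiv (by norm_num)
  have h2 : Continuous fun A : E n →L[ℝ] E n => LinearMap.trace ℝ (E n) A.toLinearMap := by
    let L : (E n →L[ℝ] E n) →ₗ[ℝ] ℝ :=
      (LinearMap.trace ℝ (E n)).comp (ContinuousLinearMap.coeLM ℝ)
    exact L.continuous_of_finiteDimensional
  exact h2.comp h1

end BallM

open BallM Set Filter Topology MeasureTheory in
open scoped ContDiff in
theorem ball_proof (hGG : Stmt_BallGG) : Stmt_Ball := by
  intro n hn y f g gd hrad R hR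
  obtain ⟨hfin, hgg⟩ := hGG n hn R hR
  have hsph : ∀ x ∈ Metric.sphere (0 : E n) R, ‖x‖ = R := fun x hx => by simpa using hx
  have hmeas : MeasurableSet (Metric.sphere (0 : E n) R) := Metric.isClosed_sphere.measurableSet
  constructor
  · -- the area
    have h1 := hgg (fun z => (1 : ℝ) • z)
      (show ContDiff ℝ 1 (fun z : E n => (1 : ℝ) • z) by
        simp only [one_smul]; exact contDiff_id)
    have h2 : ∀ x : E n, dv (fun z : E n => (1 : ℝ) • z) x = n := by
      intro x
      rw [dv_smul_id (w := fun _ => (1 : ℝ)) (hasFDerivAt_const (1 : ℝ) x)]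
      simp
    simp only [h2] at h1
    have h3 : ∫ x in Metric.sphere (0 : E n) R, inner ℝ ((1 : ℝ) • x) x / R ∂(surf n) =
        ∫ x in Metric.sphere (0 : E n) R, R ∂(surf n) := by
      refine setIntegral_congr_fun hmeas fun x hx => ?_
      simp only [one_smul]
      rw [real_inner_self_eq_norm_sq, hsph x hx]
      field_simp
    rw [h3, setIntegral_const, setIntegral_const, smul_eq_mul, smul_eq_mul] at h1
    have h4 : (volume.real (Metric.ball (0 : E n) R)) =
        R ^ n * (volume (Metric.ball (0 : E n) 1)).toReal := by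
      rw [measureReal_def, Measure.addHaar_ball_of_pos _ _ hR, ENNReal.toReal_mul,
        ENNReal.toReal_ofReal (by positivity)]
      simp
    rw [h4] at h1
    rw [measureReal_def] at h1
    obtain ⟨m, rfl⟩ : ∃ m, n = m + 1 := ⟨n - 1, by omega⟩
    have h5 : R * (surf (m + 1) (Metric.sphere (0 : E (m + 1)) R)).toReal =
        R * (((m + 1 : ℕ) : ℝ) * (volume (Metric.ball (0 : E (m + 1)) 1)).toReal *
          R ^ (m + 1 - 1)) := by
      rw [Nat.add_sub_cancel]
      rw [pow_succ] at h1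
      linarith
    exact mul_left_cancel₀ hR.ne' h5
  · intro k hk v hv
    have hy := hrad.y_smooth
    set φ : E n → ℝ := fun z => k ^ 2 * y (k ^ 2 * ‖z‖ ^ 2) with hφ
    have hφC : ContDiff ℝ 1 φ := phi_contDiff hy k
    have hv1 : ContDiff ℝ 1 v := hv.of_le (by exact_mod_cast le_top)
    set X : E n → E n := fun z => (v z ^ 2 * φ z) • z with hX
    have hXC : ContDiff ℝ 1 X := ((hv1.pow 2).mul hφC).smul contDiff_id
    have h1 := hgg X hXC
    -- the boundary term
    have h2 : ∫ x in Metric.sphere (0 : E n) R, inner ℝ (X x) x / R ∂(surf n) =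
        k * g (k * R) * ∫ x in Metric.sphere (0 : E n) R, v x ^ 2 ∂(surf n) := by
      rw [← integral_const_mul]
      refine setIntegral_congr_fun hmeas fun x hx => ?_
      simp only [hX]
      rw [real_inner_smul_left, real_inner_self_eq_norm_sq, hsph x hx, hφ]
      simp only
      rw [hsph x hx, hrad.g_eq _ (by positivity), show k ^ 2 * R ^ 2 = (k * R) ^ 2 by ring]
      field_simp
    rw [h2] at h1
    rw [← h1, ← integral_const_mul]
    -- integrability
    have hint : ∀ F : E n → ℝ, Continuous F → IntegrableOn F (Metric.ball (0 : E n) R) volume :=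
      fun F hF => (hF.continuousOn.integrableOn_compact
        (isCompact_closedBall (0 : E n) R)).mono_set Metric.ball_subset_closedBall
    have hc1 : Continuous fun x => ‖fderiv ℝ v x‖ ^ 2 :=
      ((hv1.continuous_fderiv (by norm_num)).norm.pow 2)
    have hc2 : Continuous fun x => k ^ 2 * v x ^ 2 := continuous_const.mul (hv.continuous.pow 2)
    rw [← integral_add (hint _ hc1) (hint _ hc2)]
    refine setIntegral_mono (hint _ (dv_continuous hXC)) ((hint _ hc1).add (hint _ hc2)) ?_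
    intro x
    simp only
    set s : ℝ := k ^ 2 * ‖x‖ ^ 2 with hs
    have hs0 : 0 ≤ s := by positivity
    have hw := ((hv1.differentiable (by norm_num) x).hasFDerivAt.pow 2).mul (phi_deriv hy k x)
    have hdv := dv_smul_id hw
    have hode := hrad.y_ode s hs0
    have hdv2 : dv X x = v x ^ 2 * (k ^ 2 - k ^ 2 * s * y s ^ 2) +
        2 * v x * (k ^ 2 * y s) * fderiv ℝ v x x := by
      have h3 : dv X x = _ := hdv
      rw [h3]
      simp only [Pi.mul_apply, add_apply, smul_apply, innerSL_apply_apply,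
        smul_eq_mul, ← hs]
      rw [real_inner_self_eq_norm_sq]
      push_cast
      linear_combination (v x ^ 2 * k ^ 2) * hode
    rw [hdv2]
    have h4 : |fderiv ℝ v x x| ≤ ‖fderiv ℝ v x‖ * ‖x‖ := (fderiv ℝ v x).le_opNorm x
    have h5 : 2 * v x * (k ^ 2 * y s) * fderiv ℝ v x x ≤
        2 * (|v x| * (k ^ 2 * y s) * ‖x‖) * ‖fderiv ℝ v x‖ := by
      have hy0 := hrad.y_pos s hs0
      calc 2 * v x * (k ^ 2 * y s) * fderiv ℝ v x x
          ≤ |2 * v x * (k ^ 2 * y s) * fderiv ℝ v x x| := le_abs_self _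
        _ = 2 * |v x| * (k ^ 2 * y s) * |fderiv ℝ v x x| := by
            rw [abs_mul, abs_mul, abs_mul, abs_of_pos (by norm_num : (0 : ℝ) < 2),
              abs_of_pos (by positivity : 0 < k ^ 2 * y s)]
        _ ≤ 2 * |v x| * (k ^ 2 * y s) * (‖fderiv ℝ v x‖ * ‖x‖) := by gcongr
        _ = _ := by ring
    have h6 : (|v x| * (k ^ 2 * y s) * ‖x‖) ^ 2 = v x ^ 2 * (k ^ 2 * s * y s ^ 2) := by
      rw [mul_pow, mul_pow, sq_abs, hs]
      ring
    nlinarith [sq_nonneg (|v x| * (k ^ 2 * y s) * ‖x‖ - ‖fderiv ℝ v x‖)]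

end Pool.Agent.ROB
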