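import Pool.Agent.ROB.Lip

/-!
MP_7b7880_an: module BALLGG.  Divergence theorem on balls, from the divergence theorem on Lipschitz
subgraphs.
-/

namespace Pool.Agent.ROB

open MeasureTheory Set
open scoped ContDiff ENNReal Topology Manifold

namespace BallGG

variable {n : ℕ}

/-- Partitions of unity adapted to a bounded open set. -/
theorem exists_pou {Ω : Set (E n)} (hΩ : IsOpen Ω) (hb : Bornology.IsBounded Ω) (ε : E n → ℝ)
    (hε : ∀ x ∈ frontier Ω, 0 < ε x) :
    ∃ (ι : Type) (_ : Fintype ι) (f : ι → E n → ℝ), (∀ i, ContDiff ℝ 1 (f i)) ∧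
      (∀ i, tsupport (f i) ⊆ Ω ∨ ∃ x ∈ frontier Ω, tsupport (f i) ⊆ Metric.ball x (ε x)) ∧
      ∀ x ∈ closure Ω, ∑ i, f i x = 1 := by
  have hcl : IsCompact (closure Ω) := hb.isCompact_closure
  have hfr : IsCompact (frontier Ω) :=
    hcl.of_isClosed_subset isClosed_frontier frontier_subset_closure
  obtain ⟨t, ht⟩ := hfr.elim_finite_subcover
    (fun x : frontier Ω => Metric.ball (x : E n) (ε x)) (fun _ => Metric.isOpen_ball)
    (fun x hx => mem_iUnion.2 ⟨⟨x, hx⟩, Metric.mem_ball_self (hε x hx)⟩)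
  let U : Option {x // x ∈ t} → Set (E n) := fun i =>
    match i with
    | none => Ω
    | some j => Metric.ball (j.1 : E n) (ε j.1)
  have hUo : ∀ i, IsOpen (U i) := by
    rintro (_ | j)
    · exact hΩ
    · exact Metric.isOpen_ball
  have hUc : closure Ω ⊆ ⋃ i, U i := by
    intro x hx
    by_cases hxΩ : x ∈ Ω
    · exact mem_iUnion.2 ⟨none, hxΩ⟩
    · have hxf : x ∈ frontier Ω := by
        rw [frontier, hΩ.interior_eq]; exact ⟨hx, hxΩ⟩
      obtain ⟨j, hj, hxj⟩ := mem_iUnion₂.1 (ht hxf)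
      exact mem_iUnion.2 ⟨some ⟨j, hj⟩, hxj⟩
  obtain ⟨f, hf⟩ := SmoothPartitionOfUnity.exists_isSubordinate 𝓘(ℝ, E n) isClosed_closure U hUo hUc
  refine ⟨Option {x // x ∈ t}, inferInstance, fun i => f i, fun i => ?_, fun i => ?_,
    fun x hx => ?_⟩
  · exact ((f i).contMDiff.contDiff).of_le (by exact_mod_cast le_top)
  · rcases i with _ | j
    · exact Or.inl (hf none)
    · exact Or.inr ⟨j.1, j.1.2, hf (some j)⟩
  · rw [← finsum_eq_sum_of_fintype]
    exact f.sum_eq_one hx

/-- The component orthogonal to `e`. -/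
noncomputable def perp (e x : E n) : E n := x - (inner ℝ x e : ℝ) • e

theorem perp_norm_sq {e : E n} (he : ‖e‖ = 1) (x : E n) :
    ‖perp e x‖ ^ 2 = ‖x‖ ^ 2 - (inner ℝ x e) ^ 2 := by
  unfold perp
  rw [norm_sub_sq_real, inner_smul_right, norm_smul, he, Real.norm_eq_abs, mul_one, sq_abs]
  ring

theorem perp_sub (e x y : E n) : perp e (x - y) = perp e x - perp e y := by
  unfold perp
  rw [inner_sub_left, sub_smul]
  abel

theorem perp_norm_le {e : E n} (he : ‖e‖ = 1) (x : E n) : ‖perp e x‖ ≤ ‖x‖ := by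
  have h := perp_norm_sq he x
  refine le_of_sq_le_sq ?_ (norm_nonneg _)
  nlinarith [sq_nonneg (inner ℝ x e : ℝ)]

theorem perp_add_smul {e : E n} (he : ‖e‖ = 1) (x : E n) (t : ℝ) :
    perp e (x + t • e) = perp e x := by
  unfold perp
  rw [inner_add_left, inner_smul_left, real_inner_self_eq_norm_sq, he]
  simp only [conj_trivial, one_pow, mul_one, add_smul]
  abel

/-- The function whose graph is (locally) the sphere. -/
noncomputable def gam (R : ℝ) (e x : E n) : ℝ := Real.sqrt (R ^ 2 - (min ‖perp e x‖ (R / 2)) ^ 2)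

theorem gam_lip {R : ℝ} (hR : 0 < R) {e : E n} (he : ‖e‖ = 1) : LipschitzWith 1 (gam R e) := by
  refine LipschitzWith.of_le_add fun x y => ?_
  unfold gam
  set a := min ‖perp e x‖ (R / 2) with ha
  set b := min ‖perp e y‖ (R / 2) with hb
  have ha0 : 0 ≤ a := le_min (norm_nonneg _) (by linarith)
  have hb0 : 0 ≤ b := le_min (norm_nonneg _) (by linarith)
  have ha1 : a ≤ R / 2 := min_le_right _ _
  have hb1 : b ≤ R / 2 := min_le_right _ _
  have hab : b - a ≤ dist x y := by
    have h1 : ‖perp e y‖ ≤ ‖perp e x‖ + dist x y := by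
      have h2 : perp e y = perp e x - perp e (x - y) := by rw [perp_sub]; abel
      calc ‖perp e y‖ = ‖perp e x - perp e (x - y)‖ := by rw [← h2]
        _ ≤ ‖perp e x‖ + ‖perp e (x - y)‖ := norm_sub_le _ _
        _ ≤ ‖perp e x‖ + dist x y := by
            rw [dist_eq_norm]; linarith [perp_norm_le he (x - y)]
    rcases le_total ‖perp e x‖ (R / 2) with h | h
    · rw [ha, min_eq_left h]
      linarith [min_le_left ‖perp e y‖ (R / 2)]
    · rw [ha, min_eq_right h]
      linarith [dist_nonneg (x := x) (y := y)]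
  have hA : R / 2 ≤ Real.sqrt (R ^ 2 - a ^ 2) := Real.le_sqrt_of_sq_le (by nlinarith)
  have hB : R / 2 ≤ Real.sqrt (R ^ 2 - b ^ 2) := Real.le_sqrt_of_sq_le (by nlinarith)
  have hA2 : Real.sqrt (R ^ 2 - a ^ 2) ^ 2 = R ^ 2 - a ^ 2 := Real.sq_sqrt (by nlinarith)
  have hB2 : Real.sqrt (R ^ 2 - b ^ 2) ^ 2 = R ^ 2 - b ^ 2 := Real.sq_sqrt (by nlinarith)
  set A := Real.sqrt (R ^ 2 - a ^ 2)
  set B := Real.sqrt (R ^ 2 - b ^ 2)
  by_contra hcon
  push Not at hcon
  have hd : 0 ≤ dist x y := dist_nonneg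
  have hAB : dist x y < A - B := by linarith
  have h1 : dist x y * R < (A - B) * (A + B) := by nlinarith
  have h2 : (A - B) * (A + B) = (b - a) * (b + a) := by nlinarith
  have h3 : (b - a) * (b + a) ≤ dist x y * R := by
    rcases le_total (b - a) 0 with h | h
    · have : (b - a) * (b + a) ≤ 0 := mul_nonpos_of_nonpos_of_nonneg h (by linarith)
      have : 0 ≤ dist x y * R := by positivity
      linarith
    · exact mul_le_mul hab (by linarith) (by linarith) hd
  linarith

theorem gam_inv (R : ℝ) {e : E n} (he : ‖e‖ = 1) (y : E n) (t : ℝ) :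
    gam R e (y + t • e) = gam R e y := by
  unfold gam
  rw [perp_add_smul he]

section chart

variable {R : ℝ} (hR : 0 < R) {x0 : E n} (hx0 : ‖x0‖ = R)

/-- The direction at a point of the sphere. -/
noncomputable def dir (R : ℝ) (x0 : E n) : E n := (1 / R) • x0

include hR hx0 in
theorem dir_norm : ‖dir R x0‖ = 1 := by
  unfold dir
  rw [norm_smul, hx0, Real.norm_of_nonneg (by positivity)]
  field_simp

include hR hx0 in
theorem inner_gt {y : E n} (hy : y ∈ Metric.ball x0 (R / 2)) : R / 2 < inner ℝ y (dir R x0) := by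
  have he := dir_norm hR hx0
  have h1 : inner ℝ x0 (dir R x0) = R := by
    unfold dir
    rw [inner_smul_right, real_inner_self_eq_norm_sq, hx0]
    field_simp
  have h2 : inner ℝ y (dir R x0) = R + inner ℝ (y - x0) (dir R x0) := by
    rw [inner_sub_left, h1]; ring
  have h3 : |inner ℝ (y - x0) (dir R x0)| ≤ ‖y - x0‖ := by
    have := abs_real_inner_le_norm (y - x0) (dir R x0)
    rwa [he, mul_one] at this
  rw [Metric.mem_ball, dist_eq_norm] at hy
  have h4 := (abs_le.1 h3).1
  linarith

include hR hx0 in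
theorem perp_lt {y : E n} (hy : y ∈ Metric.ball x0 (R / 2)) : ‖perp (dir R x0) y‖ < R / 2 := by
  have he := dir_norm hR hx0
  have h1 : perp (dir R x0) x0 = 0 := by
    unfold perp dir
    rw [inner_smul_right, real_inner_self_eq_norm_sq, hx0, smul_smul]
    have : 1 / R * R ^ 2 * (1 / R) = 1 := by field_simp
    rw [this, one_smul, sub_self]
  have h2 : perp (dir R x0) y = perp (dir R x0) (y - x0) := by rw [perp_sub, h1, sub_zero]
  rw [Metric.mem_ball, dist_eq_norm] at hy
  rw [h2]
  exact (perp_norm_le he _).trans_lt hy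

include hR hx0 in
theorem gam_eq {y : E n} (hy : y ∈ Metric.ball x0 (R / 2)) :
    gam R (dir R x0) y = Real.sqrt (R ^ 2 - (‖y‖ ^ 2 - (inner ℝ y (dir R x0)) ^ 2)) := by
  unfold gam
  rw [min_eq_left (perp_lt hR hx0 hy).le, perp_norm_sq (dir_norm hR hx0)]

include hR hx0 in
theorem chart {y : E n} (hy : y ∈ Metric.ball x0 (R / 2)) :
    y ∈ Metric.ball (0 : E n) R ↔ inner ℝ y (dir R x0) < gam R (dir R x0) y := by
  rw [gam_eq hR hx0 hy, Real.lt_sqrt (by linarith [inner_gt hR hx0 hy]), mem_ball_zero_iff,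
    ← sq_lt_sq₀ (norm_nonneg _) hR.le]
  constructor <;> intro h <;> linarith

include hR hx0 in
theorem nu_eq {y : E n} (hy : y ∈ Metric.ball x0 (R / 2))
    (hg : inner ℝ y (dir R x0) = gam R (dir R x0) y) :
    (1 / Real.sqrt (1 + ‖gradient (gam R (dir R x0)) y‖ ^ 2)) •
      (dir R x0 - gradient (gam R (dir R x0)) y) = (1 / R) • y := by
  have he := dir_norm hR hx0
  have ht := inner_gt hR hx0 hy
  set e := dir R x0 with hedef
  set t : ℝ := inner ℝ y e with htdef
  have ht0 : 0 < t := by linarith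
  have hpos : 0 < R ^ 2 - (‖y‖ ^ 2 - t ^ 2) := by
    have h1 := perp_lt hR hx0 hy
    have h2 := perp_norm_sq he y
    rw [← h2]
    have h3 : ‖perp e y‖ ^ 2 < (R / 2) ^ 2 := by
      rw [sq_lt_sq₀ (norm_nonneg _) (by linarith)]; exact h1
    nlinarith
  have hsq : Real.sqrt (R ^ 2 - (‖y‖ ^ 2 - t ^ 2)) = t := by
    rw [← gam_eq hR hx0 hy]; exact hg.symm
  have hR2 : ‖y‖ ^ 2 = R ^ 2 := by
    have h1 := Real.sq_sqrt hpos.le
    rw [hsq] at h1
    linarith
  have hder : HasGradientAt (gam R e) (-(1 / t) • perp e y) y := by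
    have h1 : HasFDerivAt (fun x : E n => ‖x‖ ^ 2) (2 • innerSL ℝ y) y :=
      (hasStrictFDerivAt_norm_sq y).hasFDerivAt
    have h2 : HasFDerivAt (fun x : E n => (inner ℝ x e : ℝ)) (innerSL ℝ e) y := by
      have h3 := (innerSL ℝ e).hasFDerivAt (x := y)
      refine h3.congr_of_eventuallyEq (Filter.Eventually.of_forall fun x => ?_)
      rw [innerSL_apply_apply, real_inner_comm]
    have h3 := (h1.sub (h2.pow 2)).const_sub (R ^ 2)
    have h4 := h3.sqrt (show R ^ 2 - (‖y‖ ^ 2 - t ^ 2) ≠ 0 from hpos.ne')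
    have h5 : gam R e =ᶠ[𝓝 y] fun x =>
        Real.sqrt (R ^ 2 - (‖x‖ ^ 2 - (inner ℝ x e) ^ 2)) := by
      filter_upwards [Metric.isOpen_ball.mem_nhds hy] with x hx
      exact gam_eq hR hx0 hx
    have h6 := h4.congr_of_eventuallyEq h5
    unfold HasGradientAt
    refine h6.congr_fderiv ?_
    ext v
    simp only [← htdef]
    unfold perp
    simp only [smul_apply, neg_apply,
      sub_apply, innerSL_apply_apply, InnerProductSpace.toDual_apply_apply,
      inner_smul_left, inner_sub_left, smul_eq_mul, nsmul_eq_mul, ← htdef, hsq,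
      conj_trivial, Pi.sub_apply]
    push_cast
    field_simp
  rw [hder.gradient]
  have hps := perp_norm_sq he y
  have h1 : 1 + ‖-(1 / t) • perp e y‖ ^ 2 = (R / t) ^ 2 := by
    rw [norm_smul, norm_neg, Real.norm_of_nonneg (by positivity : 0 ≤ 1 / t), mul_pow, hps, hR2,
      ← htdef]
    field_simp
    ring
  rw [h1, Real.sqrt_sq (by positivity)]
  unfold perp
  rw [← htdef, neg_smul, sub_neg_eq_add, smul_sub, smul_smul]
  have h2 : 1 / t * t = 1 := by field_simp
  rw [h2, one_smul, add_sub_cancel, smul_smul]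
  congr 1
  field_simp

end chart

/-- Balls are Lipschitz domains. -/
theorem ball_lip {R : ℝ} (hR : 0 < R) : IsLipDomain (Metric.ball (0 : E n) R) := by
  refine ⟨Metric.isOpen_ball, Metric.isBounded_ball,
    ⟨⟨0, Metric.mem_ball_self hR⟩, (convex_ball (0 : E n) R).isPreconnected⟩, fun x hx => ?_⟩
  rw [frontier_ball (0 : E n) hR.ne', mem_sphere_zero_iff_norm] at hx
  exact ⟨dir R x, gam R (dir R x), 1, R / 2, dir_norm hR hx, gam_lip hR (dir_norm hR hx),
    gam_inv R (dir_norm hR hx), by linarith, fun y hy => chart hR hx hy⟩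

theorem chart_eq (H : Stmt_LGG) (hn : 2 ≤ n) {R : ℝ} (hR : 0 < R) {x0 : E n} (hx0 : ‖x0‖ = R)
    {Y : E n → E n} (hY : ContDiff ℝ 1 Y) (hs : tsupport Y ⊆ Metric.ball x0 (R / 2)) :
    ∫ x in Metric.ball (0 : E n) R, dv Y x =
      ∫ x in Metric.sphere (0 : E n) R, inner ℝ (Y x) x / R ∂(surf n) := by
  have hcs : HasCompactSupport Y :=
    Metric.isCompact_of_isClosed_isBounded (isClosed_tsupport Y)
      (Metric.isBounded_ball.subset hs)
  have he := dir_norm hR hx0
  have hγ := gam_lip hR he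
  have hinv := gam_inv R he
  have h1 : ∫ x in Metric.ball (0 : E n) R, dv Y x =
      ∫ x in Lip.sub (dir R x0) (gam R (dir R x0)), dv Y x := by
    rw [← integral_indicator Metric.isOpen_ball.measurableSet,
      ← integral_indicator (Lip.isOpen_sub hγ.continuous).measurableSet]
    congr 1
    funext x
    by_cases hx : x ∈ tsupport Y
    · have hxb := hs hx
      by_cases hxΩ : x ∈ Metric.ball (0 : E n) R
      · rw [indicator_of_mem hxΩ, indicator_of_mem
          (show x ∈ Lip.sub (dir R x0) (gam R (dir R x0)) from (chart hR hx0 hxb).1 hxΩ)]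
      · rw [indicator_of_notMem hxΩ, indicator_of_notMem
          (show x ∉ Lip.sub (dir R x0) (gam R (dir R x0)) from
            fun h => hxΩ ((chart hR hx0 hxb).2 h))]
    · have hz := Lip.dv_zero hx
      rw [Lip.ind_zero _ _ _ hz, Lip.ind_zero _ _ _ hz]
  have h2 := (H n hn _ _ 1 he hγ hinv).2 Y hY hcs
  change ∫ x in Lip.sub (dir R x0) (gam R (dir R x0)), dv Y x =
    ∫ x in Lip.gr (dir R x0) (gam R (dir R x0)), _ ∂(surf n) at h2
  rw [h1, h2, ← integral_indicator (Lip.isClosed_gr hγ.continuous).measurableSet,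
    ← integral_indicator Metric.isClosed_sphere.measurableSet]
  congr 1
  funext x
  by_cases hx : x ∈ tsupport Y
  · have hxb := hs hx
    have hfr := Lip.frontier_chart Metric.isOpen_ball he hγ.continuous hinv
      (fun y hy => chart hR hx0 hy) hxb
    rw [frontier_ball (0 : E n) hR.ne'] at hfr
    by_cases hxΩ : x ∈ Metric.sphere (0 : E n) R
    · rw [indicator_of_mem hxΩ, indicator_of_mem (hfr.1 hxΩ), nu_eq hR hx0 hxb (hfr.1 hxΩ),
        inner_smul_right]
      ring
    · rw [indicator_of_notMem hxΩ, indicator_of_notMem (fun h => hxΩ (hfr.2 h))]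
  · have hz : Y x = 0 := image_eq_zero_of_notMem_tsupport hx
    rw [Lip.ind_zero _ _ _ (by rw [hz, inner_zero_left]),
      Lip.ind_zero _ _ _ (by rw [hz, inner_zero_left, zero_div])]

end BallGG

open BallGG in
theorem ballGG_proof (H : Stmt_LGG) : Stmt_BallGG := by
  intro n hn R hR
  have hL : IsLipDomain (Metric.ball (0 : E n) R) := ball_lip hR
  have hfrB : frontier (Metric.ball (0 : E n) R) = Metric.sphere 0 R :=
    frontier_ball (0 : E n) hR.ne'
  have hfin := (lip_proof H n hn _ hL).fin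
  rw [hfrB] at hfin
  have hlt : surf n (Metric.sphere (0 : E n) R) < ⊤ := by
    have := measure_lt_top ((surf n).restrict (Metric.sphere (0 : E n) R)) univ
    rwa [Measure.restrict_apply_univ] at this
  refine ⟨hlt, fun X hX => ?_⟩
  obtain ⟨ι, _, f, hfC, hfs, hf1⟩ := exists_pou (Metric.isOpen_ball (x := (0 : E n)) (ε := R))
    Metric.isBounded_ball (fun _ => R / 2) (fun _ _ => by linarith)
  rw [hfrB] at hfs
  let Y : ι → E n → E n := fun i x => f i x • X x
  have hYC : ∀ i, ContDiff ℝ 1 (Y i) := fun i => (hfC i).smul hX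
  have hYs : ∀ i, tsupport (Y i) ⊆ tsupport (f i) := fun i =>
    tsupport_smul_subset_left (fun x => f i x) X
  have hloc : ∀ i, ∫ x in Metric.ball (0 : E n) R, dv (Y i) x =
      ∫ x in Metric.sphere (0 : E n) R, inner ℝ (Y i x) x / R ∂(surf n) := by
    intro i
    rcases hfs i with h | ⟨x0, hx0, h⟩
    · rw [Lip.interior_le H hn Metric.isOpen_ball Metric.isBounded_ball (hYC i)
        ((hYs i).trans h)]
      refine (setIntegral_eq_zero_of_forall_eq_zero fun x hx => ?_).symm
      have hx' : x ∉ tsupport (Y i) := by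
        intro hm
        have h3 := h (hYs i hm)
        rw [mem_ball_zero_iff] at h3
        rw [mem_sphere_zero_iff_norm] at hx
        linarith
      rw [image_eq_zero_of_notMem_tsupport hx', inner_zero_left, zero_div]
    · exact chart_eq H hn hR (mem_sphere_zero_iff_norm.1 hx0) (hYC i) ((hYs i).trans h)
  have hsum : ∀ x ∈ Metric.ball (0 : E n) R, dv X x = ∑ i, dv (Y i) x := by
    intro x hx
    refine Lip.dv_sum Finset.univ Y (fun i _ => hYC i) X x ?_
    filter_upwards [Metric.isOpen_ball.mem_nhds hx] with z hz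
    simp only [Y]
    rw [← Finset.sum_smul, hf1 z (subset_closure hz), one_smul]
  have hi1 : ∀ i, IntegrableOn (dv (Y i)) (Metric.ball (0 : E n) R) volume := fun i =>
    ((Lip.dv_continuous (hYC i)).continuousOn.integrableOn_compact
      (isCompact_closedBall (0 : E n) R)).mono_set Metric.ball_subset_closedBall
  have hi2 : ∀ i, Integrable (fun x => inner ℝ (Y i x) x / R)
      ((surf n).restrict (Metric.sphere (0 : E n) R)) := by
    intro i
    have hc : Continuous (fun x => inner ℝ (Y i x) x / R) :=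
      ((hYC i).continuous.inner continuous_id).div_const R
    have h1 : IntegrableOn (fun x => inner ℝ (Y i x) x / R) (Metric.sphere (0 : E n) R)
        ((surf n).restrict (Metric.sphere (0 : E n) R)) :=
      hc.continuousOn.integrableOn_compact (isCompact_sphere (0 : E n) R)
    rwa [IntegrableOn, Measure.restrict_restrict Metric.isClosed_sphere.measurableSet,
      inter_self] at h1
  calc ∫ x in Metric.ball (0 : E n) R, dv X x
      = ∫ x in Metric.ball (0 : E n) R, ∑ i, dv (Y i) x :=
        setIntegral_congr_fun Metric.isOpen_ball.measurableSet hsum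
    _ = ∑ i, ∫ x in Metric.ball (0 : E n) R, dv (Y i) x := integral_finsetSum _ fun i _ => hi1 i
    _ = ∑ i, ∫ x in Metric.sphere (0 : E n) R, inner ℝ (Y i x) x / R ∂(surf n) :=
        Finset.sum_congr rfl fun i _ => hloc i
    _ = ∫ x in Metric.sphere (0 : E n) R, ∑ i, inner ℝ (Y i x) x / R ∂(surf n) :=
        (integral_finsetSum _ fun i _ => hi2 i).symm
    _ = ∫ x in Metric.sphere (0 : E n) R, inner ℝ (X x) x / R ∂(surf n) := by
        refine setIntegral_congr_fun Metric.isClosed_sphere.measurableSet fun x hx => ?_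
        have hxc : x ∈ closure (Metric.ball (0 : E n) R) := by
          rw [← hfrB] at hx
          exact frontier_subset_closure hx
        simp only [Y, inner_smul_left, conj_trivial, mul_div_assoc]
        rw [← Finset.sum_mul, hf1 x hxc, one_mul]

end Pool.Agent.ROB
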