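import Pool.Agent.ROB.Stmts

/-!
MP_7b7880_an: module CROSS (strong monotonicity of the field on the space of slopes).
-/

set_option autoImplicit false

namespace Pool.Agent.ROB

open MeasureTheory Set

theorem Cross_proof : Stmt_Cross := by
  intro n k a A₀ H H' mu hP
  obtain ⟨c0, hc0, hc⟩ := hP.pos
  have hmono : MonotoneOn H (Ioo 0 a) := by
    refine monotoneOn_of_deriv_nonneg (convex_Ioo 0 a) ?_ ?_ ?_
    · intro s hs
      exact (hP.deriv s hs).hasDerivAt.continuousAt.continuousWithinAt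
    · rw [interior_Ioo]
      intro s hs
      exact (hP.deriv s hs).hasDerivAt.differentiableAt.differentiableWithinAt
    · rw [interior_Ioo]
      intro s hs
      rw [(hP.deriv s hs).hasDerivAt.deriv]
      exact hP.mono s hs
  refine ⟨c0, hc0, ?_⟩
  intro x y hx0 hxa hy0 hya
  have hG1 := hc ‖x‖ ⟨hx0, hxa⟩
  have hG2 := hc ‖y‖ ⟨hy0, hya⟩
  have e1 : ‖x - y‖ ^ 2 = ‖x‖ ^ 2 - 2 * inner ℝ x y + ‖y‖ ^ 2 := norm_sub_sq_real x y
  have e2 : inner ℝ (x - y) (fieldOf H x - fieldOf H y) =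
      H ‖x‖ * ‖x‖ ^ 2 + H ‖y‖ * ‖y‖ ^ 2 - (H ‖x‖ + H ‖y‖) * inner ℝ x y := by
    unfold fieldOf
    rw [inner_sub_left, inner_sub_right, inner_sub_right, inner_smul_right, inner_smul_right,
      inner_smul_right, inner_smul_right, real_inner_self_eq_norm_sq, real_inner_self_eq_norm_sq,
      real_inner_comm x y]
    ring
  have hxy : inner ℝ x y ≤ ‖x‖ * ‖y‖ := real_inner_le_norm x y
  rw [e1, e2]
  have h3 : (H ‖x‖ - c0 + (H ‖y‖ - c0)) * inner ℝ x y ≤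
      (H ‖x‖ - c0 + (H ‖y‖ - c0)) * (‖x‖ * ‖y‖) :=
    mul_le_mul_of_nonneg_left hxy (by linarith)
  have h4 : 0 ≤ ((H ‖x‖ - c0) * ‖x‖ - (H ‖y‖ - c0) * ‖y‖) * (‖x‖ - ‖y‖) := by
    rcases le_total ‖x‖ ‖y‖ with h | h
    · have hm := hmono ⟨hx0, hxa⟩ ⟨hy0, hya⟩ h
      have : (H ‖x‖ - c0) * ‖x‖ ≤ (H ‖y‖ - c0) * ‖y‖ :=
        mul_le_mul (by linarith) h hx0.le (by linarith)
      nlinarith
    · have hm := hmono ⟨hy0, hya⟩ ⟨hx0, hxa⟩ h
      have : (H ‖y‖ - c0) * ‖y‖ ≤ (H ‖x‖ - c0) * ‖x‖ :=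
        mul_le_mul (by linarith) h hy0.le (by linarith)
      nlinarith
  nlinarith

end Pool.Agent.ROB
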