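import Pool.Agent.ROB.FixGrid

/-!
MP_7b7880_an, module FIX: the inequality for finitely many patches (helper94).
-/

namespace Pool.Agent.ROB

open MeasureTheory Set Filter
open scoped ContDiff ENNReal Topology

/-- A7: the inequality for a finite disjoint family of patches. -/
theorem fix_proof (hAbs : Stmt_Abs) (hMass : Stmt_Mass) (hWidth : Stmt_Width) : Stmt_Fix := by
  intro n hn Ω σ hdom k a hk ha hR P _ _ p X A₀ κ c0 hκ hκ1 hc0 hok hdis hcr
  classical
  obtain ⟨d0, hd0, hsep⟩ := Fix.exists_sep p a (fun q => (hok q).norm_le) hdis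
  set Λ : ℝ := ∑ q, ∑ l, (p q).lam l with hΛdef
  have hΛ : ∀ q l, (p q).lam l ≤ Λ := by
    intro q l
    have h1 : (p q).lam l ≤ ∑ l, (p q).lam l :=
      Finset.single_le_sum (fun l _ => ((hok q).lam_pos l).le) (Finset.mem_univ l)
    have h2 : ∑ l, (p q).lam l ≤ Λ :=
      Finset.single_le_sum (f := fun q => ∑ l, (p q).lam l)
        (fun q _ => Finset.sum_nonneg fun l _ => ((hok q).lam_pos l).le) (Finset.mem_univ q)
    exact h1.trans h2
  set Δ : ℝ := Metric.diam (closure Ω) with hΔdef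
  have hbc : Bornology.IsBounded (closure Ω) := hdom.bdd.closure
  have hΔ : ∀ x ∈ closure Ω, ∀ y ∈ closure Ω, dist x y ≤ Δ :=
    fun x hx y hy => Metric.dist_le_diam_of_mem hbc hx hy
  have hΔ0 : 0 ≤ Δ := Metric.diam_nonneg
  -- sequences
  set u : ℕ → ℝ := fun j => (j : ℝ) + 1 with hu
  have hu0 : ∀ j, 0 < u j := fun j => by positivity
  have huT : Tendsto u atTop atTop :=
    tendsto_atTop_add_const_right _ _ tendsto_natCast_atTop_atTop
  have hu2T : Tendsto (fun j => u j ^ 2) atTop atTop :=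
    (tendsto_pow_atTop two_ne_zero).comp huT
  have hinvT : Tendsto (fun j => (u j)⁻¹) atTop (𝓝 0) := tendsto_inv_atTop_zero.comp huT
  have hinv2T : Tendsto (fun j => (u j ^ 2)⁻¹) atTop (𝓝 0) := tendsto_inv_atTop_zero.comp hu2T
  set N : ℕ → P → ℕ := fun j q => ⌊(p q).s * u j ^ 2⌋₊ with hN
  have hNT : ∀ q, Tendsto (fun j => (N j q : ℝ) / u j ^ 2) atTop (𝓝 (p q).s) := fun q =>
    (tendsto_nat_floor_mul_div_atTop (hok q).s_pos.le).comp hu2T
  set M : ℝ := Real.exp (2 * a * Δ) * (∑ q, (p q).mu * (p q).s ^ n) / (volume Ω).toReal with hM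
  set L : ℕ → ℝ := fun j => ∑ q, κ * n * (p q).D * (p q).mu *
      (Real.exp (-(2 * a * (Real.sqrt n * (u j)⁻¹))) * ((N j q : ℝ) / u j ^ 2) ^ n -
        n * (((N j q : ℝ) / u j ^ 2) ^ (n - 1) * (Δ * (u j)⁻¹))) with hL
  set R : ℕ → ℝ := fun j => (A₀ + κ * (u j ^ 2)⁻¹ / 2 * n * (Λ + ((n : ℝ) - 1) * M)) *
        (σ univ).toReal +
      ((n : ℝ) - 1) * ∑ q, ((N j q : ℝ) / u j ^ 2) ^ n * ((p q).Dp * (p q).mu) with hRdef
  have hLT : Tendsto L atTop (𝓝 (∑ q, κ * n * (p q).D * (p q).mu *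
      (Real.exp (-(2 * a * (Real.sqrt n * 0))) * (p q).s ^ n -
        n * ((p q).s ^ (n - 1) * (Δ * 0))))) := by
    refine tendsto_finsetSum _ fun q _ => ?_
    refine Tendsto.const_mul _ ?_
    refine Tendsto.sub ?_ ?_
    · refine Tendsto.mul ?_ ((hNT q).pow n)
      exact ((((hinvT.const_mul _).const_mul _).neg).rexp)
    · exact (((hNT q).pow (n - 1)).mul (hinvT.const_mul Δ)).const_mul _
  have hRT : Tendsto R atTop (𝓝 ((A₀ + κ * 0 / 2 * n * (Λ + ((n : ℝ) - 1) * M)) *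
        (σ univ).toReal +
      ((n : ℝ) - 1) * ∑ q, (p q).s ^ n * ((p q).Dp * (p q).mu))) := by
    refine Tendsto.add ?_ ?_
    · refine Tendsto.mul_const _ ?_
      refine Tendsto.const_add _ ?_
      exact ((((hinv2T.const_mul κ).div_const 2).mul_const _).mul_const _)
    · refine Tendsto.const_mul _ ?_
      refine tendsto_finsetSum _ fun q _ => ?_
      exact ((hNT q).pow n).mul_const _
  have hev : ∀ᶠ j in atTop, L j ≤ R j := by
    have e1 : ∀ᶠ j in atTop, ∀ q, 0 < N j q := by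
      rw [eventually_all]
      intro q
      have h1 : ∀ᶠ j in atTop, 1 ≤ (p q).s * u j ^ 2 :=
        (hu2T.const_mul_atTop (hok q).s_pos).eventually_ge_atTop 1
      filter_upwards [h1] with j hj
      exact Nat.floor_pos.2 hj
    have e2 : ∀ᶠ j in atTop, κ * (u j ^ 2)⁻¹ * n * Λ ≤ c0 * d0 := by
      have h1 : Tendsto (fun j => κ * (u j ^ 2)⁻¹ * n * Λ) atTop (𝓝 (κ * 0 * n * Λ)) :=
        ((hinv2T.const_mul κ).mul_const _).mul_const _
      rw [show κ * 0 * n * Λ = 0 by ring] at h1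
      exact (h1.eventually_lt_const (mul_pos hc0 hd0)).mono fun j hj => hj.le
    have e3 : ∀ᶠ j in atTop, κ * (u j ^ 2)⁻¹ * n ≤ d0 := by
      have h1 : Tendsto (fun j => κ * (u j ^ 2)⁻¹ * n) atTop (𝓝 (κ * 0 * n)) :=
        ((hinv2T.const_mul κ).mul_const _)
      rw [show κ * 0 * n = 0 by ring] at h1
      exact (h1.eventually_lt_const hd0).mono fun j hj => hj.le
    filter_upwards [e1, e2, e3] with j h1 h2 h3
    have hδ : 0 < (u j ^ 2)⁻¹ := inv_pos.2 (pow_pos (hu0 j) 2)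
    have hη : 0 < (u j)⁻¹ := inv_pos.2 (hu0 j)
    have hNs : ∀ q, (N j q : ℝ) * (u j ^ 2)⁻¹ ≤ (p q).s := by
      intro q
      have h4 : (N j q : ℝ) ≤ (p q).s * u j ^ 2 :=
        Nat.floor_le (mul_nonneg (hok q).s_pos.le (by positivity))
      have h5 : 0 < u j ^ 2 := pow_pos (hu0 j) 2
      rw [← div_eq_mul_inv, div_le_iff₀ h5]
      exact h4
    have h := Fix.grid hAbs hMass hWidth hn hdom hk ha hR p X hκ hκ1 hc0 hok hdis hcr hΛ hsep
      hΔ hΔ0 hδ hη (N j) h1 hNs h2 h3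
    have hLeq : L j = ∑ q, κ * n * (p q).D * ((p q).mu * ((u j ^ 2)⁻¹) ^ n) *
      (Real.exp (-(2 * a * (Real.sqrt n * (u j)⁻¹))) * (N j q : ℝ) ^ n -
        n * ((N j q : ℝ) ^ (n - 1) * (Δ / (u j)⁻¹))) := by
      refine Finset.sum_congr rfl fun q _ => ?_
      have hne : u j ≠ 0 := (hu0 j).ne'
      have h7 : ((N j q : ℝ) / u j ^ 2) ^ (n - 1) * (Δ * (u j)⁻¹) =
          ((u j ^ 2)⁻¹) ^ n * ((N j q : ℝ) ^ (n - 1) * (Δ / (u j)⁻¹)) := by
        obtain ⟨m, rfl⟩ : ∃ m, n = m + 1 := ⟨n - 1, by omega⟩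
        rw [Nat.add_sub_cancel, div_pow, pow_succ, inv_pow]
        field_simp
        ring
      rw [h7, div_eq_mul_inv, mul_pow]
      ring
    have hReq : R j = (A₀ + κ * (u j ^ 2)⁻¹ / 2 * n * (Λ + ((n : ℝ) - 1) * M)) *
        (σ univ).toReal +
      ((n : ℝ) - 1) * ∑ q, (N j q : ℝ) ^ n * ((p q).Dp * ((p q).mu * ((u j ^ 2)⁻¹) ^ n)) := by
      have : ∑ q, ((N j q : ℝ) / u j ^ 2) ^ n * ((p q).Dp * (p q).mu) =
          ∑ q, (N j q : ℝ) ^ n * ((p q).Dp * ((p q).mu * ((u j ^ 2)⁻¹) ^ n)) := by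
        refine Finset.sum_congr rfl fun q _ => ?_
        rw [div_eq_mul_inv, mul_pow]
        ring
      rw [hRdef]
      dsimp only
      rw [this]
    rw [hLeq, hReq]
    exact h
  have hfin := le_of_tendsto_of_tendsto hLT hRT hev
  simp only [mul_zero, neg_zero, Real.exp_zero, one_mul, sub_zero, zero_div, zero_mul,
    add_zero] at hfin
  have h1 : ∑ q, (p q).mu * (p q).s ^ n * (n * κ * (p q).D - ((n : ℝ) - 1) * (p q).Dp) =
      ∑ q, κ * n * (p q).D * (p q).mu * (p q).s ^ n -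
        ((n : ℝ) - 1) * ∑ q, (p q).s ^ n * ((p q).Dp * (p q).mu) := by
    rw [Finset.mul_sum, ← Finset.sum_sub_distrib]
    refine Finset.sum_congr rfl fun q _ => ?_
    ring
  rw [h1]
  linarith

end Pool.Agent.ROB
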