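import Pool.Agent.ROB.Stmts

/-!
MP_7b7880_an: module KMON (solving `k g(kR) = a` for `k`).
-/

set_option autoImplicit false

namespace Pool.Agent.ROB

open MeasureTheory Set Filter Topology

theorem KMon_proof : Stmt_KMon := by
  intro n hn y f g gd hR R a hRpos ha
  have hg0 : g 0 = 0 := by rw [hR.g_eq 0 le_rfl]; ring
  have hcont : ContinuousOn g (Ici 0) := by
    have h1 : ContinuousOn (fun r : ℝ => r * y (r ^ 2)) (Ici 0) := by
      intro r hr
      have h2 : ContinuousAt y (r ^ 2) := (hR.y_smooth (r ^ 2) (sq_nonneg r)).continuousAt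
      have h3 : ContinuousAt (fun r : ℝ => y (r ^ 2)) r :=
        ContinuousAt.comp (g := y) (f := fun r : ℝ => r ^ 2) h2 (by fun_prop)
      exact (continuousAt_id.mul h3).continuousWithinAt
    exact h1.congr fun r hr => hR.g_eq r hr
  have hmono : StrictMonoOn g (Ioi 0) := by
    refine strictMonoOn_of_deriv_pos (convex_Ioi 0) (hcont.mono Ioi_subset_Ici_self) ?_
    rw [interior_Ioi]
    intro r hr
    rw [(hR.g_deriv r hr).deriv]
    exact hR.gd_pos r hr
  have hlim : ∀ b : ℝ, b < 1 → ∀ B : ℝ, ∃ r : ℝ, B < r ∧ 0 < r ∧ b < g r := by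
    intro b hb B
    have h1 := hR.g_lim.eventually (lt_mem_nhds hb)
    obtain ⟨r, hr1, hr2⟩ := (h1.and (eventually_gt_atTop (max B 0))).exists
    exact ⟨r, (le_max_left _ _).trans_lt hr2, (le_max_right _ _).trans_lt hr2, hr1⟩
  -- existence of `k`
  obtain ⟨k, hk0, hka⟩ : ∃ k : ℝ, 0 < k ∧ k * g (k * R) = a := by
    obtain ⟨r, hr1, hr0, hr2⟩ := hlim (1 / 2) (by norm_num) (2 * a * R)
    have hK : 0 ≤ r / R := by positivity
    have hφ : ContinuousOn (fun k : ℝ => k * g (k * R)) (Icc 0 (r / R)) := by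
      refine continuousOn_id.mul (hcont.comp (by fun_prop) ?_)
      intro k hk
      exact mul_nonneg hk.1 hRpos.le
    have h1 := intermediate_value_Icc hK hφ
    have h2 : a ∈ Icc ((fun k : ℝ => k * g (k * R)) 0) ((fun k : ℝ => k * g (k * R)) (r / R)) := by
      constructor
      · simp only [zero_mul]; exact ha.le
      · simp only
        rw [div_mul_cancel₀ r hRpos.ne']
        have h3 : 2 * a < r / R := by rw [lt_div_iff₀ hRpos]; exact hr1
        nlinarith
    obtain ⟨k, hk, hke⟩ := h1 h2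
    refine ⟨k, lt_of_le_of_ne hk.1 ?_, hke⟩
    rintro rfl
    simp only [zero_mul] at hke
    exact ha.ne hke
  refine ⟨k, hk0, hka, ?_⟩
  intro l hl
  have hak : a < k := by
    have := hR.g_lt_one (k * R) (mul_pos hk0 hRpos)
    nlinarith
  obtain ⟨k', hk'⟩ : ∃ k', k' = (max l a + k) / 2 := ⟨_, rfl⟩
  have h1 : max l a < k := max_lt hl hak
  have h2 : max l a < k' := by rw [hk']; linarith
  have h3 : k' < k := by rw [hk']; linarith
  have h4 : l < k' := (le_max_left _ _).trans_lt h2
  have h5 : a < k' := (le_max_right _ _).trans_lt h2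
  have h6 : 0 < k' := ha.trans h5
  have h7 : a / k' < 1 := by rw [div_lt_one h6]; exact h5
  obtain ⟨M, -, hM0, hM⟩ := hlim (a / k') h7 0
  have h8 := intermediate_value_Icc hM0.le (hcont.mono (Icc_subset_Ici_self))
  obtain ⟨ρ, hρ, hρe⟩ := h8 (show a / k' ∈ Icc (g 0) (g M) from
    ⟨by rw [hg0]; positivity, hM.le⟩)
  have hρ0 : 0 < ρ := by
    refine lt_of_le_of_ne hρ.1 ?_
    rintro rfl
    rw [hg0] at hρe
    exact (div_pos ha h6).ne hρe
  refine ⟨k', ρ / k', h6, h4, h3, ?_, ?_⟩
  · have h9 : k * R ≤ ρ := by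
      by_contra h
      push Not at h
      have h10 := hmono (mem_Ioi.2 hρ0) (mem_Ioi.2 (mul_pos hk0 hRpos)) h
      rw [hρe] at h10
      have h11 : a / k' > a / k := div_lt_div_of_pos_left ha h6 h3
      have h12 : g (k * R) = a / k := by rw [eq_div_iff hk0.ne']; linarith
      rw [h12] at h10
      linarith
    rw [lt_div_iff₀ h6]
    nlinarith
  · rw [mul_div_cancel₀ ρ h6.ne', hρe]
    field_simp

end Pool.Agent.ROB
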