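import Pool.Agent.ROB.Stmts

/-!
MP_7b7880_an: module LW (A1), Loomis-Whitney and the sharp Gagliardo-Nirenberg inequality.
-/

namespace Pool.Agent.ROB

open MeasureTheory Set
open scoped ContDiff ENNReal

namespace LW

/-! ### Loomis-Whitney for several functions -/

section grid

variable {ι : Type} [Fintype ι] [DecidableEq ι] {A : ι → Type} [∀ i, MeasurableSpace (A i)]
  (μ : ∀ i, Measure (A i)) [∀ i, SigmaFinite (μ i)]

/-- the quantity of the induction -/
noncomputable def TT (p : ℝ) (g : ι → (∀ i, A i) → ℝ≥0∞) (s : Finset ι) : (∀ i, A i) → ℝ≥0∞ :=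
  ∫⋯∫⁻_s, (fun x => ∏ j, (∫⋯∫⁻_(insert j sᶜ), g j ∂μ) x ^ p) ∂μ

theorem TT_insert {p : ℝ} (hp0 : 0 ≤ p) (hp : ((Fintype.card ι : ℝ) - 1) * p = 1)
    {g : ι → (∀ i, A i) → ℝ≥0∞} (hg : ∀ i, Measurable (g i)) (s : Finset ι) (i : ι) (hi : i ∉ s) :
    TT μ p g (insert i s) ≤ TT μ p g s := by
  have hmeas : ∀ (t : Finset ι), Measurable fun x => ∏ j, (∫⋯∫⁻_(insert j t), g j ∂μ) x ^ p :=
    fun t => Finset.measurable_fun_prod _ fun j _ => ((hg j).lmarginal μ).pow_const _
  have hcompl : sᶜ = insert i (insert i s)ᶜ := by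
    ext j
    simp only [Finset.mem_compl, Finset.mem_insert]
    by_cases hj : j = i
    · subst hj
      simp [hi]
    · simp [hj]
  have hit : i ∉ (insert i s)ᶜ := by simp
  set t := (insert i s)ᶜ with ht
  unfold TT
  rw [← ht, lmarginal_insert' _ (hmeas t) hi]
  refine lmarginal_mono (s := s) (fun x => ?_)
  simp only
  rw [hcompl]
  have hii : i ∈ (Finset.univ : Finset ι) := Finset.mem_univ i
  -- split off the factor `i`
  have h1 : ∀ (f : ι → ℝ≥0∞), ∏ j, f j = f i * ∏ j ∈ Finset.univ.erase i, f j := fun f =>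
    (Finset.mul_prod_erase _ f hii).symm
  simp_rw [h1]
  have h2 : ∀ y : A i, (∫⋯∫⁻_(insert i t), g i ∂μ) (Function.update x i y) =
      (∫⋯∫⁻_(insert i t), g i ∂μ) x := fun y =>
    lmarginal_update_of_mem μ (Finset.mem_insert_self i t) _ _ _
  simp_rw [h2]
  have hmu : Measurable (Function.update x i) := measurable_update x
  have hm3 : ∀ j, Measurable fun y => (∫⋯∫⁻_(insert j t), g j ∂μ) (Function.update x i y) :=
    fun j => ((hg j).lmarginal μ).comp hmu
  rw [lintegral_const_mul _ (Finset.measurable_fun_prod _ fun j _ => (hm3 j).pow_const _)]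
  rw [Finset.insert_idem]
  gcongr
  -- Hoelder
  refine (ENNReal.lintegral_prod_norm_pow_le (Finset.univ.erase i)
    (f := fun j y => (∫⋯∫⁻_(insert j t), g j ∂μ) (Function.update x i y))
    (fun j _ => (hm3 j).aemeasurable) (p := fun _ => p) ?_ (fun _ _ => hp0)).trans
    (le_of_eq ?_)
  · rw [Finset.sum_const, nsmul_eq_mul, Finset.card_erase_of_mem hii, Finset.card_univ,
      Nat.cast_pred (Fintype.card_pos_iff.2 ⟨i⟩)]
    exact hp
  · refine Finset.prod_congr rfl fun j hj => ?_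
    have hji : j ≠ i := Finset.ne_of_mem_erase hj
    have hij : i ∉ insert j t := by
      rw [Finset.mem_insert]
      rintro (h | h)
      · exact hji h.symm
      · exact hit h
    rw [← lmarginal_insert _ (hg j) hij, Finset.insert_comm]

theorem TT_le {p : ℝ} (hp0 : 0 ≤ p) (hp : ((Fintype.card ι : ℝ) - 1) * p = 1)
    {g : ι → (∀ i, A i) → ℝ≥0∞} (hg : ∀ i, Measurable (g i)) (s : Finset ι) :
    TT μ p g s ≤ TT μ p g ∅ := by
  induction s using Finset.induction_on with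
  | empty => exact le_rfl
  | insert i s hi ih => exact (TT_insert μ hp0 hp hg s i hi).trans ih

/-- Loomis-Whitney -/
theorem loomis_whitney {p : ℝ} (hp0 : 0 ≤ p) (hp : ((Fintype.card ι : ℝ) - 1) * p = 1)
    {g : ι → (∀ i, A i) → ℝ≥0∞} (hg : ∀ i, Measurable (g i)) :
    ∫⁻ x, ∏ i, (∫⁻ t, g i (Function.update x i t) ∂μ i) ^ p ∂(Measure.pi μ) ≤
      ∏ i, (∫⁻ x, g i x ∂(Measure.pi μ)) ^ p := by
  rcases isEmpty_or_nonempty (∀ i, A i) with h | ⟨⟨x0⟩⟩
  · simp
  have h1 := TT_le μ hp0 hp hg Finset.univ x0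
  unfold TT at h1
  simp only [lmarginal_univ, Finset.compl_univ, lmarginal_empty, Finset.compl_empty,
    Finset.insert_eq_of_mem (Finset.mem_univ _)] at h1
  have h2 : ∀ j : ι, insert j (∅ : Finset ι) = {j} := fun j => rfl
  simp only [h2, lmarginal_singleton] at h1
  exact h1

end grid

/-- one variable -/
theorem one_var {f : ℝ → ℝ} (hf : ContDiff ℝ 1 f) (h2 : HasCompactSupport f) (x : ℝ) :
    2 * ‖f x‖ₑ ≤ ∫⁻ y, ‖deriv f y‖ₑ := by
  have h3 := HasCompactSupport.enorm_le_lintegral_Ici_deriv hf h2 x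
  have hg : ContDiff ℝ 1 fun y => f (-y) := hf.comp contDiff_neg
  have h2g : HasCompactSupport fun y => f (-y) :=
    h2.comp_homeomorph (Homeomorph.neg ℝ)
  have h4 := HasCompactSupport.enorm_le_lintegral_Ici_deriv hg h2g (-x)
  simp only [neg_neg, deriv_comp_neg, enorm_neg] at h4
  have h5 : ∫⁻ y in Iic (-x), ‖deriv f (-y)‖ₑ = ∫⁻ y in Ici x, ‖deriv f y‖ₑ := by
    have hmp : MeasurePreserving (fun y : ℝ => -y) volume volume :=
      Measure.measurePreserving_neg volume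
    have := hmp.setLIntegral_comp_emb (MeasurableEquiv.neg ℝ).measurableEmbedding
      (fun y => ‖deriv f y‖ₑ) (Iic (-x))
    rw [this]
    congr 2
    simp
  rw [h5] at h4
  have h6 : ∫⁻ y in Ici x, ‖deriv f y‖ₑ = ∫⁻ y in Ioi x, ‖deriv f y‖ₑ := by
    rw [restrict_Ioi_eq_restrict_Ici]
  rw [h6] at h4
  have h7 : ∫⁻ y, ‖deriv f y‖ₑ =
      (∫⁻ y in Iic x, ‖deriv f y‖ₑ) + ∫⁻ y in Ioi x, ‖deriv f y‖ₑ := by
    rw [← lintegral_add_compl _ (measurableSet_Iic (a := x)), compl_Iic]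
  rw [h7, two_mul]
  exact add_le_add h3 h4

/-- the inequality in coordinates -/
theorem coord {n : ℕ} (hn : 2 ≤ n) {u : (Fin n → ℝ) → ℝ} (hu : ContDiff ℝ 1 u)
    (h2u : HasCompactSupport u) :
    ∫⁻ x, (2 * ‖u x‖ₑ) ^ ((n : ℝ) / ((n : ℝ) - 1)) ≤
      ∏ i, (∫⁻ x, ‖fderiv ℝ u x (Pi.single i 1)‖ₑ) ^ (1 / ((n : ℝ) - 1)) := by
  have hn' : (2 : ℝ) ≤ n := by exact_mod_cast hn
  have hn1 : (0 : ℝ) < (n : ℝ) - 1 := by linarith
  have hp0 : 0 ≤ 1 / ((n : ℝ) - 1) := by positivity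
  have hfd : Continuous (fderiv ℝ u) := hu.continuous_fderiv one_ne_zero
  calc ∫⁻ x, (2 * ‖u x‖ₑ) ^ ((n : ℝ) / ((n : ℝ) - 1))
      = ∫⁻ x, ∏ _i : Fin n, (2 * ‖u x‖ₑ) ^ (1 / ((n : ℝ) - 1)) := by
        refine lintegral_congr fun x => ?_
        rw [Finset.prod_const, Finset.card_univ, Fintype.card_fin, ← ENNReal.rpow_natCast,
          ← ENNReal.rpow_mul]
        congr 1
        field_simp
    _ ≤ ∫⁻ x, ∏ i : Fin n, (∫⁻ t, ‖fderiv ℝ u (Function.update x i t) (Pi.single i 1)‖ₑ) ^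
          (1 / ((n : ℝ) - 1)) := by
        refine lintegral_mono fun x => ?_
        refine Finset.prod_le_prod' fun i _ => ?_
        refine ENNReal.rpow_le_rpow ?_ hp0
        have h1 := one_var (f := u ∘ Function.update x i)
          (hu.comp (contDiff_update 1 x i))
          (h2u.comp_isClosedEmbedding (isClosedEmbedding_update x i)) (x i)
        simp only [Function.comp_apply, Function.update_eq_self] at h1
        refine h1.trans (le_of_eq ?_)
        refine lintegral_congr fun y => ?_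
        rw [fderiv_comp_deriv _ (hu.differentiable one_ne_zero).differentiableAt
          (hasDerivAt_update x i y).differentiableAt, deriv_update]
    _ ≤ ∏ i, (∫⁻ x, ‖fderiv ℝ u x (Pi.single i 1)‖ₑ) ^ (1 / ((n : ℝ) - 1)) := by
        refine loomis_whitney (fun _ : Fin n => (volume : Measure ℝ)) hp0 ?_
          (g := fun i x => ‖fderiv ℝ u x (Pi.single i 1)‖ₑ) ?_
        · rw [Fintype.card_fin]
          field_simp
        · intro i
          exact ((hfd.clm_apply continuous_const).enorm).measurable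

end LW

open LW in
/-- A1 (LW) -/
theorem lw_proof : Stmt_LW := by
  intro n hn b f hf h2f hf0
  have hn' : (2 : ℝ) ≤ n := by exact_mod_cast hn
  have hn0 : (0 : ℝ) < n := by linarith
  have hn1 : (0 : ℝ) < (n : ℝ) - 1 := by linarith
  set q : ℝ := (n : ℝ) / ((n : ℝ) - 1) with hq
  have hq0 : 0 < q := by positivity
  -- coordinates
  let eM : (Fin n → ℝ) ≃ᵐ E n :=
    (MeasurableEquiv.toLp 2 (Fin n → ℝ)).trans b.repr.symm.toHomeomorph.toMeasurableEquiv
  have hmp : MeasurePreserving eM volume volume :=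
    b.measurePreserving_repr_symm.comp (PiLp.volume_preserving_toLp (Fin n))
  let L : (Fin n → ℝ) ≃L[ℝ] E n :=
    (PiLp.continuousLinearEquiv 2 ℝ (fun _ : Fin n => ℝ)).symm.trans
      b.repr.symm.toContinuousLinearEquiv
  have hL : ∀ x, eM x = L x := fun x => rfl
  let u : (Fin n → ℝ) → ℝ := f ∘ L
  have hu : ContDiff ℝ 1 u := hf.comp L.contDiff
  have h2u : HasCompactSupport u := h2f.comp_homeomorph L.toHomeomorph
  have hLs : ∀ i, L (Pi.single i 1) = b i := by
    intro i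
    show b.repr.symm (WithLp.toLp 2 (Pi.single i 1)) = b i
    have : (WithLp.toLp 2 (Pi.single i 1) : EuclideanSpace ℝ (Fin n)) =
        EuclideanSpace.single i 1 := rfl
    rw [this, b.repr_symm_single]
  have hfu : ∀ x i, fderiv ℝ u x (Pi.single i 1) = fderiv ℝ f (L x) (b i) := by
    intro x i
    show fderiv ℝ (f ∘ L) x (Pi.single i 1) = _
    rw [fderiv_comp _ (hf.differentiable one_ne_zero).differentiableAt
      L.differentiableAt, ContinuousLinearEquiv.fderiv]
    show fderiv ℝ f (L x) (L (Pi.single i 1)) = _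
    rw [hLs]
  have key := coord hn hu h2u
  simp only [hfu] at key
  have k1 : ∫⁻ x, (2 * ‖u x‖ₑ) ^ q = ∫⁻ y, (2 * ‖f y‖ₑ) ^ q :=
    hmp.lintegral_comp_emb eM.measurableEmbedding fun y => (2 * ‖f y‖ₑ) ^ q
  have k2 : ∀ i, ∫⁻ x, ‖fderiv ℝ f (L x) (b i)‖ₑ = ∫⁻ y, ‖fderiv ℝ f y (b i)‖ₑ := fun i =>
    hmp.lintegral_comp_emb eM.measurableEmbedding fun y => ‖fderiv ℝ f y (b i)‖ₑ
  rw [k1] at key
  simp only [k2] at key
  -- real integrals
  have hfd : Continuous (fderiv ℝ f) := hf.continuous_fderiv one_ne_zero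
  have hint : ∀ i, Integrable fun y => fderiv ℝ f y (b i) := by
    intro i
    refine (hfd.clm_apply continuous_const).integrable_of_hasCompactSupport ?_
    exact (h2f.fderiv ℝ).comp_left (g := fun T : E n →L[ℝ] ℝ => T (b i)) rfl
  have k3 : ∀ i, ∫⁻ y, ‖fderiv ℝ f y (b i)‖ₑ = ENNReal.ofReal (∫ y, |fderiv ℝ f y (b i)|) := by
    intro i
    exact (ofReal_integral_norm_eq_lintegral_enorm (hint i)).symm
  have hfq : Continuous fun y => f y ^ q :=
    hf.continuous.rpow_const fun y => Or.inr hq0.le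
  have hfqi : Integrable fun y => f y ^ q := by
    refine hfq.integrable_of_hasCompactSupport ?_
    exact h2f.comp_left (g := fun t : ℝ => t ^ q) (Real.zero_rpow hq0.ne')
  have k4 : ∫⁻ y, (2 * ‖f y‖ₑ) ^ q = ENNReal.ofReal (2 ^ q * ∫ y, f y ^ q) := by
    rw [← integral_const_mul, ofReal_integral_eq_lintegral_ofReal (hfqi.const_mul _)
      (Filter.Eventually.of_forall fun y => by
        have := hf0 y
        positivity)]
    refine lintegral_congr fun y => ?_
    have h1 : (2 : ℝ≥0∞) * ‖f y‖ₑ = ENNReal.ofReal (2 * f y) := by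
      rw [Real.enorm_of_nonneg (hf0 y), ENNReal.ofReal_mul (by norm_num)]
      norm_num
    rw [h1, ENNReal.ofReal_rpow_of_nonneg (by have := hf0 y; positivity) hq0.le,
      Real.mul_rpow (by norm_num) (hf0 y)]
  rw [k4] at key
  simp only [k3] at key
  set Aa : Fin n → ℝ := fun l => ∫ y, |fderiv ℝ f y (b l)| with hA
  have hA0 : ∀ l, 0 ≤ Aa l := fun l => integral_nonneg fun y => abs_nonneg _
  have k5 : ∏ i, ENNReal.ofReal (Aa i) ^ (1 / ((n : ℝ) - 1)) =
      ENNReal.ofReal ((∏ i, Aa i) ^ (1 / ((n : ℝ) - 1))) := by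
    rw [← Real.finset_prod_rpow _ _ (fun i _ => hA0 i),
      ENNReal.ofReal_prod_of_nonneg (fun i _ => Real.rpow_nonneg (hA0 i) _)]
    refine Finset.prod_congr rfl fun i _ => ?_
    rw [ENNReal.ofReal_rpow_of_nonneg (hA0 i) (by positivity)]
  change ENNReal.ofReal (2 ^ q * ∫ y, f y ^ q) ≤
    ∏ i, ENNReal.ofReal (Aa i) ^ (1 / ((n : ℝ) - 1)) at key
  rw [k5, ENNReal.ofReal_le_ofReal_iff (Real.rpow_nonneg (Finset.prod_nonneg fun i _ => hA0 i) _)]
    at key
  have hI0 : 0 ≤ ∫ y, f y ^ q := integral_nonneg fun y => Real.rpow_nonneg (hf0 y) _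
  have hr0 : 0 ≤ ((n : ℝ) - 1) / n := by positivity
  have k6 := Real.rpow_le_rpow (by positivity) key hr0
  rw [Real.mul_rpow (by positivity) hI0, ← Real.rpow_mul (by norm_num),
    ← Real.rpow_mul (Finset.prod_nonneg fun i _ => hA0 i)] at k6
  have e1 : q * (((n : ℝ) - 1) / n) = 1 := by
    rw [hq]
    field_simp
  have e2 : 1 / ((n : ℝ) - 1) * (((n : ℝ) - 1) / n) = 1 / n := by
    field_simp
  rw [e1, e2, Real.rpow_one] at k6
  exact k6

end Pool.Agent.ROB
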