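import Pool.Agent.ROB.Stmts

/-!
MP_7b7880_an: module LGG.  The divergence theorem on Lipschitz subgraphs in general position, by a
rotation from the standard position.
-/

namespace Pool.Agent.ROB

open MeasureTheory Set
open scoped ContDiff ENNReal Topology

namespace LGG

variable {m : ℕ}

@[simp] theorem up_last (y : E m) (t : ℝ) : (up y t) (Fin.last m) = t := by
  simp [up]

@[simp] theorem up_castSucc (y : E m) (t : ℝ) (i : Fin m) : (up y t) (Fin.castSucc i) = y i := by
  simp [up]

@[simp] theorem low_apply (x : E (m + 1)) (i : Fin m) : low x i = x (Fin.castSucc i) := rfl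

theorem low_up (y : E m) (t : ℝ) : low (up y t) = y := by
  ext i; simp

theorem up_low (x : E (m + 1)) : up (low x) (x (Fin.last m)) = x := by
  ext i
  refine Fin.lastCases ?_ (fun j => ?_) i <;> simp

theorem norm_up_sq (y : E m) (t : ℝ) : ‖up y t‖ ^ 2 = ‖y‖ ^ 2 + t ^ 2 := by
  rw [EuclideanSpace.norm_sq_eq, EuclideanSpace.norm_sq_eq, Fin.sum_univ_castSucc]
  simp

theorem inner_up (y z : E m) (t s : ℝ) : (inner ℝ (up y t) (up z s) : ℝ) = inner ℝ y z + t * s := by
  simp only [PiLp.inner_apply, Fin.sum_univ_castSucc, up_castSucc, up_last]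
  simp [mul_comm]

/-- The isometric embedding. -/
noncomputable def upL : E m →ₗᵢ[ℝ] E (m + 1) where
  toFun y := up y 0
  map_add' y z := by
    ext i
    refine Fin.lastCases ?_ (fun j => ?_) i <;> simp
  map_smul' c y := by
    ext i
    refine Fin.lastCases ?_ (fun j => ?_) i <;> simp
  norm_map' y := by
    have h := norm_up_sq y 0
    have h2 : ‖up y 0‖ ^ 2 = ‖y‖ ^ 2 := by rw [h]; ring
    exact (sq_eq_sq₀ (norm_nonneg _) (norm_nonneg _)).1 h2

theorem upL_apply (y : E m) : upL y = up y 0 := rfl

/-- The projection. -/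
noncomputable def lowL : E (m + 1) →L[ℝ] E m :=
  LinearMap.toContinuousLinearMap
    { toFun := low
      map_add' := fun y z => by ext i; simp
      map_smul' := fun c y => by ext i; simp }

theorem lowL_apply (x : E (m + 1)) : lowL x = low x := rfl

/-- The last basis vector. -/
noncomputable def el : E (m + 1) := EuclideanSpace.single (Fin.last m) 1

theorem up_eq (y : E m) (t : ℝ) : up y t = up y 0 + t • el := by
  ext i
  refine Fin.lastCases ?_ (fun j => ?_) i
  · simp [el]
  · simp [el, Fin.castSucc_ne_last]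

theorem inner_el (x : E (m + 1)) : (inner ℝ x el : ℝ) = x (Fin.last m) := by
  simp [el, EuclideanSpace.inner_single_right]

theorem up_continuous {γ : E m → ℝ} (hγ : Continuous γ) : Continuous (fun y => up y (γ y)) := by
  have : (fun y => up y (γ y)) = fun y => upL y + γ y • el := by
    funext y; rw [up_eq, upL_apply]
  rw [this]
  exact upL.continuous.add (hγ.smul continuous_const)

theorem norm_le_up (y : E m) (t : ℝ) : ‖y‖ ≤ ‖up y t‖ := by
  refine le_of_sq_le_sq ?_ (norm_nonneg _)
  rw [norm_up_sq]
  nlinarith [sq_nonneg t]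

/-- The standard graph. -/
def gr0 (γ : E m → ℝ) : Set (E (m + 1)) := {x | x (Fin.last m) = γ (low x)}

theorem isClosed_gr0 {γ : E m → ℝ} (hγ : Continuous γ) : IsClosed (gr0 γ) :=
  isClosed_eq (by fun_prop) (hγ.comp lowL.continuous)

/-- The weight. -/
noncomputable def wt (γ : E m → ℝ) (y : E m) : ℝ := Real.sqrt (1 + ‖fderiv ℝ γ y‖ ^ 2)

theorem wt_meas (γ : E m → ℝ) : Measurable (wt γ) :=
  (((measurable_fderiv ℝ γ).norm.pow_const 2).const_add 1).sqrt

/-- Area formula as an equality of measures. -/
theorem area_measure (HA : Stmt_Area) (hm : 1 ≤ m) {γ : E m → ℝ} {K : NNReal}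
    (hγ : LipschitzWith K γ) :
    (surf (m + 1)).restrict (gr0 γ) =
      Measure.map (fun y => up y (γ y))
        ((volume : Measure (E m)).withDensity fun y => ENNReal.ofReal (wt γ y)) := by
  have hφ : Measurable (fun y => up y (γ y)) := (up_continuous hγ.continuous).measurable
  have hw : Measurable (fun y => ENNReal.ofReal (wt γ y)) := (wt_meas γ).ennreal_ofReal
  ext S hS
  have h1 := HA m hm γ K hγ (S.indicator 1) (measurable_one.indicator hS)
  change ∫⁻ x in gr0 γ, S.indicator 1 x ∂(surf (m + 1)) =
    ∫⁻ y : E m, S.indicator 1 (up y (γ y)) * ENNReal.ofReal (wt γ y) at h1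
  rw [lintegral_indicator_one hS] at h1
  rw [h1, Measure.map_apply hφ hS, withDensity_apply _ (hφ hS), ← lintegral_indicator (hφ hS)]
  congr 1
  funext y
  by_cases h : up y (γ y) ∈ S
  · rw [indicator_of_mem h, indicator_of_mem (show y ∈ (fun y => up y (γ y)) ⁻¹' S from h)]
    simp
  · rw [indicator_of_notMem h,
      indicator_of_notMem (show y ∉ (fun y => up y (γ y)) ⁻¹' S from h)]
    simp

theorem up_injective (γ : E m → ℝ) : Function.Injective (fun y : E m => up y (γ y)) := by
  intro y z h
  have := congrArg low h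
  simpa only [low_up] using this

theorem area_integral (HA : Stmt_Area) (hm : 1 ≤ m) {γ : E m → ℝ} {K : NNReal}
    (hγ : LipschitzWith K γ) (F : E (m + 1) → ℝ) :
    ∫ x in gr0 γ, F x ∂(surf (m + 1)) = ∫ y : E m, wt γ y * F (up y (γ y)) := by
  have hφ : MeasurableEmbedding (fun y => up y (γ y)) :=
    (up_continuous hγ.continuous).measurableEmbedding (up_injective γ)
  have hw : Measurable (fun y => ENNReal.ofReal (wt γ y)) := (wt_meas γ).ennreal_ofReal
  rw [area_measure HA hm hγ, hφ.integral_map, integral_withDensity_eq_integral_toReal_smul hw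
    (Filter.Eventually.of_forall fun _ => ENNReal.ofReal_lt_top)]
  refine integral_congr_ae (Filter.Eventually.of_forall fun y => ?_)
  simp only [smul_eq_mul]
  rw [ENNReal.toReal_ofReal (show 0 ≤ wt γ y from Real.sqrt_nonneg _)]

section rot

variable (T : E (m + 1) ≃ₗᵢ[ℝ] E (m + 1)) (γ : E (m + 1) → ℝ)

/-- The function in the rotated coordinates. -/
noncomputable def gp (y : E m) : ℝ := γ (T (up y 0))

variable {T γ}

theorem gp_lip {K : NNReal} (hγ : LipschitzWith K γ) : LipschitzWith K (gp T γ) := by
  have h := (hγ.comp T.lipschitz).comp (upL (m := m)).lipschitz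
  have h2 : K * 1 * 1 = K := by ring
  rw [h2] at h
  exact h

theorem gam_T {e : E (m + 1)} (hT : T el = e)
    (hinv : ∀ (y : E (m + 1)) (t : ℝ), γ (y + t • e) = γ y) (y : E m) (t : ℝ) :
    γ (T (up y t)) = gp T γ y := by
  rw [up_eq, map_add, map_smul, hT, hinv]
  rfl

theorem gam_T' {e : E (m + 1)} (hT : T el = e)
    (hinv : ∀ (y : E (m + 1)) (t : ℝ), γ (y + t • e) = γ y) (x : E (m + 1)) :
    γ (T x) = gp T γ (low x) := by
  conv_lhs => rw [← up_low x]
  rw [gam_T hT hinv]

theorem grad_T {e : E (m + 1)} (hT : T el = e)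
    (hinv : ∀ (y : E (m + 1)) (t : ℝ), γ (y + t • e) = γ y) (y : E m) (t : ℝ) :
    gradient γ (T (up y t)) = T (up (gradient (gp T γ) y) 0) := by
  by_cases hd : DifferentiableAt ℝ (gp T γ) y
  · have h1 : γ = fun x => gp T γ (lowL (T.symm x)) := by
      funext x
      rw [lowL_apply, ← gam_T' hT hinv, T.apply_symm_apply]
    have h2 : HasFDerivAt γ ((fderiv ℝ (gp T γ) y).comp
        (lowL.comp (T.symm.toContinuousLinearEquiv : E (m + 1) →L[ℝ] E (m + 1))))
        (T (up y t)) := by
      have h3 : HasFDerivAt (fun x => lowL (T.symm x))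
          (lowL.comp (T.symm.toContinuousLinearEquiv : E (m + 1) →L[ℝ] E (m + 1)))
          (T (up y t)) :=
        (lowL.comp (T.symm.toContinuousLinearEquiv : E (m + 1) →L[ℝ] E (m + 1))).hasFDerivAt
      have h4 : HasFDerivAt (gp T γ) (fderiv ℝ (gp T γ) y) (lowL (T.symm (T (up y t)))) := by
        rw [T.symm_apply_apply, lowL_apply, low_up]
        exact hd.hasFDerivAt
      have h5 := h4.comp (T (up y t)) h3
      refine h5.congr_of_eventuallyEq (Filter.Eventually.of_forall fun x => ?_)
      exact congrFun h1 x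
    have h3 : HasGradientAt γ (T (up (gradient (gp T γ) y) 0)) (T (up y t)) := by
      unfold HasGradientAt
      refine h2.congr_fderiv ?_
      ext v
      rw [InnerProductSpace.toDual_apply_apply]
      have h4 : (inner ℝ (T (up (gradient (gp T γ) y) 0)) v : ℝ) =
          inner ℝ (up (gradient (gp T γ) y) 0) (T.symm v) := by
        rw [← T.symm.inner_map_map, T.symm_apply_apply]
      rw [h4]
      conv_rhs => rw [← up_low (T.symm v)]
      rw [inner_up, zero_mul, add_zero]
      unfold gradient
      rw [InnerProductSpace.toDual_symm_apply]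
      rfl
    exact h3.gradient
  · have hd' : ¬ DifferentiableAt ℝ γ (T (up y t)) := by
      intro h
      apply hd
      have h1 : gp T γ = fun z => γ (T (upL z + t • el)) := by
        funext z
        rw [upL_apply, ← up_eq, gam_T hT hinv]
      rw [h1]
      have h2 : DifferentiableAt ℝ (fun z : E m => T (upL z + t • el)) y := by
        have h3 : DifferentiableAt ℝ (fun z : E m => upL z + t • (el : E (m + 1))) y :=
          (upL (m := m)).toContinuousLinearMap.differentiableAt.add_const _
        exact (T.toContinuousLinearEquiv : E (m + 1) →L[ℝ] E (m + 1)).differentiableAt.comp y h3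
      have h3 : DifferentiableAt ℝ γ ((fun z : E m => T (upL z + t • el)) y) := by
        change DifferentiableAt ℝ γ (T (upL y + t • el))
        rw [upL_apply, ← up_eq]
        exact h
      exact h3.comp y h2
    have h1 : gradient γ (T (up y t)) = 0 := by
      unfold gradient
      rw [fderiv_zero_of_not_differentiableAt hd', map_zero]
    have h2 : gradient (gp T γ) y = 0 := by
      unfold gradient
      rw [fderiv_zero_of_not_differentiableAt hd, map_zero]
    rw [h1, h2]
    have : up (0 : E m) 0 = 0 := by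
      have := (upL (m := m)).map_zero
      rwa [upL_apply] at this
    rw [this, map_zero]

theorem norm_grad {γ : E m → ℝ} (y : E m) : ‖gradient γ y‖ = ‖fderiv ℝ γ y‖ := by
  unfold gradient
  rw [LinearIsometryEquiv.norm_map]

end rot

theorem surf_preserving (n : ℕ) (T : E n ≃ₗᵢ[ℝ] E n) :
    MeasurePreserving T (surf n) (surf n) := by
  have h := T.toIsometryEquiv.measurePreserving_hausdorffMeasure ((n : ℝ) - 1)
  unfold surf
  refine ⟨T.continuous.measurable, ?_⟩
  rw [Measure.map_smul]
  congr 1
  exact h.map_eq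

theorem dv_conj {n : ℕ} (T : E n ≃ₗᵢ[ℝ] E n) {X : E n → E n} (hX : ContDiff ℝ 1 X) (x : E n) :
    dv (fun z => T.symm (X (T z))) x = dv X (T x) := by
  unfold dv
  have h1 : HasFDerivAt (fun z => T.symm (X (T z)))
      ((T.symm.toContinuousLinearEquiv : E n →L[ℝ] E n).comp ((fderiv ℝ X (T x)).comp
        (T.toContinuousLinearEquiv : E n →L[ℝ] E n))) x := by
    have h2 : HasFDerivAt T (T.toContinuousLinearEquiv : E n →L[ℝ] E n) x :=
      (T.toContinuousLinearEquiv : E n →L[ℝ] E n).hasFDerivAt
    have h3 : HasFDerivAt X (fderiv ℝ X (T x)) (T x) :=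
      (hX.differentiable one_ne_zero (T x)).hasFDerivAt
    have h4 := h3.comp x h2
    have h5 : HasFDerivAt T.symm (T.symm.toContinuousLinearEquiv : E n →L[ℝ] E n) (X (T x)) :=
      (T.symm.toContinuousLinearEquiv : E n →L[ℝ] E n).hasFDerivAt
    exact h5.comp x h4
  rw [h1.fderiv]
  have h2 := LinearMap.trace_conj' (R := ℝ) (fderiv ℝ X (T x)).toLinearMap T.symm.toLinearEquiv
  rw [← h2]
  congr 1

end LGG

open LGG in
theorem lgg_proof (HA : Stmt_Area) (HS : Stmt_SubGG) : Stmt_LGG := by
  intro n hn e γ K he hγ hinv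
  obtain ⟨m, rfl⟩ : ∃ m, n = m + 1 := ⟨n - 1, by omega⟩
  have hm : 1 ≤ m := by omega
  -- the rotation
  obtain ⟨T, hT⟩ : ∃ T : E (m + 1) ≃ₗᵢ[ℝ] E (m + 1), T el = e := by
    have hel : ‖(el : E (m + 1))‖ = ‖e‖ := by rw [he]; simp [el]
    exact ⟨_, Submodule.reflection_sub hel⟩
  have hγ' := gp_lip (T := T) hγ
  have hinner : ∀ x : E (m + 1), (inner ℝ (T x) e : ℝ) = x (Fin.last m) := by
    intro x
    rw [← hT, T.inner_map_map, inner_el]
  have hpre : T ⁻¹' {x : E (m + 1) | inner ℝ x e = γ x} = gr0 (gp T γ) := by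
    ext x
    change (inner ℝ (T x) e = γ (T x)) ↔ x (Fin.last m) = gp T γ (low x)
    rw [hinner, gam_T' hT hinv]
  have hpre2 : T ⁻¹' {x : E (m + 1) | inner ℝ x e < γ x} =
      {x : E (m + 1) | x (Fin.last m) < gp T γ (low x)} := by
    ext x
    change (inner ℝ (T x) e < γ (T x)) ↔ x (Fin.last m) < gp T γ (low x)
    rw [hinner, gam_T' hT hinv]
  have hme : MeasurableEmbedding T := T.toHomeomorph.measurableEmbedding
  have hsp := surf_preserving (m + 1) T
  constructor
  · intro r
    have hcl : IsClosed {x : E (m + 1) | inner ℝ x e = γ x} :=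
      isClosed_eq (continuous_id.inner continuous_const) hγ.continuous
    rw [← hsp.measure_preimage (hcl.inter Metric.isClosed_closedBall).measurableSet.nullMeasurableSet,
      preimage_inter, hpre]
    have hb : T ⁻¹' Metric.closedBall 0 r = Metric.closedBall 0 r := by
      ext x
      simp
    rw [hb, inter_comm, ← Measure.restrict_apply Metric.isClosed_closedBall.measurableSet,
      area_measure HA hm hγ']
    have hφ : Measurable (fun y => up y (gp T γ y)) := (up_continuous hγ'.continuous).measurable
    have hS : MeasurableSet (Metric.closedBall (0 : E (m + 1)) r) :=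
      Metric.isClosed_closedBall.measurableSet
    rw [Measure.map_apply hφ hS, withDensity_apply _ (hφ hS)]
    have hsub : (fun y : E m => up y (gp T γ y)) ⁻¹' Metric.closedBall 0 r ⊆
        Metric.closedBall 0 r := by
      intro y hy
      rw [mem_preimage, mem_closedBall_zero_iff] at hy
      rw [mem_closedBall_zero_iff]
      exact (norm_le_up y _).trans hy
    calc ∫⁻ y in (fun y : E m => up y (gp T γ y)) ⁻¹' Metric.closedBall 0 r,
          ENNReal.ofReal (wt (gp T γ) y)
        ≤ ∫⁻ y in Metric.closedBall (0 : E m) r, ENNReal.ofReal (wt (gp T γ) y) :=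
          lintegral_mono_set hsub
      _ ≤ ∫⁻ y in Metric.closedBall (0 : E m) r, ENNReal.ofReal (Real.sqrt (1 + K ^ 2)) := by
          refine lintegral_mono fun y => ENNReal.ofReal_le_ofReal (Real.sqrt_le_sqrt ?_)
          have := norm_fderiv_le_of_lipschitz ℝ (x₀ := y) hγ'
          have h2 : ‖fderiv ℝ (gp T γ) y‖ ^ 2 ≤ (K : ℝ) ^ 2 := by gcongr
          linarith
      _ < ⊤ := by
          rw [lintegral_const, Measure.restrict_apply_univ]
          exact ENNReal.mul_lt_top ENNReal.ofReal_lt_top
            (isCompact_closedBall (0 : E m) r).measure_lt_top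
  · intro X hX hXc
    have h1 : ∫ x in {x : E (m + 1) | inner ℝ x e < γ x}, dv X x =
        ∫ x in {x : E (m + 1) | x (Fin.last m) < gp T γ (low x)}, dv X (T x) := by
      rw [← hpre2, T.measurePreserving.setIntegral_preimage_emb hme]
    have h2 : ∀ F : E (m + 1) → ℝ,
        ∫ x in {x : E (m + 1) | inner ℝ x e = γ x}, F x ∂(surf (m + 1)) =
        ∫ x in gr0 (gp T γ), F (T x) ∂(surf (m + 1)) := by
      intro F
      rw [← hpre, hsp.setIntegral_preimage_emb hme]
    rw [h1, h2, area_integral HA hm hγ']
    have hX' : ContDiff ℝ 1 (fun z => T.symm (X (T z))) :=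
      T.symm.toContinuousLinearEquiv.contDiff.comp
        (hX.comp T.toContinuousLinearEquiv.contDiff)
    have hXc' : HasCompactSupport (fun z => T.symm (X (T z))) := by
      have h3 : HasCompactSupport (X ∘ T) := hXc.comp_homeomorph T.toHomeomorph
      exact h3.comp_left (g := T.symm) (map_zero _)
    have h3 := HS m hm (gp T γ) K hγ' _ hX' hXc'
    simp only [dv_conj T hX] at h3
    rw [h3]
    refine integral_congr_ae (Filter.Eventually.of_forall fun y => ?_)
    simp only
    rw [grad_T hT hinv]
    have h4 : ‖T (up (gradient (gp T γ) y) 0)‖ = ‖fderiv ℝ (gp T γ) y‖ := by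
      rw [T.norm_map, ← upL_apply, (upL (m := m)).norm_map, norm_grad]
    rw [h4, inner_smul_right]
    have h5 : 0 < Real.sqrt (1 + ‖fderiv ℝ (gp T γ) y‖ ^ 2) := by positivity
    have h6 : wt (gp T γ) y * (1 / Real.sqrt (1 + ‖fderiv ℝ (gp T γ) y‖ ^ 2) *
        inner ℝ (X (T (up y (gp T γ y)))) (e - T (up (gradient (gp T γ) y) 0))) =
        inner ℝ (X (T (up y (gp T γ y)))) (e - T (up (gradient (gp T γ) y) 0)) := by
      unfold wt
      field_simp
    rw [h6]
    have h7 : e - T (up (gradient (gp T γ) y) 0) = T (up (-(gradient (gp T γ) y)) 1) := by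
      rw [← hT, ← map_sub]
      congr 1
      ext i
      refine Fin.lastCases ?_ (fun j => ?_) i
      · simp [el]
      · simp [el, Fin.castSucc_ne_last]
    rw [h7]
    rw [← T.inner_map_map (T.symm _) _, T.apply_symm_apply]

end Pool.Agent.ROB
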