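import Pool.Agent.ROB.Stmts

/-!
MP_7b7880_an: module LOC (near every slope there are arbitrarily small good patches).
-/

namespace Pool.Agent.ROB

open MeasureTheory Set Filter Topology

namespace Loc

lemma exists_basis {n : ℕ} (i0 : Fin n) (u : E n) (hu : ‖u‖ = 1) :
    ∃ b : OrthonormalBasis (Fin n) ℝ (E n), b i0 = u := by
  have hv : Orthonormal ℝ (({i0} : Set (Fin n)).domRestrict (fun _ => u)) := by
    refine ⟨fun _ => hu, ?_⟩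
    intro x y hxy
    exact absurd (Subsingleton.elim x y) hxy
  obtain ⟨b, hb⟩ := hv.exists_orthonormalBasis_extension_of_card_eq (by simp)
  exact ⟨b, hb i0 rfl⟩

lemma field_deriv {n : ℕ} {H : ℝ → ℝ} {d : ℝ} {ξ : E n} (hξ : 0 < ‖ξ‖)
    (hH : HasStrictDerivAt H d ‖ξ‖) :
    ∃ A : E n →L[ℝ] E n, HasStrictFDerivAt (fieldOf H) A ξ ∧
      ∀ v, inner ℝ v (A v) = H ‖ξ‖ * ‖v‖ ^ 2 + d / ‖ξ‖ * inner ℝ ξ v ^ 2 := by
  have h1 : HasStrictFDerivAt (fun x : E n => ‖x‖ ^ 2) (2 • (innerSL ℝ ξ)) ξ :=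
    hasStrictFDerivAt_norm_sq ξ
  have h2 := (Real.hasStrictDerivAt_sqrt (x := ‖ξ‖ ^ 2) (by positivity)).comp_hasStrictFDerivAt ξ h1
  have h3 : (Real.sqrt ∘ fun x : E n => ‖x‖ ^ 2) = fun x => ‖x‖ := by
    funext x
    simp [Real.sqrt_sq (norm_nonneg x)]
  rw [h3] at h2
  have h4 := hH.comp_hasStrictFDerivAt ξ h2
  have h5 := h4.smul (hasStrictFDerivAt_id ξ)
  refine ⟨_, h5, fun v => ?_⟩
  have h6 : √(‖ξ‖ ^ 2) = ‖ξ‖ := Real.sqrt_sq (norm_nonneg ξ)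
  simp only [Function.comp, add_apply, smul_apply,
    ContinuousLinearMap.smulRight_apply, ContinuousLinearMap.coe_id', id, inner_add_right,
    inner_smul_right, innerSL_apply_apply, smul_eq_mul, nsmul_eq_mul, h6, real_inner_self_eq_norm_sq]
  rw [real_inner_comm ξ v]
  have : ‖ξ‖ ≠ 0 := hξ.ne'
  field_simp
  ring

lemma prod_ite_const {n : ℕ} (i0 : Fin n) (A B : ℝ) :
    ∏ l : Fin n, (if l = i0 then A else B) = A * B ^ (n - 1) := by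
  rw [Fintype.prod_eq_mul_prod_compl i0]
  simp only [if_true]
  congr 1
  have : ∏ l ∈ ({i0} : Finset (Fin n))ᶜ, (if l = i0 then A else B) =
      ∏ l ∈ ({i0} : Finset (Fin n))ᶜ, B := by
    refine Finset.prod_congr rfl fun l hl => ?_
    rw [if_neg]
    simpa using hl
  rw [this, Finset.prod_const, Finset.card_compl, Finset.card_singleton, Fintype.card_fin]

lemma mem_ball_of_cube {n : ℕ} (hn : 2 ≤ n) (b : OrthonormalBasis (Fin n) ℝ (E n)) (ξ x : E n)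
    (r : ℝ) (hr : 0 < r) (h : ∀ l, |inner ℝ (b l) (x - ξ)| ≤ r / √n) : ‖x - ξ‖ ≤ r := by
  have hn0 : (0 : ℝ) < n := by exact_mod_cast (by omega : 0 < n)
  have h1 : ‖x - ξ‖ ^ 2 ≤ r ^ 2 := by
    rw [← b.sum_sq_inner_right (x - ξ)]
    calc ∑ l, inner ℝ (b l) (x - ξ) ^ 2 ≤ ∑ _l : Fin n, (r / √n) ^ 2 := by
          refine Finset.sum_le_sum fun l _ => ?_
          rw [← sq_abs]
          exact pow_le_pow_left₀ (abs_nonneg _) (h l) 2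
      _ = r ^ 2 := by
          rw [Finset.sum_const, Finset.card_univ, Fintype.card_fin, nsmul_eq_mul, div_pow,
            Real.sq_sqrt hn0.le]
          field_simp
  exact le_of_sq_le_sq h1 hr.le

end Loc

open Loc in
theorem loc_proof : Stmt_Loc := by
  intro n hn k a A₀ H H' mu hP ξ0 ε h0 ha hε hε1
  have hn0 : (0 : ℝ) < n := by exact_mod_cast (by omega : 0 < n)
  have hn1 : (1 : ℝ) ≤ n := by exact_mod_cast (by omega : 1 ≤ n)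
  have hs : ‖ξ0‖ ∈ Ioo 0 a := ⟨h0, ha⟩
  obtain ⟨c0, hc0, hc0H⟩ := hP.pos
  have hHpos : 0 < H ‖ξ0‖ := hc0.trans_le (hc0H _ hs)
  have hH'nn : 0 ≤ H' ‖ξ0‖ := hP.mono _ hs
  have hD : 0 < k ^ 2 - ‖ξ0‖ ^ 2 := by
    have h1 : ‖ξ0‖ < k := ha.trans_le hP.a_le
    nlinarith
  have hmu : 0 < mu ‖ξ0‖ := hP.mu_pos _ hs
  let i0 : Fin n := ⟨0, by omega⟩
  obtain ⟨b, hb⟩ := exists_basis i0 (‖ξ0‖⁻¹ • ξ0) (by
    rw [norm_smul, norm_inv, norm_norm, inv_mul_cancel₀ h0.ne'])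
  obtain ⟨A, hA, hAv⟩ := field_deriv h0 (hP.deriv _ hs)
  -- eventually conditions
  have e1 : ∀ᶠ x in 𝓝 ξ0, 0 < ‖x‖ := continuous_norm.continuousAt.eventually (lt_mem_nhds h0)
  have e2 : ∀ᶠ x in 𝓝 ξ0, ‖x‖ < a := continuous_norm.continuousAt.eventually (gt_mem_nhds ha)
  have e3 : ∀ᶠ x in 𝓝 ξ0, k ^ 2 - ‖x‖ ^ 2 < (1 + ε) * (k ^ 2 - ‖ξ0‖ ^ 2) := by
    have hc : ContinuousAt (fun x : E n => k ^ 2 - ‖x‖ ^ 2) ξ0 := by fun_prop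
    exact hc.eventually (gt_mem_nhds (by nlinarith))
  have e4 : ∀ᶠ x in 𝓝 ξ0, mu ‖x‖ * (k ^ 2 - ‖x‖ ^ 2) <
      (1 + ε) * (mu ‖ξ0‖ * (k ^ 2 - ‖ξ0‖ ^ 2)) := by
    have hc1 : ContinuousAt mu ‖ξ0‖ := hP.cont_mu.continuousAt (Ioo_mem_nhds h0 ha)
    have hc2 : ContinuousAt (fun x : E n => mu ‖x‖) ξ0 :=
      ContinuousAt.comp (f := fun x : E n => ‖x‖) (g := mu) hc1 continuous_norm.continuousAt
    have hc : ContinuousAt (fun x : E n => mu ‖x‖ * (k ^ 2 - ‖x‖ ^ 2)) ξ0 :=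
      hc2.mul (by fun_prop)
    exact hc.eventually (gt_mem_nhds (by
      have : 0 < mu ‖ξ0‖ * (k ^ 2 - ‖ξ0‖ ^ 2) := mul_pos hmu hD
      nlinarith))
  have e5 : ∀ᶠ q : E n × E n in 𝓝 (ξ0, ξ0), ‖fieldOf H q.1 - fieldOf H q.2 - A (q.1 - q.2)‖ ≤
      ε * H ‖ξ0‖ * ‖q.1 - q.2‖ := hA.isLittleO.def (by positivity)
  obtain ⟨r1, hr1, h1⟩ := Metric.eventually_nhds_iff.1 (e1.and (e2.and (e3.and e4)))
  obtain ⟨r2, hr2, h2⟩ := Metric.eventually_nhds_iff.1 e5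
  refine ⟨min r1 r2 / 2, by positivity, fun r hr hrr => ?_⟩
  have hrr1 : r < r1 := by
    have := min_le_left r1 r2
    linarith [lt_min hr1 hr2]
  have hrr2 : r < r2 := by
    have := min_le_right r1 r2
    linarith [lt_min hr1 hr2]
  have hsn : 0 < √(n : ℝ) := Real.sqrt_pos.2 hn0
  let o : E n := ξ0 - (r / √n) • ∑ l, b l
  have ho : ∀ l, inner ℝ (b l) (ξ0 - o) = r / √n := by
    intro l
    have : ξ0 - o = (r / √n) • ∑ l, b l := by simp [o]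
    rw [this, inner_smul_right, inner_sum]
    have h3 : ∑ j, inner ℝ (b l) (b j) = (1 : ℝ) := by
      simp [b.inner_eq_ite]
    rw [h3, mul_one]
  let p : Patch n := ⟨o, b, 2 * r / √n, fun l => if l = i0 then H ‖ξ0‖ + ‖ξ0‖ * H' ‖ξ0‖ else H ‖ξ0‖,
    mu ‖ξ0‖, k ^ 2 - ‖ξ0‖ ^ 2, (1 + ε) * (k ^ 2 - ‖ξ0‖ ^ 2)⟩
  have hball : ∀ x ∈ p.cube, ‖x - ξ0‖ ≤ r := by
    intro x hx
    refine mem_ball_of_cube hn b ξ0 x r hr fun l => ?_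
    have h3 := hx l
    change 0 ≤ inner ℝ (b l) (x - o) ∧ inner ℝ (b l) (x - o) ≤ 2 * r / √n at h3
    have h4 : inner ℝ (b l) (x - ξ0) = inner ℝ (b l) (x - o) - r / √n := by
      rw [← ho l, ← inner_sub_right]
      congr 1
      abel
    rw [h4, abs_le]
    have h5 : 2 * r / √n = r / √n + r / √n := by ring
    rw [h5] at h3
    constructor
    · linarith [h3.1]
    · linarith [h3.2]
  have hc1 : ∀ x ∈ p.cube, 0 < ‖x‖ ∧ ‖x‖ < a ∧ k ^ 2 - ‖x‖ ^ 2 < (1 + ε) * (k ^ 2 - ‖ξ0‖ ^ 2) ∧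
      mu ‖x‖ * (k ^ 2 - ‖x‖ ^ 2) < (1 + ε) * (mu ‖ξ0‖ * (k ^ 2 - ‖ξ0‖ ^ 2)) := by
    intro x hx
    refine h1 ?_
    rw [dist_eq_norm]
    exact (hball x hx).trans_lt hrr1
  refine ⟨p, ?_, rfl, ho, hD, le_rfl, fun x hx => ?_⟩
  swap
  · obtain ⟨h3, h4, _, h6⟩ := hc1 x hx
    exact ⟨h3, h4, h6.le⟩
  refine ⟨?_, ?_, hmu, hD.le, ?_, ?_, ?_, ?_, ?_, ?_⟩
  · change 0 < 2 * r / √n
    positivity
  · intro l
    change 0 < if l = i0 then H ‖ξ0‖ + ‖ξ0‖ * H' ‖ξ0‖ else H ‖ξ0‖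
    split_ifs
    · positivity
    · exact hHpos
  · change k ^ 2 - ‖ξ0‖ ^ 2 ≤ (1 + ε) * (k ^ 2 - ‖ξ0‖ ^ 2)
    nlinarith
  · intro x hx
    exact (hc1 x hx).2.2.1.le
  · intro x hx
    exact (hc1 x hx).2.1.le
  · intro x hx
    obtain ⟨h3, h4, _, _⟩ := hc1 x hx
    have h5 := hP.bd _ ⟨h3, h4⟩
    change ‖H ‖x‖ • x‖ ≤ A₀
    rw [norm_smul, Real.norm_eq_abs, abs_of_pos (hc0.trans_le (hc0H _ ⟨h3, h4⟩)), mul_comm]
    exact h5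
  · intro x hx y hy
    change (1 - ε) * ∑ l, (if l = i0 then H ‖ξ0‖ + ‖ξ0‖ * H' ‖ξ0‖ else H ‖ξ0‖) *
      (inner ℝ (b l) (x - y)) ^ 2 ≤ inner ℝ (x - y) (fieldOf H x - fieldOf H y)
    have h3 := @h2 (x, y) (by
      rw [Prod.dist_eq]
      refine max_lt ?_ ?_
      · change dist x ξ0 < r2
        rw [dist_eq_norm]; exact (hball x hx).trans_lt hrr2
      · change dist y ξ0 < r2
        rw [dist_eq_norm]; exact (hball y hy).trans_lt hrr2)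
    change ‖fieldOf H x - fieldOf H y - A (x - y)‖ ≤ ε * H ‖ξ0‖ * ‖x - y‖ at h3
    obtain ⟨v, hv⟩ : ∃ v, v = x - y := ⟨_, rfl⟩
    rw [← hv] at h3 ⊢
    have h4 : ∑ l, (if l = i0 then H ‖ξ0‖ + ‖ξ0‖ * H' ‖ξ0‖ else H ‖ξ0‖) * (inner ℝ (b l) v) ^ 2 =
        inner ℝ v (A v) := by
      rw [hAv v, ← b.sum_sq_inner_right v, Finset.mul_sum]
      have h5 : ∀ l, (if l = i0 then H ‖ξ0‖ + ‖ξ0‖ * H' ‖ξ0‖ else H ‖ξ0‖) * (inner ℝ (b l) v) ^ 2 =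
          H ‖ξ0‖ * (inner ℝ (b l) v) ^ 2 +
            (if l = i0 then ‖ξ0‖ * H' ‖ξ0‖ * (inner ℝ (b i0) v) ^ 2 else 0) := by
        intro l
        split_ifs with h
        · rw [h]; ring
        · ring
      rw [Finset.sum_congr rfl fun l _ => h5 l, Finset.sum_add_distrib]
      congr 1
      rw [Finset.sum_ite_eq' Finset.univ i0, if_pos (Finset.mem_univ _), hb, real_inner_smul_left]
      have : ‖ξ0‖ ≠ 0 := h0.ne'
      field_simp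
    have h6 : H ‖ξ0‖ * ‖v‖ ^ 2 ≤ inner ℝ v (A v) := by
      rw [hAv v]
      have : 0 ≤ H' ‖ξ0‖ / ‖ξ0‖ * inner ℝ ξ0 v ^ 2 := by positivity
      linarith
    have h7 : |inner ℝ v (fieldOf H x - fieldOf H y - A v)| ≤ ‖v‖ * (ε * H ‖ξ0‖ * ‖v‖) :=
      (abs_real_inner_le_norm _ _).trans (mul_le_mul_of_nonneg_left h3 (norm_nonneg _))
    rw [inner_sub_right] at h7
    have h8 := (abs_le.1 h7).1
    rw [h4]
    nlinarith
  · intro e he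
    change mu ‖ξ0‖ * (k ^ 2 - ‖ξ0‖ ^ 2) ^ n * e ^ (n - 1) ≤
      ∏ l, ((if l = i0 then H ‖ξ0‖ + ‖ξ0‖ * H' ‖ξ0‖ else H ‖ξ0‖) + ((n : ℝ) - 1) * e)
    have h3 : ∀ l, (if l = i0 then H ‖ξ0‖ + ‖ξ0‖ * H' ‖ξ0‖ else H ‖ξ0‖) + ((n : ℝ) - 1) * e =
        if l = i0 then H ‖ξ0‖ + ‖ξ0‖ * H' ‖ξ0‖ + ((n : ℝ) - 1) * e
        else H ‖ξ0‖ + ((n : ℝ) - 1) * e := by
      intro l
      split_ifs <;> rfl
    rw [Finset.prod_congr rfl fun l _ => h3 l, prod_ite_const]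
    exact hP.alg _ hs e he

end Pool.Agent.ROB
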