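import Pool.Agent.ROB.Stmts

/-!
MP_7b7880_an, module C3 (MT): main theorem for domains, from `Stmt_Vit` and `Stmt_Prof`.
-/

namespace Pool.Agent.ROB

namespace MTm

open Set Filter Topology MeasureTheory

variable {n : ℕ} {y f g gd : ℝ → ℝ}

lemma gd_deriv (h : Radial n y f g gd) {r : ℝ} (hr : 0 < r) :
    HasDerivAt gd (-2 * g r * gd r - ((n : ℝ) - 1) * (gd r / r - g r / r ^ 2)) r := by
  have hg := h.g_deriv r hr
  have h1 : HasDerivAt (fun r => 1 - g r ^ 2 - ((n : ℝ) - 1) * g r / r)
      (0 - 2 * g r * gd r - ((((n : ℝ) - 1) * gd r) * r - ((n : ℝ) - 1) * g r * 1) / r ^ 2) r := by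
    have h2 := ((hasDerivAt_const r (1 : ℝ)).sub (hg.pow 2)).sub
      ((hg.const_mul ((n : ℝ) - 1)).div (hasDerivAt_id r) hr.ne')
    refine HasDerivAt.congr_deriv (f := fun r => 1 - g r ^ 2 - ((n : ℝ) - 1) * g r / r) h2 ?_
    simp only [id]
    push_cast
    ring
  have h3 : gd =ᶠ[𝓝 r] fun r => 1 - g r ^ 2 - ((n : ℝ) - 1) * g r / r := by
    filter_upwards [lt_mem_nhds hr] with x hx using h.g_ode x hx
  have h4 := h1.congr_of_eventuallyEq h3
  refine h4.congr_deriv ?_
  field_simp
  ring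

lemma g_mono (h : Radial n y f g gd) : StrictMonoOn g (Ioi 0) := by
  apply strictMonoOn_of_deriv_pos (convex_Ioi 0)
  · intro x hx
    exact (h.g_deriv x hx).continuousAt.continuousWithinAt
  · intro x hx
    rw [interior_Ioi] at hx
    rw [(h.g_deriv x hx).deriv]
    exact h.gd_pos x hx

/-- The primitive. -/
noncomputable def P (n : ℕ) (f gd : ℝ → ℝ) (k r : ℝ) : ℝ :=
  r ^ n * (k ^ 2 * gd (k * r)) * f (k * r) ^ 2

lemma comp_mul {F : ℝ → ℝ} {F' k r : ℝ} (hF : HasDerivAt F F' (k * r)) :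
    HasDerivAt (fun r => F (k * r)) (F' * k) r := by
  have h1 : HasDerivAt (fun r : ℝ => k * r) k r := by
    simpa using (hasDerivAt_id r).const_mul k
  exact HasDerivAt.comp (h := fun r : ℝ => k * r) r hF h1

lemma P_deriv (h : Radial n y f g gd) (hn : 2 ≤ n) {k r : ℝ} (hk : 0 < k) (hr : 0 < r) :
    HasDerivAt (P n f gd k) (r ^ (n - 1) * f (k * r) ^ 2 * (k ^ 2 - (k * g (k * r)) ^ 2)) r := by
  have hkr : 0 < k * r := mul_pos hk hr
  have h1 := comp_mul (gd_deriv h hkr)
  have h2 := comp_mul (h.f_deriv _ hkr)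
  have h3 := ((hasDerivAt_pow n r).mul (h1.const_mul (k ^ 2))).mul (h2.pow 2)
  refine HasDerivAt.congr_deriv (f := P n f gd k) h3 ?_
  simp only [Pi.mul_apply, Pi.pow_apply]
  obtain ⟨m, rfl⟩ : ∃ m, n = m + 1 := ⟨n - 1, by omega⟩
  have hode := h.g_ode _ hkr
  simp only [Nat.add_sub_cancel, show 2 - 1 = 1 from rfl, pow_one, pow_succ r m]
  have hode' : g (k * r) ^ 2 = 1 - gd (k * r) - (((m + 1 : ℕ) : ℝ) - 1) * g (k * r) / (k * r) := by
    linarith
  rw [show (k * g (k * r)) ^ 2 = k ^ 2 * g (k * r) ^ 2 by ring, hode']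
  field_simp
  push_cast
  ring

end MTm

open MTm Set Filter Topology MeasureTheory in
theorem mt_proof (hVit : Stmt_Vit) (hProf : Stmt_Prof) : Stmt_MT := by
  intro n hn y f g gd hrad Ω σ hdom k R hk hR hyp
  obtain ⟨H, H', mu, hprof, hmu⟩ := hProf n hn y f g gd hrad k R hk hR
  set a : ℝ := k * g (k * R) with ha
  have hkR : 0 < k * R := mul_pos hk hR
  have ha0 : 0 < a := mul_pos hk (hrad.g_pos _ hkR)
  have hn1 : (2 : ℝ) ≤ n := by exact_mod_cast hn
  have hvit := hVit n hn Ω σ hdom k a hk ha0 hyp _ H H' mu hprof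
  set W : ℝ := n * (volume (Metric.ball (0 : E n) 1)).toReal with hW
  set A : ℝ := R * (k ^ 2 * gd (k * R)) * f (k * R) ^ 2 with hA
  have hA0 : 0 < A := by
    have h1 := hrad.gd_pos _ hkR
    have h2 := hrad.f_pos _ hkR.le
    positivity
  have hmono := g_mono hrad
  -- the inequality on `[r0, r1]`
  have key : ∀ r0 r1 : ℝ, 0 < r0 → r0 < r1 → r1 < R →
      W * (P n f gd k r1 - P n f gd k r0) ≤ A * (σ univ).toReal := by
    intro r0 r1 h0 h01 h1R
    have hr1 : 0 < r1 := h0.trans h01
    have hs : ∀ r r' : ℝ, 0 < r → r < r' → k * g (k * r) < k * g (k * r') := by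
      intro r r' hr hrr'
      have h1 : k * r < k * r' := mul_lt_mul_of_pos_left hrr' hk
      have h2 : 0 < k * r := mul_pos hk hr
      exact mul_lt_mul_of_pos_left (hmono h2 (h2.trans h1) h1) hk
    have hpos : ∀ r : ℝ, 0 < r → 0 < k * g (k * r) := fun r hr =>
      mul_pos hk (hrad.g_pos _ (mul_pos hk hr))
    have h2 := hvit (k * g (k * r0)) (k * g (k * r1)) (hpos r0 h0) (hs r0 r1 h0 h01)
      (hs r1 R hr1 h1R)
    have hG : ∀ x ∈ uIcc r0 r1, HasDerivAt (fun r => k * g (k * r)) (k ^ 2 * gd (k * x)) x := by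
      intro x hx
      rw [uIcc_of_le h01.le] at hx
      have hx0 : 0 < x := h0.trans_le hx.1
      have h3 := (comp_mul (hrad.g_deriv _ (mul_pos hk hx0))).const_mul k
      refine h3.congr_deriv ?_
      ring
    have hG' : ContinuousOn (fun x => k ^ 2 * gd (k * x)) (uIcc r0 r1) := by
      intro x hx
      rw [uIcc_of_le h01.le] at hx
      have hx0 : 0 < x := h0.trans_le hx.1
      have h3 := (comp_mul (gd_deriv hrad (mul_pos hk hx0))).const_mul (k ^ 2)
      exact h3.continuousAt.continuousWithinAt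
    have himg : (fun r => k * g (k * r)) '' uIcc r0 r1 ⊆ Ioo 0 a := by
      rintro _ ⟨x, hx, rfl⟩
      rw [uIcc_of_le h01.le] at hx
      have hx0 : 0 < x := h0.trans_le hx.1
      exact ⟨hpos x hx0, hs x R hx0 (hx.2.trans_lt h1R)⟩
    have hint := intervalIntegral.integral_comp_mul_deriv' (f := fun r => k * g (k * r))
      (f' := fun x => k ^ 2 * gd (k * x)) (g := fun s => s ^ (n - 1) * (mu s * (k ^ 2 - s ^ 2)))
      hG hG' (by
        refine ContinuousOn.mono ?_ himg
        exact (continuousOn_pow _).mul (hprof.cont_mu.mul (continuousOn_const.sub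
          (continuousOn_pow 2))))
    have hint2 : ∫ x in r0..r1, ((fun s => s ^ (n - 1) * (mu s * (k ^ 2 - s ^ 2))) ∘
        fun r => k * g (k * r)) x * (k ^ 2 * gd (k * x)) =
        ∫ x in r0..r1, x ^ (n - 1) * f (k * x) ^ 2 * (k ^ 2 - (k * g (k * x)) ^ 2) := by
      apply intervalIntegral.integral_congr
      intro x hx
      rw [uIcc_of_le h01.le] at hx
      have hx0 : 0 < x := h0.trans_le hx.1
      have hxR : x < R := hx.2.trans_lt h1R
      simp only [Function.comp]
      rw [hmu x hx0 hxR]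
      have h3 : 0 < gd (k * x) := hrad.gd_pos _ (mul_pos hk hx0)
      have h4 : 0 < k * g (k * x) := hpos x hx0
      have h5 : 0 < (k * g (k * x) / x) ^ (n - 1) := by positivity
      have h6 : (k * g (k * x)) ^ (n - 1) = (k * g (k * x) / x) ^ (n - 1) * x ^ (n - 1) := by
        rw [← mul_pow, div_mul_cancel₀ _ hx0.ne']
      rw [h6]
      field_simp
    have hFTC : ∫ x in r0..r1, x ^ (n - 1) * f (k * x) ^ 2 * (k ^ 2 - (k * g (k * x)) ^ 2) =
        P n f gd k r1 - P n f gd k r0 := by
      apply intervalIntegral.integral_eq_sub_of_hasDerivAt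
      · intro x hx
        rw [uIcc_of_le h01.le] at hx
        exact P_deriv hrad hn hk (h0.trans_le hx.1)
      · apply ContinuousOn.intervalIntegrable
        intro x hx
        rw [uIcc_of_le h01.le] at hx
        have hx0 : 0 < x := h0.trans_le hx.1
        have hkx := mul_pos hk hx0
        have c1 := (comp_mul (hrad.f_deriv _ hkx)).continuousAt
        have c2 := (comp_mul (hrad.g_deriv _ hkx)).continuousAt
        exact (((continuous_pow (n - 1)).continuousAt.mul (c1.pow 2)).mul
          (continuousAt_const.sub ((continuousAt_const.mul c2).pow 2))).continuousWithinAt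
    rw [← hFTC, ← hint2, hint]
    exact h2
  -- limits
  have hP0 : Tendsto (P n f gd k) (𝓝[>] 0) (𝓝 0) := by
    have hup : ContinuousWithinAt (fun r => r ^ n * (k ^ 2 * y ((k * r) ^ 2)) * f (k * r) ^ 2)
        (Ici 0) 0 := by
      have c1 : ContinuousWithinAt (fun r : ℝ => r ^ n) (Ici 0) 0 :=
        (continuous_pow n).continuousWithinAt
      have c2 : ContinuousAt (fun r : ℝ => y ((k * r) ^ 2)) 0 := by
        have : ContinuousAt y ((k * 0) ^ 2) := (hrad.y_smooth _ (sq_nonneg _)).continuousAt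
        exact ContinuousAt.comp (f := fun r : ℝ => (k * r) ^ 2) this
          ((continuous_const.mul continuous_id).pow 2).continuousAt
      have c3 : ContinuousWithinAt (fun r : ℝ => f (k * r)) (Ici 0) 0 := by
        have h1 : ContinuousWithinAt f (Ici 0) (k * 0) := by
          rw [mul_zero]
          exact hrad.f_cont 0 (mem_Ici.mpr le_rfl)
        refine ContinuousWithinAt.comp (f := fun r : ℝ => k * r) h1
          (continuous_const.mul continuous_id).continuousWithinAt ?_
        intro x hx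
        exact mul_nonneg hk.le hx
      exact (c1.mul (continuousWithinAt_const.mul c2.continuousWithinAt)).mul (c3.pow 2)
    have hup' : Tendsto (fun r => r ^ n * (k ^ 2 * y ((k * r) ^ 2)) * f (k * r) ^ 2)
        (𝓝[>] 0) (𝓝 0) := by
      have h1 := hup.tendsto.mono_left (nhdsWithin_mono 0 Ioi_subset_Ici_self)
      have h2 : (0 : ℝ) ^ n * (k ^ 2 * y ((k * 0) ^ 2)) * f (k * 0) ^ 2 = 0 := by
        rw [zero_pow (by omega)]
        ring
      rwa [h2] at h1
    refine tendsto_of_tendsto_of_tendsto_of_le_of_le' tendsto_const_nhds hup' ?_ ?_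
    · filter_upwards [self_mem_nhdsWithin] with r hr
      have hkr := mul_pos hk (show 0 < r from hr)
      have h1 := hrad.gd_pos _ hkr
      have hr' : 0 < r := hr
      rw [P]
      positivity
    · filter_upwards [self_mem_nhdsWithin] with r hr
      have hr' : 0 < r := hr
      have hkr := mul_pos hk hr'
      have h1 := hrad.gd_lt _ hkr
      have h2 := hrad.g_eq _ hkr.le
      rw [h2, mul_div_cancel_left₀ _ hkr.ne'] at h1
      rw [P]
      gcongr
  have hPR : Tendsto (P n f gd k) (𝓝[<] R) (𝓝 (P n f gd k R)) :=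
    ((P_deriv hrad hn hk hR).continuousAt.tendsto).mono_left nhdsWithin_le_nhds
  have step1 : ∀ r1 : ℝ, 0 < r1 → r1 < R → W * P n f gd k r1 ≤ A * (σ univ).toReal := by
    intro r1 hr1 h1R
    have h1 : Tendsto (fun r0 => W * (P n f gd k r1 - P n f gd k r0)) (𝓝[>] 0)
        (𝓝 (W * (P n f gd k r1 - 0))) := (tendsto_const_nhds.sub hP0).const_mul W
    rw [sub_zero] at h1
    refine le_of_tendsto h1 ?_
    filter_upwards [Ioo_mem_nhdsGT hr1] with r0 hr0
    exact key r0 r1 hr0.1 hr0.2 h1R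
  have step2 : W * P n f gd k R ≤ A * (σ univ).toReal := by
    refine le_of_tendsto (hPR.const_mul W) ?_
    filter_upwards [Ioo_mem_nhdsLT hR] with r1 hr1
    exact step1 r1 hr1.1 hr1.2
  have hPA : P n f gd k R = R ^ (n - 1) * A := by
    rw [P, hA]
    obtain ⟨m, rfl⟩ : ∃ m, n = m + 1 := ⟨n - 1, by omega⟩
    simp only [Nat.add_sub_cancel, pow_succ]
    ring
  rw [hPA] at step2
  have h3 : A * (W * R ^ (n - 1)) ≤ A * (σ univ).toReal := by
    calc A * (W * R ^ (n - 1)) = W * (R ^ (n - 1) * A) := by ring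
      _ ≤ _ := step2
  exact le_of_mul_le_mul_left h3 hA0

end Pool.Agent.ROB
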