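import Pool.Agent.ROB.Stmts

/-!
MP_7b7880_an, module MASS: cells with prescribed masses.
-/

namespace Pool.Agent.ROB.Mass

open MeasureTheory Set Filter Topology
open scoped ContDiff ENNReal

variable {n : ℕ} {ι : Type}

lemma ell_cont (ξ : ι → E n) (c : ι → ℝ) (i : ι) : Continuous (fun x => ell ξ c i x) := by
  unfold ell
  fun_prop

lemma ell_update_same [DecidableEq ι] (ξ : ι → E n) (c : ι → ℝ) (i : ι) (s : ℝ) (x : E n) :
    ell ξ (Function.update c i (c i - s)) i x = ell ξ c i x + s := by
  simp [ell]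
  ring

lemma ell_update_ne [DecidableEq ι] (ξ : ι → E n) (c : ι → ℝ) (i j : ι) (h : j ≠ i) (s : ℝ)
    (x : E n) : ell ξ (Function.update c i (c i - s)) j x = ell ξ c j x := by
  simp [ell, Function.update_of_ne h]

/-- ties are null -/
lemma tie_null (ξ : ι → E n) (hξ : Function.Injective ξ) (c : ι → ℝ) (i j : ι) (h : i ≠ j) :
    volume {x : E n | ell ξ c i x = ell ξ c j x} = 0 := by
  have hne : ξ i - ξ j ≠ 0 := sub_ne_zero.mpr (fun h' => h (hξ h'))
  -- the level set of a nonzero linear functional
  set L : E n →ₗ[ℝ] ℝ := (innerSL ℝ (ξ i - ξ j)).toLinearMap with hL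
  have hset : {x : E n | ell ξ c i x = ell ξ c j x} = {x : E n | L x = c i - c j} := by
    ext x
    simp only [ell, Set.mem_ofPred_eq, hL, ContinuousLinearMap.coe_coe, innerSL_apply_apply,
      inner_sub_left]
    constructor <;> intro h' <;> linarith
  rw [hset]
  rcases (Set.eq_empty_or_nonempty {x : E n | L x = c i - c j}) with h0 | ⟨x0, hx0⟩
  · rw [h0]; simp
  · have hker : {x : E n | L x = c i - c j} =
        (fun y => x0 + y) '' (LinearMap.ker L : Set (E n)) := by
      ext x
      constructor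
      · intro hx
        refine ⟨x - x0, ?_, by simp⟩
        simp only [SetLike.mem_coe, LinearMap.mem_ker, map_sub]
        rw [hx, hx0, sub_self]
      · rintro ⟨y, hy, rfl⟩
        simp only [Set.mem_ofPred_eq, map_add]
        have : L y = 0 := hy
        rw [this, add_zero]
        exact hx0
    rw [hker]
    rw [Set.image_add_left, measure_preimage_add]
    apply Measure.addHaar_submodule
    intro htop
    have : L (ξ i - ξ j) = 0 := by
      have : ξ i - ξ j ∈ LinearMap.ker L := by rw [htop]; trivial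
      exact this
    simp only [hL, ContinuousLinearMap.coe_coe, innerSL_apply_apply] at this
    exact hne (inner_self_eq_zero.mp this)

variable [Fintype ι] [Nonempty ι]

/-- the maximal function -/
noncomputable def Mx (ξ : ι → E n) (c : ι → ℝ) (x : E n) : ℝ :=
  Finset.univ.sup' Finset.univ_nonempty (fun i => ell ξ c i x)

lemma le_Mx (ξ : ι → E n) (c : ι → ℝ) (x : E n) (i : ι) : ell ξ c i x ≤ Mx ξ c x :=
  Finset.le_sup' (fun i => ell ξ c i x) (Finset.mem_univ i)

lemma exists_Mx (ξ : ι → E n) (c : ι → ℝ) (x : E n) : ∃ i, Mx ξ c x = ell ξ c i x := by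
  obtain ⟨i, _, hi⟩ := Finset.exists_mem_eq_sup' (Finset.univ_nonempty (α := ι))
    (fun i => ell ξ c i x)
  exact ⟨i, hi⟩

lemma Mx_cont (ξ : ι → E n) : Continuous (fun p : (ι → ℝ) × E n => Mx ξ p.1 p.2) := by
  unfold Mx
  apply Continuous.finset_sup'_apply
  intro i _
  unfold ell
  fun_prop

/-- the functional -/
noncomputable def G (Ω : Set (E n)) (ξ : ι → E n) (m : ι → ℝ) (c : ι → ℝ) : ℝ :=
  ∑ i, m i * c i + 1 / 2 * ∫ x in Ω, Real.exp (2 * Mx ξ c x)

lemma integrableOn_cont {Ω : Set (E n)} (hb : Bornology.IsBounded Ω) {f : E n → ℝ}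
    (hf : Continuous f) : IntegrableOn f Ω := by
  have hc : IsCompact (closure Ω) := hb.isCompact_closure
  exact (hf.continuousOn.integrableOn_compact hc).mono_set subset_closure

lemma int_cont {Ω : Set (E n)} (ho : IsOpen Ω) (hb : Bornology.IsBounded Ω) (ξ : ι → E n) :
    Continuous (fun c : ι → ℝ => ∫ x in Ω, Real.exp (2 * Mx ξ c x)) := by
  have h1 : Continuous (fun c : ι → ℝ => ∫ x in closure Ω, Real.exp (2 * Mx ξ c x)
      ∂(volume.restrict Ω)) := by
    apply continuous_parametric_integral_of_continuous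
    · have := Mx_cont (n := n) ξ
      show Continuous (fun p : (ι → ℝ) × E n => Real.exp (2 * Mx ξ p.1 p.2))
      fun_prop
    · exact hb.isCompact_closure
  have h2 : (volume.restrict Ω).restrict (closure Ω) = (volume.restrict Ω : Measure (E n)) := by
    rw [Measure.restrict_restrict isClosed_closure.measurableSet,
      Set.inter_eq_self_of_subset_right subset_closure]
  rw [h2] at h1
  exact h1

lemma G_cont {Ω : Set (E n)} (ho : IsOpen Ω) (hb : Bornology.IsBounded Ω) (ξ : ι → E n)
    (m : ι → ℝ) : Continuous (G Ω ξ m) := by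
  unfold G
  have := int_cont ho hb ξ
  fun_prop

/-- coercivity of one summand -/
lemma one_coercive {κ m : ℝ} (hκ : 0 < κ) (hm : 0 < m) (t : ℝ) :
    m * |t| - m ^ 2 / (2 * κ) ≤ m * t + κ * Real.exp (-(2 * t)) := by
  have h0 : 0 ≤ m ^ 2 / (2 * κ) := by positivity
  rcases le_total 0 t with ht | ht
  · rw [abs_of_nonneg ht]
    have : 0 < κ * Real.exp (-(2 * t)) := by positivity
    linarith
  · rw [abs_of_nonpos ht]
    have h1 : (-(2 * t)) ^ 2 / 2 ≤ Real.exp (-(2 * t)) := by
      have := Real.quadratic_le_exp_of_nonneg (x := -(2 * t)) (by linarith)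
      nlinarith
    have h2 : κ * ((-(2 * t)) ^ 2 / 2) ≤ κ * Real.exp (-(2 * t)) :=
      mul_le_mul_of_nonneg_left h1 hκ.le
    have h3 : 0 ≤ (2 * κ * (-t) - m) ^ 2 / (2 * κ) := by positivity
    have h4 : (2 * κ * (-t) - m) ^ 2 / (2 * κ) =
        2 * κ * t ^ 2 + 2 * m * t + m ^ 2 / (2 * κ) := by
      field_simp
      ring
    nlinarith

lemma exists_min {Ω : Set (E n)} (ho : IsOpen Ω) (hb : Bornology.IsBounded Ω) (hne : Ω.Nonempty)
    (ξ : ι → E n) (m : ι → ℝ) (hm : ∀ i, 0 < m i) :
    ∃ c : ι → ℝ, ∀ c', G Ω ξ m c ≤ G Ω ξ m c' := by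
  classical
  have hG := G_cont ho hb ξ m
  -- lower bound
  have hpos : ∀ i, 0 < ∫ x in Ω, Real.exp (2 * inner ℝ (ξ i) x) := by
    intro i
    have hint : IntegrableOn (fun x : E n => Real.exp (2 * inner ℝ (ξ i) x)) Ω := by
      apply integrableOn_cont hb
      fun_prop
    rw [setIntegral_pos_iff_support_of_nonneg_ae]
    · have : Function.support (fun x : E n => Real.exp (2 * inner ℝ (ξ i) x)) ∩ Ω = Ω := by
        apply Set.inter_eq_self_of_subset_right
        intro x _
        exact (Real.exp_pos _).ne'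
      rw [this]
      exact ho.measure_pos _ hne
    · exact Filter.Eventually.of_forall (fun x => (Real.exp_pos _).le)
    · exact hint
  obtain ⟨κ, hκ, hκle⟩ : ∃ κ : ℝ, 0 < κ ∧ ∀ i, κ ≤ ∫ x in Ω, Real.exp (2 * inner ℝ (ξ i) x) := by
    obtain ⟨i0, _, hi0⟩ := Finset.exists_min_image Finset.univ
      (fun i => ∫ x in Ω, Real.exp (2 * inner ℝ (ξ i) x)) (Finset.univ_nonempty (α := ι))
    exact ⟨_, hpos i0, fun i => hi0 i (Finset.mem_univ i)⟩
  set κ' : ℝ := κ / (2 * Fintype.card ι) with hκ'
  have hcard : (0 : ℝ) < Fintype.card ι := by exact_mod_cast Fintype.card_pos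
  have hκ'pos : 0 < κ' := by positivity
  have hlow : ∀ c : ι → ℝ, ∑ i, (m i * c i + κ' * Real.exp (-(2 * c i))) ≤ G Ω ξ m c := by
    intro c
    have h1 : ∀ i, κ * Real.exp (-(2 * c i)) ≤ ∫ x in Ω, Real.exp (2 * Mx ξ c x) := by
      intro i
      calc κ * Real.exp (-(2 * c i)) ≤
          (∫ x in Ω, Real.exp (2 * inner ℝ (ξ i) x)) * Real.exp (-(2 * c i)) :=
            mul_le_mul_of_nonneg_right (hκle i) (Real.exp_pos _).le
        _ = ∫ x in Ω, Real.exp (2 * inner ℝ (ξ i) x) * Real.exp (-(2 * c i)) := by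
            rw [integral_mul_const]
        _ ≤ ∫ x in Ω, Real.exp (2 * Mx ξ c x) := by
            apply integral_mono
            · apply integrableOn_cont hb
              fun_prop
            · apply integrableOn_cont hb
              have := (Mx_cont (n := n) ξ).comp (Continuous.prodMk_right c)
              have h' : Continuous (fun x => Mx ξ c x) := this
              fun_prop
            · intro x
              show Real.exp (2 * inner ℝ (ξ i) x) * Real.exp (-(2 * c i)) ≤
                Real.exp (2 * Mx ξ c x)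
              rw [← Real.exp_add]
              apply Real.exp_le_exp.mpr
              have := le_Mx ξ c x i
              unfold ell at this
              linarith
    have h2 : ∑ i : ι, κ * Real.exp (-(2 * c i)) ≤
        Fintype.card ι * ∫ x in Ω, Real.exp (2 * Mx ξ c x) := by
      calc ∑ i : ι, κ * Real.exp (-(2 * c i)) ≤
          ∑ i : ι, ∫ x in Ω, Real.exp (2 * Mx ξ c x) := Finset.sum_le_sum (fun i _ => h1 i)
        _ = _ := by simp
    unfold G
    rw [Finset.sum_add_distrib]
    have h3 : ∑ i, κ' * Real.exp (-(2 * c i)) =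
        (1 / (2 * Fintype.card ι)) * ∑ i : ι, κ * Real.exp (-(2 * c i)) := by
      rw [Finset.mul_sum]
      apply Finset.sum_congr rfl
      intro i _
      rw [hκ']
      ring
    rw [h3]
    have h4 : (1 / (2 * Fintype.card ι : ℝ)) * ∑ i : ι, κ * Real.exp (-(2 * c i)) ≤
        (1 / (2 * Fintype.card ι : ℝ)) *
          (Fintype.card ι * ∫ x in Ω, Real.exp (2 * Mx ξ c x)) :=
      mul_le_mul_of_nonneg_left h2 (by positivity)
    have h5 : (1 / (2 * Fintype.card ι : ℝ)) *
          (Fintype.card ι * ∫ x in Ω, Real.exp (2 * Mx ξ c x)) =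
          1 / 2 * ∫ x in Ω, Real.exp (2 * Mx ξ c x) := by
      field_simp
    linarith
  set C : ℝ := ∑ i, (m i) ^ 2 / (2 * κ') with hC
  have hlow2 : ∀ c : ι → ℝ, ∑ i, m i * |c i| - C ≤ G Ω ξ m c := by
    intro c
    refine le_trans ?_ (hlow c)
    rw [hC, ← Finset.sum_sub_distrib]
    exact Finset.sum_le_sum (fun i _ => one_coercive hκ'pos (hm i) (c i))
  obtain ⟨m0, hm0, hm0le⟩ : ∃ m0 : ℝ, 0 < m0 ∧ ∀ i, m0 ≤ m i := by
    obtain ⟨i0, _, hi0⟩ := Finset.exists_min_image Finset.univ m (Finset.univ_nonempty (α := ι))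
    exact ⟨_, hm i0, fun i => hi0 i (Finset.mem_univ i)⟩
  have hlow3 : ∀ c : ι → ℝ, m0 * ‖c‖ - C ≤ G Ω ξ m c := by
    intro c
    refine le_trans ?_ (hlow2 c)
    have : m0 * ‖c‖ ≤ ∑ i, m i * |c i| := by
      obtain ⟨i, hi⟩ : ∃ i, ‖c‖ ≤ |c i| := by
        obtain ⟨i, _, hi⟩ := Finset.exists_max_image Finset.univ (fun i => |c i|)
          (Finset.univ_nonempty (α := ι))
        refine ⟨i, ?_⟩
        rw [pi_norm_le_iff_of_nonneg (abs_nonneg _)]
        intro j
        exact hi j (Finset.mem_univ j)
      calc m0 * ‖c‖ ≤ m i * |c i| :=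
            mul_le_mul (hm0le i) hi (norm_nonneg _) (hm i).le
        _ ≤ ∑ i, m i * |c i| := Finset.single_le_sum
            (f := fun i => m i * |c i|)
            (fun j _ => mul_nonneg (hm j).le (abs_nonneg _)) (Finset.mem_univ i)
    linarith
  obtain ⟨c, hc⟩ := hG.exists_forall_le (by
    have h1 : Tendsto (fun c : ι → ℝ => m0 * ‖c‖ - C) (cocompact (ι → ℝ)) atTop := by
      apply tendsto_atTop_add_const_right
      exact Tendsto.const_mul_atTop hm0 tendsto_norm_cocompact_atTop
    exact tendsto_atTop_mono hlow3 h1)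
  exact ⟨c, hc⟩

/-- the mass of a cell -/
noncomputable def Ms (Ω : Set (E n)) (ξ : ι → E n) (c : ι → ℝ) (i : ι) : ℝ :=
  ∫ x in cell Ω ξ c i, Real.exp (2 * ell ξ c i x)

/-- the cell in the whole space -/
def cl (ξ : ι → E n) (c : ι → ℝ) (i : ι) : Set (E n) := {x | ∀ j, ell ξ c j x ≤ ell ξ c i x}

lemma cl_meas (ξ : ι → E n) (c : ι → ℝ) (i : ι) : MeasurableSet (cl ξ c i) := by
  have : cl ξ c i = ⋂ j, {x | ell ξ c j x ≤ ell ξ c i x} := by
    ext x; simp [cl]
  rw [this]
  apply MeasurableSet.iInter
  intro j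
  exact (isClosed_le (ell_cont ξ c j) (ell_cont ξ c i)).measurableSet

lemma cell_eq (Ω : Set (E n)) (ξ : ι → E n) (c : ι → ℝ) (i : ι) :
    cell Ω ξ c i = Ω ∩ cl ξ c i := by
  ext x; simp [cell, cl]

lemma Ms_eq (Ω : Set (E n)) (ξ : ι → E n) (c : ι → ℝ) (i : ι) :
    Ms Ω ξ c i = ∫ x in Ω, (cl ξ c i).indicator (fun x => Real.exp (2 * ell ξ c i x)) x := by
  unfold Ms
  rw [cell_eq, setIntegral_indicator (cl_meas ξ c i)]

lemma Ms_integrable {Ω : Set (E n)} (hb : Bornology.IsBounded Ω) (ξ : ι → E n) (c : ι → ℝ)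
    (i : ι) :
    IntegrableOn (fun x => (cl ξ c i).indicator (fun x => Real.exp (2 * ell ξ c i x)) x) Ω := by
  apply Integrable.indicator _ (cl_meas ξ c i)
  apply integrableOn_cont hb
  have := ell_cont ξ c i
  fun_prop

lemma F_integrable {Ω : Set (E n)} (hb : Bornology.IsBounded Ω) (ξ : ι → E n) (c : ι → ℝ) :
    IntegrableOn (fun x => Real.exp (2 * Mx ξ c x)) Ω := by
  apply integrableOn_cont hb
  have := (Mx_cont (n := n) ξ).comp (Continuous.prodMk_right c)
  have h' : Continuous (fun x => Mx ξ c x) := this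
  fun_prop

/-- subgradient inequality -/
lemma subgrad [DecidableEq ι] {Ω : Set (E n)} (hb : Bornology.IsBounded Ω)
    (ξ : ι → E n) (m c : ι → ℝ) (i : ι) (s : ℝ) :
    G Ω ξ m (Function.update c i (c i - s)) + s * (m i - Ms Ω ξ (Function.update c i (c i - s)) i)
      ≤ G Ω ξ m c := by
  set c' := Function.update c i (c i - s) with hc'
  have hpt : ∀ x, Real.exp (2 * Mx ξ c' x) - 2 * s *
      (cl ξ c' i).indicator (fun x => Real.exp (2 * ell ξ c' i x)) x ≤ Real.exp (2 * Mx ξ c x) := by
    intro x
    by_cases hx : x ∈ cl ξ c' i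
    · rw [Set.indicator_of_mem hx]
      have h1 : Mx ξ c' x = ell ξ c' i x := by
        apply le_antisymm
        · obtain ⟨j, hj⟩ := exists_Mx ξ c' x
          rw [hj]; exact hx j
        · exact le_Mx ξ c' x i
      rw [h1]
      have h2 : ell ξ c' i x = ell ξ c i x + s := ell_update_same ξ c i s x
      have h3 : Real.exp (2 * ell ξ c i x) ≤ Real.exp (2 * Mx ξ c x) :=
        Real.exp_le_exp.mpr (by linarith [le_Mx ξ c x i])
      have h4 : Real.exp (2 * ell ξ c i x) =
          Real.exp (2 * ell ξ c' i x) * Real.exp (-(2 * s)) := by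
        rw [← Real.exp_add, h2]; congr 1; ring
      have h5 : 1 - 2 * s ≤ Real.exp (-(2 * s)) := by
        have := Real.add_one_le_exp (-(2 * s))
        linarith
      have h6 : Real.exp (2 * ell ξ c' i x) * (1 - 2 * s) ≤
          Real.exp (2 * ell ξ c' i x) * Real.exp (-(2 * s)) :=
        mul_le_mul_of_nonneg_left h5 (Real.exp_pos _).le
      linarith
    · rw [Set.indicator_of_notMem hx, mul_zero, sub_zero]
      apply Real.exp_le_exp.mpr
      obtain ⟨j, hj⟩ := exists_Mx ξ c' x
      have hji : j ≠ i := by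
        rintro rfl
        apply hx
        intro j'
        rw [← hj]
        exact le_Mx ξ c' x j'
      have h2 : ell ξ c' j x = ell ξ c j x := ell_update_ne ξ c i j hji s x
      rw [hj, h2]
      linarith [le_Mx ξ c x j]
  have hint : ∫ x in Ω, (Real.exp (2 * Mx ξ c' x) - 2 * s *
      (cl ξ c' i).indicator (fun x => Real.exp (2 * ell ξ c' i x)) x) ≤
      ∫ x in Ω, Real.exp (2 * Mx ξ c x) := by
    apply integral_mono
    · exact (F_integrable hb ξ c').sub ((Ms_integrable hb ξ c' i).const_mul _)
    · exact F_integrable hb ξ c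
    · exact hpt
  rw [integral_sub (F_integrable hb ξ c') ((Ms_integrable hb ξ c' i).const_mul _),
    integral_const_mul, ← Ms_eq] at hint
  have hsum : ∑ j, m j * c' j = ∑ j, m j * c j - m i * s := by
    rw [← Finset.add_sum_erase Finset.univ (fun j => m j * c' j) (Finset.mem_univ i),
      ← Finset.add_sum_erase Finset.univ (fun j => m j * c j) (Finset.mem_univ i)]
    have h1 : ∑ j ∈ Finset.univ.erase i, m j * c' j = ∑ j ∈ Finset.univ.erase i, m j * c j := by
      apply Finset.sum_congr rfl
      intro j hj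
      rw [hc', Function.update_of_ne (Finset.ne_of_mem_erase hj)]
    rw [h1]
    have h2 : c' i = c i - s := by rw [hc', Function.update_self]
    rw [h2]
    ring
  unfold G
  rw [hsum]
  linarith

/-- continuity of the mass -/
lemma Ms_tendsto [DecidableEq ι] {Ω : Set (E n)} (ho : IsOpen Ω) (hb : Bornology.IsBounded Ω)
    (ξ : ι → E n) (hξ : Function.Injective ξ) (c : ι → ℝ) (i : ι) :
    Tendsto (fun s => Ms Ω ξ (Function.update c i (c i - s)) i) (𝓝 0) (𝓝 (Ms Ω ξ c i)) := by
  have h1 : ∀ s, Ms Ω ξ (Function.update c i (c i - s)) i = ∫ x in Ω,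
      (cl ξ (Function.update c i (c i - s)) i).indicator
        (fun x => Real.exp (2 * (ell ξ c i x + s))) x := by
    intro s
    rw [Ms_eq]
    congr 1
    funext x
    congr 1
    funext x
    rw [ell_update_same]
  have h2 : Ms Ω ξ c i = ∫ x in Ω, (cl ξ c i).indicator (fun x => Real.exp (2 * (ell ξ c i x))) x :=
    Ms_eq Ω ξ c i
  simp_rw [h1]
  rw [h2]
  apply tendsto_integral_filter_of_dominated_convergence
    (bound := fun x => Real.exp (2 * (ell ξ c i x + 1)))
  · refine Filter.Eventually.of_forall (fun s => ?_)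
    apply Measurable.aestronglyMeasurable
    apply Measurable.indicator _ (cl_meas _ _ _)
    apply Continuous.measurable
    have := ell_cont ξ c i
    fun_prop
  · have : ∀ᶠ s : ℝ in 𝓝 0, s < 1 := Iio_mem_nhds one_pos
    filter_upwards [this] with s hs
    refine Filter.Eventually.of_forall (fun x => ?_)
    by_cases hx : x ∈ cl ξ (Function.update c i (c i - s)) i
    · rw [Set.indicator_of_mem hx, Real.norm_eq_abs, abs_of_pos (Real.exp_pos _)]
      apply Real.exp_le_exp.mpr
      linarith
    · rw [Set.indicator_of_notMem hx, norm_zero]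
      exact (Real.exp_pos _).le
  · apply integrableOn_cont hb
    have := ell_cont ξ c i
    fun_prop
  · -- no ties
    have htie : ∀ᵐ x ∂(volume : Measure (E n)), ∀ j, j ≠ i → ell ξ c j x ≠ ell ξ c i x := by
      rw [ae_all_iff]
      intro j
      by_cases hj : j = i
      · exact Filter.Eventually.of_forall (fun x h => absurd hj h)
      · have := tie_null ξ hξ c j i hj
        rw [measure_eq_zero_iff_ae_notMem] at this
        filter_upwards [this] with x hx _
        exact hx
    filter_upwards [ae_restrict_of_ae htie] with x hx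
    by_cases hxc : x ∈ cl ξ c i
    · rw [Set.indicator_of_mem hxc]
      have hev : ∀ᶠ s : ℝ in 𝓝 0, x ∈ cl ξ (Function.update c i (c i - s)) i := by
        have hall : ∀ j, ∀ᶠ s : ℝ in 𝓝 0, ell ξ (Function.update c i (c i - s)) j x ≤
            ell ξ (Function.update c i (c i - s)) i x := by
          intro j
          by_cases hj : j = i
          · subst hj; exact Filter.Eventually.of_forall (fun s => le_refl _)
          · have hlt : ell ξ c j x < ell ξ c i x := lt_of_le_of_ne (hxc j) (hx j hj)
            have : ∀ᶠ s : ℝ in 𝓝 0, -(ell ξ c i x - ell ξ c j x) < s :=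
              Ioi_mem_nhds (by linarith)
            filter_upwards [this] with s hs
            rw [ell_update_same, ell_update_ne ξ c i j hj]
            linarith
        have := Filter.eventually_all.mpr hall
        filter_upwards [this] with s hs
        exact hs
      have ht : Tendsto (fun s : ℝ => Real.exp (2 * (ell ξ c i x + s))) (𝓝 0)
          (𝓝 (Real.exp (2 * (ell ξ c i x)))) := by
        have : Continuous (fun s : ℝ => Real.exp (2 * (ell ξ c i x + s))) := by fun_prop
        have h := this.tendsto 0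
        simpa using h
      apply ht.congr'
      filter_upwards [hev] with s hs
      rw [Set.indicator_of_mem hs]
    · rw [Set.indicator_of_notMem hxc]
      have hev : ∀ᶠ s : ℝ in 𝓝 0, x ∉ cl ξ (Function.update c i (c i - s)) i := by
        have : ∃ j, ell ξ c i x < ell ξ c j x := by
          by_contra hcon
          push Not at hcon
          exact hxc hcon
        obtain ⟨j, hj⟩ := this
        have hji : j ≠ i := by rintro rfl; exact lt_irrefl _ hj
        have : ∀ᶠ s : ℝ in 𝓝 0, s < ell ξ c j x - ell ξ c i x :=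
          Iio_mem_nhds (by linarith)
        filter_upwards [this] with s hs hmem
        have h := hmem j
        rw [ell_update_same, ell_update_ne ξ c i j hji] at h
        linarith
      apply tendsto_const_nhds.congr'
      filter_upwards [hev] with s hs
      rw [Set.indicator_of_notMem hs]

end Pool.Agent.ROB.Mass

namespace Pool.Agent.ROB

open MeasureTheory Set Filter Topology Mass

theorem mass_proof : Stmt_Mass := by
  classical
  intro n Ω ho hb hne ι _ _ ξ hξ m hm
  obtain ⟨c, hc⟩ := exists_min ho hb hne ξ m hm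
  refine ⟨c, fun i => ?_⟩
  show Ms Ω ξ c i = m i
  have hs : ∀ s : ℝ, s * (m i - Ms Ω ξ (Function.update c i (c i - s)) i) ≤ 0 := by
    intro s
    have h1 := subgrad hb ξ m c i s
    have h2 := hc (Function.update c i (c i - s))
    linarith
  have ht := Ms_tendsto ho hb ξ hξ c i
  apply le_antisymm
  · -- s < 0 : m i ≥ Ms
    apply le_of_tendsto (ht.mono_left (nhdsWithin_le_nhds (s := Iio 0)))
    filter_upwards [self_mem_nhdsWithin] with s hs0
    have h := hs s
    have hs0' : s < 0 := hs0
    nlinarith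
  · apply ge_of_tendsto (ht.mono_left (nhdsWithin_le_nhds (s := Ioi 0)))
    filter_upwards [self_mem_nhdsWithin] with s hs0
    have h := hs s
    have hs0' : 0 < s := hs0
    nlinarith

end Pool.Agent.ROB
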