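import Pool.Agent.ROB.Stmts

/-!
MP_7b7880_an, module PROF: the profile attached to the radial data.
-/

namespace Pool.Agent.ROB

namespace Prof

open Set Filter Topology

/-- Inverse of a strictly increasing function with strict derivatives. -/
theorem exists_inverse {g g' : ℝ → ℝ} {X : ℝ} (hX : 0 < X)
    (hc : ContinuousOn g (Icc 0 X)) (h0 : g 0 = 0)
    (hd : ∀ x ∈ Ioo 0 X, HasStrictDerivAt g (g' x) x) (hp : ∀ x ∈ Ioo 0 X, 0 < g' x) :
    ∃ σ : ℝ → ℝ, (∀ t ∈ Ioo 0 (g X), σ t ∈ Ioo 0 X ∧ g (σ t) = t ∧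
      HasStrictDerivAt σ (g' (σ t))⁻¹ t) ∧ (∀ x ∈ Ioo 0 X, σ (g x) = x) ∧
      StrictMonoOn g (Icc 0 X) := by
  have hmono : StrictMonoOn g (Icc 0 X) := by
    apply strictMonoOn_of_deriv_pos (convex_Icc 0 X) hc
    intro x hx
    rw [interior_Icc] at hx
    rw [(hd x hx).hasDerivAt.deriv]
    exact hp x hx
  have hinj : InjOn g (Ioo 0 X) := fun x hx y hy h =>
    hmono.injOn (Ioo_subset_Icc_self hx) (Ioo_subset_Icc_self hy) h
  have hex : ∀ t ∈ Ioo 0 (g X), ∃ x ∈ Ioo 0 X, g x = t := by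
    intro t ht
    have := intermediate_value_Ioo hX.le hc
    rw [h0] at this
    obtain ⟨x, hx, hxt⟩ := this ht
    exact ⟨x, hx, hxt⟩
  classical
  set σ : ℝ → ℝ := fun t => if h : ∃ x ∈ Ioo 0 X, g x = t then h.choose else 0 with hσ
  have hσ1 : ∀ t, (∃ x ∈ Ioo 0 X, g x = t) → σ t ∈ Ioo 0 X ∧ g (σ t) = t := by
    intro t ht
    simp only [hσ, dif_pos ht]
    exact ht.choose_spec
  have hσ2 : ∀ x ∈ Ioo 0 X, σ (g x) = x := by
    intro x hx
    obtain ⟨h1, h2⟩ := hσ1 (g x) ⟨x, hx, rfl⟩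
    exact hinj h1 hx h2
  refine ⟨σ, ?_, hσ2, hmono⟩
  intro t ht
  obtain ⟨h1, h2⟩ := hσ1 t (hex t ht)
  refine ⟨h1, h2, ?_⟩
  set x := σ t with hx
  have hs := hd x h1
  have hne : g' x ≠ 0 := (hp x h1).ne'
  have hloc := hs.to_localInverse hne
  rw [h2] at hloc
  -- the local inverse agrees with `σ` near `t`
  have hL : ∀ᶠ s in 𝓝 t, hs.localInverse g (g' x) x hne s ∈ Ioo 0 X := by
    have hcont : ContinuousAt (hs.localInverse g (g' x) x hne) t := hloc.hasDerivAt.continuousAt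
    have hval : hs.localInverse g (g' x) x hne t = x := by
      have := (hs.hasStrictFDerivAt_equiv hne).localInverse_apply_image
      rw [h2] at this
      exact this
    have : Ioo 0 X ∈ 𝓝 (hs.localInverse g (g' x) x hne t) := by
      rw [hval]; exact isOpen_Ioo.mem_nhds h1
    exact hcont this
  have hR : ∀ᶠ s in 𝓝 t, g (hs.localInverse g (g' x) x hne s) = s := by
    have := (hs.hasStrictFDerivAt_equiv hne).eventually_right_inverse
    rw [h2] at this
    exact this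
  refine hloc.congr_of_eventuallyEq ?_
  filter_upwards [hL, hR] with s hs1 hs2
  have := hσ2 _ hs1
  rw [hs2] at this
  exact this.symm

section Radial

variable {n : ℕ} {y f g gd : ℝ → ℝ}

theorem y_cont (h : Radial n y f g gd) {s : ℝ} (hs : 0 ≤ s) : ContinuousAt y s :=
  (h.y_smooth s hs).continuousAt

theorem g_zero (h : Radial n y f g gd) : g 0 = 0 := by
  rw [h.g_eq 0 le_rfl]; simp

theorem g_contOn (h : Radial n y f g gd) : ContinuousOn g (Ici 0) := by
  have : ContinuousOn (fun r : ℝ => r * y (r ^ 2)) (Ici 0) := by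
    intro r _
    have h1 : ContinuousAt (fun r : ℝ => y (r ^ 2)) r :=
      ContinuousAt.comp (f := fun r : ℝ => r ^ 2) (g := y) (y_cont h (sq_nonneg r)) (by fun_prop)
    exact (continuousAt_id.mul h1).continuousWithinAt
  exact this.congr fun r hr => h.g_eq r hr

theorem gd_eventually (h : Radial n y f g gd) {r : ℝ} (hr : 0 < r) :
    gd =ᶠ[𝓝 r] fun r => 1 - g r ^ 2 - ((n : ℝ) - 1) * g r / r := by
  filter_upwards [lt_mem_nhds hr] with s hs
  exact h.g_ode s hs

theorem gd_cont (h : Radial n y f g gd) {r : ℝ} (hr : 0 < r) : ContinuousAt gd r := by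
  have hg : ContinuousAt g r := (h.g_deriv r hr).continuousAt
  refine ContinuousAt.congr ?_ (gd_eventually h hr).symm
  have hr' : r ≠ 0 := hr.ne'
  fun_prop (disch := assumption)

theorem g_strict (h : Radial n y f g gd) {r : ℝ} (hr : 0 < r) : HasStrictDerivAt g (gd r) r :=
  hasStrictDerivAt_of_hasDerivAt_of_continuousAt
    (by filter_upwards [lt_mem_nhds hr] with s hs using h.g_deriv s hs) (gd_cont h hr)

theorem f_strict (h : Radial n y f g gd) {r : ℝ} (hr : 0 < r) :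
    HasStrictDerivAt f (g r * f r) r :=
  hasStrictDerivAt_of_hasDerivAt_of_continuousAt (f' := fun s => g s * f s)
    (by filter_upwards [lt_mem_nhds hr] with s hs using h.f_deriv s hs)
    ((h.g_deriv r hr).continuousAt.mul (h.f_deriv r hr).continuousAt)

theorem gd_strict (h : Radial n y f g gd) {r : ℝ} (hr : 0 < r) :
    HasStrictDerivAt gd (-2 * g r * gd r - ((n : ℝ) - 1) * (gd r / r - g r / r ^ 2)) r := by
  have hg := g_strict h hr
  have hr' : r ≠ 0 := hr.ne'
  have h1 := ((hg.pow 2).const_sub 1).sub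
    ((hg.const_mul ((n : ℝ) - 1)).div (hasStrictDerivAt_id r) hr')
  refine HasStrictDerivAt.congr_of_eventuallyEq ?_ (gd_eventually h hr).symm
  refine h1.congr_deriv ?_
  simp only [id]
  field_simp
  ring

/-- The function `x g'(x) f(x)^2 / g(x)`. -/
noncomputable def Ph (f g gd : ℝ → ℝ) (x : ℝ) : ℝ := x * gd x * f x ^ 2 / g x

/-- Its derivative. -/
noncomputable def Phd (f g gd : ℝ → ℝ) (x : ℝ) : ℝ :=
  x * f x ^ 2 * (1 - g x ^ 2) * (g x / x - gd x) / g x ^ 2

theorem ode (h : Radial n y f g gd) {r : ℝ} (hr : 0 < r) :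
    1 - g r ^ 2 = gd r + ((n : ℝ) - 1) * (g r / r) := by
  rw [h.g_ode r hr]; ring

theorem Ph_strict (h : Radial n y f g gd) {r : ℝ} (hr : 0 < r) :
    HasStrictDerivAt (Ph f g gd) (Phd f g gd r) r := by
  have hr' : r ≠ 0 := hr.ne'
  have hg0 : g r ≠ 0 := (h.g_pos r hr).ne'
  have h1 := ((((hasStrictDerivAt_id r).mul (gd_strict h hr)).mul ((f_strict h hr).pow 2)).div
    (g_strict h hr) hg0)
  refine (h1.congr_deriv ?_ : HasStrictDerivAt (Ph f g gd) (Phd f g gd r) r)
  simp only [Phd, id, Pi.mul_apply, Pi.pow_apply]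
  rw [ode h hr]
  field_simp
  ring

theorem Ph_pos (h : Radial n y f g gd) {r : ℝ} (hr : 0 < r) : 0 < Ph f g gd r := by
  have h1 := h.gd_pos r hr
  have h2 := h.f_pos r hr.le
  have h3 := h.g_pos r hr
  unfold Ph
  positivity

theorem Phd_nonneg (h : Radial n y f g gd) {r : ℝ} (hr : 0 < r) : 0 ≤ Phd f g gd r := by
  have h1 := h.gd_lt r hr
  have h2 := h.f_pos r hr.le
  have h3 := h.g_pos r hr
  have h4 := h.g_lt_one r hr
  have h5 : 0 ≤ 1 - g r ^ 2 := by nlinarith
  have h6 : 0 ≤ g r / r - gd r := by linarith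
  unfold Phd
  positivity

theorem Ph_mono (h : Radial n y f g gd) : MonotoneOn (Ph f g gd) (Ioi 0) := by
  apply monotoneOn_of_deriv_nonneg (convex_Ioi 0)
  · intro r hr
    exact (Ph_strict h hr).hasDerivAt.continuousAt.continuousWithinAt
  · intro r hr
    rw [interior_Ioi] at hr
    exact (Ph_strict h hr).hasDerivAt.differentiableAt.differentiableWithinAt
  · intro r hr
    rw [interior_Ioi] at hr
    rw [(Ph_strict h hr).hasDerivAt.deriv]
    exact Phd_nonneg h hr

theorem Ph_eq (h : Radial n y f g gd) {r : ℝ} (hr : 0 < r) :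
    Ph f g gd r = (1 - (r * y (r ^ 2)) ^ 2 - ((n : ℝ) - 1) * y (r ^ 2)) * f r ^ 2 / y (r ^ 2) := by
  have h1 := h.y_pos (r ^ 2) (sq_nonneg r)
  have hr' : r ≠ 0 := hr.ne'
  unfold Ph
  rw [h.g_ode r hr, h.g_eq r hr.le]
  field_simp

theorem Ph_lower (h : Radial n y f g gd) (hn : 2 ≤ n) {r : ℝ} (hr : 0 < r) :
    1 / 2 ≤ Ph f g gd r := by
  have hn0 : (0 : ℝ) < n := by exact_mod_cast (by omega : 0 < n)
  have hlim : Tendsto (fun r : ℝ => (1 - (r * y (r ^ 2)) ^ 2 - ((n : ℝ) - 1) * y (r ^ 2)) *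
      f r ^ 2 / y (r ^ 2)) (𝓝[>] 0) (𝓝 1) := by
    have hy : Tendsto (fun r : ℝ => y (r ^ 2)) (𝓝[>] 0) (𝓝 (1 / n)) := by
      have h1 : ContinuousAt (fun r : ℝ => y (r ^ 2)) 0 := by
        apply ContinuousAt.comp (f := fun r : ℝ => r ^ 2) (g := y)
        · exact y_cont h (by positivity)
        · fun_prop
      have h2 := h1.tendsto
      have h3 : (0 : ℝ) ^ 2 = 0 := by norm_num
      simp only [h3, h.y_zero] at h2
      exact h2.mono_left nhdsWithin_le_nhds
    have hf : Tendsto f (𝓝[>] 0) (𝓝 1) := by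
      have := h.f_cont 0 (by simp)
      have h2 : Tendsto f (𝓝[Ici 0] 0) (𝓝 (f 0)) := this
      rw [h.f_zero] at h2
      exact h2.mono_left (nhdsWithin_mono _ Ioi_subset_Ici_self)
    have hid : Tendsto (fun r : ℝ => r) (𝓝[>] 0) (𝓝 0) := nhdsWithin_le_nhds
    have := (((((hid.mul hy).pow 2).const_sub 1).sub (hy.const_mul ((n : ℝ) - 1))).mul
      (hf.pow 2)).div hy (by positivity)
    have hv : (1 - (0 * (1 / (n : ℝ))) ^ 2 - ((n : ℝ) - 1) * (1 / n)) * 1 ^ 2 / (1 / n) = 1 := by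
      field_simp
      ring
    rw [hv] at this
    exact this
  have hlim' : Tendsto (Ph f g gd) (𝓝[>] 0) (𝓝 1) := by
    refine hlim.congr' ?_
    filter_upwards [self_mem_nhdsWithin] with s hs
    exact (Ph_eq h hs).symm
  have hev : ∀ᶠ s in 𝓝[>] (0 : ℝ), 1 / 2 ≤ Ph f g gd s ∧ s ∈ Ioo 0 r :=
    (hlim'.eventually (le_mem_nhds (by norm_num : (1 / 2 : ℝ) < 1))).and
      (Ioo_mem_nhdsGT hr)
  obtain ⟨s, hs1, hs2⟩ := hev.exists
  exact hs1.trans (Ph_mono h hs2.1 hr hs2.2.le)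

/-- The algebraic inequality behind the determinant bound. -/
theorem alg_aux (hn : 2 ≤ n) {G u F e : ℝ} (hG : 0 < G) (hGu : G ≤ u) (hF : 0 < F) (he : 0 < e) :
    F * (G + ((n : ℝ) - 1) * u) ^ n * e ^ (n - 1) / (G * u ^ (n - 1)) ≤
      (F * (G + ((n : ℝ) - 1) * u) / G - ((n : ℝ) - 1) * F + ((n : ℝ) - 1) * e) *
        (F * (G + ((n : ℝ) - 1) * u) / u - ((n : ℝ) - 1) * F + ((n : ℝ) - 1) * e) ^ (n - 1) := by
  have hu : 0 < u := hG.trans_le hGu
  obtain ⟨m, rfl⟩ : ∃ m, n = m + 1 := ⟨n - 1, by omega⟩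
  have hm : (0 : ℝ) < m := by exact_mod_cast (by omega : 0 < m)
  simp only [Nat.cast_add, Nat.cast_one, add_sub_cancel_right, Nat.add_sub_cancel]
  set D := G + (m : ℝ) * u with hD
  have hDpos : 0 < D := by positivity
  obtain ⟨z, hzpos, rfl⟩ : ∃ z : ℝ, 0 < z ∧ e = z * F := ⟨e / F, by positivity, by field_simp⟩
  have key : ∀ v : ℝ, 0 < v → (m : ℝ) * v ≤ D →
      F * D / v * z ^ ((m : ℝ) * v / D) ≤ F * D / v - m * F + m * (z * F) := by
    intro v hv hvD
    have h1 := Real.geom_mean_le_arith_mean2_weighted (w₁ := 1 - (m : ℝ) * v / D)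
      (w₂ := (m : ℝ) * v / D) (p₁ := 1) (p₂ := z)
      (by rw [sub_nonneg, div_le_one hDpos]; exact hvD) (by positivity) zero_le_one hzpos.le
      (by ring)
    rw [Real.one_rpow, one_mul] at h1
    have h2 : F * D / v * z ^ ((m : ℝ) * v / D) ≤
        F * D / v * ((1 - (m : ℝ) * v / D) * 1 + (m : ℝ) * v / D * z) :=
      mul_le_mul_of_nonneg_left h1 (by positivity)
    refine h2.trans_eq ?_
    field_simp
  have k1 := key G hG (by rw [hD]; nlinarith)
  have k2 := key u hu (by rw [hD]; nlinarith)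
  have k3 : F * D ^ (m + 1) * (z * F) ^ m / (G * u ^ m) =
      (F * D / G * z ^ ((m : ℝ) * G / D)) * (F * D / u * z ^ ((m : ℝ) * u / D)) ^ m := by
    have h1 : z ^ ((m : ℝ) * G / D) * (z ^ ((m : ℝ) * u / D)) ^ m = z ^ m := by
      rw [← Real.rpow_natCast (z ^ ((m : ℝ) * u / D)) m, ← Real.rpow_mul hzpos.le,
        ← Real.rpow_add hzpos, ← Real.rpow_natCast z m]
      congr 1
      rw [hD]
      field_simp
    rw [mul_pow (F * D / u), mul_mul_mul_comm, h1, div_pow, mul_pow, mul_pow]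
    field_simp
    ring
  rw [k3]
  exact mul_le_mul k1 (pow_le_pow_left₀ (by positivity) k2 m) (by positivity)
    (le_trans (by positivity) k1)

end Radial

end Prof

open Prof Set in
/-- C2: the profile attached to the radial data. -/
theorem prof_proof : Stmt_Prof := by
  intro n hn y f g gd h k R hk hR
  have hn1 : (0 : ℝ) < (n : ℝ) - 1 := by
    have : (2 : ℝ) ≤ n := by exact_mod_cast hn
    linarith
  have hX : 0 < k * R := mul_pos hk hR
  obtain ⟨σ, hσ1, hσ2, hmono⟩ := exists_inverse (g := g) (g' := gd) hX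
    ((g_contOn h).mono Icc_subset_Ici_self) (g_zero h)
    (fun x hx => g_strict h hx.1) (fun x hx => h.gd_pos x hx.1)
  -- scaled variable
  have hs : ∀ s ∈ Ioo 0 (k * g (k * R)), s / k ∈ Ioo 0 (g (k * R)) := by
    intro s hs
    refine ⟨div_pos hs.1 hk, ?_⟩
    rw [div_lt_iff₀ hk, mul_comm]
    exact hs.2
  have hσs : ∀ s ∈ Ioo 0 (k * g (k * R)), σ (s / k) ∈ Ioo 0 (k * R) ∧ g (σ (s / k)) = s / k ∧
      HasStrictDerivAt (fun s => σ (s / k)) ((gd (σ (s / k)))⁻¹ * (1 / k)) s := by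
    intro s hs'
    obtain ⟨h1, h2, h3⟩ := hσ1 _ (hs s hs')
    refine ⟨h1, h2, ?_⟩
    have h4 : HasStrictDerivAt (fun s : ℝ => s / k) (1 / k) s :=
      (hasStrictDerivAt_id s).div_const k
    exact HasStrictDerivAt.comp (h₂ := σ) (h := fun s : ℝ => s / k) s h3 h4
  refine ⟨fun s => Ph f g gd (σ (s / k)),
    fun s => Phd f g gd (σ (s / k)) * ((gd (σ (s / k)))⁻¹ * (1 / k)),
    fun s => f (σ (s / k)) ^ 2 / (k ^ 2 * gd (σ (s / k)) *
      (k ^ 2 * (g (σ (s / k)) / σ (s / k))) ^ (n - 1)), ?_, ?_⟩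
  · refine ⟨?_, ?_, ?_, ?_, ?_, ?_, ?_, ?_, ?_⟩
    · exact mul_pos hk (h.g_pos _ hX)
    · have := h.g_lt_one _ hX
      nlinarith
    · intro s hs'
      obtain ⟨h1, h2, h3⟩ := hσs s hs'
      exact HasStrictDerivAt.comp (h₂ := Ph f g gd) (h := fun s : ℝ => σ (s / k)) s
        (Ph_strict h h1.1) h3
    · intro s hs'
      obtain ⟨h1, h2, h3⟩ := hσs s hs'
      have hc : ContinuousAt (fun s => σ (s / k)) s := h3.hasDerivAt.continuousAt
      have hcf : ContinuousAt (fun s => f (σ (s / k))) s :=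
        ContinuousAt.comp (g := f) (h.f_deriv _ h1.1).continuousAt hc
      have hcg : ContinuousAt (fun s => g (σ (s / k))) s :=
        ContinuousAt.comp (g := g) (h.g_deriv _ h1.1).continuousAt hc
      have hcgd : ContinuousAt (fun s => gd (σ (s / k))) s :=
        ContinuousAt.comp (g := gd) (gd_cont h h1.1) hc
      have e1 := h.gd_pos _ h1.1
      have e2 := h.g_pos _ h1.1
      have e3 := h1.1
      refine ContinuousAt.continuousWithinAt ?_
      refine ContinuousAt.div (hcf.pow 2) ?_ (by positivity)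
      refine ContinuousAt.mul (continuousAt_const.mul hcgd) (ContinuousAt.pow ?_ _)
      exact continuousAt_const.mul (ContinuousAt.div hcg hc e3.ne')
    · exact ⟨1 / 2, by norm_num, fun s hs' => Ph_lower h hn (hσs s hs').1.1⟩
    · intro s hs'
      obtain ⟨h1, h2, h3⟩ := hσs s hs'
      have e1 := h.gd_pos _ h1.1
      have e2 := Phd_nonneg h h1.1
      positivity
    · intro s hs'
      obtain ⟨h1, h2, h3⟩ := hσs s hs'
      have e0 : g (k * R) ≠ 0 := (h.g_pos _ hX).ne'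
      have e1 : s = k * g (σ (s / k)) := by rw [h2]; field_simp
      have e2 : g (σ (s / k)) ≤ g (k * R) :=
        (hmono ⟨h1.1.le, h1.2.le⟩ ⟨hX.le, le_rfl⟩ h1.2).le
      have e3 : Ph f g gd (σ (s / k)) ≤ Ph f g gd (k * R) := Ph_mono h h1.1 hX h1.2.le
      have e4 : R * (k ^ 2 * gd (k * R)) * f (k * R) ^ 2 = k * g (k * R) * Ph f g gd (k * R) := by
        unfold Ph
        have e0' : g (R * k) ≠ 0 := by rwa [mul_comm]
        field_simp
      rw [e4]
      have e5 : s * Ph f g gd (σ (s / k)) = k * g (σ (s / k)) * Ph f g gd (σ (s / k)) := by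
        rw [← e1]
      show s * Ph f g gd (σ (s / k)) ≤ _
      rw [e5]
      exact mul_le_mul (mul_le_mul_of_nonneg_left e2 hk.le) e3 (Ph_pos h h1.1).le
        (mul_pos hk (h.g_pos _ hX)).le
    · intro s hs'
      obtain ⟨h1, h2, h3⟩ := hσs s hs'
      have e1 := h.gd_pos _ h1.1
      have e2 := h.g_pos _ h1.1
      have e3 := h.f_pos _ h1.1.le
      have e4 := h1.1
      positivity
    · intro s hs' e he
      obtain ⟨h1, h2, h3⟩ := hσs s hs'
      set x := σ (s / k) with hx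
      have x0 : 0 < x := h1.1
      have e1 := h.gd_pos _ x0
      have e2 := h.g_pos _ x0
      have e3 := h.f_pos _ x0.le
      have e5 := h.gd_lt _ x0
      have es : s = k * g x := by rw [h2]; field_simp
      have ho := ode h x0
      set G := gd x with hGdef
      set u := g x / x with hu
      have hu0 : 0 < u := by positivity
      have hgx : g x = u * x := by rw [hu]; field_simp
      have hF : 0 < f x ^ 2 := by positivity
      have A := alg_aux (n := n) hn e1 e5.le hF he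
      have hP : Ph f g gd x = f x ^ 2 * G / u := by
        unfold Ph
        rw [← hGdef, hgx]
        field_simp
      have hD : k ^ 2 - s ^ 2 = k ^ 2 * (G + ((n : ℝ) - 1) * u) := by
        rw [← ho, es]; ring
      have hH1 : Ph f g gd x + ((n : ℝ) - 1) * e =
          f x ^ 2 * (G + ((n : ℝ) - 1) * u) / u - ((n : ℝ) - 1) * f x ^ 2 + ((n : ℝ) - 1) * e := by
        rw [hP]
        field_simp
        ring
      have hPd : s * (Phd f g gd x * (G⁻¹ * (1 / k))) =
          f x ^ 2 * (G + ((n : ℝ) - 1) * u) * (u - G) / (u * G) := by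
        unfold Phd
        rw [ho, ← hu, ← hGdef, es, hgx]
        field_simp
      have hH2 : Ph f g gd x + s * (Phd f g gd x * (G⁻¹ * (1 / k))) + ((n : ℝ) - 1) * e =
          f x ^ 2 * (G + ((n : ℝ) - 1) * u) / G - ((n : ℝ) - 1) * f x ^ 2 + ((n : ℝ) - 1) * e := by
        rw [hP, hPd]
        field_simp
        ring
      show f x ^ 2 / (k ^ 2 * G * (k ^ 2 * u) ^ (n - 1)) * (k ^ 2 - s ^ 2) ^ n * e ^ (n - 1) ≤
        (Ph f g gd x + s * (Phd f g gd x * (G⁻¹ * (1 / k))) + ((n : ℝ) - 1) * e) *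
          (Ph f g gd x + ((n : ℝ) - 1) * e) ^ (n - 1)
      rw [hH1, hH2]
      refine le_trans (le_of_eq ?_) A
      rw [hD]
      obtain ⟨m, rfl⟩ : ∃ m, n = m + 1 := ⟨n - 1, by omega⟩
      simp only [Nat.add_sub_cancel]
      rw [mul_pow, mul_pow, pow_succ (k ^ 2) m]
      field_simp
  · intro r hr0 hrR
    have hx : k * r ∈ Ioo 0 (k * R) := ⟨mul_pos hk hr0, mul_lt_mul_of_pos_left hrR hk⟩
    have e1 : k * g (k * r) / k = g (k * r) := by field_simp
    have e2 : σ (k * g (k * r) / k) = k * r := by rw [e1]; exact hσ2 _ hx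
    have e3 : k ^ 2 * (g (k * r) / (k * r)) = k * g (k * r) / r := by
      field_simp
    show f (σ (k * g (k * r) / k)) ^ 2 / (k ^ 2 * gd (σ (k * g (k * r) / k)) *
      (k ^ 2 * (g (σ (k * g (k * r) / k)) / σ (k * g (k * r) / k))) ^ (n - 1)) = _
    rw [e2, e3]

end Pool.Agent.ROB
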