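import Pool.Agent.ROB.Stmts

/-!
MP_7b7880_an, module C1 (RAD): the radial data exist.
-/

namespace Pool.Agent.ROB

namespace RAD

open Set Filter Topology

/-- A power series with coefficients bounded by `1 / m!`. -/
noncomputable def ser (a : ℕ → ℝ) (s : ℝ) : ℝ := ∑' m, a m * s ^ m

/-- The coefficients of the derivative. -/
noncomputable def dcoef (a : ℕ → ℝ) (m : ℕ) : ℝ := ((m : ℝ) + 1) * a (m + 1)

def Bd (a : ℕ → ℝ) : Prop := ∀ m, |a m| ≤ 1 / (m.factorial : ℝ)

lemma Bd.d {a : ℕ → ℝ} (h : Bd a) : Bd (dcoef a) := by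
  intro m
  have h1 := h (m + 1)
  rw [dcoef, abs_mul, abs_of_pos (by positivity : (0 : ℝ) < (m : ℝ) + 1)]
  have h2 : ((m + 1).factorial : ℝ) = ((m : ℝ) + 1) * (m.factorial : ℝ) := by
    rw [Nat.factorial_succ]; push_cast; ring
  rw [h2] at h1
  have h3 : (0 : ℝ) < (m.factorial : ℝ) := by positivity
  calc ((m : ℝ) + 1) * |a (m + 1)| ≤ ((m : ℝ) + 1) * (1 / (((m : ℝ) + 1) * (m.factorial : ℝ))) := by
        gcongr
    _ = 1 / (m.factorial : ℝ) := by field_simp

lemma summable_ser {a : ℕ → ℝ} (h : Bd a) (s : ℝ) : Summable (fun m => a m * s ^ m) := by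
  refine Summable.of_norm_bounded (g := fun m => |s| ^ m / (m.factorial : ℝ))
    (Real.summable_pow_div_factorial |s|) ?_
  intro m
  rw [norm_mul, Real.norm_eq_abs, norm_pow, Real.norm_eq_abs]
  calc |a m| * |s| ^ m ≤ 1 / (m.factorial : ℝ) * |s| ^ m := by gcongr; exact h m
    _ = |s| ^ m / (m.factorial : ℝ) := by ring

lemma hasDerivAt_ser {a : ℕ → ℝ} (h : Bd a) (s : ℝ) :
    HasDerivAt (ser a) (ser (dcoef a) s) s := by
  set R : ℝ := |s| + 1 with hR
  have hR0 : 0 < R := by positivity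
  have hs : s ∈ Metric.ball (0 : ℝ) R := by
    simp [hR]
  have hsum : Summable (fun m : ℕ => (m : ℝ) * (1 / (m.factorial : ℝ)) * R ^ (m - 1)) := by
    rw [← summable_nat_add_iff 1]
    have h1 : (fun m : ℕ => ((m + 1 : ℕ) : ℝ) * (1 / ((m + 1).factorial : ℝ)) * R ^ (m + 1 - 1)) =
        fun m : ℕ => R ^ m / (m.factorial : ℝ) := by
      funext m
      rw [Nat.factorial_succ, Nat.add_sub_cancel]
      have h3 : (m.factorial : ℝ) ≠ 0 := by positivity
      push_cast
      field_simp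
    rw [h1]
    exact Real.summable_pow_div_factorial R
  have key := hasDerivAt_tsum_of_isPreconnected (g := fun m (z : ℝ) => a m * z ^ m)
    (g' := fun m (z : ℝ) => a m * ((m : ℝ) * z ^ (m - 1))) hsum Metric.isOpen_ball
    (convex_ball (0 : ℝ) R).isPreconnected ?_ ?_ (Metric.mem_ball_self hR0) ?_ hs
  · have h2 : ∑' m : ℕ, a m * ((m : ℝ) * s ^ (m - 1)) = ser (dcoef a) s := by
      rw [ser, Summable.tsum_eq_zero_add]
      · simp only [Nat.cast_zero, zero_mul, mul_zero, zero_add, dcoef]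
        apply tsum_congr
        intro m
        rw [Nat.add_sub_cancel]
        push_cast
        ring
      · rw [← summable_nat_add_iff 1]
        refine (summable_ser h.d s).congr ?_
        intro m
        rw [Nat.add_sub_cancel, dcoef]
        push_cast
        ring
    rw [← h2]
    exact key
  · intro m z _
    exact (hasDerivAt_pow m z).const_mul (a m)
  · intro m z hz
    rw [norm_mul, norm_mul, norm_pow, Real.norm_eq_abs, Real.norm_eq_abs, Real.norm_eq_abs,
      abs_of_nonneg (by positivity : (0 : ℝ) ≤ m)]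
    have hz' : |z| ≤ R := by
      rw [Metric.mem_ball, dist_zero_right, Real.norm_eq_abs] at hz
      exact hz.le
    calc |a m| * ((m : ℝ) * |z| ^ (m - 1)) ≤ 1 / (m.factorial : ℝ) * ((m : ℝ) * R ^ (m - 1)) := by
          gcongr
          exact h m
      _ = (m : ℝ) * (1 / (m.factorial : ℝ)) * R ^ (m - 1) := by ring
  · exact summable_ser h 0

lemma continuous_ser {a : ℕ → ℝ} (h : Bd a) : Continuous (ser a) :=
  continuous_iff_continuousAt.mpr fun s => (hasDerivAt_ser h s).continuousAt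

lemma contDiff_ser {a : ℕ → ℝ} (h : Bd a) : ContDiff ℝ 1 (ser a) := by
  rw [contDiff_one_iff_deriv]
  refine ⟨fun s => (hasDerivAt_ser h s).differentiableAt, ?_⟩
  have : deriv (ser a) = ser (dcoef a) := by
    funext s
    exact (hasDerivAt_ser h s).deriv
  rw [this]
  exact continuous_ser h.d

/-- The coefficients. -/
noncomputable def co (n : ℕ) : ℕ → ℝ
  | 0 => 1
  | m + 1 => co n m / (2 * ((m : ℝ) + 1) * (2 * m + n))

lemma co_pos {n : ℕ} (hn : 2 ≤ n) (m : ℕ) : 0 < co n m := by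
  induction m with
  | zero => simp [co]
  | succ m ih =>
    have : (2 : ℝ) ≤ n := by exact_mod_cast hn
    rw [co]
    positivity

lemma co_bd {n : ℕ} (hn : 2 ≤ n) : Bd (co n) := by
  intro m
  rw [abs_of_pos (co_pos hn m)]
  induction m with
  | zero => simp [co]
  | succ m ih =>
    have hn' : (2 : ℝ) ≤ n := by exact_mod_cast hn
    rw [co, Nat.factorial_succ]
    push_cast
    have h3 : (0 : ℝ) < (m.factorial : ℝ) := by positivity
    have h4 : (0 : ℝ) ≤ m := by positivity
    rw [div_le_div_iff₀ (by positivity) (by positivity)]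
    rw [le_div_iff₀ h3] at ih
    have h5 := co_pos hn m
    calc co n m * (((m : ℝ) + 1) * (m.factorial : ℝ)) = (co n m * m.factorial) * (m + 1) := by ring
      _ ≤ 1 * (m + 1) := by gcongr
      _ ≤ 1 * (2 * ((m : ℝ) + 1) * (2 * m + n)) := by nlinarith

/-- the entire function and its derivatives -/
noncomputable def ph (n : ℕ) : ℝ → ℝ := ser (co n)
noncomputable def ph1 (n : ℕ) : ℝ → ℝ := ser (dcoef (co n))
noncomputable def ph2 (n : ℕ) : ℝ → ℝ := ser (dcoef (dcoef (co n)))

lemma ph_ode {n : ℕ} (hn : 2 ≤ n) (s : ℝ) : 4 * s * ph2 n s + 2 * n * ph1 n s = ph n s := by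
  have hb := co_bd hn
  have h1 : s * ph2 n s = ∑' m : ℕ, (m : ℝ) * (dcoef (co n) m * s ^ m) := by
    rw [ph2, ser, ← tsum_mul_left]
    rw [Summable.tsum_eq_zero_add (f := fun m : ℕ => (m : ℝ) * (dcoef (co n) m * s ^ m))]
    · simp only [Nat.cast_zero, zero_mul, zero_add]
      apply tsum_congr
      intro m
      rw [dcoef]
      push_cast
      ring
    · rw [← summable_nat_add_iff 1]
      refine ((summable_ser hb.d.d s).mul_left s).congr ?_
      intro m
      rw [dcoef]
      push_cast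
      ring
  have hs2 : Summable (fun m : ℕ => (m : ℝ) * (dcoef (co n) m * s ^ m)) := by
    rw [← summable_nat_add_iff 1]
    refine ((summable_ser hb.d.d s).mul_left s).congr ?_
    intro m
    rw [dcoef]
    push_cast
    ring
  rw [mul_assoc, h1, ph1, ser, ← tsum_mul_left, ← tsum_mul_left,
    ← (hs2.mul_left 4).tsum_add ((summable_ser hb.d s).mul_left _), ph, ser]
  apply tsum_congr
  intro m
  have hn' : (2 : ℝ) ≤ n := by exact_mod_cast hn
  have h4 : (0 : ℝ) ≤ m := by positivity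
  rw [dcoef, co]
  have h5 : (2 * (m : ℝ) + n) ≠ 0 := by positivity
  have h6 : ((m : ℝ) + 1) ≠ 0 := by positivity
  field_simp
  ring

lemma ser_pos {a : ℕ → ℝ} (h : Bd a) (h0 : 0 < a 0) (hp : ∀ m, 0 ≤ a m) {s : ℝ} (hs : 0 ≤ s) :
    0 < ser a s := by
  have := (summable_ser h s).tsum_pos (fun m => mul_nonneg (hp m) (pow_nonneg hs m)) 0
    (by simpa using h0)
  exact this

lemma ser_zero (a : ℕ → ℝ) : ser a 0 = a 0 := by
  rw [ser, tsum_eq_single 0]
  · simp
  · intro m hm
    simp [hm]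

/-- the function `y` -/
noncomputable def yy (n : ℕ) (s : ℝ) : ℝ := 2 * ph1 n s / ph n s

section

variable {n : ℕ}

lemma ph_pos (hn : 2 ≤ n) {s : ℝ} (hs : 0 ≤ s) : 0 < ph n s :=
  ser_pos (co_bd hn) (co_pos hn 0) (fun m => (co_pos hn m).le) hs

lemma ph1_pos (hn : 2 ≤ n) {s : ℝ} (hs : 0 ≤ s) : 0 < ph1 n s := by
  refine ser_pos (co_bd hn).d ?_ (fun m => ?_) hs
  · have := co_pos hn 1
    simp only [dcoef]
    positivity
  · have := co_pos hn (m + 1)
    simp only [dcoef]
    positivity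

lemma yy_pos (hn : 2 ≤ n) {s : ℝ} (hs : 0 ≤ s) : 0 < yy n s := by
  have h1 := ph_pos hn hs
  have h2 := ph1_pos hn hs
  rw [yy]
  positivity

lemma ph_deriv (hn : 2 ≤ n) (s : ℝ) : HasDerivAt (ph n) (ph1 n s) s :=
  hasDerivAt_ser (co_bd hn) s

lemma ph1_deriv (hn : 2 ≤ n) (s : ℝ) : HasDerivAt (ph1 n) (ph2 n s) s :=
  hasDerivAt_ser (co_bd hn).d s

lemma yy_deriv (hn : 2 ≤ n) {s : ℝ} (hs : 0 ≤ s) :
    HasDerivAt (yy n) (2 * ph2 n s / ph n s - (yy n s) ^ 2 / 2) s := by
  have h1 := ph_pos hn hs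
  have h2 := ((ph1_deriv hn s).const_mul 2).div (ph_deriv hn s) h1.ne'
  have h3 : (2 * ph2 n s * ph n s - 2 * ph1 n s * ph1 n s) / ph n s ^ 2 =
      2 * ph2 n s / ph n s - (yy n s) ^ 2 / 2 := by
    rw [yy]
    field_simp
  rw [h3] at h2
  exact h2

lemma yy_ode (hn : 2 ≤ n) {s : ℝ} (hs : 0 ≤ s) :
    2 * s * (2 * ph2 n s / ph n s - (yy n s) ^ 2 / 2) = 1 - n * yy n s - s * yy n s ^ 2 := by
  have h1 := ph_pos hn hs
  have h2 := ph_ode hn s
  have h3 : 4 * s * ph2 n s = ph n s - 2 * n * ph1 n s := by linarith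
  have h4 : 2 * s * (2 * ph2 n s / ph n s) = 1 - n * yy n s := by
    rw [yy]
    have : 2 * s * (2 * ph2 n s / ph n s) = (4 * s * ph2 n s) / ph n s := by ring
    rw [this, h3]
    field_simp
  linear_combination h4

/-- `Y r = y (r^2)` -/
noncomputable def YY (n : ℕ) (r : ℝ) : ℝ := yy n (r ^ 2)
noncomputable def ff (n : ℕ) (r : ℝ) : ℝ := ph n (r ^ 2)
noncomputable def gg (n : ℕ) (r : ℝ) : ℝ := r * yy n (r ^ 2)
noncomputable def QQ (n : ℕ) (r : ℝ) : ℝ := 1 - n * YY n r - gg n r ^ 2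
noncomputable def GG (n : ℕ) (r : ℝ) : ℝ := 1 - (n - 1) * YY n r - gg n r ^ 2

lemma YY_deriv (hn : 2 ≤ n) {r : ℝ} (hr : 0 < r) : HasDerivAt (YY n) (QQ n r / r) r := by
  have h1 := HasDerivAt.comp (h := fun r : ℝ => r ^ 2) r (yy_deriv hn (sq_nonneg r))
    (hasDerivAt_pow 2 r)
  have h2 := yy_ode hn (sq_nonneg r)
  have h3 : (2 * ph2 n (r ^ 2) / ph n (r ^ 2) - (yy n (r ^ 2)) ^ 2 / 2) *
      (((2 : ℕ) : ℝ) * r ^ (2 - 1)) = QQ n r / r := by
    rw [eq_div_iff hr.ne', QQ, YY, gg]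
    push_cast
    simp only [pow_one]
    linear_combination h2
  rw [h3] at h1
  exact h1

lemma gg_deriv (hn : 2 ≤ n) {r : ℝ} (hr : 0 < r) : HasDerivAt (gg n) (GG n r) r := by
  have h1 := (hasDerivAt_id r).mul (YY_deriv hn hr)
  have h2 : 1 * YY n r + id r * (QQ n r / r) = GG n r := by
    simp only [id]
    rw [mul_div_cancel₀ _ hr.ne', QQ, GG]
    ring
  rw [h2] at h1
  exact h1

lemma ff_deriv (hn : 2 ≤ n) (r : ℝ) : HasDerivAt (ff n) (gg n r * ff n r) r := by
  have h1 := (ph_deriv hn (r ^ 2)).comp r (hasDerivAt_pow 2 r)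
  have h0 := ph_pos hn (sq_nonneg r)
  have h3 : ph1 n (r ^ 2) * (((2 : ℕ) : ℝ) * r ^ (2 - 1)) = gg n r * ff n r := by
    rw [gg, ff, yy]
    push_cast
    simp only [pow_one]
    field_simp
  rw [h3] at h1
  exact h1

lemma YY_pos (hn : 2 ≤ n) (r : ℝ) : 0 < YY n r := yy_pos hn (sq_nonneg r)
lemma ff_pos (hn : 2 ≤ n) (r : ℝ) : 0 < ff n r := ph_pos hn (sq_nonneg r)
lemma gg_pos (hn : 2 ≤ n) {r : ℝ} (hr : 0 < r) : 0 < gg n r := mul_pos hr (YY_pos hn r)

lemma cont_YY (hn : 2 ≤ n) : Continuous (YY n) := by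
  rw [continuous_iff_continuousAt]
  intro r
  exact (yy_deriv hn (sq_nonneg r)).continuousAt.comp (f := fun r : ℝ => r ^ 2)
    (continuous_pow 2).continuousAt

lemma cont_gg (hn : 2 ≤ n) : Continuous (gg n) := continuous_id.mul (cont_YY hn)
lemma cont_ff (hn : 2 ≤ n) : Continuous (ff n) :=
  (continuous_ser (co_bd hn)).comp (continuous_pow 2)
lemma cont_QQ (hn : 2 ≤ n) : Continuous (QQ n) :=
  (continuous_const.sub (continuous_const.mul (cont_YY hn))).sub ((cont_gg hn).pow 2)
lemma cont_GG (hn : 2 ≤ n) : Continuous (GG n) :=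
  (continuous_const.sub (continuous_const.mul (cont_YY hn))).sub ((cont_gg hn).pow 2)

lemma QQ_neg (hn : 2 ≤ n) {r : ℝ} (hr : 0 < r) : QQ n r < 0 := by
  obtain ⟨k, rfl⟩ : ∃ k, n = k + 2 := ⟨n - 2, by omega⟩
  set K : ℝ → ℝ := fun r => r ^ (k + 2) * ff (k + 2) r ^ 2 * QQ (k + 2) r with hK
  have hd : ∀ x : ℝ, 0 < x → HasDerivAt K
      (-2 * x ^ (k + 2) * ff (k + 2) x ^ 2 * gg (k + 2) x * YY (k + 2) x) x := by
    intro x hx
    have hY := YY_deriv hn hx
    have hg := gg_deriv hn hx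
    have hf := ff_deriv hn x
    have hQ : HasDerivAt (QQ (k + 2)) (0 - ((k + 2 : ℕ) : ℝ) * (QQ (k + 2) x / x) -
        2 * gg (k + 2) x * GG (k + 2) x) x := by
      have := ((hasDerivAt_const x (1 : ℝ)).sub (hY.const_mul ((k + 2 : ℕ) : ℝ))).sub (hg.pow 2)
      refine HasDerivAt.congr_deriv (f := QQ (k + 2)) this ?_
      push_cast
      ring
    have hK1 := ((hasDerivAt_pow (k + 2) x).mul (hf.pow 2)).mul hQ
    refine HasDerivAt.congr_deriv (f := K) hK1 ?_
    have hxne := hx.ne'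
    simp only [Pi.mul_apply, Pi.pow_apply]
    rw [show GG (k + 2) x = QQ (k + 2) x + YY (k + 2) x by rw [GG, QQ]; push_cast; ring]
    simp only [show k + 2 - 1 = k + 1 from rfl]
    simp only [pow_succ]
    field_simp
    push_cast
    ring
  have hanti : StrictAntiOn K (Ici 0) := by
    apply strictAntiOn_of_deriv_neg (convex_Ici 0)
    · exact ((continuous_pow _).mul ((cont_ff hn).pow 2)).mul (cont_QQ hn) |>.continuousOn
    · intro x hx
      rw [interior_Ici] at hx
      have hx' : 0 < x := hx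
      rw [(hd x hx').deriv]
      have h1 := ff_pos hn x
      have h2 := gg_pos hn hx'
      have h3 := YY_pos hn x
      have : 0 < x ^ (k + 2) * ff (k + 2) x ^ 2 * gg (k + 2) x * YY (k + 2) x := by positivity
      nlinarith
  have h1 := hanti (mem_Ici.mpr le_rfl) (mem_Ici.mpr hr.le) hr
  have h2 : K 0 = 0 := by simp [hK]
  rw [h2] at h1
  have h3 : 0 < r ^ (k + 2) * ff (k + 2) r ^ 2 := by
    have := ff_pos hn r
    positivity
  exact neg_of_mul_neg_right h1 h3.le

lemma GG_pos (hn : 2 ≤ n) {r : ℝ} (hr : 0 < r) : 0 < GG n r := by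
  obtain ⟨k, rfl⟩ : ∃ k, n = k + 2 := ⟨n - 2, by omega⟩
  set K : ℝ → ℝ := fun r => r ^ (k + 1) * ff (k + 2) r ^ 2 * GG (k + 2) r with hK
  have hd : ∀ x : ℝ, 0 < x → HasDerivAt K
      (((k : ℝ) + 1) * x ^ k * ff (k + 2) x ^ 2 * YY (k + 2) x) x := by
    intro x hx
    have hY := YY_deriv hn hx
    have hg := gg_deriv hn hx
    have hf := ff_deriv hn x
    have hQ : HasDerivAt (GG (k + 2)) (0 - (((k + 2 : ℕ) : ℝ) - 1) * (QQ (k + 2) x / x) -
        2 * gg (k + 2) x * GG (k + 2) x) x := by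
      have := ((hasDerivAt_const x (1 : ℝ)).sub
        (hY.const_mul (((k + 2 : ℕ) : ℝ) - 1))).sub (hg.pow 2)
      refine HasDerivAt.congr_deriv (f := GG (k + 2)) this ?_
      push_cast
      ring
    have hK1 := ((hasDerivAt_pow (k + 1) x).mul (hf.pow 2)).mul hQ
    refine HasDerivAt.congr_deriv (f := K) hK1 ?_
    have hxne := hx.ne'
    simp only [Pi.mul_apply, Pi.pow_apply]
    rw [show GG (k + 2) x = QQ (k + 2) x + YY (k + 2) x by rw [GG, QQ]; push_cast; ring]
    simp only [Nat.add_sub_cancel]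
    simp only [pow_succ]
    field_simp
    push_cast
    ring
  have hmono : StrictMonoOn K (Ici 0) := by
    apply strictMonoOn_of_deriv_pos (convex_Ici 0)
    · exact ((continuous_pow _).mul ((cont_ff hn).pow 2)).mul (cont_GG hn) |>.continuousOn
    · intro x hx
      rw [interior_Ici] at hx
      have hx' : 0 < x := hx
      rw [(hd x hx').deriv]
      have h1 := ff_pos hn x
      have h3 := YY_pos hn x
      positivity
  have h1 := hmono (mem_Ici.mpr le_rfl) (mem_Ici.mpr hr.le) hr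
  have h2 : K 0 = 0 := by simp [hK]
  rw [h2] at h1
  have h3 : 0 < r ^ (k + 1) * ff (k + 2) r ^ 2 := by
    have := ff_pos hn r
    positivity
  exact (mul_pos_iff_of_pos_left h3).mp h1

end

end RAD

open RAD in
theorem rad_proof : Stmt_Rad := by
  intro n hn
  have hn' : (2 : ℝ) ≤ n := by exact_mod_cast hn
  refine ⟨yy n, ff n, gg n, fun r => 1 - gg n r ^ 2 - ((n : ℝ) - 1) * gg n r / r, ?_⟩
  have hG : ∀ r : ℝ, 0 < r → 1 - gg n r ^ 2 - ((n : ℝ) - 1) * gg n r / r = GG n r := by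
    intro r hr
    rw [GG, gg, YY]
    field_simp
    ring
  have hlt : ∀ r : ℝ, 0 < r → gg n r < 1 := by
    intro r hr
    have h1 := GG_pos hn hr
    have h2 := YY_pos hn r
    have h3 := gg_pos hn hr
    rw [GG] at h1
    nlinarith
  constructor
  · intro s hs
    have h1 := (contDiff_ser (co_bd hn).d).contDiffAt (x := s)
    have h2 := (contDiff_ser (co_bd hn)).contDiffAt (x := s)
    exact (contDiffAt_const.mul h1).div h2 (ph_pos hn hs).ne'
  · intro s hs
    exact yy_pos hn hs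
  · rw [yy, ph1, ph, ser_zero, ser_zero, dcoef]
    simp [co]
    field_simp
  · intro s hs
    rw [(yy_deriv hn hs).deriv]
    exact yy_ode hn hs
  · intro r _
    rfl
  · simp only [ff, ph]
    rw [show (0 : ℝ) ^ 2 = 0 by norm_num, ser_zero]
    rfl
  · intro r _
    exact ff_pos hn r
  · intro r _
    exact ff_deriv hn r
  · exact (cont_ff hn).continuousOn
  · intro r hr
    rw [hG r hr]
    exact gg_deriv hn hr
  · intro r _
    rfl
  · intro r hr
    exact gg_pos hn hr
  · intro r hr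
    rw [hG r hr]
    exact GG_pos hn hr
  · intro r hr
    rw [hG r hr]
    have h1 := QQ_neg hn hr
    have h2 : gg n r / r = YY n r := by
      rw [gg, YY]
      field_simp
    rw [h2]
    rw [QQ] at h1
    rw [GG]
    linarith
  · exact hlt
  · -- the limit
    have hlow : ∀ r : ℝ, 0 < r → 1 - n / r ≤ gg n r := by
      intro r hr
      have h1 := QQ_neg hn hr
      have h3 := gg_pos hn hr
      have h4 := hlt r hr
      have h5 : YY n r = gg n r / r := by
        rw [gg, YY]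
        field_simp
      have h6 : gg n r / r < 1 / r := by gcongr
      rw [QQ, h5] at h1
      have h7 : (n : ℝ) * (gg n r / r) ≤ n * (1 / r) := by gcongr
      have h8 : (n : ℝ) * (1 / r) = n / r := by ring
      nlinarith
    have ht : Filter.Tendsto (fun r : ℝ => 1 - (n : ℝ) / r) Filter.atTop (nhds 1) := by
      have := (tendsto_const_nhds (x := (1 : ℝ))).sub
        ((tendsto_const_nhds (x := (n : ℝ))).div_atTop Filter.tendsto_id)
      simpa using this
    refine tendsto_of_tendsto_of_tendsto_of_le_of_le' ht tendsto_const_nhds ?_ ?_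
    · filter_upwards [Filter.eventually_gt_atTop 0] with r hr using hlow r hr
    · filter_upwards [Filter.eventually_gt_atTop 0] with r hr using (hlt r hr).le

end Pool.Agent.ROB
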