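import Pool.Agent.ROB.Stmts

/-!
MP_7b7880_an: module SOFT (A3), the total inequality for soft-max test functions.
-/

namespace Pool.Agent.ROB

open MeasureTheory Set
open scoped ContDiff

namespace Soft

variable {n : ℕ} {ι : Type} [Fintype ι]

theorem ell_contDiff (ξ : ι → E n) (c : ι → ℝ) (i : ι) : ContDiff ℝ ∞ (ell ξ c i) := by
  unfold ell
  exact (contDiff_const.inner ℝ contDiff_id).sub contDiff_const

theorem ell_hasFDerivAt (ξ : ι → E n) (c : ι → ℝ) (i : ι) (x : E n) :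
    HasFDerivAt (ell ξ c i) (innerSL ℝ (ξ i)) x := by
  have h : HasFDerivAt (fun y : E n => innerSL ℝ (ξ i) y) (innerSL ℝ (ξ i)) x :=
    (innerSL ℝ (ξ i)).hasFDerivAt
  exact h.sub_const (c i)

theorem ZZ_pos [Nonempty ι] (ξ : ι → E n) (c : ι → ℝ) (τ : ℝ) (x : E n) : 0 < ZZ ξ c τ x := by
  unfold ZZ
  exact Finset.sum_pos (fun j _ => Real.exp_pos _) Finset.univ_nonempty

theorem ZZ_contDiff (ξ : ι → E n) (c : ι → ℝ) (τ : ℝ) : ContDiff ℝ ∞ (ZZ ξ c τ) := by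
  unfold ZZ
  exact ContDiff.sum fun j _ => ((ell_contDiff ξ c j).div_const τ).exp

theorem Psi_contDiff [Nonempty ι] (ξ : ι → E n) (c : ι → ℝ) (τ : ℝ) :
    ContDiff ℝ ∞ (Psi ξ c τ) := by
  unfold Psi
  exact contDiff_const.mul ((ZZ_contDiff ξ c τ).log fun x => (ZZ_pos ξ c τ x).ne')

theorem sp_contDiff [Nonempty ι] (ξ : ι → E n) (c : ι → ℝ) (τ : ℝ) (i : ι) :
    ContDiff ℝ ∞ (sp ξ c τ i) := by
  unfold sp
  exact (((ell_contDiff ξ c i).div_const τ).exp).div (ZZ_contDiff ξ c τ)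
    fun x => (ZZ_pos ξ c τ x).ne'

theorem sp_nonneg [Nonempty ι] (ξ : ι → E n) (c : ι → ℝ) (τ : ℝ) (i : ι) (x : E n) :
    0 ≤ sp ξ c τ i x :=
  div_nonneg (Real.exp_pos _).le (ZZ_pos ξ c τ x).le

theorem sp_sum [Nonempty ι] (ξ : ι → E n) (c : ι → ℝ) (τ : ℝ) (x : E n) :
    ∑ i, sp ξ c τ i x = 1 := by
  unfold sp
  rw [← Finset.sum_div]
  exact div_self (ZZ_pos ξ c τ x).ne'

/-- soft-max average of vectors -/
noncomputable def avg (ξ : ι → E n) (c : ι → ℝ) (τ : ℝ) (X : ι → E n) (x : E n) : E n :=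
  ∑ i, sp ξ c τ i x • X i

theorem avg_contDiff [Nonempty ι] (ξ : ι → E n) (c : ι → ℝ) (τ : ℝ) (X : ι → E n) :
    ContDiff ℝ ∞ (avg ξ c τ X) := by
  unfold avg
  exact ContDiff.sum fun i _ => (sp_contDiff ξ c τ i).smul contDiff_const

theorem avg_norm_le [Nonempty ι] (ξ : ι → E n) (c : ι → ℝ) (τ : ℝ) (X : ι → E n) (A : ℝ)
    (hA : ∀ i, ‖X i‖ ≤ A) (x : E n) : ‖avg ξ c τ X x‖ ≤ A := by
  unfold avg
  calc ‖∑ i, sp ξ c τ i x • X i‖ ≤ ∑ i, ‖sp ξ c τ i x • X i‖ := norm_sum_le _ _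
    _ ≤ ∑ i, sp ξ c τ i x * A := by
        refine Finset.sum_le_sum fun i _ => ?_
        rw [norm_smul, Real.norm_of_nonneg (sp_nonneg ξ c τ i x)]
        exact mul_le_mul_of_nonneg_left (hA i) (sp_nonneg ξ c τ i x)
    _ = A := by rw [← Finset.sum_mul, sp_sum, one_mul]

theorem Psi_hasFDerivAt [Nonempty ι] (ξ : ι → E n) (c : ι → ℝ) {τ : ℝ} (hτ : 0 < τ) (x : E n) :
    HasFDerivAt (Psi ξ c τ) (innerSL ℝ (avg ξ c τ ξ x)) x := by
  have hZ : HasFDerivAt (ZZ ξ c τ)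
      (∑ j, Real.exp (ell ξ c j x / τ) • (τ⁻¹ • innerSL ℝ (ξ j))) x := by
    unfold ZZ
    refine HasFDerivAt.fun_sum fun j _ => ?_
    have h1 : HasFDerivAt (fun y => ell ξ c j y / τ) (τ⁻¹ • innerSL ℝ (ξ j)) x := by
      simpa [div_eq_mul_inv] using (ell_hasFDerivAt ξ c j x).mul_const τ⁻¹
    exact h1.exp
  have h2 := (hZ.log (ZZ_pos ξ c τ x).ne').const_mul τ
  have h3 : (τ • (ZZ ξ c τ x)⁻¹ • ∑ j, Real.exp (ell ξ c j x / τ) • τ⁻¹ • innerSL ℝ (ξ j) :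
      E n →L[ℝ] ℝ) = innerSL ℝ (avg ξ c τ ξ x) := by
    ext v
    have h4 : (τ • (ZZ ξ c τ x)⁻¹ • ∑ j, Real.exp (ell ξ c j x / τ) • τ⁻¹ • innerSL ℝ (ξ j) :
        E n →L[ℝ] ℝ) v = τ * ((ZZ ξ c τ x)⁻¹ *
          ∑ j, Real.exp (ell ξ c j x / τ) * (τ⁻¹ * inner ℝ (ξ j) v)) := by
      simp
    have h5 : innerSL ℝ (avg ξ c τ ξ x) v = ∑ j, sp ξ c τ j x * inner ℝ (ξ j) v := by
      rw [innerSL_apply_apply]
      unfold avg
      rw [sum_inner]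
      refine Finset.sum_congr rfl fun j _ => ?_
      rw [inner_smul_left]
      simp
    rw [h4, h5, Finset.mul_sum, Finset.mul_sum]
    refine Finset.sum_congr rfl fun j _ => ?_
    have := (ZZ_pos ξ c τ x).ne'
    unfold sp
    field_simp
  rw [h3] at h2
  exact h2

theorem sp_eq [Nonempty ι] (ξ : ι → E n) (c : ι → ℝ) {τ : ℝ} (hτ : 0 < τ) (i : ι) (x : E n) :
    sp ξ c τ i x = Real.exp ((ell ξ c i x - Psi ξ c τ x) / τ) := by
  unfold sp Psi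
  rw [sub_div, Real.exp_sub, mul_div_cancel_left₀ _ hτ.ne', Real.exp_log (ZZ_pos ξ c τ x)]

theorem sp_hasFDerivAt [Nonempty ι] (ξ : ι → E n) (c : ι → ℝ) {τ : ℝ} (hτ : 0 < τ) (i : ι)
    (x : E n) : HasFDerivAt (sp ξ c τ i)
      (sp ξ c τ i x • (τ⁻¹ • innerSL ℝ (ξ i - avg ξ c τ ξ x))) x := by
  have h1 : HasFDerivAt (fun y => (ell ξ c i y - Psi ξ c τ y) / τ)
      (τ⁻¹ • innerSL ℝ (ξ i - avg ξ c τ ξ x)) x := by
    have h := ((ell_hasFDerivAt ξ c i x).sub (Psi_hasFDerivAt ξ c hτ x)).mul_const τ⁻¹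
    simpa [div_eq_mul_inv, map_sub] using h
  have h2 := h1.exp
  rw [← sp_eq ξ c hτ i x] at h2
  exact h2.congr_of_eventuallyEq (Filter.Eventually.of_forall fun y => sp_eq ξ c hτ i y)

theorem avg_hasFDerivAt [Nonempty ι] (ξ : ι → E n) (c : ι → ℝ) {τ : ℝ} (hτ : 0 < τ)
    (X : ι → E n) (x : E n) : HasFDerivAt (avg ξ c τ X)
      (∑ i, (sp ξ c τ i x • (τ⁻¹ • innerSL ℝ (ξ i - avg ξ c τ ξ x))).smulRight (X i)) x := by
  unfold avg
  exact HasFDerivAt.fun_sum fun i _ => (sp_hasFDerivAt ξ c hτ i x).smul_const (X i)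

/-- the double sum -/
theorem double_sum {p : ι → ℝ} (hp : ∑ i, p i = 1) (ξ X : ι → E n) :
    ∑ i, ∑ j, p i * p j * inner ℝ (ξ i - ξ j) (X i - X j) =
      2 * ∑ i, p i * inner ℝ (ξ i - ∑ j, p j • ξ j) (X i) := by
  have h1 : ∑ i, ∑ j, p i * p j * inner ℝ (ξ i - ξ j) (X j) =
      -∑ i, ∑ j, p i * p j * inner ℝ (ξ i - ξ j) (X i) := by
    rw [Finset.sum_comm, ← Finset.sum_neg_distrib]
    refine Finset.sum_congr rfl fun i _ => ?_
    rw [← Finset.sum_neg_distrib]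
    refine Finset.sum_congr rfl fun j _ => ?_
    rw [← neg_sub (ξ i) (ξ j), inner_neg_left]
    ring
  have h2 : ∑ i, ∑ j, p i * p j * inner ℝ (ξ i - ξ j) (X i - X j) =
      2 * ∑ i, ∑ j, p i * p j * inner ℝ (ξ i - ξ j) (X i) := by
    have : ∑ i, ∑ j, p i * p j * inner ℝ (ξ i - ξ j) (X i - X j) =
        ∑ i, ∑ j, p i * p j * inner ℝ (ξ i - ξ j) (X i) -
          ∑ i, ∑ j, p i * p j * inner ℝ (ξ i - ξ j) (X j) := by
      rw [← Finset.sum_sub_distrib]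
      refine Finset.sum_congr rfl fun i _ => ?_
      rw [← Finset.sum_sub_distrib]
      refine Finset.sum_congr rfl fun j _ => ?_
      rw [inner_sub_right]
      ring
    rw [this, h1]
    ring
  rw [h2]
  congr 1
  refine Finset.sum_congr rfl fun i _ => ?_
  rw [inner_sub_left, sum_inner, mul_sub, Finset.mul_sum]
  have h3 : ∑ j, p i * p j * inner ℝ (ξ i - ξ j) (X i) =
      ∑ j, (p j * (p i * inner ℝ (ξ i) (X i)) - p i * (p j * inner ℝ (ξ j) (X i))) := by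
    refine Finset.sum_congr rfl fun j _ => ?_
    rw [inner_sub_left]
    ring
  rw [h3, Finset.sum_sub_distrib, ← Finset.sum_mul, hp, one_mul]
  congr 1
  refine Finset.sum_congr rfl fun j _ => ?_
  rw [inner_smul_left]
  simp

theorem trace_avg [Nonempty ι] (ξ : ι → E n) (c : ι → ℝ) {τ : ℝ} (hτ : 0 < τ)
    (X : ι → E n) (x : E n) : LinearMap.trace ℝ (E n)
      (∑ i, (sp ξ c τ i x • (τ⁻¹ • innerSL ℝ (ξ i - avg ξ c τ ξ x))).smulRight (X i) :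
        E n →L[ℝ] E n).toLinearMap =
      1 / (2 * τ) * ∑ i, ∑ j, sp ξ c τ i x * sp ξ c τ j x *
        inner ℝ (ξ i - ξ j) (X i - X j) := by
  rw [double_sum (sp_sum ξ c τ x) ξ X]
  have h : ((∑ i, (sp ξ c τ i x • (τ⁻¹ • innerSL ℝ (ξ i - avg ξ c τ ξ x))).smulRight (X i) :
        E n →L[ℝ] E n).toLinearMap : E n →ₗ[ℝ] E n) =
      ∑ i, ((sp ξ c τ i x • (τ⁻¹ • innerSL ℝ (ξ i - avg ξ c τ ξ x)) :
        E n →L[ℝ] ℝ).toLinearMap).smulRight (X i) := by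
    ext v
    simp
  rw [h, map_sum]
  simp only [LinearMap.trace_smulRight]
  rw [Finset.mul_sum, Finset.mul_sum]
  refine Finset.sum_congr rfl fun i _ => ?_
  simp only [ContinuousLinearMap.coe_coe, ContinuousLinearMap.smul_apply, innerSL_apply_apply,
    smul_eq_mul, avg]
  field_simp

theorem dv_avg [Nonempty ι] (ξ : ι → E n) (c : ι → ℝ) {τ : ℝ} (hτ : 0 < τ)
    (X : ι → E n) (x : E n) : dv (avg ξ c τ X) x =
      1 / (2 * τ) * ∑ i, ∑ j, sp ξ c τ i x * sp ξ c τ j x *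
        inner ℝ (ξ i - ξ j) (X i - X j) := by
  unfold dv
  rw [(avg_hasFDerivAt ξ c hτ X x).fderiv]
  exact trace_avg ξ c hτ X x

theorem exp_two (t : ℝ) : Real.exp (2 * t) = Real.exp t ^ 2 := by
  rw [← Real.exp_nat_mul]
  norm_num

/-- the second field -/
theorem dv_second [Nonempty ι] (ξ : ι → E n) (c : ι → ℝ) {τ : ℝ} (hτ : 0 < τ) (x : E n) :
    dv (fun y => Real.exp (2 * Psi ξ c τ y) • avg ξ c τ ξ y) x =
      Real.exp (2 * Psi ξ c τ x) * (1 / (2 * τ) * ∑ i, ∑ j, sp ξ c τ i x * sp ξ c τ j x *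
        ‖ξ i - ξ j‖ ^ 2) + 2 * Real.exp (2 * Psi ξ c τ x) * ‖avg ξ c τ ξ x‖ ^ 2 := by
  have h1 : HasFDerivAt (fun y => Real.exp (2 * Psi ξ c τ y))
      (Real.exp (2 * Psi ξ c τ x) • ((2 : ℝ) • innerSL ℝ (avg ξ c τ ξ x))) x :=
    ((Psi_hasFDerivAt ξ c hτ x).const_mul 2).exp
  have h2 := h1.fun_smul (avg_hasFDerivAt ξ c hτ ξ x)
  unfold dv
  rw [h2.fderiv]
  have h3 := trace_avg ξ c hτ ξ x
  have h4 : ∀ i j, (inner ℝ (ξ i - ξ j) (ξ i - ξ j) : ℝ) = ‖ξ i - ξ j‖ ^ 2 := fun i j =>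
    real_inner_self_eq_norm_sq _
  simp only [h4] at h3
  rw [← h3]
  have h5 : ∀ (r : ℝ) (L : E n →L[ℝ] E n) (M : E n →L[ℝ] ℝ) (v : E n),
      LinearMap.trace ℝ (E n) (r • L + M.smulRight v : E n →L[ℝ] E n).toLinearMap =
        r * LinearMap.trace ℝ (E n) L.toLinearMap + M v := by
    intro r L M v
    have : ((r • L + M.smulRight v : E n →L[ℝ] E n).toLinearMap : E n →ₗ[ℝ] E n) =
        r • L.toLinearMap + M.toLinearMap.smulRight v := by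
      ext w
      simp
    rw [this, map_add, map_smul, LinearMap.trace_smulRight]
    simp
  rw [h5]
  congr 1
  simp only [ContinuousLinearMap.coe_smul', Pi.smul_apply, innerSL_apply_apply, smul_eq_mul]
  rw [real_inner_self_eq_norm_sq]
  ring

theorem intOn {n : ℕ} {Ω : Set (E n)} {σ : Measure (E n)} (h : Dom Ω σ) {f : E n → ℝ}
    (hf : Continuous f) : IntegrableOn f Ω := by
  have hc : IsCompact (closure Ω) := Metric.isCompact_of_isClosed_isBounded isClosed_closure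
    h.bdd.closure
  exact (hf.continuousOn.integrableOn_compact hc).mono_set subset_closure

theorem intσ {n : ℕ} {Ω : Set (E n)} {σ : Measure (E n)} (h : Dom Ω σ) {f : E n → ℝ}
    (hf : Continuous f) : Integrable f σ := by
  have := h.fin
  have hc : IsCompact (closure Ω) := Metric.isCompact_of_isClosed_isBounded isClosed_closure
    h.bdd.closure
  have h1 : IntegrableOn f (closure Ω) σ := hf.continuousOn.integrableOn_compact hc
  have h2 : σ.restrict (closure Ω) = σ := by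
    apply Measure.restrict_eq_self_of_ae_mem
    rw [ae_iff]
    exact h.supp
  rw [IntegrableOn, h2] at h1
  exact h1

/-- inequality (I) -/
theorem first {Ω : Set (E n)} {σ : Measure (E n)} (h : Dom Ω σ) {k a : ℝ} (ha : 0 < a)
    (hR : RobinHyp Ω σ k a) [Nonempty ι] (ξ : ι → E n) (c : ι → ℝ) {τ : ℝ} (hξ : ∀ i, ‖ξ i‖ ≤ a)
    (hτ : 0 < τ) :
    (∫ x in Ω, Real.exp (2 * Psi ξ c τ x) * (1 / (2 * τ) * ∑ i, ∑ j,
        sp ξ c τ i x * sp ξ c τ j x * ‖ξ i - ξ j‖ ^ 2)) ≤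
      ∫ x in Ω, Real.exp (2 * Psi ξ c τ x) * (k ^ 2 - ‖avg ξ c τ ξ x‖ ^ 2) := by
  have := h.fin
  have cP : Continuous (Psi ξ c τ) := (Psi_contDiff ξ c τ).continuous
  have cS : ∀ i, Continuous (sp ξ c τ i) := fun i => (sp_contDiff ξ c τ i).continuous
  have cA : Continuous (avg ξ c τ ξ) := (avg_contDiff ξ c τ ξ).continuous
  have cE : Continuous fun x => Real.exp (2 * Psi ξ c τ x) :=
    Real.continuous_exp.comp (continuous_const.mul cP)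
  have cW : ContDiff ℝ ∞ fun y => Real.exp (2 * Psi ξ c τ y) • avg ξ c τ ξ y :=
    ((contDiff_const.mul (Psi_contDiff ξ c τ)).exp).smul (avg_contDiff ξ c τ ξ)
  -- Gauss-Green
  have h1 := h.ggi _ (cW.of_le (by exact_mod_cast le_top))
  have h2 : ∫ x, ‖Real.exp (2 * Psi ξ c τ x) • avg ξ c τ ξ x‖ ∂σ ≤
      a * ∫ x, Real.exp (Psi ξ c τ x) ^ 2 ∂σ := by
    rw [← integral_const_mul]
    refine integral_mono (intσ h (cE.smul cA).norm) (intσ h (by fun_prop)) ?_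
    intro x
    simp only
    rw [norm_smul, Real.norm_of_nonneg (Real.exp_pos _).le, exp_two, mul_comm]
    exact mul_le_mul_of_nonneg_right (avg_norm_le ξ c τ ξ a hξ x) (by positivity)
  -- Robin
  have h3 := hR (fun x => Real.exp (Psi ξ c τ x)) (Psi_contDiff ξ c τ).exp
  have h4 : ∀ x, ‖fderiv ℝ (fun x => Real.exp (Psi ξ c τ x)) x‖ ^ 2 =
      Real.exp (2 * Psi ξ c τ x) * ‖avg ξ c τ ξ x‖ ^ 2 := by
    intro x
    have h5 : HasFDerivAt (fun x => Real.exp (Psi ξ c τ x))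
        (Real.exp (Psi ξ c τ x) • innerSL ℝ (avg ξ c τ ξ x)) x :=
      (Psi_hasFDerivAt ξ c hτ x).exp
    rw [h5.fderiv, norm_smul, innerSL_apply_norm, mul_pow,
      Real.norm_of_nonneg (Real.exp_pos _).le, exp_two]
  have h6 : ∫ x in Ω, dv (fun y => Real.exp (2 * Psi ξ c τ y) • avg ξ c τ ξ y) x ≤
      ∫ x in Ω, (Real.exp (2 * Psi ξ c τ x) * ‖avg ξ c τ ξ x‖ ^ 2 +
        k ^ 2 * Real.exp (2 * Psi ξ c τ x)) := by
    refine h1.trans (h2.trans (h3.trans (le_of_eq ?_)))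
    refine setIntegral_congr_fun h.isOpen.measurableSet fun x _ => ?_
    show _ + k ^ 2 * Real.exp (Psi ξ c τ x) ^ 2 = _
    rw [h4, exp_two]
  simp only [dv_second ξ c hτ] at h6
  have iA : IntegrableOn (fun x => Real.exp (2 * Psi ξ c τ x) * (1 / (2 * τ) * ∑ i, ∑ j,
      sp ξ c τ i x * sp ξ c τ j x * ‖ξ i - ξ j‖ ^ 2)) Ω := intOn h (by fun_prop)
  have iB : IntegrableOn (fun x => Real.exp (2 * Psi ξ c τ x) * ‖avg ξ c τ ξ x‖ ^ 2) Ω :=
    intOn h (by fun_prop)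
  have iC : IntegrableOn (fun x => k ^ 2 * Real.exp (2 * Psi ξ c τ x)) Ω :=
    intOn h (by fun_prop)
  have e1 : ∫ x in Ω, (Real.exp (2 * Psi ξ c τ x) * (1 / (2 * τ) * ∑ i, ∑ j,
      sp ξ c τ i x * sp ξ c τ j x * ‖ξ i - ξ j‖ ^ 2) +
        2 * Real.exp (2 * Psi ξ c τ x) * ‖avg ξ c τ ξ x‖ ^ 2) =
      (∫ x in Ω, Real.exp (2 * Psi ξ c τ x) * (1 / (2 * τ) * ∑ i, ∑ j,
        sp ξ c τ i x * sp ξ c τ j x * ‖ξ i - ξ j‖ ^ 2)) +
      2 * ∫ x in Ω, Real.exp (2 * Psi ξ c τ x) * ‖avg ξ c τ ξ x‖ ^ 2 := by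
    rw [← integral_const_mul, ← integral_add iA (iB.const_mul 2)]
    refine integral_congr_ae (Filter.Eventually.of_forall fun x => ?_)
    simp only
    ring
  have e2 : ∫ x in Ω, (Real.exp (2 * Psi ξ c τ x) * ‖avg ξ c τ ξ x‖ ^ 2 +
        k ^ 2 * Real.exp (2 * Psi ξ c τ x)) =
      (∫ x in Ω, Real.exp (2 * Psi ξ c τ x) * ‖avg ξ c τ ξ x‖ ^ 2) +
        ∫ x in Ω, k ^ 2 * Real.exp (2 * Psi ξ c τ x) := integral_add iB iC
  have e3 : ∫ x in Ω, Real.exp (2 * Psi ξ c τ x) * (k ^ 2 - ‖avg ξ c τ ξ x‖ ^ 2) =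
      (∫ x in Ω, k ^ 2 * Real.exp (2 * Psi ξ c τ x)) -
        ∫ x in Ω, Real.exp (2 * Psi ξ c τ x) * ‖avg ξ c τ ξ x‖ ^ 2 := by
    rw [← integral_sub iC iB]
    refine integral_congr_ae (Filter.Eventually.of_forall fun x => ?_)
    simp only
    ring
  rw [e1, e2] at h6
  rw [e3]
  linarith

end Soft

open Soft in
/-- A3 (SOFT) -/
theorem soft_proof : Stmt_Soft := by
  intro n Ω σ h k a hk ha hR ι _ _ ξ c X A₀ N τ hξ hX hN hτ hτ1
  have := h.fin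
  have cP : Continuous (Psi ξ c τ) := (Psi_contDiff ξ c τ).continuous
  have cS : ∀ i, Continuous (sp ξ c τ i) := fun i => (sp_contDiff ξ c τ i).continuous
  have cA : Continuous (avg ξ c τ ξ) := (avg_contDiff ξ c τ ξ).continuous
  have hI := first h ha hR ξ c hξ hτ
  -- inequality (II)
  have hII : ∫ x in Ω, (1 / (2 * τ) * ∑ i, ∑ j, sp ξ c τ i x * sp ξ c τ j x *
      inner ℝ (ξ i - ξ j) (X i - X j)) ≤ A₀ * (σ univ).toReal := by
    have h1 := h.ggi _ ((avg_contDiff ξ c τ X).of_le (by exact_mod_cast le_top))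
    simp only [dv_avg ξ c hτ X] at h1
    refine h1.trans ?_
    have h2 : ∫ x, ‖avg ξ c τ X x‖ ∂σ ≤ ∫ _x, A₀ ∂σ :=
      integral_mono (intσ h (avg_contDiff ξ c τ X).continuous.norm) (integrable_const _)
        fun x => avg_norm_le ξ c τ X A₀ hX x
    rw [integral_const] at h2
    rw [mul_comm]
    exact h2
  -- the algebraic identity
  have hid : ∀ x, k ^ 2 - ‖avg ξ c τ ξ x‖ ^ 2 =
      (∑ i, sp ξ c τ i x * (k ^ 2 - ‖ξ i‖ ^ 2)) + 1 / 2 * ∑ i, ∑ j,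
        sp ξ c τ i x * sp ξ c τ j x * ‖ξ i - ξ j‖ ^ 2 := by
    intro x
    have h1 := double_sum (sp_sum ξ c τ x) ξ ξ
    simp only [real_inner_self_eq_norm_sq] at h1
    rw [h1]
    have h2 : ∑ i, sp ξ c τ i x * inner ℝ (ξ i - ∑ j, sp ξ c τ j x • ξ j) (ξ i) =
        (∑ i, sp ξ c τ i x * ‖ξ i‖ ^ 2) - ‖avg ξ c τ ξ x‖ ^ 2 := by
      have h3 : ‖avg ξ c τ ξ x‖ ^ 2 = ∑ i, sp ξ c τ i x * inner ℝ (avg ξ c τ ξ x) (ξ i) := by
        rw [← real_inner_self_eq_norm_sq]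
        conv_lhs => rw [show avg ξ c τ ξ x = ∑ i, sp ξ c τ i x • ξ i from rfl]
        rw [inner_sum]
        refine Finset.sum_congr rfl fun i _ => ?_
        rw [inner_smul_right]
        rfl
      rw [h3, ← Finset.sum_sub_distrib]
      refine Finset.sum_congr rfl fun i _ => ?_
      rw [inner_sub_left, real_inner_self_eq_norm_sq]
      unfold avg
      ring
    rw [h2]
    have h4 : ∑ i, sp ξ c τ i x * (k ^ 2 - ‖ξ i‖ ^ 2) =
        k ^ 2 - ∑ i, sp ξ c τ i x * ‖ξ i‖ ^ 2 := by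
      have : ∑ i, sp ξ c τ i x * (k ^ 2 - ‖ξ i‖ ^ 2) =
          ∑ i, (sp ξ c τ i x * k ^ 2 - sp ξ c τ i x * ‖ξ i‖ ^ 2) :=
        Finset.sum_congr rfl fun i _ => by ring
      rw [this, Finset.sum_sub_distrib, ← Finset.sum_mul, sp_sum, one_mul]
    rw [h4]
    ring
  have iD : IntegrableOn (fun x => Real.exp (2 * Psi ξ c τ x) * ∑ i, ∑ j,
      sp ξ c τ i x * sp ξ c τ j x * ‖ξ i - ξ j‖ ^ 2) Ω := intOn h (by fun_prop)
  have iF : IntegrableOn (fun x => Real.exp (2 * Psi ξ c τ x) *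
      ∑ i, sp ξ c τ i x * (k ^ 2 - ‖ξ i‖ ^ 2)) Ω := intOn h (by fun_prop)
  have iG : IntegrableOn (fun x => 1 / (2 * τ) * ∑ i, ∑ j, sp ξ c τ i x * sp ξ c τ j x *
      inner ℝ (ξ i - ξ j) (X i - X j)) Ω := intOn h (by fun_prop)
  have e1 : ∫ x in Ω, Real.exp (2 * Psi ξ c τ x) * (1 / (2 * τ) * ∑ i, ∑ j,
      sp ξ c τ i x * sp ξ c τ j x * ‖ξ i - ξ j‖ ^ 2) =
      1 / (2 * τ) * ∫ x in Ω, Real.exp (2 * Psi ξ c τ x) * ∑ i, ∑ j,
        sp ξ c τ i x * sp ξ c τ j x * ‖ξ i - ξ j‖ ^ 2 := by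
    rw [← integral_const_mul]
    refine integral_congr_ae (Filter.Eventually.of_forall fun x => ?_)
    simp only
    ring
  have e2 : ∫ x in Ω, Real.exp (2 * Psi ξ c τ x) * (k ^ 2 - ‖avg ξ c τ ξ x‖ ^ 2) =
      (∫ x in Ω, Real.exp (2 * Psi ξ c τ x) * ∑ i, sp ξ c τ i x * (k ^ 2 - ‖ξ i‖ ^ 2)) +
      1 / 2 * ∫ x in Ω, Real.exp (2 * Psi ξ c τ x) * ∑ i, ∑ j,
        sp ξ c τ i x * sp ξ c τ j x * ‖ξ i - ξ j‖ ^ 2 := by
    rw [← integral_const_mul, ← integral_add iF (iD.const_mul (1 / 2))]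
    refine integral_congr_ae (Filter.Eventually.of_forall fun x => ?_)
    simp only
    rw [hid x]
    ring
  rw [e1, e2] at hI
  have e3 : (∫ x in Ω, 1 / (2 * τ) * ∑ i, ∑ j, sp ξ c τ i x * sp ξ c τ j x *
        (inner ℝ (ξ i - ξ j) (X i - X j) +
          N * (1 - τ) * Real.exp (2 * Psi ξ c τ x) * ‖ξ i - ξ j‖ ^ 2)) =
      (∫ x in Ω, (1 / (2 * τ) * ∑ i, ∑ j, sp ξ c τ i x * sp ξ c τ j x *
        inner ℝ (ξ i - ξ j) (X i - X j))) +
      N * (1 - τ) * (1 / (2 * τ)) * ∫ x in Ω, Real.exp (2 * Psi ξ c τ x) * ∑ i, ∑ j,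
        sp ξ c τ i x * sp ξ c τ j x * ‖ξ i - ξ j‖ ^ 2 := by
    rw [← integral_const_mul, ← integral_add iG (iD.const_mul _)]
    refine integral_congr_ae (Filter.Eventually.of_forall fun x => ?_)
    simp only [Finset.mul_sum]
    rw [← Finset.sum_add_distrib]
    refine Finset.sum_congr rfl fun i _ => ?_
    rw [← Finset.sum_add_distrib]
    refine Finset.sum_congr rfl fun j _ => ?_
    ring
  rw [e3]
  set D := ∫ x in Ω, Real.exp (2 * Psi ξ c τ x) * ∑ i, ∑ j,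
        sp ξ c τ i x * sp ξ c τ j x * ‖ξ i - ξ j‖ ^ 2 with hD
  set F := ∫ x in Ω, Real.exp (2 * Psi ξ c τ x) * ∑ i, sp ξ c τ i x * (k ^ 2 - ‖ξ i‖ ^ 2)
    with hF
  have h7 : (1 - τ) * (1 / (2 * τ)) * D ≤ F := by
    have : (1 - τ) * (1 / (2 * τ)) * D = 1 / (2 * τ) * D - 1 / 2 * D := by
      field_simp
    rw [this]
    linarith
  have h8 : N * ((1 - τ) * (1 / (2 * τ)) * D) ≤ N * F := mul_le_mul_of_nonneg_left h7 hN
  calc _ ≤ A₀ * (σ univ).toReal + N * ((1 - τ) * (1 / (2 * τ)) * D) := by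
        have : N * (1 - τ) * (1 / (2 * τ)) * D = N * ((1 - τ) * (1 / (2 * τ)) * D) := by ring
        rw [this]
        linarith
    _ ≤ _ := by linarith

end Pool.Agent.ROB
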