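import Pool.Agent.ROB.Stmts

/-!
MP_7b7880_an, module B3 (VIT): Vitali covering by patches.
-/

namespace Pool.Agent.ROB.Vit

open MeasureTheory Set Metric Filter Topology
open scoped ContDiff ENNReal NNReal

variable {n : ℕ}

theorem cube_eq (p : Patch n) :
    p.cube = (fun x : E n => x - p.o) ⁻¹' (p.b.repr ⁻¹'
      ((@WithLp.ofLp 2 (Fin n → ℝ)) ⁻¹' (Set.pi univ fun _ => Icc 0 p.s))) := by
  ext x
  simp only [Patch.cube, Set.mem_ofPred_eq, mem_preimage, Set.mem_pi, mem_univ, true_imp_iff, mem_Icc,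
    OrthonormalBasis.repr_apply_apply]

theorem measurableSet_box (s : ℝ) :
    MeasurableSet (Set.pi univ fun _ : Fin n => Icc (0 : ℝ) s) :=
  MeasurableSet.univ_pi fun _ => measurableSet_Icc

theorem cube_volume (p : Patch n) (hs : 0 ≤ p.s) :
    volume p.cube = ENNReal.ofReal (p.s ^ n) := by
  have h1 : MeasurePreserving (fun x : E n => x - p.o) volume volume :=
    measurePreserving_sub_right volume p.o
  have h2 := p.b.measurePreserving_repr
  have h3 := PiLp.volume_preserving_ofLp (Fin n)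
  have hb := measurableSet_box (n := n) p.s
  have hb3 := h3.measurable hb
  have hb2 := h2.measurable hb3
  rw [cube_eq, h1.measure_preimage hb2.nullMeasurableSet,
    h2.measure_preimage hb3.nullMeasurableSet, h3.measure_preimage hb.nullMeasurableSet,
    volume_pi_pi]
  simp only [Real.volume_Icc, sub_zero, Finset.prod_const, Finset.card_univ, Fintype.card_fin]
  rw [ENNReal.ofReal_pow hs]

theorem inner_continuous (v o : E n) : Continuous fun x : E n => inner ℝ v (x - o) :=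
  continuous_const.inner (continuous_id.sub continuous_const)

theorem cube_closed (p : Patch n) : IsClosed p.cube := by
  have : p.cube = ⋂ l, {x : E n | 0 ≤ inner ℝ (p.b l) (x - p.o) ∧
      inner ℝ (p.b l) (x - p.o) ≤ p.s} := by
    ext x
    simp [Patch.cube]
  rw [this]
  exact isClosed_iInter fun l =>
    (isClosed_le continuous_const (inner_continuous _ _)).inter
      (isClosed_le (inner_continuous _ _) continuous_const)

theorem cube_interior (p : Patch n) (x : E n)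
    (h : ∀ l, 0 < inner ℝ (p.b l) (x - p.o) ∧ inner ℝ (p.b l) (x - p.o) < p.s) :
    (interior p.cube).Nonempty := by
  have ho : IsOpen (⋂ l, {x : E n | 0 < inner ℝ (p.b l) (x - p.o) ∧
      inner ℝ (p.b l) (x - p.o) < p.s}) :=
    isOpen_iInter_of_finite fun l =>
      (isOpen_lt continuous_const (inner_continuous _ _)).inter
        (isOpen_lt (inner_continuous _ _) continuous_const)
  have hsub : (⋂ l, {x : E n | 0 < inner ℝ (p.b l) (x - p.o) ∧
      inner ℝ (p.b l) (x - p.o) < p.s}) ⊆ p.cube := by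
    intro y hy l
    have := mem_iInter.1 hy l
    exact ⟨this.1.le, this.2.le⟩
  exact ⟨x, interior_maximal hsub ho (mem_iInter.2 h)⟩

theorem cube_subset (hn : 2 ≤ n) (p : Patch n) (x0 : E n) (r : ℝ) (hr : 0 < r)
    (hs : p.s = 2 * r / Real.sqrt n)
    (hc : ∀ l, inner ℝ (p.b l) (x0 - p.o) = r / Real.sqrt n) :
    p.cube ⊆ closedBall x0 r := by
  intro x hx
  have hn0 : (0 : ℝ) < n := by positivity
  have hsq : (0 : ℝ) < Real.sqrt n := Real.sqrt_pos.2 hn0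
  rw [mem_closedBall, dist_eq_norm]
  have h1 : ‖x - x0‖ ^ 2 = ∑ l, (inner ℝ (p.b l) (x - x0)) ^ 2 := by
    rw [← p.b.sum_sq_norm_inner_right (x - x0)]
    exact Finset.sum_congr rfl fun l _ => by rw [Real.norm_eq_abs, sq_abs]
  have h2 : ∀ l, (inner ℝ (p.b l) (x - x0)) ^ 2 ≤ r ^ 2 / n := by
    intro l
    have e : inner ℝ (p.b l) (x - x0) =
        inner ℝ (p.b l) (x - p.o) - r / Real.sqrt n := by
      rw [← hc l, ← inner_sub_right]
      congr 1
      abel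
    have hl := hx l
    rw [hs] at hl
    have e2 : r ^ 2 / n = (r / Real.sqrt n) ^ 2 := by
      rw [div_pow, Real.sq_sqrt hn0.le]
    have e3 : 2 * r / Real.sqrt n = 2 * (r / Real.sqrt n) := by ring
    rw [e3] at hl
    rw [e2, e]
    apply sq_le_sq'
    · linarith [hl.1]
    · linarith [hl.2]
  have h3 : ‖x - x0‖ ^ 2 ≤ r ^ 2 := by
    rw [h1]
    calc ∑ l, (inner ℝ (p.b l) (x - x0)) ^ 2 ≤ ∑ _l : Fin n, r ^ 2 / n :=
          Finset.sum_le_sum fun l _ => h2 l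
      _ = r ^ 2 := by
          rw [Finset.sum_const, Finset.card_univ, Fintype.card_fin, nsmul_eq_mul]
          field_simp
  exact le_of_sq_le_sq h3 hr.le


/-- The function to be integrated. -/
noncomputable def G (k : ℝ) (mu : ℝ → ℝ) (x : E n) : ℝ := mu ‖x‖ * (k ^ 2 - ‖x‖ ^ 2)

theorem G_continuousOn {k a A₀ : ℝ} {H H' mu : ℝ → ℝ} (hP : Profile n k a A₀ H H' mu) :
    ContinuousOn (G (n := n) k mu) {x : E n | 0 < ‖x‖ ∧ ‖x‖ < a} := by
  unfold G
  refine ContinuousOn.mul ?_ (by fun_prop)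
  exact hP.cont_mu.comp continuous_norm.continuousOn fun x hx => hx

theorem G_nonneg {k a A₀ : ℝ} {H H' mu : ℝ → ℝ} (hP : Profile n k a A₀ H H' mu) {x : E n}
    (hx : 0 < ‖x‖ ∧ ‖x‖ < a) : 0 ≤ G k mu x := by
  unfold G
  refine mul_nonneg (hP.mu_pos _ hx).le ?_
  have h1 : ‖x‖ < k := lt_of_lt_of_le hx.2 hP.a_le
  nlinarith [hx.1]

/-- The annulus. -/
def U (n : ℕ) (s0 s1 : ℝ) : Set (E n) := {x : E n | s0 < ‖x‖ ∧ ‖x‖ < s1}

theorem U_open (s0 s1 : ℝ) : IsOpen (U n s0 s1) :=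
  (isOpen_lt continuous_const continuous_norm).inter (isOpen_lt continuous_norm continuous_const)

theorem G_integrableOn {k a A₀ : ℝ} {H H' mu : ℝ → ℝ} (hP : Profile n k a A₀ H H' mu)
    {s0 s1 : ℝ} (h0 : 0 < s0) (h1 : s1 < a) : IntegrableOn (G (n := n) k mu) (U n s0 s1) := by
  have hK : IsCompact {x : E n | s0 ≤ ‖x‖ ∧ ‖x‖ ≤ s1} := by
    have hc : IsClosed {x : E n | s0 ≤ ‖x‖ ∧ ‖x‖ ≤ s1} :=
      (isClosed_le continuous_const continuous_norm).inter
        (isClosed_le continuous_norm continuous_const)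
    refine (isCompact_closedBall (0 : E n) s1).of_isClosed_subset hc fun x hx => ?_
    rw [mem_closedBall_zero_iff]
    exact hx.2
  have hc : ContinuousOn (G (n := n) k mu) {x : E n | s0 ≤ ‖x‖ ∧ ‖x‖ ≤ s1} :=
    (G_continuousOn hP).mono fun x hx => ⟨lt_of_lt_of_le h0 hx.1, lt_of_le_of_lt hx.2 h1⟩
  exact (hc.integrableOn_compact hK).mono_set fun x hx => ⟨hx.1.le, hx.2.le⟩

/-- Polar coordinates. -/
theorem polar (hn : 2 ≤ n) (k : ℝ) (mu : ℝ → ℝ) {s0 s1 : ℝ} (h0 : 0 < s0) (h01 : s0 < s1) :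
    ∫ x in U n s0 s1, G k mu x =
      n * (volume (Metric.ball (0 : E n) 1)).toReal *
        ∫ s in s0..s1, s ^ (n - 1) * (mu s * (k ^ 2 - s ^ 2)) := by
  have : Nonempty (Fin n) := ⟨⟨0, by omega⟩⟩
  have : Nontrivial (E n) := inferInstance
  have key := integral_fun_norm_addHaar (volume : Measure (E n))
    ((Ioo s0 s1).indicator fun s => mu s * (k ^ 2 - s ^ 2))
  have h1 : ∫ x in U n s0 s1, G k mu x =
      ∫ x : E n, (Ioo s0 s1).indicator (fun s => mu s * (k ^ 2 - s ^ 2)) ‖x‖ := by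
    rw [← integral_indicator (U_open s0 s1).measurableSet]
    rfl
  rw [h1, key]
  rw [finrank_euclideanSpace_fin]
  have h2 : ∫ y in Ioi (0 : ℝ), y ^ (n - 1) •
      (Ioo s0 s1).indicator (fun s => mu s * (k ^ 2 - s ^ 2)) y =
      ∫ s in s0..s1, s ^ (n - 1) * (mu s * (k ^ 2 - s ^ 2)) := by
    rw [intervalIntegral.integral_of_le h01.le, integral_Ioc_eq_integral_Ioo,
      ← integral_indicator measurableSet_Ioo, ← integral_indicator measurableSet_Ioi]
    refine integral_congr_ae (Eventually.of_forall fun y => ?_)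
    by_cases hy : y ∈ Ioo s0 s1
    · have : y ∈ Ioi (0 : ℝ) := lt_trans h0 hy.1
      simp [indicator_of_mem hy, indicator_of_mem this]
    · simp [indicator_of_notMem hy]
  rw [h2]
  simp only [nsmul_eq_mul, smul_eq_mul, Measure.real]
  ring


/-- The admissible patches with centre and radius. -/
structure Good (k a A₀ ε : ℝ) (H mu : ℝ → ℝ) (V : Set (E n)) (q : E n × ℝ × Patch n) : Prop where
  mem : q.1 ∈ V
  r_pos : 0 < q.2.1
  sub : closedBall q.1 q.2.1 ⊆ V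
  ok : q.2.2.OK k a A₀ (1 - ε) (fieldOf H)
  s_eq : q.2.2.s = 2 * q.2.1 / Real.sqrt n
  cent : ∀ l, inner ℝ (q.2.2.b l) (q.1 - q.2.2.o) = q.2.1 / Real.sqrt n
  D_pos : 0 < q.2.2.D
  Dp_le : q.2.2.Dp ≤ (1 + ε) * q.2.2.D
  G_le : ∀ x ∈ q.2.2.cube, G k mu x ≤ (1 + ε) * (q.2.2.mu * q.2.2.D)

theorem exists_cover (hn : 2 ≤ n) (hLoc : Stmt_Loc) {k a A₀ : ℝ} {H H' mu : ℝ → ℝ}
    (hP : Profile n k a A₀ H H' mu) {s0 s1 : ℝ} (h0 : 0 < s0) (h1 : s1 < a)
    {ε : ℝ} (hε : 0 < ε) (hε1 : ε < 1) :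
    ∃ u : Set (E n × ℝ × Patch n), u.Countable ∧
      (∀ q ∈ u, Good k a A₀ ε H mu (U n s0 s1) q) ∧
      u.PairwiseDisjoint (fun q => q.2.2.cube) ∧
      volume (U n s0 s1 \ ⋃ q ∈ u, q.2.2.cube) = 0 := by
  have hn0 : (0 : ℝ) < n := by positivity
  have hsq : (0 : ℝ) < Real.sqrt n := Real.sqrt_pos.2 hn0
  set v1 : ℝ≥0∞ := volume (ball (0 : E n) 1) with hv1
  have hv1t : v1 ≠ ⊤ := measure_ball_lt_top.ne
  set C0 : ℝ≥0∞ := ENNReal.ofReal ((3 / 2 * Real.sqrt n) ^ n) * v1 with hC0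
  have hC0t : C0 ≠ ⊤ := ENNReal.mul_ne_top ENNReal.ofReal_ne_top hv1t
  have g1 : ∀ q ∈ {q : E n × ℝ × Patch n | Good k a A₀ ε H mu (U n s0 s1) q},
      volume (closedBall q.1 (3 * q.2.1)) ≤ (C0.toNNReal : ℝ≥0∞) * volume q.2.2.cube := by
    intro q hq
    have hr := hq.r_pos
    rw [cube_volume _ hq.ok.s_pos.le, Measure.addHaar_closedBall _ _ (by positivity),
      ENNReal.coe_toNNReal hC0t, finrank_euclideanSpace_fin, hq.s_eq, hC0, mul_right_comm,
      ← ENNReal.ofReal_mul (by positivity), ← mul_pow]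
    have : 3 / 2 * Real.sqrt n * (2 * q.2.1 / Real.sqrt n) = 3 * q.2.1 := by
      field_simp
    rw [this]
  have g2 : ∀ q ∈ {q : E n × ℝ × Patch n | Good k a A₀ ε H mu (U n s0 s1) q},
      (interior q.2.2.cube).Nonempty := by
    intro q hq
    refine cube_interior q.2.2 q.1 fun l => ?_
    have hr := hq.r_pos
    rw [hq.cent l, hq.s_eq]
    have h : 0 < q.2.1 / Real.sqrt n := by positivity
    exact ⟨h, by rw [mul_div_assoc]; linarith⟩
  have g3 : ∀ x ∈ U n s0 s1, ∀ δ > (0 : ℝ),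
      ∃ q ∈ {q : E n × ℝ × Patch n | Good k a A₀ ε H mu (U n s0 s1) q},
        q.2.1 ≤ δ ∧ q.1 = x := by
    intro x hx δ hδ
    have hx0 : 0 < ‖x‖ := lt_trans h0 hx.1
    have hx1 : ‖x‖ < a := lt_trans hx.2 h1
    obtain ⟨r0, hr0, hloc⟩ := hLoc n hn k a A₀ H H' mu hP x ε hx0 hx1 hε hε1
    obtain ⟨ρ, hρ, hball⟩ := Metric.isOpen_iff.1 (U_open (n := n) s0 s1) x hx
    set r := min r0 (min δ (ρ / 2)) with hr
    have hrpos : 0 < r := by positivity
    obtain ⟨p, hok, hs, hcent, hD, hDp, hG⟩ := hloc r hrpos (min_le_left _ _)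
    refine ⟨(x, r, p), ⟨hx, hrpos, ?_, hok, hs, hcent, hD, hDp, fun y hy => (hG y hy).2.2⟩, ?_, rfl⟩
    · refine (closedBall_subset_ball ?_).trans hball
      have : r ≤ ρ / 2 := (min_le_right _ _).trans (min_le_right _ _)
      linarith
    · exact (min_le_right _ _).trans (min_le_left _ _)
  obtain ⟨u, hut, hc, hd, hz⟩ := Vitali.exists_disjoint_covering_ae (volume : Measure (E n))
    (U n s0 s1) {q : E n × ℝ × Patch n | Good k a A₀ ε H mu (U n s0 s1) q} C0.toNNReal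
    (fun q => q.2.1) (fun q => q.1) (fun q => q.2.2.cube)
    (fun q hq => cube_subset hn q.2.2 q.1 q.2.1 hq.r_pos hq.s_eq hq.cent)
    g1 g2 (fun q _ => cube_closed q.2.2) g3
  exact ⟨u, hc, fun q hq => hut hq, hd, hz⟩

theorem finite_sum_le (hn : 2 ≤ n) (hFix : Stmt_Fix) (hCross : Stmt_Cross)
    {Ω : Set (E n)} {σ : Measure (E n)} (hD : Dom Ω σ) {k a : ℝ} (hk : 0 < k) (ha : 0 < a)
    (hR : RobinHyp Ω σ k a) {A₀ : ℝ} {H H' mu : ℝ → ℝ}
    (hP : Profile n k a A₀ H H' mu) {s0 s1 : ℝ} (h0 : 0 < s0) (h1 : s1 < a)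
    {ε : ℝ} (hε : 0 < ε) (hε1 : ε < 1)
    {u : Set (E n × ℝ × Patch n)} (hu : ∀ q ∈ u, Good k a A₀ ε H mu (U n s0 s1) q)
    (hd : u.PairwiseDisjoint (fun q => q.2.2.cube)) (S : Finset u) :
    ∑ q ∈ S, (1 - (2 * n - 1) * ε) * (q.1.2.2.mu * q.1.2.2.D * q.1.2.2.s ^ n) ≤
      A₀ * (σ univ).toReal := by
  have hA₀ : 0 ≤ A₀ := by
    obtain ⟨c0, hc0, hc⟩ := hP.pos
    have hm : a / 2 ∈ Ioo 0 a := ⟨by linarith, by linarith⟩
    have := hP.bd _ hm
    have h2 := hc _ hm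
    nlinarith
  rcases S.eq_empty_or_nonempty with rfl | hne
  · simp only [Finset.sum_empty]
    positivity
  obtain ⟨c0, hc0, hcross⟩ := hCross n k a A₀ H H' mu hP
  have : Nonempty S := hne.to_subtype
  have hin : ∀ (q : S), ∀ x ∈ q.1.1.2.2.cube, 0 < ‖x‖ ∧ ‖x‖ < a := by
    intro q x hx
    have hq := hu q.1.1 q.1.2
    have hx' : x ∈ U n s0 s1 :=
      hq.sub (cube_subset hn q.1.1.2.2 q.1.1.1 q.1.1.2.1 hq.r_pos hq.s_eq hq.cent hx)
    exact ⟨lt_trans h0 hx'.1, lt_trans hx'.2 h1⟩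
  have key := hFix n hn Ω σ hD k a hk ha hR S (fun q => q.1.1.2.2) (fieldOf H) A₀ (1 - ε) c0
    (by linarith) (by linarith) hc0 (fun q => (hu q.1.1 q.1.2).ok)
    (fun q r hqr => hd q.1.2 r.1.2 (fun h => hqr (Subtype.ext (Subtype.ext h))))
    (fun q r x hx y hy => hcross x y (hin q x hx).1 (hin q x hx).2 (hin r y hy).1 (hin r y hy).2)
  refine le_trans ?_ key
  rw [← Finset.sum_coe_sort S]
  refine Finset.sum_le_sum fun q _ => ?_
  have hq := hu q.1.1 q.1.2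
  have hm := hq.ok.mu_pos
  have hs := hq.ok.s_pos
  have hn1 : (1 : ℝ) ≤ n := by exact_mod_cast (by omega : 1 ≤ n)
  have e1 : (1 - (2 * n - 1) * ε) * q.1.1.2.2.D ≤
      n * (1 - ε) * q.1.1.2.2.D - ((n : ℝ) - 1) * q.1.1.2.2.Dp := by
    have := mul_le_mul_of_nonneg_left hq.Dp_le (sub_nonneg.2 hn1)
    nlinarith
  calc (1 - (2 * n - 1) * ε) * (q.1.1.2.2.mu * q.1.1.2.2.D * q.1.1.2.2.s ^ n)
      = q.1.1.2.2.mu * q.1.1.2.2.s ^ n * ((1 - (2 * n - 1) * ε) * q.1.1.2.2.D) := by ring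
    _ ≤ _ := mul_le_mul_of_nonneg_left e1 (by positivity)

theorem core (hn : 2 ≤ n) (hFix : Stmt_Fix) (hCross : Stmt_Cross) (hLoc : Stmt_Loc)
    {Ω : Set (E n)} {σ : Measure (E n)} (hD : Dom Ω σ) {k a : ℝ} (hk : 0 < k) (ha : 0 < a)
    (hR : RobinHyp Ω σ k a) {A₀ : ℝ} {H H' mu : ℝ → ℝ}
    (hP : Profile n k a A₀ H H' mu) {s0 s1 : ℝ} (h0 : 0 < s0) (h1 : s1 < a)
    {ε : ℝ} (hε : 0 < ε) (hε1 : ε < 1) (hε2 : (2 * n - 1) * ε < 1) :
    (1 - (2 * n - 1) * ε) * ∫ x in U n s0 s1, G k mu x ≤ (1 + ε) * (A₀ * (σ univ).toReal) := by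
  obtain ⟨u, huc, hu, hd, hz⟩ := exists_cover hn hLoc hP h0 h1 hε hε1
  have : Countable u := huc.to_subtype
  have hsub : ∀ q ∈ u, q.2.2.cube ⊆ U n s0 s1 := fun q hq =>
    (cube_subset hn q.2.2 q.1 q.2.1 (hu q hq).r_pos (hu q hq).s_eq (hu q hq).cent).trans
      (hu q hq).sub
  have hint := G_integrableOn (n := n) hP h0 h1
  have hUeq : (⋃ q : u, q.1.2.2.cube) = ⋃ q ∈ u, q.2.2.cube := by
    rw [biUnion_eq_iUnion]
  have hsubU : (⋃ q : u, q.1.2.2.cube) ⊆ U n s0 s1 := iUnion_subset fun q => hsub q.1 q.2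
  have hae : (⋃ q : u, q.1.2.2.cube) =ᵐ[volume] U n s0 s1 := by
    rw [ae_eq_set, hUeq]
    refine ⟨?_, hz⟩
    rw [← hUeq, sdiff_eq_empty.2 hsubU, measure_empty]
  have hsum : HasSum (fun q : u => ∫ x in q.1.2.2.cube, G k mu x)
      (∫ x in ⋃ q : u, q.1.2.2.cube, G k mu x) := by
    refine hasSum_integral_iUnion (fun q => (cube_closed q.1.2.2).measurableSet) ?_
      (hint.mono_set hsubU)
    intro q r hqr
    exact hd q.2 r.2 fun h => hqr (Subtype.ext h)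
  rw [setIntegral_congr_set hae] at hsum
  have hpos : 0 < 1 - (2 * n - 1) * ε := by linarith
  rw [← le_div_iff₀' hpos]
  refine hasSum_le_of_sum_le hsum fun S => ?_
  rw [le_div_iff₀' hpos, Finset.mul_sum]
  have key := finite_sum_le hn hFix hCross hD hk ha hR hP h0 h1 hε hε1 hu hd S
  calc ∑ q ∈ S, (1 - (2 * n - 1) * ε) * ∫ x in q.1.2.2.cube, G k mu x
      ≤ ∑ q ∈ S, (1 + ε) * ((1 - (2 * n - 1) * ε) *
          (q.1.2.2.mu * q.1.2.2.D * q.1.2.2.s ^ n)) := by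
        refine Finset.sum_le_sum fun q _ => ?_
        have hq := hu q.1 q.2
        have hb : ∫ x in q.1.2.2.cube, G k mu x ≤
            (1 + ε) * (q.1.2.2.mu * q.1.2.2.D) * q.1.2.2.s ^ n := by
          have hv := cube_volume q.1.2.2 hq.ok.s_pos.le
          have hfin : volume q.1.2.2.cube ≠ ⊤ := by rw [hv]; exact ENNReal.ofReal_ne_top
          calc ∫ x in q.1.2.2.cube, G k mu x
              ≤ ∫ _x in q.1.2.2.cube, (1 + ε) * (q.1.2.2.mu * q.1.2.2.D) := by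
                refine setIntegral_mono_on (hint.mono_set (hsub q.1 q.2)) ?_
                  (cube_closed q.1.2.2).measurableSet hq.G_le
                exact integrableOn_const hfin
            _ = _ := by
                rw [setIntegral_const, smul_eq_mul, Measure.real, hv,
                  ENNReal.toReal_ofReal (pow_nonneg hq.ok.s_pos.le n)]
                ring
        have := mul_le_mul_of_nonneg_left hb hpos.le
        nlinarith
    _ = (1 + ε) * ∑ q ∈ S, (1 - (2 * n - 1) * ε) *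
          (q.1.2.2.mu * q.1.2.2.D * q.1.2.2.s ^ n) := by rw [Finset.mul_sum]
    _ ≤ _ := mul_le_mul_of_nonneg_left key (by linarith)

end Pool.Agent.ROB.Vit

namespace Pool.Agent.ROB

open MeasureTheory Set Filter Topology

theorem vit_proof (hFix : Stmt_Fix) (hCross : Stmt_Cross) (hLoc : Stmt_Loc) : Stmt_Vit := by
  intro n hn Ω σ hD k a hk ha hR A₀ H H' mu hP s0 s1 h0 h01 h1
  rw [← Vit.polar hn k mu h0 h01]
  set I := ∫ x in Vit.U n s0 s1, Vit.G k mu x
  have hn0 : (0 : ℝ) < n := by positivity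
  have t1 : Tendsto (fun ε : ℝ => (1 - (2 * n - 1) * ε) * I) (𝓝[>] 0)
      (𝓝 ((1 - (2 * n - 1) * 0) * I)) := by
    refine tendsto_nhdsWithin_of_tendsto_nhds ?_
    exact Continuous.tendsto (by fun_prop) 0
  have t2 : Tendsto (fun ε : ℝ => (1 + ε) * (A₀ * (σ univ).toReal)) (𝓝[>] 0)
      (𝓝 ((1 + 0) * (A₀ * (σ univ).toReal))) := by
    refine tendsto_nhdsWithin_of_tendsto_nhds ?_
    exact Continuous.tendsto (by fun_prop) 0
  have := le_of_tendsto_of_tendsto t1 t2 (by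
    have hev : ∀ᶠ ε : ℝ in 𝓝[>] 0, ε ∈ Ioo (0 : ℝ) (1 / (2 * n)) :=
      Ioo_mem_nhdsGT (by positivity)
    filter_upwards [hev] with ε hε
    have h2n : (1 : ℝ) ≤ 2 * n := by
      have : (2 : ℝ) ≤ n := by exact_mod_cast hn
      linarith
    have hε1 : ε < 1 := lt_of_lt_of_le hε.2 (by
      rw [div_le_one (by positivity)]
      exact h2n)
    have hε2 : (2 * n - 1) * ε < 1 := by
      have := (lt_div_iff₀ (by positivity : (0 : ℝ) < 2 * n)).1 hε.2
      nlinarith [hε.1]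
    exact Vit.core hn hFix hCross hLoc hD hk ha hR hP h0 h1 hε.1 hε1 hε2)
  simpa using this

end Pool.Agent.ROB
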