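import Pool.Agent.ROB.Final
import Pool.Agent.ROB.Abs
import Pool.Agent.ROB.Area
import Pool.Agent.ROB.Ball
import Pool.Agent.ROB.BallGG
import Pool.Agent.ROB.BV
import Pool.Agent.ROB.Cross
import Pool.Agent.ROB.Fix
import Pool.Agent.ROB.KMon
import Pool.Agent.ROB.LW
import Pool.Agent.ROB.Lgg
import Pool.Agent.ROB.Loc
import Pool.Agent.ROB.Mass
import Pool.Agent.ROB.MT
import Pool.Agent.ROB.Prof
import Pool.Agent.ROB.Rad
import Pool.Agent.ROB.Soft
import Pool.Agent.ROB.Vit
import Pool.Agent.ROB.Width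

/-!
MP_7b7880_an: everything together.
-/

namespace Pool.Agent.ROB

theorem main_of_subGG (hSub : Stmt_SubGG) (n : ℕ) (hn : 2 ≤ n) (Ω : Set (E n))
    (hΩ : IsLipDomain Ω) (α : ℝ) (hα : α < 0) (R : ℝ) (hR : 0 < R)
    (hS : surf n (frontier Ω) ≤ surf n (Metric.sphere (0 : E n) R)) :
    robin α Ω ≤ robin α (Metric.ball (0 : E n) R) := by
  have hLGG : Stmt_LGG := lgg_proof area_proof hSub
  have hAbs : Stmt_Abs := ABS.abs_proof (bv_proof lw_proof) soft_proof
  have hFix : Stmt_Fix := fix_proof hAbs mass_proof Width_proof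
  have hVit : Stmt_Vit := vit_proof hFix Cross_proof loc_proof
  exact final_of_stmts rad_proof (mt_proof hVit prof_proof) KMon_proof (lip_proof hLGG)
    (ball_proof (ballGG_proof hLGG)) n hn Ω hΩ α hα R hR hS

end Pool.Agent.ROB
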