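import Mathlib

/-!
MP_7b7880_an: among bounded Lipschitz domains of given surface area the ball maximises the first
Robin eigenvalue with negative parameter.  Definitions.
-/

namespace Pool.Agent.ROB

open MeasureTheory Set
open scoped ContDiff

/-- Euclidean space of dimension `n`. -/
abbrev E (n : ℕ) := EuclideanSpace ℝ (Fin n)

/-- The divergence of a vector field. -/
noncomputable def dv {n : ℕ} (X : E n → E n) (x : E n) : ℝ :=
  LinearMap.trace ℝ (E n) (fderiv ℝ X x).toLinearMap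

/-- Surface measure: the `(n-1)`-dimensional Hausdorff measure, normalised (as usual) so that on
`ℝ^{n-1}` it is Lebesgue measure. -/
noncomputable def surf (n : ℕ) : Measure (E n) :=
  (Measure.addHaarScalarFactor (volume : Measure (E (n - 1)))
    (Measure.hausdorffMeasure (Module.finrank ℝ (E (n - 1)) : ℝ))) •
    (Measure.hausdorffMeasure ((n : ℝ) - 1) : Measure (E n))

/-- Bounded domain with Lipschitz boundary: bounded, open, connected, and near every boundary point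
`x` there is a direction `e` (the vertical direction of a rotated coordinate system) and a Lipschitz
function `γ` of the remaining coordinates (`γ` does not change in direction `e`) such that `Ω` is
given by `⟪y, e⟫ < γ y` near `x`. -/
structure IsLipDomain {n : ℕ} (Ω : Set (E n)) : Prop where
  isOpen : IsOpen Ω
  bdd : Bornology.IsBounded Ω
  conn : IsConnected Ω
  chart : ∀ x ∈ frontier Ω, ∃ (e : E n) (γ : E n → ℝ) (K : NNReal) (ε : ℝ),
    ‖e‖ = 1 ∧ LipschitzWith K γ ∧ (∀ (y : E n) (t : ℝ), γ (y + t • e) = γ y) ∧ 0 < ε ∧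
      ∀ y ∈ Metric.ball x ε, (y ∈ Ω ↔ inner ℝ y e < γ y)

/-- The Rayleigh quotient of the Robin Laplacian with parameter `α`. -/
noncomputable def rayleigh {n : ℕ} (α : ℝ) (Ω : Set (E n)) (u : E n → ℝ) : ℝ :=
  ((∫ x in Ω, ‖fderiv ℝ u x‖ ^ 2) + α * ∫ x in frontier Ω, u x ^ 2 ∂(surf n)) /
    ∫ x in Ω, u x ^ 2

/-- The first Robin eigenvalue: infimum of the Rayleigh quotient over the smooth functions on
`ℝ^n` (their restrictions are dense in `H^1(Ω)` for a bounded Lipschitz domain `Ω`) which are not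
zero in `L^2(Ω)`.  The infimum is taken in the extended reals. -/
noncomputable def robin {n : ℕ} (α : ℝ) (Ω : Set (E n)) : EReal :=
  ⨅ (u : E n → ℝ) (_ : ContDiff ℝ ∞ u) (_ : 0 < ∫ x in Ω, u x ^ 2),
    ((rayleigh α Ω u : ℝ) : EReal)

/-! ### Working definitions (internal) -/

/-- Gauss-Green inequality. -/
def GGI {n : ℕ} (Ω : Set (E n)) (σ : Measure (E n)) : Prop :=
  ∀ X : E n → E n, ContDiff ℝ 1 X → ∫ x in Ω, dv X x ≤ ∫ x, ‖X x‖ ∂σ

/-- A bounded open set with a finite measure `σ` on its closure satisfying the Gauss-Green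
inequality. -/
structure Dom {n : ℕ} (Ω : Set (E n)) (σ : Measure (E n)) : Prop where
  isOpen : IsOpen Ω
  bdd : Bornology.IsBounded Ω
  ne : Ω.Nonempty
  fin : IsFiniteMeasure σ
  supp : σ (closure Ω)ᶜ = 0
  ggi : GGI Ω σ

/-- The Robin form with parameters `k, a` is nonnegative. -/
def RobinHyp {n : ℕ} (Ω : Set (E n)) (σ : Measure (E n)) (k a : ℝ) : Prop :=
  ∀ u : E n → ℝ, ContDiff ℝ ∞ u →
    a * ∫ x, u x ^ 2 ∂σ ≤ ∫ x in Ω, (‖fderiv ℝ u x‖ ^ 2 + k ^ 2 * u x ^ 2)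

section Cells

variable {n : ℕ} {ι : Type}

/-- Affine functions. -/
noncomputable def ell (ξ : ι → E n) (c : ι → ℝ) (i : ι) (x : E n) : ℝ := inner ℝ (ξ i) x - c i

/-- The cell of `i` in `K`. -/
def cell (K : Set (E n)) (ξ : ι → E n) (c : ι → ℝ) (i : ι) : Set (E n) :=
  {x ∈ K | ∀ j, ell ξ c j x ≤ ell ξ c i x}

variable [Fintype ι]

/-- Partition function. -/
noncomputable def ZZ (ξ : ι → E n) (c : ι → ℝ) (τ : ℝ) (x : E n) : ℝ :=
  ∑ j, Real.exp (ell ξ c j x / τ)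

/-- Soft-max weights. -/
noncomputable def sp (ξ : ι → E n) (c : ι → ℝ) (τ : ℝ) (i : ι) (x : E n) : ℝ :=
  Real.exp (ell ξ c i x / τ) / ZZ ξ c τ x

/-- Soft maximum. -/
noncomputable def Psi (ξ : ι → E n) (c : ι → ℝ) (τ : ℝ) (x : E n) : ℝ :=
  τ * Real.log (ZZ ξ c τ x)

end Cells

/-- A cube in the space of slopes together with its data. -/
structure Patch (n : ℕ) where
  o : E n
  b : OrthonormalBasis (Fin n) ℝ (E n)
  s : ℝ
  lam : Fin n → ℝ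
  mu : ℝ
  D : ℝ
  Dp : ℝ

/-- The closed cube of a patch. -/
def Patch.cube {n : ℕ} (p : Patch n) : Set (E n) :=
  {x | ∀ l, 0 ≤ inner ℝ (p.b l) (x - p.o) ∧ inner ℝ (p.b l) (x - p.o) ≤ p.s}

/-- Properties of a patch. -/
structure Patch.OK {n : ℕ} (p : Patch n) (k a A₀ κ : ℝ) (X : E n → E n) : Prop where
  s_pos : 0 < p.s
  lam_pos : ∀ l, 0 < p.lam l
  mu_pos : 0 < p.mu
  D_nonneg : 0 ≤ p.D
  D_le : p.D ≤ p.Dp
  Dp_ge : ∀ x ∈ p.cube, k ^ 2 - ‖x‖ ^ 2 ≤ p.Dp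
  norm_le : ∀ x ∈ p.cube, ‖x‖ ≤ a
  X_le : ∀ x ∈ p.cube, ‖X x‖ ≤ A₀
  pair : ∀ x ∈ p.cube, ∀ y ∈ p.cube,
    κ * ∑ l, p.lam l * (inner ℝ (p.b l) (x - y)) ^ 2 ≤ inner ℝ (x - y) (X x - X y)
  alg : ∀ e : ℝ, 0 < e → p.mu * p.D ^ n * e ^ (n - 1) ≤ ∏ l, (p.lam l + ((n : ℝ) - 1) * e)

/-- Profile functions on `(0, a)`: `X ξ = H ‖ξ‖ • ξ` is the vector field on the space of slopes,
`mu` the density of the target measure. -/
structure Profile (n : ℕ) (k a A₀ : ℝ) (H H' mu : ℝ → ℝ) : Prop where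
  a_pos : 0 < a
  a_le : a ≤ k
  deriv : ∀ s ∈ Ioo 0 a, HasStrictDerivAt H (H' s) s
  cont_mu : ContinuousOn mu (Ioo 0 a)
  pos : ∃ c0 : ℝ, 0 < c0 ∧ ∀ s ∈ Ioo 0 a, c0 ≤ H s
  mono : ∀ s ∈ Ioo 0 a, 0 ≤ H' s
  bd : ∀ s ∈ Ioo 0 a, s * H s ≤ A₀
  mu_pos : ∀ s ∈ Ioo 0 a, 0 < mu s
  alg : ∀ s ∈ Ioo 0 a, ∀ e : ℝ, 0 < e →
    mu s * (k ^ 2 - s ^ 2) ^ n * e ^ (n - 1) ≤
      (H s + s * H' s + ((n : ℝ) - 1) * e) * (H s + ((n : ℝ) - 1) * e) ^ (n - 1)

/-- The radial data for `k = 1`.  `f (r) = φ (r^2)` solves `f'' + (n-1)/r f' = f`, `g = f'/f`,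
`g r = r * y (r^2)`, `gd = g'`. -/
structure Radial (n : ℕ) (y f g gd : ℝ → ℝ) : Prop where
  y_smooth : ∀ s : ℝ, 0 ≤ s → ContDiffAt ℝ 1 y s
  y_pos : ∀ s : ℝ, 0 ≤ s → 0 < y s
  y_zero : y 0 = 1 / n
  y_ode : ∀ s : ℝ, 0 ≤ s → 2 * s * deriv y s = 1 - n * y s - s * y s ^ 2
  g_eq : ∀ r : ℝ, 0 ≤ r → g r = r * y (r ^ 2)
  f_zero : f 0 = 1
  f_pos : ∀ r : ℝ, 0 ≤ r → 0 < f r
  f_deriv : ∀ r : ℝ, 0 < r → HasDerivAt f (g r * f r) r
  f_cont : ContinuousOn f (Ici 0)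
  g_deriv : ∀ r : ℝ, 0 < r → HasDerivAt g (gd r) r
  g_ode : ∀ r : ℝ, 0 < r → gd r = 1 - g r ^ 2 - ((n : ℝ) - 1) * g r / r
  g_pos : ∀ r : ℝ, 0 < r → 0 < g r
  gd_pos : ∀ r : ℝ, 0 < r → 0 < gd r
  gd_lt : ∀ r : ℝ, 0 < r → gd r < g r / r
  g_lt_one : ∀ r : ℝ, 0 < r → g r < 1
  g_lim : Filter.Tendsto g Filter.atTop (nhds 1)

end Pool.Agent.ROB
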