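import Pool.Agent.ROB.Stmts

/-!
MP_7b7880_an: final assembly from the module statements.
-/

namespace Pool.Agent.ROB

open MeasureTheory Set
open scoped ContDiff ENNReal

theorem final_of_stmts (hRad : Stmt_Rad) (hMT : Stmt_MT) (hK : Stmt_KMon) (hLip : Stmt_Lip)
    (hBall : Stmt_Ball) (n : ℕ) (hn : 2 ≤ n) (Ω : Set (E n)) (hΩ : IsLipDomain Ω)
    (α : ℝ) (hα : α < 0) (R : ℝ) (hR : 0 < R)
    (hS : surf n (frontier Ω) ≤ surf n (Metric.sphere (0 : E n) R)) :
    robin α Ω ≤ robin α (Metric.ball (0 : E n) R) := by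
  obtain ⟨y, f, g, gd, hrad⟩ := hRad n hn
  obtain ⟨k, hk, hka, hkl⟩ := hK n hn y f g gd hrad R (-α) hR (by linarith)
  have hdom := hLip n hn Ω hΩ
  have := hdom.fin
  obtain ⟨hsph, hbr⟩ := hBall n hn y f g gd hrad R hR
  -- lower bound on the ball
  have h1 : ((-(k ^ 2) : ℝ) : EReal) ≤ robin α (Metric.ball (0 : E n) R) := by
    refine le_iInf fun u => le_iInf fun hu => le_iInf fun hu0 => ?_
    rw [EReal.coe_le_coe_iff]
    unfold rayleigh
    rw [le_div_iff₀ hu0, frontier_ball (0 : E n) hR.ne']
    have := hbr k hk u hu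
    rw [hka] at this
    nlinarith
  refine le_trans ?_ h1
  by_contra hcon
  push Not at hcon
  -- a real number between
  obtain ⟨q, hq1, hq2⟩ := EReal.lt_iff_exists_real_btwn.1 hcon
  rw [EReal.coe_lt_coe_iff] at hq1
  -- `l`
  have hl : Real.sqrt (max 0 (-q)) < k := by
    rw [Real.sqrt_lt' hk]
    rcases le_total 0 (-q) with h | h
    · rw [max_eq_right h]; linarith
    · rw [max_eq_left h]; positivity
  obtain ⟨k', R', hk'0, hlk', hk'k, hRR', hk'a⟩ := hkl _ hl
  have hk'q : -(k' ^ 2) < q := by
    have h2 : max 0 (-q) < k' ^ 2 := by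
      rw [← Real.sqrt_lt' hk'0]; exact hlk'
    have := le_max_right 0 (-q)
    linarith
  have hR' : 0 < R' := hR.trans hRR'
  have hyp : RobinHyp Ω ((surf n).restrict (frontier Ω)) k' (k' * g (k' * R')) := by
    intro u hu
    rw [hk'a]
    have hcont : Continuous u := hu.continuous
    have hfcont : Continuous (fderiv ℝ u) := hu.continuous_fderiv (by simp)
    have hcpt : IsCompact (closure Ω) := hdom.bdd.isCompact_closure
    have hi1 : IntegrableOn (fun x => u x ^ 2) Ω volume :=
      ((hcont.pow 2).continuousOn.integrableOn_compact hcpt).mono_set subset_closure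
    have hi2 : IntegrableOn (fun x => ‖fderiv ℝ u x‖ ^ 2) Ω volume :=
      ((hfcont.norm.pow 2).continuousOn.integrableOn_compact hcpt).mono_set subset_closure
    rw [integral_add hi2 (hi1.const_mul _), integral_const_mul]
    have hnn : 0 ≤ ∫ x in Ω, u x ^ 2 := integral_nonneg fun x => by positivity
    rcases hnn.eq_or_lt with h0 | hpos
    · -- `u = 0` on `Ω`
      have hz' : ∀ x ∈ Ω, u x = 0 := by
        by_contra hne
        push Not at hne
        obtain ⟨x, hx, hux⟩ := hne
        have : 0 < ∫ x in Ω, u x ^ 2 := by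
          rw [integral_pos_iff_support_of_nonneg_ae (Filter.Eventually.of_forall fun x => by
            positivity) hi1]
          have hopen : IsOpen (Ω ∩ {x | u x ≠ 0}) :=
            hdom.isOpen.inter (isOpen_ne_fun hcont continuous_const)
          have hpos : 0 < volume (Ω ∩ {x | u x ≠ 0}) := hopen.measure_pos _ ⟨x, hx, hux⟩
          rw [Measure.restrict_apply' hdom.isOpen.measurableSet]
          refine hpos.trans_le (measure_mono fun z hz => ⟨?_, hz.1⟩)
          simpa using hz.2
        linarith
      have hzc : ∀ x ∈ closure Ω, u x = 0 := fun x hx => by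
        have hcl : IsClosed {x | u x = 0} := isClosed_eq hcont continuous_const
        exact hcl.closure_subset_iff.2 (fun z hz => hz' z hz) hx
      have : ∫ x in frontier Ω, u x ^ 2 ∂(surf n) = 0 := by
        rw [setIntegral_congr_fun (g := fun _ => (0 : ℝ)) isClosed_frontier.measurableSet
          (fun x hx => by simp [hzc x (frontier_subset_closure hx)])]
        simp
      rw [this, mul_zero]
      have : 0 ≤ ∫ x in Ω, ‖fderiv ℝ u x‖ ^ 2 := integral_nonneg fun x => by positivity
      positivity
    · have hle : ((q : ℝ) : EReal) ≤ ((rayleigh α Ω u : ℝ) : EReal) :=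
        hq2.le.trans (iInf_le_of_le u (iInf_le_of_le hu (iInf_le_of_le hpos le_rfl)))
      rw [EReal.coe_le_coe_iff] at hle
      unfold rayleigh at hle
      rw [le_div_iff₀ hpos] at hle
      nlinarith
  have := hMT n hn y f g gd hrad Ω _ hdom k' R' hk'0 hR' hyp
  have hω : 0 < (volume (Metric.ball (0 : E n) 1)).toReal :=
    ENNReal.toReal_pos (Metric.measure_ball_pos _ _ one_pos).ne' measure_ball_lt_top.ne
  have hnpos : (0 : ℝ) < n := by positivity
  have htop : surf n (Metric.sphere (0 : E n) R) ≠ ⊤ := by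
    intro h
    rw [h, ENNReal.toReal_top] at hsph
    have : 0 < n * (volume (Metric.ball (0 : E n) 1)).toReal * R ^ (n - 1) := by positivity
    linarith
  have hS' := ENNReal.toReal_mono htop hS
  rw [Measure.restrict_apply_univ] at this
  have h3 : R' ^ (n - 1) ≤ R ^ (n - 1) := by
    refine le_of_mul_le_mul_left ?_ (by positivity :
      0 < (n : ℝ) * (volume (Metric.ball (0 : E n) 1)).toReal)
    linarith
  have h4 : R ^ (n - 1) < R' ^ (n - 1) := pow_lt_pow_left₀ hRR' hR.le (by omega)
  linarith

end Pool.Agent.ROB
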