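import Pool.Agent.ROB.Stmts

/-!
MP_7b7880_an, module FIX, auxiliary lemmas (helper94).
-/

namespace Pool.Agent.ROB.Fix

open MeasureTheory Set Pool.Agent.ROB
open scoped ContDiff ENNReal

/-- double counting over the lines of a grid -/
theorem sum_update {n N : ℕ} (l : Fin n) (f : (Fin n → Fin N) → ℝ) :
    ∑ t, ∑ s : Fin N, f (Function.update t l s) = N * ∑ t, f t := by
  classical
  have h1 : ∑ t, ∑ s : Fin N, f (Function.update t l s)
      = ∑ p : (Fin n → Fin N) × Fin N, f (Function.update p.1 l p.2) := by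
    rw [Fintype.sum_prod_type]
  have h2 : ∑ p : (Fin n → Fin N) × Fin N, f (Function.update p.1 l p.2)
      = ∑ p : (Fin n → Fin N) × Fin N, f p.1 := by
    refine Finset.sum_bij' (fun p _ => (Function.update p.1 l p.2, p.1 l))
       (fun p _ => (Function.update p.1 l p.2, p.1 l)) (by simp) (by simp) ?_ ?_ ?_
    · rintro ⟨t, s⟩ _
      simp
    · rintro ⟨t, s⟩ _
      simp
    · rintro ⟨t, s⟩ _
      rfl
  rw [h1, h2, Fintype.sum_prod_type]
  simp [Finset.mul_sum]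

/-- grid points -/
noncomputable def gp {n : ℕ} (p : Patch n) (δ : ℝ) (t : Fin n → ℝ) : E n :=
  p.o + ∑ l, (t l * δ) • p.b l

theorem inner_gp {n : ℕ} (p : Patch n) (δ : ℝ) (t : Fin n → ℝ) (l : Fin n) :
    inner ℝ (p.b l) (gp p δ t - p.o) = t l * δ := by
  simp [gp, inner_sum, inner_smul_right, orthonormal_iff_ite.mp p.b.orthonormal]

theorem inner_gp_sub {n : ℕ} (p : Patch n) (δ : ℝ) (t u : Fin n → ℝ) (l : Fin n) :
    inner ℝ (p.b l) (gp p δ t - gp p δ u) = (t l - u l) * δ := by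
  have h1 := inner_gp p δ t l
  have h2 := inner_gp p δ u l
  have h3 : gp p δ t - gp p δ u = (gp p δ t - p.o) - (gp p δ u - p.o) := by abel
  rw [h3, inner_sub_right, h1, h2]
  ring

theorem gp_mem {n : ℕ} (p : Patch n) (δ : ℝ) (t : Fin n → ℝ) (h0 : 0 ≤ δ)
    (ht : ∀ l, 0 ≤ t l) (ht' : ∀ l, t l * δ ≤ p.s) : gp p δ t ∈ p.cube := by
  intro l
  rw [inner_gp]
  exact ⟨mul_nonneg (ht l) h0, ht' l⟩

theorem cube_closed {n : ℕ} (p : Patch n) : IsClosed p.cube := by
  have : p.cube = ⋂ l, {x | 0 ≤ inner ℝ (p.b l) (x - p.o) ∧ inner ℝ (p.b l) (x - p.o) ≤ p.s} := by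
    ext x
    simp [Patch.cube]
  rw [this]
  refine isClosed_iInter fun l => ?_
  have hc : Continuous fun x : E n => inner ℝ (p.b l) (x - p.o) := by fun_prop
  exact (isClosed_le continuous_const hc).inter (isClosed_le hc continuous_const)

theorem cube_compact {n : ℕ} (p : Patch n) (a : ℝ) (h : ∀ x ∈ p.cube, ‖x‖ ≤ a) :
    IsCompact p.cube := by
  refine Metric.isCompact_of_isClosed_isBounded (cube_closed p) ?_
  refine (Metric.isBounded_closedBall (x := (0 : E n)) (r := a)).subset ?_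
  intro x hx
  simpa using h x hx

/-- separation of finitely many disjoint compact cubes -/
theorem exists_sep {n : ℕ} {P : Type} [Fintype P] (p : P → Patch n) (a : ℝ)
    (h : ∀ q, ∀ x ∈ (p q).cube, ‖x‖ ≤ a)
    (hd : ∀ q r, q ≠ r → Disjoint (p q).cube (p r).cube) :
    ∃ d0 : ℝ, 0 < d0 ∧ ∀ q r, q ≠ r → ∀ x ∈ (p q).cube, ∀ y ∈ (p r).cube, d0 ≤ ‖x - y‖ := by
  classical
  have key : ∀ z : P × P, ∃ d : ℝ, 0 < d ∧ (z.1 ≠ z.2 →
      ∀ x ∈ (p z.1).cube, ∀ y ∈ (p z.2).cube, d ≤ ‖x - y‖) := by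
    rintro ⟨q, r⟩
    by_cases hqr : q = r
    · exact ⟨1, one_pos, fun h => absurd hqr h⟩
    · obtain ⟨d, hd0, hd1⟩ := Metric.exists_pos_forall_lt_edist (cube_compact (p q) a (h q))
        (cube_closed (p r)) (hd q r hqr)
      refine ⟨d, by exact_mod_cast hd0, fun _ x hx y hy => ?_⟩
      have h1 := hd1 x hx y hy
      rw [edist_dist, dist_eq_norm] at h1
      have h2 : (d : ℝ≥0∞) = ENNReal.ofReal d := by simp
      rw [h2] at h1
      have := (ENNReal.ofReal_lt_ofReal_iff_of_nonneg d.2).1 h1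
      exact this.le
  choose d hd0 hd1 using key
  by_cases hP : Nonempty P
  · have hne : (Finset.univ : Finset (P × P)).Nonempty := by
      obtain ⟨q⟩ := hP
      exact ⟨(q, q), Finset.mem_univ _⟩
    refine ⟨Finset.univ.inf' hne d, ?_, ?_⟩
    · rw [Finset.lt_inf'_iff]
      intro z _
      exact hd0 z
    · intro q r hqr x hx y hy
      exact (Finset.inf'_le d (Finset.mem_univ (q, r))).trans (hd1 (q, r) hqr x hx y hy)
  · refine ⟨1, one_pos, fun q => (hP ⟨q⟩).elim⟩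

theorem abs_inner_le {n : ℕ} (b : OrthonormalBasis (Fin n) ℝ (E n)) (l : Fin n) (x : E n) :
    |inner ℝ (b l) x| ≤ ‖x‖ := by
  have := abs_real_inner_le_norm (b l) x
  simpa [b.orthonormal.1 l] using this

theorem sum_abs_inner_le {n : ℕ} (b : OrthonormalBasis (Fin n) ℝ (E n)) (lam : Fin n → ℝ) (Λ : ℝ)
    (h0 : ∀ l, 0 ≤ lam l) (hΛ : ∀ l, lam l ≤ Λ) (x : E n) :
    ∑ l, lam l * |inner ℝ (b l) x| ≤ n * Λ * ‖x‖ := by
  have : ∑ l, lam l * |inner ℝ (b l) x| ≤ ∑ _l : Fin n, Λ * ‖x‖ := by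
    refine Finset.sum_le_sum fun l _ => ?_
    exact mul_le_mul (hΛ l) (abs_inner_le b l x) (abs_nonneg _) ((h0 l).trans (hΛ l))
  refine this.trans ?_
  simp [mul_assoc]

/-- the inequality for one good index (pure real numbers) -/
theorem one_index {n : ℕ} (hn : 2 ≤ n) {κ δ μ D e V Pr m T : ℝ} (hκ : 0 < κ) (hδ : 0 < δ)
    (hD : 0 ≤ D) (hV : 0 ≤ V) (hPr0 : 0 ≤ Pr)
    (hPr : μ * D ^ n * e ^ (n - 1) ≤ Pr) (hm : m = μ * δ ^ n) (hm0 : 0 ≤ m)
    (hT : 0 ≤ T) (hmV : m ≤ V * (e * Real.exp T)) :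
    κ * n * D * m * Real.exp (-T) ≤
      κ * δ * n * (Pr ^ (1 / (n : ℝ)) * V ^ (((n : ℝ) - 1) / n)) := by
  have hn0 : n ≠ 0 := by omega
  have hnR : (n : ℝ) ≠ 0 := by exact_mod_cast hn0
  have hE0 : 0 < Real.exp (-T) := Real.exp_pos _
  have hE1 : Real.exp (-T) ≤ 1 := Real.exp_le_one_iff.2 (by linarith)
  have hmE : m * Real.exp (-T) ≤ V * e := by
    have := mul_le_mul_of_nonneg_right hmV hE0.le
    calc m * Real.exp (-T) ≤ V * (e * Real.exp T) * Real.exp (-T) := this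
      _ = V * e * (Real.exp T * Real.exp (-T)) := by ring
      _ = V * e := by rw [← Real.exp_add]; simp
  set W := Pr ^ (1 / (n : ℝ)) * V ^ (((n : ℝ) - 1) / n) with hW
  have hW0 : 0 ≤ W := mul_nonneg (Real.rpow_nonneg hPr0 _) (Real.rpow_nonneg hV _)
  have hWn : W ^ n = Pr * V ^ (n - 1) := by
    rw [hW, mul_pow]
    congr 1
    · rw [one_div]
      exact Real.rpow_inv_natCast_pow hPr0 hn0
    · rw [← Real.rpow_natCast, ← Real.rpow_mul hV, div_mul_cancel₀ _ hnR, ← Real.rpow_natCast]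
      congr 1
      rw [Nat.cast_sub (by omega)]
      simp
  have key : D * m * Real.exp (-T) ≤ δ * W := by
    have h1 : (D * m * Real.exp (-T)) ^ n ≤ (δ * W) ^ n := by
      have e1 : (D * m * Real.exp (-T)) ^ n = D ^ n * (m * Real.exp (-T)) ^ (n - 1) *
          (m * Real.exp (-T)) := by
        obtain ⟨k, rfl⟩ : ∃ k, n = k + 1 := ⟨n - 1, by omega⟩
        rw [Nat.add_sub_cancel]
        ring
      have e2 : (m * Real.exp (-T)) ^ (n - 1) ≤ (V * e) ^ (n - 1) :=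
        pow_le_pow_left₀ (mul_nonneg hm0 hE0.le) hmE _
      have e3 : m * Real.exp (-T) ≤ m := by nlinarith
      have hVe0 : 0 ≤ V * e := le_trans (mul_nonneg hm0 hE0.le) hmE
      rw [e1, mul_pow δ W, hWn]
      calc D ^ n * (m * Real.exp (-T)) ^ (n - 1) * (m * Real.exp (-T))
          ≤ D ^ n * (V * e) ^ (n - 1) * m := by
            refine mul_le_mul (mul_le_mul_of_nonneg_left e2 (pow_nonneg hD _)) e3
              (mul_nonneg hm0 hE0.le) (mul_nonneg (pow_nonneg hD _) (pow_nonneg hVe0 _))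
        _ = δ ^ n * ((μ * D ^ n * e ^ (n - 1)) * V ^ (n - 1)) := by
            rw [hm, mul_pow]
            ring
        _ ≤ δ ^ n * (Pr * V ^ (n - 1)) := by
            refine mul_le_mul_of_nonneg_left ?_ (pow_nonneg hδ.le _)
            exact mul_le_mul_of_nonneg_right hPr (pow_nonneg hV _)
    exact (pow_le_pow_iff_left₀ (by positivity) (by positivity) hn0).1 h1
  have : κ * n * (D * m * Real.exp (-T)) ≤ κ * n * (δ * W) :=
    mul_le_mul_of_nonneg_left key (by positivity)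
  calc κ * n * D * m * Real.exp (-T) = κ * n * (D * m * Real.exp (-T)) := by ring
    _ ≤ κ * n * (δ * W) := this
    _ = κ * δ * n * W := by ring

section CellLemmas

variable {n : ℕ} {ι : Type}

theorem ell_cont (ξ : ι → E n) (c : ι → ℝ) (i : ι) : Continuous (ell ξ c i) := by
  unfold ell
  fun_prop

theorem ell_lip (ξ : ι → E n) (c : ι → ℝ) (i : ι) {a : ℝ} (h : ‖ξ i‖ ≤ a) (x y : E n) :
    ell ξ c i x ≤ ell ξ c i y + a * ‖x - y‖ := by
  have h1 : ell ξ c i x - ell ξ c i y = inner ℝ (ξ i) (x - y) := by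
    simp only [ell, inner_sub_right]
    ring
  have h2 : inner ℝ (ξ i) (x - y) ≤ ‖ξ i‖ * ‖x - y‖ := real_inner_le_norm _ _
  have h3 : ‖ξ i‖ * ‖x - y‖ ≤ a * ‖x - y‖ := mul_le_mul_of_nonneg_right h (norm_nonneg _)
  linarith

theorem cell_eq (K : Set (E n)) (ξ : ι → E n) (c : ι → ℝ) (i : ι) :
    cell K ξ c i = K ∩ ⋂ j, {x | ell ξ c j x ≤ ell ξ c i x} := by
  ext x
  simp [cell]

theorem cell_aux_closed (ξ : ι → E n) (c : ι → ℝ) (i : ι) :
    IsClosed (⋂ j, {x | ell ξ c j x ≤ ell ξ c i x}) :=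
  isClosed_iInter fun j => isClosed_le (ell_cont ξ c j) (ell_cont ξ c i)

theorem cell_compact {K : Set (E n)} (hK : IsCompact K) (ξ : ι → E n) (c : ι → ℝ) (i : ι) :
    IsCompact (cell K ξ c i) := by
  rw [cell_eq]
  exact hK.inter_right (cell_aux_closed ξ c i)

theorem cell_meas {K : Set (E n)} (hK : MeasurableSet K) (ξ : ι → E n) (c : ι → ℝ) (i : ι) :
    MeasurableSet (cell K ξ c i) := by
  rw [cell_eq]
  exact hK.inter (cell_aux_closed ξ c i).measurableSet

theorem cell_mono {K L : Set (E n)} (h : K ⊆ L) (ξ : ι → E n) (c : ι → ℝ) (i : ι) :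
    cell K ξ c i ⊆ cell L ξ c i := fun _ hx => ⟨h hx.1, hx.2⟩

theorem cell_subset {K : Set (E n)} (ξ : ι → E n) (c : ι → ℝ) (i : ι) :
    cell K ξ c i ⊆ K := fun _ hx => hx.1

theorem cell_cover [Finite ι] [Nonempty ι] {K : Set (E n)} (ξ : ι → E n) (c : ι → ℝ) :
    K ⊆ ⋃ i, cell K ξ c i := by
  intro x hx
  obtain ⟨i, hi⟩ := Finite.exists_max (fun i => ell ξ c i x)
  exact mem_iUnion.2 ⟨i, hx, hi⟩

theorem expell_integrable {Ω : Set (E n)} (hb : Bornology.IsBounded Ω) (ξ : ι → E n) (c : ι → ℝ)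
    (i : ι) {S : Set (E n)} (hS : S ⊆ Ω) :
    IntegrableOn (fun x => Real.exp (2 * ell ξ c i x)) S volume := by
  have hc : Continuous fun x => Real.exp (2 * ell ξ c i x) :=
    Real.continuous_exp.comp (continuous_const.mul (ell_cont ξ c i))
  have hK : IsCompact (closure Ω) := hb.isCompact_closure
  exact (hc.continuousOn.integrableOn_compact hK).mono_set (hS.trans subset_closure)

theorem vol_lt_top {Ω : Set (E n)} (hb : Bornology.IsBounded Ω) {S : Set (E n)} (hS : S ⊆ Ω) :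
    volume S < ⊤ := (hb.subset hS).measure_lt_top

end CellLemmas

end Pool.Agent.ROB.Fix
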