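import Pool.Agent.ROB.FixAux

/-!
MP_7b7880_an, module FIX: the inequality for one grid (helper94).
-/

namespace Pool.Agent.ROB.Fix

open MeasureTheory Set Pool.Agent.ROB
open scoped ContDiff ENNReal

/-- the index type of the grids -/
abbrev Idx {P : Type} (N : P → ℕ) (n : ℕ) : Type := Σ q : P, (Fin n → Fin (N q))

/-- the slopes -/
noncomputable def slope {n : ℕ} {P : Type} (p : P → Patch n) (δ : ℝ) {N : P → ℕ}
    (i : Idx N n) : E n := gp (p i.1) δ (fun l => ((i.2 l : ℕ) : ℝ))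

section

variable {n : ℕ} {P : Type} (p : P → Patch n) {δ : ℝ} {N : P → ℕ}

theorem slope_mem (hδ : 0 < δ) (hN : ∀ q, (N q : ℝ) * δ ≤ (p q).s) (i : Idx N n) :
    slope p δ i ∈ (p i.1).cube := by
  refine gp_mem _ _ _ hδ.le (fun l => Nat.cast_nonneg _) (fun l => ?_)
  refine le_trans ?_ (hN i.1)
  refine mul_le_mul_of_nonneg_right ?_ hδ.le
  exact_mod_cast (i.2 l).2.le

theorem slope_inj (hδ : 0 < δ) (hN : ∀ q, (N q : ℝ) * δ ≤ (p q).s)
    (hdis : ∀ q r, q ≠ r → Disjoint (p q).cube (p r).cube) :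
    Function.Injective (slope p δ : Idx N n → E n) := by
  rintro ⟨q, t⟩ ⟨r, u⟩ h
  by_cases hqr : q = r
  · subst hqr
    congr 1
    funext l
    have h1 := inner_gp_sub (p q) δ (fun l => ((t l : ℕ) : ℝ)) (fun l => ((u l : ℕ) : ℝ)) l
    have h2 : gp (p q) δ (fun l => ((t l : ℕ) : ℝ)) = gp (p q) δ (fun l => ((u l : ℕ) : ℝ)) := h
    rw [h2, sub_self, inner_zero_right] at h1
    have h3 : ((t l : ℕ) : ℝ) - ((u l : ℕ) : ℝ) = 0 := by
      rcases mul_eq_zero.1 h1.symm with h | h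
      · exact h
      · exact absurd h hδ.ne'
    have h4 : ((t l : ℕ) : ℝ) = ((u l : ℕ) : ℝ) := by linarith
    exact Fin.ext (by exact_mod_cast h4)
  · exfalso
    have h1 := slope_mem p hδ hN ⟨q, t⟩
    have h2 := slope_mem p hδ hN ⟨r, u⟩
    rw [h] at h1
    exact (Set.disjoint_left.1 (hdis q r hqr)) h1 h2

/-- in one patch the coordinates of differences are multiples of `δ` -/
theorem slope_sq (hδ : 0 < δ) (q : P) (t u : Fin n → Fin (N q)) (l : Fin n) :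
    δ * |inner ℝ ((p q).b l) (slope p δ (⟨q, t⟩ : Idx N n) - slope p δ (⟨q, u⟩ : Idx N n))| ≤
      (inner ℝ ((p q).b l) (slope p δ (⟨q, t⟩ : Idx N n) - slope p δ (⟨q, u⟩ : Idx N n))) ^ 2 := by
  have h1 : inner ℝ ((p q).b l) (slope p δ (⟨q, t⟩ : Idx N n) - slope p δ (⟨q, u⟩ : Idx N n)) =
      (((t l : ℕ) : ℝ) - ((u l : ℕ) : ℝ)) * δ := inner_gp_sub (p q) δ _ _ l
  rw [h1, abs_mul, abs_of_pos hδ, mul_pow]
  set z : ℤ := ((t l : ℕ) : ℤ) - ((u l : ℕ) : ℤ) with hz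
  have h2 : (((t l : ℕ) : ℝ) - ((u l : ℕ) : ℝ)) = (z : ℝ) := by rw [hz]; push_cast; ring
  rw [h2]
  have h3 : |(z : ℝ)| ≤ (z : ℝ) ^ 2 := by
    have : |z| ≤ z ^ 2 := by
      rcases eq_or_ne z 0 with h | h
      · simp [h]
      · have h5 : 1 ≤ |z| := Int.one_le_abs h
        have h6 : z ^ 2 = |z| * |z| := by rw [← sq_abs]; ring
        rw [h6]
        nlinarith
    exact_mod_cast this
  have h4 : 0 ≤ δ * δ := by positivity
  nlinarith [mul_le_mul_of_nonneg_left h3 h4]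

theorem pair_one (hδ : 0 < δ) (hN : ∀ q, (N q : ℝ) * δ ≤ (p q).s) {k a A₀ κ c0 : ℝ}
    {X : E n → E n} (hκ : 0 < κ) (hc0 : 0 < c0)
    (hok : ∀ q, (p q).OK k a A₀ κ X)
    (hcr : ∀ q r, ∀ x ∈ (p q).cube, ∀ y ∈ (p r).cube,
      c0 * ‖x - y‖ ^ 2 ≤ inner ℝ (x - y) (X x - X y))
    {Λ d0 : ℝ} (hΛ : ∀ q l, (p q).lam l ≤ Λ)
    (hsep : ∀ q r, q ≠ r → ∀ x ∈ (p q).cube, ∀ y ∈ (p r).cube, d0 ≤ ‖x - y‖)
    (hδ1 : κ * δ * n * Λ ≤ c0 * d0) (i j : Idx N n) :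
    κ * δ / 2 * ((∑ l, (p i.1).lam l * |inner ℝ ((p i.1).b l) (slope p δ i - slope p δ j)|) +
        ∑ l, (p j.1).lam l * |inner ℝ ((p j.1).b l) (slope p δ i - slope p δ j)|) ≤
      inner ℝ (slope p δ i - slope p δ j) (X (slope p δ i) - X (slope p δ j)) := by
  have hmi := slope_mem p hδ hN i
  have hmj := slope_mem p hδ hN j
  obtain ⟨q, t⟩ := i
  obtain ⟨r, u⟩ := j
  by_cases hqr : q = r
  · subst hqr
    have h1 := (hok q).pair _ hmi _ hmj
    refine le_trans ?_ h1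
    rw [← two_mul]
    have h2 : κ * δ / 2 * (2 * ∑ l, (p q).lam l *
        |inner ℝ ((p q).b l) (slope p δ (⟨q, t⟩ : Idx N n) - slope p δ ⟨q, u⟩)|) =
        κ * ∑ l, (p q).lam l *
        (δ * |inner ℝ ((p q).b l) (slope p δ (⟨q, t⟩ : Idx N n) - slope p δ ⟨q, u⟩)|) := by
      have : ∑ l, (p q).lam l *
        (δ * |inner ℝ ((p q).b l) (slope p δ (⟨q, t⟩ : Idx N n) - slope p δ ⟨q, u⟩)|) =
        δ * ∑ l, (p q).lam l *
        |inner ℝ ((p q).b l) (slope p δ (⟨q, t⟩ : Idx N n) - slope p δ ⟨q, u⟩)| := by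
        rw [Finset.mul_sum]
        exact Finset.sum_congr rfl fun l _ => by ring
      rw [this]
      ring
    rw [h2]
    refine mul_le_mul_of_nonneg_left (Finset.sum_le_sum fun l _ => ?_) hκ.le
    exact mul_le_mul_of_nonneg_left (slope_sq p hδ q t u l) ((hok q).lam_pos l).le
  · have h1 := hcr q r _ hmi _ hmj
    have h2 := hsep q r hqr _ hmi _ hmj
    refine le_trans ?_ h1
    have h3 := sum_abs_inner_le (p q).b (p q).lam Λ (fun l => ((hok q).lam_pos l).le) (hΛ q)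
      (slope p δ (⟨q, t⟩ : Idx N n) - slope p δ ⟨r, u⟩)
    have h4 := sum_abs_inner_le (p r).b (p r).lam Λ (fun l => ((hok r).lam_pos l).le) (hΛ r)
      (slope p δ (⟨q, t⟩ : Idx N n) - slope p δ ⟨r, u⟩)
    set w := ‖slope p δ (⟨q, t⟩ : Idx N n) - slope p δ ⟨r, u⟩‖ with hw
    have hw0 : 0 ≤ w := norm_nonneg _
    calc κ * δ / 2 * ((∑ l, (p q).lam l *
            |inner ℝ ((p q).b l) (slope p δ (⟨q, t⟩ : Idx N n) - slope p δ ⟨r, u⟩)|) +
          ∑ l, (p r).lam l *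
            |inner ℝ ((p r).b l) (slope p δ (⟨q, t⟩ : Idx N n) - slope p δ ⟨r, u⟩)|)
        ≤ κ * δ / 2 * (n * Λ * w + n * Λ * w) :=
          mul_le_mul_of_nonneg_left (add_le_add h3 h4) (by positivity)
      _ = (κ * δ * n * Λ) * w := by ring
      _ ≤ (c0 * d0) * w := mul_le_mul_of_nonneg_right hδ1 hw0
      _ ≤ (c0 * w) * w := by
          refine mul_le_mul_of_nonneg_right ?_ hw0
          exact mul_le_mul_of_nonneg_left h2 hc0.le
      _ = c0 * w ^ 2 := by ring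

theorem pair_two (hδ : 0 < δ) (hN : ∀ q, (N q : ℝ) * δ ≤ (p q).s) {κ : ℝ}
    (hκ : 0 < κ) (hκ1 : κ ≤ 1) {d0 : ℝ}
    (hsep : ∀ q r, q ≠ r → ∀ x ∈ (p q).cube, ∀ y ∈ (p r).cube, d0 ≤ ‖x - y‖)
    (hδ2 : κ * δ * n ≤ d0) (i j : Idx N n) :
    κ * δ / 2 * ((∑ l, |inner ℝ ((p i.1).b l) (slope p δ i - slope p δ j)|) +
        ∑ l, |inner ℝ ((p j.1).b l) (slope p δ i - slope p δ j)|) ≤
      ‖slope p δ i - slope p δ j‖ ^ 2 := by
  have hmi := slope_mem p hδ hN i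
  have hmj := slope_mem p hδ hN j
  obtain ⟨q, t⟩ := i
  obtain ⟨r, u⟩ := j
  by_cases hqr : q = r
  · subst hqr
    rw [← (p q).b.sum_sq_inner_right, ← two_mul]
    have h2 : κ * δ / 2 * (2 * ∑ l,
        |inner ℝ ((p q).b l) (slope p δ (⟨q, t⟩ : Idx N n) - slope p δ ⟨q, u⟩)|) =
        κ * ∑ l,
        (δ * |inner ℝ ((p q).b l) (slope p δ (⟨q, t⟩ : Idx N n) - slope p δ ⟨q, u⟩)|) := by
      rw [← Finset.mul_sum]
      ring
    have h3 : ∑ l,
        (δ * |inner ℝ ((p q).b l) (slope p δ (⟨q, t⟩ : Idx N n) - slope p δ ⟨q, u⟩)|) ≤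
        ∑ l, (inner ℝ ((p q).b l) (slope p δ (⟨q, t⟩ : Idx N n) - slope p δ ⟨q, u⟩)) ^ 2 :=
      Finset.sum_le_sum fun l _ => slope_sq p hδ q t u l
    have h4 : 0 ≤ ∑ l,
        (δ * |inner ℝ ((p q).b l) (slope p δ (⟨q, t⟩ : Idx N n) - slope p δ ⟨q, u⟩)|) :=
      Finset.sum_nonneg fun l _ => by positivity
    rw [h2]
    refine le_trans ?_ h3
    nlinarith
  · have h2 := hsep q r hqr _ hmi _ hmj
    have h3 := sum_abs_inner_le (p q).b (fun _ => 1) 1 (fun l => zero_le_one) (fun _ => le_rfl)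
      (slope p δ (⟨q, t⟩ : Idx N n) - slope p δ ⟨r, u⟩)
    have h4 := sum_abs_inner_le (p r).b (fun _ => 1) 1 (fun l => zero_le_one) (fun _ => le_rfl)
      (slope p δ (⟨q, t⟩ : Idx N n) - slope p δ ⟨r, u⟩)
    simp only [one_mul, mul_one] at h3 h4
    set w := ‖slope p δ (⟨q, t⟩ : Idx N n) - slope p δ ⟨r, u⟩‖ with hw
    have hw0 : 0 ≤ w := norm_nonneg _
    calc κ * δ / 2 * ((∑ l,
            |inner ℝ ((p q).b l) (slope p δ (⟨q, t⟩ : Idx N n) - slope p δ ⟨r, u⟩)|) +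
          ∑ l,
            |inner ℝ ((p r).b l) (slope p δ (⟨q, t⟩ : Idx N n) - slope p δ ⟨r, u⟩)|)
        ≤ κ * δ / 2 * (n * w + n * w) :=
          mul_le_mul_of_nonneg_left (add_le_add h3 h4) (by positivity)
      _ = (κ * δ * n) * w := by ring
      _ ≤ d0 * w := mul_le_mul_of_nonneg_right hδ2 hw0
      _ ≤ w * w := mul_le_mul_of_nonneg_right h2 hw0
      _ = w ^ 2 := by ring

end

/-- counting wide cells in one patch -/
theorem wide_count (hWidth : Stmt_Width) {n : ℕ} {P : Type} (p : P → Patch n) {δ : ℝ} {N : P → ℕ}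
    (hδ : 0 < δ) (K : Set (E n)) {Δ : ℝ} (hΔ : ∀ x ∈ K, ∀ y ∈ K, dist x y ≤ Δ) (hΔ0 : 0 ≤ Δ)
    (c : Idx N n → ℝ) {η : ℝ} (hη : 0 < η) (q : P) (hNq : 0 < N q) (l : Fin n)
    (f : (Fin n → Fin (N q)) → ℝ)
    (hf0 : ∀ t, (∃ x ∈ cell K (slope p δ) c ⟨q, t⟩, ∃ y ∈ cell K (slope p δ) c ⟨q, t⟩,
      η ≤ inner ℝ ((p q).b l) (y - x)) → f t = 1)
    (hf1 : ∀ t, (¬ ∃ x ∈ cell K (slope p δ) c ⟨q, t⟩, ∃ y ∈ cell K (slope p δ) c ⟨q, t⟩,
      η ≤ inner ℝ ((p q).b l) (y - x)) → f t = 0) :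
    ∑ t, f t ≤ (N q : ℝ) ^ (n - 1) * (Δ / η) := by
  classical
  have hn : 0 < n := Fin.pos l
  have hline : ∀ t : Fin n → Fin (N q), ∑ s : Fin (N q), f (Function.update t l s) ≤ Δ / η := by
    intro t
    have h := hWidth n K Δ hΔ hΔ0 (Idx N n) (slope p δ) c (N q)
      (fun s => ⟨q, Function.update t l s⟩)
      ((p q).o + ∑ l', ((if l' = l then 0 else ((t l' : ℕ) : ℝ)) * δ) • (p q).b l')
      ((p q).b l) δ η ((p q).b.orthonormal.1 l) hδ hη ?_
    · have h2 : ∑ s : Fin (N q), f (Function.update t l s) =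
        (Nat.card {s : Fin (N q) // ∃ x ∈ cell K (slope p δ) c
          (⟨q, Function.update t l s⟩ : Idx N n), ∃ y ∈ cell K (slope p δ) c
          (⟨q, Function.update t l s⟩ : Idx N n), η ≤ inner ℝ ((p q).b l) (y - x)} : ℝ) := by
        rw [Nat.card_eq_fintype_card, Fintype.card_subtype, ← Finset.sum_boole]
        refine Finset.sum_congr rfl fun s _ => ?_
        split_ifs with hs
        · exact hf0 _ hs
        · exact hf1 _ hs
      rw [h2, le_div_iff₀ hη]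
      exact h
    · intro s
      simp only [slope, gp]
      rw [add_assoc]
      congr 1
      have h3 : (((s : ℕ) : ℝ) * δ) • (p q).b l =
          ∑ l', (if l' = l then (((s : ℕ) : ℝ) * δ) • (p q).b l' else 0) := by
        rw [Finset.sum_ite_eq']
        simp
      rw [h3, ← Finset.sum_add_distrib]
      refine Finset.sum_congr rfl fun l' _ => ?_
      by_cases hl : l' = l
      · subst hl
        simp
      · simp [hl]
  have h1 := sum_update l f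
  have h2 : ∑ t, ∑ s : Fin (N q), f (Function.update t l s) ≤
      ∑ _t : Fin n → Fin (N q), Δ / η := Finset.sum_le_sum fun t _ => hline t
  rw [h1] at h2
  simp only [Finset.sum_const, Finset.card_univ, Fintype.card_fun, Fintype.card_fin,
    nsmul_eq_mul] at h2
  have hNR : (0 : ℝ) < N q := by exact_mod_cast hNq
  have h4 : ((N q ^ n : ℕ) : ℝ) = (N q : ℝ) * (N q : ℝ) ^ (n - 1) := by
    push_cast
    rw [← pow_succ']
    congr 1
    omega
  rw [h4, mul_assoc] at h2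
  exact le_of_mul_le_mul_left h2 hNR

end Pool.Agent.ROB.Fix
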