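import Pool.Agent.ROB.FixDelta

/-!
MP_7b7880_an, module FIX: the inequality for one grid, main estimate (helper94).
-/

namespace Pool.Agent.ROB.Fix

open MeasureTheory Set Pool.Agent.ROB
open scoped ContDiff ENNReal

theorem sum_const_idx {n : ℕ} {P : Type} [Fintype P] (N : P → ℕ) (f : P → ℝ) :
    ∑ i : Idx N n, f i.1 = ∑ q, (N q : ℝ) ^ n * f q := by
  rw [Fintype.sum_sigma]
  refine Finset.sum_congr rfl fun q _ => ?_
  simp

/-- lower bound of the total mass by the exponential at one point -/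
theorem mass_lower {n : ℕ} {Ω : Set (E n)} {ι : Type} [Fintype ι] [Nonempty ι]
    (hO : IsOpen Ω) (hb : Bornology.IsBounded Ω)
    (ξ : ι → E n) (c : ι → ℝ) {B : ℝ} (hB0 : 0 ≤ B)
    (hB : ∀ j, ∀ x ∈ cell Ω ξ c j, B ≤ Real.exp (2 * ell ξ c j x)) :
    (volume Ω).toReal * B ≤ ∑ j, ∫ x in cell Ω ξ c j, Real.exp (2 * ell ξ c j x) := by
  have h1 : volume Ω ≤ ∑ j, volume (cell Ω ξ c j) :=
    (measure_mono (cell_cover ξ c)).trans (measure_iUnion_fintype_le _ _)
  have hfin : ∀ j, volume (cell Ω ξ c j) ≠ ⊤ := fun j => (vol_lt_top hb (cell_subset ξ c j)).ne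
  have h2 : (volume Ω).toReal ≤ ∑ j, (volume (cell Ω ξ c j)).toReal := by
    rw [← ENNReal.toReal_sum (fun j _ => hfin j)]
    refine ENNReal.toReal_mono ?_ h1
    exact (ENNReal.sum_lt_top.2 fun j _ => (hfin j).lt_top).ne
  have h3 : ∀ j, (volume (cell Ω ξ c j)).toReal * B ≤
      ∫ x in cell Ω ξ c j, Real.exp (2 * ell ξ c j x) := by
    intro j
    have h4 : ∫ x in cell Ω ξ c j, B ≤ ∫ x in cell Ω ξ c j, Real.exp (2 * ell ξ c j x) := by
      refine setIntegral_mono_on ?_ (expell_integrable hb ξ c j (cell_subset ξ c j))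
        (cell_meas hO.measurableSet ξ c j) (hB j)
      exact integrableOn_const (hfin j)
    rw [setIntegral_const, smul_eq_mul] at h4
    exact h4
  calc (volume Ω).toReal * B ≤ (∑ j, (volume (cell Ω ξ c j)).toReal) * B :=
        mul_le_mul_of_nonneg_right h2 hB0
    _ = ∑ j, (volume (cell Ω ξ c j)).toReal * B := by rw [Finset.sum_mul]
    _ ≤ _ := Finset.sum_le_sum fun j _ => h3 j

/-- upper bound of a mass -/
theorem mass_upper {n : ℕ} {Ω : Set (E n)} {ι : Type}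
    (hO : IsOpen Ω) (hb : Bornology.IsBounded Ω)
    (ξ : ι → E n) (c : ι → ℝ) (j : ι) {B : ℝ}
    (hB : ∀ x ∈ cell Ω ξ c j, Real.exp (2 * ell ξ c j x) ≤ B) :
    ∫ x in cell Ω ξ c j, Real.exp (2 * ell ξ c j x) ≤ (volume (cell Ω ξ c j)).toReal * B := by
  have hfin : volume (cell Ω ξ c j) ≠ ⊤ := (vol_lt_top hb (cell_subset ξ c j)).ne
  have h4 : ∫ x in cell Ω ξ c j, Real.exp (2 * ell ξ c j x) ≤ ∫ x in cell Ω ξ c j, B := by
    refine setIntegral_mono_on (expell_integrable hb ξ c j (cell_subset ξ c j)) ?_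
      (cell_meas hO.measurableSet ξ c j) hB
    exact integrableOn_const hfin
  rw [setIntegral_const, smul_eq_mul] at h4
  exact h4

theorem grid (hAbs : Stmt_Abs) (hMass : Stmt_Mass) (hWidth : Stmt_Width) {n : ℕ} (hn : 2 ≤ n)
    {Ω : Set (E n)} {σ : Measure (E n)} (hdom : Dom Ω σ) {k a : ℝ} (hk : 0 < k) (ha : 0 < a)
    (hR : RobinHyp Ω σ k a) {P : Type} [Fintype P] [Nonempty P] (p : P → Patch n) (X : E n → E n)
    {A₀ κ c0 : ℝ} (hκ : 0 < κ) (hκ1 : κ ≤ 1) (hc0 : 0 < c0)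
    (hok : ∀ q, (p q).OK k a A₀ κ X)
    (hdis : ∀ q r, q ≠ r → Disjoint (p q).cube (p r).cube)
    (hcr : ∀ q r, ∀ x ∈ (p q).cube, ∀ y ∈ (p r).cube,
      c0 * ‖x - y‖ ^ 2 ≤ inner ℝ (x - y) (X x - X y))
    {Λ d0 : ℝ} (hΛ : ∀ q l, (p q).lam l ≤ Λ)
    (hsep : ∀ q r, q ≠ r → ∀ x ∈ (p q).cube, ∀ y ∈ (p r).cube, d0 ≤ ‖x - y‖)
    {Δ : ℝ} (hΔ : ∀ x ∈ closure Ω, ∀ y ∈ closure Ω, dist x y ≤ Δ) (hΔ0 : 0 ≤ Δ)
    {δ η : ℝ} (hδ : 0 < δ) (hη : 0 < η) (N : P → ℕ) (hN0 : ∀ q, 0 < N q)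
    (hN : ∀ q, (N q : ℝ) * δ ≤ (p q).s) (hδ1 : κ * δ * n * Λ ≤ c0 * d0) (hδ2 : κ * δ * n ≤ d0) :
    ∑ q, κ * n * (p q).D * ((p q).mu * δ ^ n) *
      (Real.exp (-(2 * a * (Real.sqrt n * η))) * (N q : ℝ) ^ n -
        n * ((N q : ℝ) ^ (n - 1) * (Δ / η))) ≤
      (A₀ + κ * δ / 2 * n * (Λ + ((n : ℝ) - 1) *
        (Real.exp (2 * a * Δ) * (∑ q, (p q).mu * (p q).s ^ n) / (volume Ω).toReal))) *
        (σ univ).toReal +
      ((n : ℝ) - 1) * ∑ q, (N q : ℝ) ^ n * ((p q).Dp * ((p q).mu * δ ^ n)) := by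
  classical
  have hnR : (2 : ℝ) ≤ n := by exact_mod_cast hn
  have : Nonempty (Idx N n) :=
    ⟨⟨Classical.arbitrary P, fun _ => ⟨0, hN0 _⟩⟩⟩
  set ξ : Idx N n → E n := slope p δ with hξ
  have hmem : ∀ i, ξ i ∈ (p i.1).cube := fun i => slope_mem p hδ hN i
  have hinj : Function.Injective ξ := slope_inj p hδ hN hdis
  set m : P → ℝ := fun q => (p q).mu * δ ^ n with hm
  have hm0 : ∀ q, 0 < m q := fun q => mul_pos (hok q).mu_pos (pow_pos hδ n)
  obtain ⟨c, hc⟩ := hMass n Ω hdom.isOpen hdom.bdd hdom.ne (Idx N n) ξ hinj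
    (fun i => m i.1) (fun i => hm0 i.1)
  have hξa : ∀ i, ‖ξ i‖ ≤ a := fun i => (hok i.1).norm_le _ (hmem i)
  have hKc : IsCompact (closure Ω) := hdom.bdd.isCompact_closure
  -- the cells are nonempty
  have hne : ∀ i, (cell (closure Ω) ξ c i).Nonempty := by
    intro i
    by_contra hcon
    rw [Set.not_nonempty_iff_eq_empty] at hcon
    have h1 : cell Ω ξ c i = ∅ :=
      Set.subset_eq_empty (cell_mono subset_closure ξ c i) hcon
    have h2 := hc i
    rw [h1] at h2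
    simp only [Measure.restrict_empty, integral_zero_measure] at h2
    exact absurd h2 (hm0 i.1).ne
  have hmin : ∀ i, ∃ x ∈ cell (closure Ω) ξ c i, ∀ y ∈ cell (closure Ω) ξ c i,
      ell ξ c i x ≤ ell ξ c i y := by
    intro i
    obtain ⟨x, hx, hx2⟩ := (cell_compact hKc ξ c i).exists_isMinOn (hne i)
      (ell_cont ξ c i).continuousOn
    exact ⟨x, hx, fun y hy => hx2 hy⟩
  choose z hz hz2 using hmin
  set e : Idx N n → ℝ := fun i => Real.exp (2 * ell ξ c i (z i)) with he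
  have he0 : ∀ i, 0 < e i := fun i => Real.exp_pos _
  -- volume
  have hvol : 0 < (volume Ω).toReal := by
    refine ENNReal.toReal_pos (hdom.isOpen.measure_pos volume hdom.ne).ne' ?_
    exact (vol_lt_top hdom.bdd (le_refl Ω)).ne
  set M0 : ℝ := ∑ q, (p q).mu * (p q).s ^ n with hM0
  have hsum_m : ∑ i : Idx N n, m i.1 = ∑ q, (N q : ℝ) ^ n * m q := sum_const_idx N m
  have hmass_le : ∑ i : Idx N n, m i.1 ≤ M0 := by
    rw [hsum_m]
    refine Finset.sum_le_sum fun q _ => ?_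
    have h1 : ((N q : ℝ) * δ) ^ n ≤ (p q).s ^ n := pow_le_pow_left₀ (by positivity) (hN q) n
    calc (N q : ℝ) ^ n * m q = (p q).mu * ((N q : ℝ) * δ) ^ n := by
          rw [hm, mul_pow]; ring
      _ ≤ (p q).mu * (p q).s ^ n := mul_le_mul_of_nonneg_left h1 (hok q).mu_pos.le
  set M : ℝ := Real.exp (2 * a * Δ) * M0 / (volume Ω).toReal with hM
  have heM : ∀ i, e i ≤ M := by
    intro i
    have h1 := mass_lower hdom.isOpen hdom.bdd ξ c (B := e i * Real.exp (-(2 * a * Δ)))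
      (by positivity) ?_
    · have h2 : (volume Ω).toReal * (e i * Real.exp (-(2 * a * Δ))) ≤ M0 := by
        refine h1.trans ?_
        rw [Finset.sum_congr rfl fun j _ => hc j]
        exact hmass_le
      rw [hM, le_div_iff₀ hvol]
      have h3 := mul_le_mul_of_nonneg_left h2 (Real.exp_pos (2 * a * Δ)).le
      calc e i * (volume Ω).toReal
          = Real.exp (2 * a * Δ) * ((volume Ω).toReal * (e i * Real.exp (-(2 * a * Δ)))) := by
            have : Real.exp (2 * a * Δ) * Real.exp (-(2 * a * Δ)) = 1 := by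
              rw [← Real.exp_add]; simp
            calc e i * (volume Ω).toReal
                = e i * (volume Ω).toReal * (Real.exp (2 * a * Δ) * Real.exp (-(2 * a * Δ))) := by
                  rw [this, mul_one]
              _ = _ := by ring
        _ ≤ _ := h3
    · intro j x hx
      rw [he, ← Real.exp_add]
      refine Real.exp_le_exp.2 ?_
      have h2 : ell ξ c i x ≤ ell ξ c j x := hx.2 i
      have h3 := ell_lip ξ c i (hξa i) (z i) x
      have h4 : ‖z i - x‖ ≤ Δ := by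
        rw [← dist_eq_norm]
        exact hΔ _ (hz i).1 _ (subset_closure hx.1)
      have h5 : a * ‖z i - x‖ ≤ a * Δ := mul_le_mul_of_nonneg_left h4 ha.le
      linarith
  -- the main inequality
  have main := hAbs n hn Ω σ hdom k a hk ha hR (Idx N n) ξ hinj c (fun i => X (ξ i))
    (fun i => (p i.1).b) (fun i => (p i.1).lam) (κ * δ) A₀ Λ M e hξa
    (fun i => (hok i.1).X_le _ (hmem i)) (mul_pos hκ hδ)
    (fun i l => ⟨((hok i.1).lam_pos l).le, hΛ i.1 l⟩)
    (fun i => ⟨(he0 i).le, heM i⟩)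
    (fun i x hx => Real.exp_le_exp.2 (by have := hz2 i x hx; linarith))
    (fun i j => pair_one p hδ hN hκ hc0 hok hcr hΛ hsep hδ1 i j)
    (fun i j => pair_two p hδ hN hκ hκ1 hsep hδ2 i j)
  -- right-hand side
  have hrhs : ∑ i, (k ^ 2 - ‖ξ i‖ ^ 2) * ∫ x in cell Ω ξ c i, Real.exp (2 * ell ξ c i x) ≤
      ∑ q, (N q : ℝ) ^ n * ((p q).Dp * m q) := by
    rw [← sum_const_idx N (fun q => (p q).Dp * m q)]
    refine Finset.sum_le_sum fun i _ => ?_
    rw [hc i]
    exact mul_le_mul_of_nonneg_right ((hok i.1).Dp_ge _ (hmem i)) (hm0 i.1).le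
  -- left-hand side
  set Ex : ℝ := Real.exp (-(2 * a * (Real.sqrt n * η))) with hEx
  have hT0 : 0 ≤ 2 * a * (Real.sqrt n * η) := by positivity
  have hEx1 : Ex ≤ 1 := Real.exp_le_one_iff.2 (by linarith)
  have hEx0 : 0 < Ex := Real.exp_pos _
  set wd : (q : P) → Fin n → (Fin n → Fin (N q)) → ℝ := fun q l t =>
    if (∃ x ∈ cell (closure Ω) ξ c ⟨q, t⟩, ∃ y ∈ cell (closure Ω) ξ c ⟨q, t⟩,
      η ≤ inner ℝ ((p q).b l) (y - x)) then 1 else 0 with hwd
  have hwd0 : ∀ q l t, 0 ≤ wd q l t := by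
    intro q l t
    rw [hwd]
    dsimp only
    split_ifs
    · exact zero_le_one
    · exact le_rfl
  have hwdsum : ∀ q l, ∑ t, wd q l t ≤ (N q : ℝ) ^ (n - 1) * (Δ / η) := by
    intro q l
    refine wide_count hWidth p hδ (closure Ω) hΔ hΔ0 c hη q (hN0 q) l (wd q l) ?_ ?_
    · intro t ht
      rw [hwd]
      exact if_pos ht
    · intro t ht
      rw [hwd]
      exact if_neg ht
  have hidx : ∀ i : Idx N n, κ * n * (p i.1).D * m i.1 * (Ex - ∑ l, wd i.1 l i.2) ≤
      κ * δ * n * ((∏ l, ((p i.1).lam l + ((n : ℝ) - 1) * e i)) ^ (1 / (n : ℝ)) *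
        (volume (cell Ω ξ c i)).toReal ^ (((n : ℝ) - 1) / n)) := by
    intro i
    have hprod0 : 0 ≤ ∏ l, ((p i.1).lam l + ((n : ℝ) - 1) * e i) := by
      refine Finset.prod_nonneg fun l _ => ?_
      have h1 := (hok i.1).lam_pos l
      have h2 : 0 ≤ ((n : ℝ) - 1) * e i := mul_nonneg (by linarith) (he0 i).le
      linarith
    have hR0 : 0 ≤ κ * δ * n * ((∏ l, ((p i.1).lam l + ((n : ℝ) - 1) * e i)) ^ (1 / (n : ℝ)) *
        (volume (cell Ω ξ c i)).toReal ^ (((n : ℝ) - 1) / n)) := by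
      have h1 := Real.rpow_nonneg hprod0 (1 / (n : ℝ))
      have h2 := Real.rpow_nonneg (ENNReal.toReal_nonneg (a := volume (cell Ω ξ c i)))
        (((n : ℝ) - 1) / n)
      positivity
    have hc1 : 0 ≤ κ * n * (p i.1).D * m i.1 := by
      have h1 := (hok i.1).D_nonneg
      have h2 := (hm0 i.1).le
      positivity
    by_cases hw : ∃ l, wd i.1 l i.2 = 1
    · obtain ⟨l, hl⟩ := hw
      refine le_trans ?_ hR0
      have h1 : wd i.1 l i.2 ≤ ∑ l, wd i.1 l i.2 :=
        Finset.single_le_sum (fun l _ => hwd0 i.1 l i.2) (Finset.mem_univ l)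
      rw [hl] at h1
      exact mul_nonpos_of_nonneg_of_nonpos hc1 (by linarith)
    · have hnw : ∀ l, ∀ x ∈ cell (closure Ω) ξ c i, ∀ y ∈ cell (closure Ω) ξ c i,
          inner ℝ ((p i.1).b l) (y - x) < η := by
        intro l x hx y hy
        by_contra hcon
        refine hw ⟨l, ?_⟩
        rw [hwd]
        exact if_pos ⟨x, hx, y, hy, not_lt.1 hcon⟩
      have h0 : ∑ l, wd i.1 l i.2 = 0 := by
        refine Finset.sum_eq_zero fun l _ => ?_
        rw [hwd]
        refine if_neg ?_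
        rintro ⟨x, hx, y, hy, hxy⟩
        exact absurd (hnw l x hx y hy) (not_lt.2 hxy)
      rw [h0, sub_zero]
      refine one_index hn hκ hδ (hok i.1).D_nonneg ENNReal.toReal_nonneg hprod0
        ((hok i.1).alg (e i) (he0 i)) rfl (hm0 i.1).le hT0 ?_
      rw [← hc i]
      refine mass_upper hdom.isOpen hdom.bdd ξ c i ?_
      intro x hx
      have hx' := cell_mono subset_closure ξ c i hx
      rw [he, ← Real.exp_add]
      refine Real.exp_le_exp.2 ?_
      have h3 := ell_lip ξ c i (hξa i) x (z i)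
      have h4 : ‖x - z i‖ ≤ Real.sqrt n * η := by
        have h5 : ‖x - z i‖ ^ 2 ≤ (Real.sqrt n * η) ^ 2 := by
          rw [← (p i.1).b.sum_sq_inner_right, mul_pow, Real.sq_sqrt (by positivity)]
          have h6 : ∀ l, (inner ℝ ((p i.1).b l) (x - z i)) ^ 2 ≤ η ^ 2 := by
            intro l
            have h7 := hnw l _ (hz i) _ hx'
            have h8 := hnw l _ hx' _ (hz i)
            have h9 : inner ℝ ((p i.1).b l) (z i - x) = - inner ℝ ((p i.1).b l) (x - z i) := by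
              rw [← neg_sub, inner_neg_right]
            rw [h9] at h8
            exact sq_le_sq' (by linarith) h7.le
          calc ∑ l, (inner ℝ ((p i.1).b l) (x - z i)) ^ 2 ≤ ∑ _l : Fin n, η ^ 2 :=
                Finset.sum_le_sum fun l _ => h6 l
            _ = n * η ^ 2 := by simp
        exact (pow_le_pow_iff_left₀ (norm_nonneg _) (by positivity) two_ne_zero).1 h5
      have h5 : a * ‖x - z i‖ ≤ a * (Real.sqrt n * η) := mul_le_mul_of_nonneg_left h4 ha.le
      linarith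
  have hlhs : ∑ q, κ * n * (p q).D * m q *
      (Ex * (N q : ℝ) ^ n - n * ((N q : ℝ) ^ (n - 1) * (Δ / η))) ≤
      κ * δ * n * ∑ i, (∏ l, ((p i.1).lam l + ((n : ℝ) - 1) * e i)) ^ (1 / (n : ℝ)) *
        (volume (cell Ω ξ c i)).toReal ^ (((n : ℝ) - 1) / n) := by
    rw [Finset.mul_sum]
    refine le_trans ?_ (Finset.sum_le_sum fun i _ => hidx i)
    rw [Fintype.sum_sigma]
    refine Finset.sum_le_sum fun q _ => ?_
    have hc1 : 0 ≤ κ * n * (p q).D * m q := by
      have h1 := (hok q).D_nonneg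
      have h2 := (hm0 q).le
      positivity
    dsimp only
    rw [← Finset.mul_sum]
    refine mul_le_mul_of_nonneg_left ?_ hc1
    rw [Finset.sum_sub_distrib]
    have h1 : ∑ _t : Fin n → Fin (N q), Ex = Ex * (N q : ℝ) ^ n := by
      simp [mul_comm]
    have h2 : ∑ t : Fin n → Fin (N q), ∑ l, wd q l t ≤ n * ((N q : ℝ) ^ (n - 1) * (Δ / η)) := by
      rw [Finset.sum_comm]
      calc ∑ l, ∑ t, wd q l t ≤ ∑ _l : Fin n, (N q : ℝ) ^ (n - 1) * (Δ / η) :=
            Finset.sum_le_sum fun l _ => hwdsum q l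
        _ = _ := by simp
    rw [h1]
    linarith
  refine hlhs.trans (main.trans ?_)
  have hn1 : 0 ≤ (n : ℝ) - 1 := by linarith
  have := mul_le_mul_of_nonneg_left hrhs hn1
  linarith

end Pool.Agent.ROB.Fix
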