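import Pool.Agent.ROB.Stmts

/-!
MP_7b7880_an: module LIP.  Bounded Lipschitz domains satisfy the Gauss-Green inequality with the
surface measure of their boundary.
-/

namespace Pool.Agent.ROB

open MeasureTheory Set
open scoped ContDiff ENNReal Topology Manifold

namespace Lip

variable {n : ℕ}

theorem dv_continuous {X : E n → E n} (hX : ContDiff ℝ 1 X) : Continuous (dv X) := by
  have h1 : Continuous (fderiv ℝ X) := hX.continuous_fderiv one_ne_zero
  let T : (E n →L[ℝ] E n) →ₗ[ℝ] ℝ :=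
    (LinearMap.trace ℝ (E n)).comp (ContinuousLinearMap.coeLM ℝ)
  have hT : Continuous T := LinearMap.continuous_of_finiteDimensional T
  exact hT.comp h1

theorem dv_sum {ι : Type*} (s : Finset ι) (Y : ι → E n → E n)
    (hY : ∀ i ∈ s, ContDiff ℝ 1 (Y i)) (X : E n → E n) (x : E n)
    (h : X =ᶠ[𝓝 x] fun z => ∑ i ∈ s, Y i z) : dv X x = ∑ i ∈ s, dv (Y i) x := by
  let T : (E n →L[ℝ] E n) →ₗ[ℝ] ℝ :=
    (LinearMap.trace ℝ (E n)).comp (ContinuousLinearMap.coeLM ℝ)
  have hT : ∀ Z : E n → E n, dv Z x = T (fderiv ℝ Z x) := fun Z => rfl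
  rw [hT, h.fderiv_eq, fderiv_fun_sum (fun i hi => (hY i hi).differentiable one_ne_zero x),
    map_sum]
  exact Finset.sum_congr rfl fun i _ => (hT _).symm

theorem dv_zero {Y : E n → E n} {x : E n} (hx : x ∉ tsupport Y) : dv Y x = 0 := by
  unfold dv
  rw [fderiv_of_notMem_tsupport (𝕜 := ℝ) hx]
  simp

theorem ind_zero {F : Type*} [Zero F] (S : Set (E n)) (f : E n → F) (x : E n) (h : f x = 0) :
    S.indicator f x = 0 := by
  by_cases hx : x ∈ S
  · rw [indicator_of_mem hx, h]
  · rw [indicator_of_notMem hx]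

/-- The set below the graph. -/
def sub (e : E n) (γ : E n → ℝ) : Set (E n) := {x | inner ℝ x e < γ x}

/-- The graph. -/
def gr (e : E n) (γ : E n → ℝ) : Set (E n) := {x | inner ℝ x e = γ x}

theorem isOpen_sub {e : E n} {γ : E n → ℝ} (hγ : Continuous γ) : IsOpen (sub e γ) :=
  isOpen_lt (continuous_id.inner continuous_const) hγ

theorem isClosed_gr {e : E n} {γ : E n → ℝ} (hγ : Continuous γ) : IsClosed (gr e γ) :=
  isClosed_eq (continuous_id.inner continuous_const) hγ

theorem frontier_chart {Ω : Set (E n)} (hΩ : IsOpen Ω) {x0 e : E n} {γ : E n → ℝ} {ε : ℝ}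
    (he : ‖e‖ = 1) (hγ : Continuous γ) (hinv : ∀ (y : E n) (t : ℝ), γ (y + t • e) = γ y)
    (hch : ∀ y ∈ Metric.ball x0 ε, (y ∈ Ω ↔ inner ℝ y e < γ y)) {y : E n}
    (hy : y ∈ Metric.ball x0 ε) : y ∈ frontier Ω ↔ y ∈ gr e γ := by
  rw [frontier, hΩ.interior_eq]
  constructor
  · rintro ⟨h1, h2⟩
    have h3 : γ y ≤ inner ℝ y e := by
      by_contra h
      exact h2 ((hch y hy).2 (not_le.1 h))
    have h4 : y ∈ closure (Ω ∩ Metric.ball x0 ε) := by
      have := Metric.isOpen_ball.inter_closure (t := Ω) (s := Metric.ball x0 ε)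
      have h5 := this ⟨hy, h1⟩
      rwa [inter_comm] at h5
    have h5 : closure (Ω ∩ Metric.ball x0 ε) ⊆ {z | inner ℝ z e ≤ γ z} := by
      apply closure_minimal
      · rintro z ⟨hz1, hz2⟩
        exact ((hch z hz2).1 hz1).le
      · exact isClosed_le (continuous_id.inner continuous_const) hγ
    exact le_antisymm (h5 h4) h3
  · intro h
    change inner ℝ y e = γ y at h
    refine ⟨?_, fun hyΩ => ?_⟩
    · rw [mem_closure_iff_seq_limit]
      have hlim : Filter.Tendsto (fun k : ℕ => y + (-(1 / ((k : ℝ) + 1))) • e) Filter.atTop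
          (𝓝 y) := by
        have h1 : Filter.Tendsto (fun k : ℕ => (1 / ((k : ℝ) + 1))) Filter.atTop (𝓝 0) :=
          tendsto_one_div_add_atTop_nhds_zero_nat
        have h2 := ((h1.neg).smul_const e).const_add y
        simpa using h2
      have hev : ∀ᶠ k : ℕ in Filter.atTop, y + (-(1 / ((k : ℝ) + 1))) • e ∈ Metric.ball x0 ε :=
        hlim.eventually (Metric.isOpen_ball.mem_nhds hy)
      obtain ⟨N, hN⟩ := Filter.eventually_atTop.1 hev
      refine ⟨fun k => y + (-(1 / (((k + N : ℕ) : ℝ) + 1))) • e, fun k => ?_, ?_⟩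
      · have hb := hN (k + N) (by omega)
        rw [hch _ hb, hinv, inner_add_left, inner_smul_left, real_inner_self_eq_norm_sq, he]
        have : (0 : ℝ) < 1 / (((k + N : ℕ) : ℝ) + 1) := by positivity
        simp only [conj_trivial]
        linarith
      · exact hlim.comp (Filter.tendsto_add_atTop_nat N)
    · have := (hch y hy).1 hyΩ
      linarith

theorem norm_nu {e : E n} {γ : E n → ℝ} (he : ‖e‖ = 1)
    (hinv : ∀ (y : E n) (t : ℝ), γ (y + t • e) = γ y) (x : E n) :
    ‖(1 / Real.sqrt (1 + ‖gradient γ x‖ ^ 2)) • (e - gradient γ x)‖ ≤ 1 := by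
  have h0 : inner ℝ (gradient γ x) e = 0 := by
    by_cases hd : DifferentiableAt ℝ γ x
    · have h1 : HasFDerivAt γ (fderiv ℝ γ x) x := hd.hasFDerivAt
      have h2 : HasDerivAt (fun t : ℝ => γ (x + t • e)) (fderiv ℝ γ x e) 0 := by
        have h3 : HasDerivAt (fun t : ℝ => x + t • e) e 0 := by
          simpa using ((hasDerivAt_id (0 : ℝ)).smul_const e).const_add x
        have h4 : HasFDerivAt γ (fderiv ℝ γ x) (x + (0 : ℝ) • e) := by simpa using h1
        exact h4.comp_hasDerivAt (0 : ℝ) h3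
      have h5 : (fun t : ℝ => γ (x + t • e)) = fun _ => γ x := by
        funext t; exact hinv x t
      rw [h5] at h2
      have h6 := h2.unique (hasDerivAt_const (0 : ℝ) (γ x))
      unfold gradient
      rw [InnerProductSpace.toDual_symm_apply]
      exact h6
    · have : gradient γ x = 0 := by
        unfold gradient
        rw [fderiv_zero_of_not_differentiableAt hd, map_zero]
      rw [this, inner_zero_left]
  have h1 : ‖e - gradient γ x‖ ^ 2 = 1 + ‖gradient γ x‖ ^ 2 := by
    rw [norm_sub_sq_real, real_inner_comm, h0, he]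
    ring
  have hpos : 0 < 1 + ‖gradient γ x‖ ^ 2 := by positivity
  have h2 : ‖e - gradient γ x‖ = Real.sqrt (1 + ‖gradient γ x‖ ^ 2) := by
    rw [← h1, Real.sqrt_sq (norm_nonneg _)]
  rw [norm_smul, h2, Real.norm_of_nonneg (by positivity)]
  have h3 : 0 < Real.sqrt (1 + ‖gradient γ x‖ ^ 2) := Real.sqrt_pos.2 hpos
  field_simp
  exact le_rfl

/-- The measure on the graph is finite on compact sets. -/
theorem finite_gr (H : Stmt_LGG) (hn : 2 ≤ n) {e : E n} {γ : E n → ℝ} {K : NNReal}
    (he : ‖e‖ = 1) (hγ : LipschitzWith K γ)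
    (hinv : ∀ (y : E n) (t : ℝ), γ (y + t • e) = γ y) :
    IsFiniteMeasureOnCompacts ((surf n).restrict (gr e γ)) := by
  refine ⟨fun C hC => ?_⟩
  obtain ⟨r, hr⟩ := hC.isBounded.subset_closedBall 0
  have h1 := (H n hn e γ K he hγ hinv).1 r
  rw [Measure.restrict_apply hC.isClosed.measurableSet]
  refine lt_of_le_of_lt (measure_mono ?_) h1
  rintro z ⟨hz1, hz2⟩
  exact ⟨hz2, hr hz1⟩

theorem chart_le (H : Stmt_LGG) (hn : 2 ≤ n) {Ω : Set (E n)} (hΩ : IsOpen Ω) {x0 e : E n}
    {γ : E n → ℝ} {K : NNReal} {ε : ℝ}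
    (he : ‖e‖ = 1) (hγ : LipschitzWith K γ)
    (hinv : ∀ (y : E n) (t : ℝ), γ (y + t • e) = γ y)
    (hch : ∀ y ∈ Metric.ball x0 ε, (y ∈ Ω ↔ inner ℝ y e < γ y))
    {Y : E n → E n} (hY : ContDiff ℝ 1 Y) (hs : tsupport Y ⊆ Metric.ball x0 ε) :
    ∫ x in Ω, dv Y x ≤ ∫ x in frontier Ω, ‖Y x‖ ∂(surf n) := by
  have hcs : HasCompactSupport Y :=
    Metric.isCompact_of_isClosed_isBounded (isClosed_tsupport Y)
      (Metric.isBounded_ball.subset hs)
  have hfin := finite_gr H hn he hγ hinv
  have h1 : ∫ x in Ω, dv Y x = ∫ x in sub e γ, dv Y x := by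
    rw [← integral_indicator hΩ.measurableSet,
      ← integral_indicator (isOpen_sub hγ.continuous).measurableSet]
    congr 1
    funext x
    by_cases hx : x ∈ tsupport Y
    · have hxb := hs hx
      by_cases hxΩ : x ∈ Ω
      · rw [indicator_of_mem hxΩ, indicator_of_mem (show x ∈ sub e γ from (hch x hxb).1 hxΩ)]
      · rw [indicator_of_notMem hxΩ,
          indicator_of_notMem (show x ∉ sub e γ from fun h => hxΩ ((hch x hxb).2 h))]
    · have hz := dv_zero hx
      rw [ind_zero _ _ _ hz, ind_zero _ _ _ hz]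
  have h2 := (H n hn e γ K he hγ hinv).2 Y hY hcs
  change ∫ x in sub e γ, dv Y x = ∫ x in gr e γ, _ ∂(surf n) at h2
  rw [h1, h2]
  have hint : Integrable (fun x => ‖Y x‖) ((surf n).restrict (gr e γ)) :=
    hY.continuous.norm.integrable_of_hasCompactSupport hcs.norm
  refine (le_trans (le_abs_self _) ?_ : _ ≤ ∫ x in gr e γ, ‖Y x‖ ∂(surf n)).trans (le_of_eq ?_)
  · rw [← Real.norm_eq_abs]
    refine norm_integral_le_of_norm_le hint (Filter.Eventually.of_forall fun x => ?_)
    refine (norm_inner_le_norm _ _).trans ?_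
    have := norm_nu he hinv x
    calc ‖Y x‖ * _ ≤ ‖Y x‖ * 1 := mul_le_mul_of_nonneg_left this (norm_nonneg _)
      _ = ‖Y x‖ := mul_one _
  · rw [← integral_indicator (isClosed_gr hγ.continuous).measurableSet,
      ← integral_indicator isClosed_frontier.measurableSet]
    congr 1
    funext x
    by_cases hx : x ∈ tsupport Y
    · have hxb := hs hx
      have := frontier_chart hΩ he hγ.continuous hinv hch hxb
      by_cases hxΩ : x ∈ frontier Ω
      · rw [indicator_of_mem hxΩ, indicator_of_mem (this.1 hxΩ)]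
      · rw [indicator_of_notMem hxΩ, indicator_of_notMem (fun h => hxΩ (this.2 h))]
    · have hz : ‖Y x‖ = 0 := by rw [image_eq_zero_of_notMem_tsupport hx, norm_zero]
      rw [ind_zero _ (fun x => ‖Y x‖) _ hz, ind_zero _ (fun x => ‖Y x‖) _ hz]

theorem interior_le (H : Stmt_LGG) (hn : 2 ≤ n) {Ω : Set (E n)} (hΩ : IsOpen Ω)
    (hb : Bornology.IsBounded Ω)
    {Y : E n → E n} (hY : ContDiff ℝ 1 Y) (hs : tsupport Y ⊆ Ω) :
    ∫ x in Ω, dv Y x = 0 := by
  have hcs : HasCompactSupport Y :=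
    Metric.isCompact_of_isClosed_isBounded (isClosed_tsupport Y) (hb.subset hs)
  obtain ⟨r, hr⟩ := hb.subset_ball 0
  let e : E n := EuclideanSpace.single ⟨0, by omega⟩ 1
  have he : ‖e‖ = 1 := by simp [e]
  have hγ : LipschitzWith 0 (fun _ : E n => r) := LipschitzWith.const r
  have hin : ∀ x ∈ Ω, inner ℝ x e < r := by
    intro x hx
    have h1 := hr hx
    rw [mem_ball_zero_iff] at h1
    calc inner ℝ x e ≤ ‖x‖ * ‖e‖ := real_inner_le_norm _ _
      _ = ‖x‖ := by rw [he, mul_one]
      _ < r := h1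
  have h2 := (H n hn e (fun _ => r) 0 he hγ (fun _ _ => rfl)).2 Y hY hcs
  change ∫ x in sub e (fun _ => r), dv Y x = ∫ x in gr e (fun _ => r), _ ∂(surf n) at h2
  have h1 : ∫ x in Ω, dv Y x = ∫ x in sub e (fun _ => r), dv Y x := by
    rw [← integral_indicator hΩ.measurableSet,
      ← integral_indicator (isOpen_sub hγ.continuous).measurableSet]
    congr 1
    funext x
    by_cases hx : x ∈ tsupport Y
    · have hxΩ := hs hx
      rw [indicator_of_mem hxΩ, indicator_of_mem (show x ∈ sub e (fun _ => r) from hin x hxΩ)]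
    · have hz := dv_zero hx
      rw [ind_zero _ _ _ hz, ind_zero _ _ _ hz]
  rw [h1, h2]
  refine setIntegral_eq_zero_of_forall_eq_zero fun x hx => ?_
  have hx' : x ∉ tsupport Y := by
    intro h
    have h3 := hin x (hs h)
    have h4 : inner ℝ x e = r := hx
    linarith
  rw [image_eq_zero_of_notMem_tsupport hx', inner_zero_left]

end Lip

open Lip in
theorem lip_proof (H : Stmt_LGG) : Stmt_Lip := by
  intro n hn Ω hL
  have hΩ := hL.isOpen
  have hcl : IsCompact (closure Ω) := hL.bdd.isCompact_closure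
  have hfr : IsCompact (frontier Ω) :=
    hcl.of_isClosed_subset isClosed_frontier frontier_subset_closure
  choose! e γ K ε he hγ hinv hε hch using hL.chart
  -- finiteness
  have hfinite : surf n (frontier Ω) < ⊤ := by
    refine hfr.measure_lt_top_of_nhdsWithin fun x hx => ?_
    refine ⟨frontier Ω ∩ Metric.ball x (ε x), inter_mem_nhdsWithin _
      (Metric.ball_mem_nhds x (hε x hx)), ?_⟩
    have hfin := finite_gr H hn (he x hx) (hγ x hx) (hinv x hx)
    have h1 : ((surf n).restrict (gr (e x) (γ x))) (Metric.closedBall x (ε x)) < ⊤ :=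
      (isCompact_closedBall x (ε x)).measure_lt_top
    rw [Measure.restrict_apply Metric.isClosed_closedBall.measurableSet] at h1
    refine lt_of_le_of_lt (measure_mono ?_) h1
    rintro z ⟨hz1, hz2⟩
    exact ⟨Metric.ball_subset_closedBall hz2,
      (frontier_chart hΩ (he x hx) (hγ x hx).continuous (hinv x hx) (hch x hx) hz2).1 hz1⟩
  have hfm : IsFiniteMeasure ((surf n).restrict (frontier Ω)) :=
    ⟨by rw [Measure.restrict_apply_univ]; exact hfinite⟩
  refine ⟨hΩ, hL.bdd, hL.conn.nonempty, hfm, ?_, ?_⟩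
  · rw [Measure.restrict_apply isClosed_closure.isOpen_compl.measurableSet]
    have : (closure Ω)ᶜ ∩ frontier Ω = ∅ := by
      ext z
      simp only [mem_inter_iff, mem_compl_iff, mem_empty_iff_false, iff_false, not_and]
      intro h1 h2
      exact h1 (frontier_subset_closure h2)
    rw [this, measure_empty]
  intro X hX
  -- partition of unity
  obtain ⟨t, ht⟩ := hfr.elim_finite_subcover
    (fun x : frontier Ω => Metric.ball (x : E n) (ε x)) (fun _ => Metric.isOpen_ball)
    (fun x hx => mem_iUnion.2 ⟨⟨x, hx⟩, Metric.mem_ball_self (hε x hx)⟩)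
  let U : Option {x // x ∈ t} → Set (E n) := fun i =>
    match i with
    | none => Ω
    | some j => Metric.ball (j.1 : E n) (ε j.1)
  have hUo : ∀ i, IsOpen (U i) := by
    rintro (_ | j)
    · exact hΩ
    · exact Metric.isOpen_ball
  have hUc : closure Ω ⊆ ⋃ i, U i := by
    intro x hx
    by_cases hxΩ : x ∈ Ω
    · exact mem_iUnion.2 ⟨none, hxΩ⟩
    · have hxf : x ∈ frontier Ω := by
        rw [frontier, hΩ.interior_eq]; exact ⟨hx, hxΩ⟩
      obtain ⟨j, hj, hxj⟩ := mem_iUnion₂.1 (ht hxf)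
      exact mem_iUnion.2 ⟨some ⟨j, hj⟩, hxj⟩
  obtain ⟨f, hf⟩ := SmoothPartitionOfUnity.exists_isSubordinate 𝓘(ℝ, E n) isClosed_closure U hUo hUc
  have hfs : ∀ x ∈ closure Ω, ∑ i, f i x = 1 := by
    intro x hx
    rw [← finsum_eq_sum_of_fintype]
    exact f.sum_eq_one hx
  let Y : Option {x // x ∈ t} → E n → E n := fun i x => f i x • X x
  have hfC : ∀ i, ContDiff ℝ 1 (f i) := fun i =>
    ((f i).contMDiff.contDiff).of_le (by exact_mod_cast le_top)
  have hYC : ∀ i, ContDiff ℝ 1 (Y i) := fun i => (hfC i).smul hX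
  have hYs : ∀ i, tsupport (Y i) ⊆ U i := fun i =>
    (tsupport_smul_subset_left (fun x => f i x) X).trans (hf i)
  have hloc : ∀ i, ∫ x in Ω, dv (Y i) x ≤ ∫ x in frontier Ω, ‖Y i x‖ ∂(surf n) := by
    rintro (_ | j)
    · rw [interior_le H hn hΩ hL.bdd (hYC none) (hYs none)]
      exact integral_nonneg fun x => norm_nonneg _
    · have hj : (j.1 : E n) ∈ frontier Ω := j.1.2
      exact chart_le H hn hΩ (he _ hj) (hγ _ hj) (hinv _ hj) (hch _ hj) (hYC (some j))
        (hYs (some j))
  have hsum : ∀ x ∈ Ω, dv X x = ∑ i, dv (Y i) x := by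
    intro x hx
    refine dv_sum Finset.univ Y (fun i _ => hYC i) X x ?_
    filter_upwards [hΩ.mem_nhds hx] with z hz
    simp only [Y]
    rw [← Finset.sum_smul, hfs z (subset_closure hz), one_smul]
  have hi1 : ∀ i, IntegrableOn (dv (Y i)) Ω volume := fun i =>
    ((dv_continuous (hYC i)).continuousOn.integrableOn_compact hcl).mono_set subset_closure
  have hi2 : ∀ i, Integrable (fun x => ‖Y i x‖) ((surf n).restrict (frontier Ω)) := by
    intro i
    have : IsFiniteMeasureOnCompacts ((surf n).restrict (frontier Ω)) := inferInstance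
    have h1 : IntegrableOn (fun x => ‖Y i x‖) (frontier Ω) ((surf n).restrict (frontier Ω)) :=
      (hYC i).continuous.norm.continuousOn.integrableOn_compact hfr
    rwa [IntegrableOn, Measure.restrict_restrict isClosed_frontier.measurableSet,
      inter_self] at h1
  calc ∫ x in Ω, dv X x = ∫ x in Ω, ∑ i, dv (Y i) x :=
        setIntegral_congr_fun hΩ.measurableSet hsum
    _ = ∑ i, ∫ x in Ω, dv (Y i) x := integral_finsetSum _ fun i _ => hi1 i
    _ ≤ ∑ i, ∫ x in frontier Ω, ‖Y i x‖ ∂(surf n) := Finset.sum_le_sum fun i _ => hloc i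
    _ = ∫ x in frontier Ω, ∑ i, ‖Y i x‖ ∂(surf n) := (integral_finsetSum _ fun i _ => hi2 i).symm
    _ = ∫ x in frontier Ω, ‖X x‖ ∂(surf n) := by
        refine setIntegral_congr_fun isClosed_frontier.measurableSet fun x hx => ?_
        simp only [Y, norm_smul]
        rw [← Finset.sum_mul]
        have : ∑ i, ‖f i x‖ = 1 := by
          rw [← hfs x (frontier_subset_closure hx)]
          refine Finset.sum_congr rfl fun i _ => ?_
          exact Real.norm_of_nonneg (f.nonneg i x)
        rw [this, one_mul]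

end Pool.Agent.ROB
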