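import Pool.Agent.ROB.Stmts

/-!
MP_7b7880_an, module D2 (SUBGG): divergence theorem on a Lipschitz subgraph in standard position.
-/

namespace Pool.Agent.ROB.SubGG

open MeasureTheory Set Metric Filter Topology
open scoped ContDiff ENNReal NNReal

variable {m : ℕ}

@[simp] theorem up_castSucc (y : E m) (t : ℝ) (i : Fin m) : up y t (Fin.castSucc i) = y i := by
  simp [up]

@[simp] theorem up_last (y : E m) (t : ℝ) : up y t (Fin.last m) = t := by
  simp [up]

@[simp] theorem low_apply (x : E (m + 1)) (i : Fin m) : low x i = x (Fin.castSucc i) := rfl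

@[simp] theorem low_up (y : E m) (t : ℝ) : low (up y t) = y := by
  ext i
  simp

theorem up_low (x : E (m + 1)) : up (low x) (x (Fin.last m)) = x := by
  ext i
  refine Fin.lastCases ?_ (fun i => ?_) i
  · simp
  · simp

theorem up_add (y y' : E m) (t t' : ℝ) : up (y + y') (t + t') = up y t + up y' t' := by
  ext i
  refine Fin.lastCases ?_ (fun i => ?_) i
  · simp
  · simp

theorem up_smul (c : ℝ) (y : E m) (t : ℝ) : up (c • y) (c * t) = c • up y t := by
  ext i
  refine Fin.lastCases ?_ (fun i => ?_) i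
  · simp
  · simp

/-- `up` as a linear map. -/
noncomputable def upL : (E m × ℝ) →L[ℝ] E (m + 1) :=
  LinearMap.toContinuousLinearMap
    { toFun := fun p => up p.1 p.2
      map_add' := fun _ _ => up_add _ _ _ _
      map_smul' := fun _ _ => up_smul _ _ _ }

@[simp] theorem upL_apply (p : E m × ℝ) : upL p = up p.1 p.2 := rfl

theorem up_continuous : Continuous fun p : E m × ℝ => up p.1 p.2 := (upL (m := m)).continuous

theorem low_continuous : Continuous (low (m := m)) := by
  unfold low
  refine (PiLp.continuous_toLp 2 _).comp (continuous_pi fun i => ?_)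
  fun_prop

theorem up_measurePreserving :
    MeasurePreserving (fun p : E m × ℝ => up p.1 p.2) (volume.prod volume) volume := by
  have h1 : MeasurePreserving (Prod.map (@WithLp.ofLp 2 (Fin m → ℝ)) (id : ℝ → ℝ))
      (volume.prod volume) (volume.prod volume) :=
    (PiLp.volume_preserving_ofLp (Fin m)).prod (MeasurePreserving.id volume)
  have h2 : MeasurePreserving (Prod.swap : (Fin m → ℝ) × ℝ → ℝ × (Fin m → ℝ))
      (volume.prod volume) (volume.prod volume) := Measure.measurePreserving_swap
  have h3 := (volume_preserving_piFinSuccAbove (fun _ : Fin (m + 1) => ℝ) (Fin.last m)).symm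
  have h4 := PiLp.volume_preserving_toLp (Fin (m + 1))
  have h := h4.comp (h3.comp (h2.comp h1))
  have e : (fun p : E m × ℝ => up p.1 p.2) = WithLp.toLp 2 ∘
      ⇑(MeasurableEquiv.piFinSuccAbove (fun _ : Fin (m + 1) => ℝ) (Fin.last m)).symm ∘
        Prod.swap ∘ Prod.map WithLp.ofLp id := by
    funext p
    simp only [Function.comp, Prod.map, id, Prod.swap, up,
      MeasurableEquiv.piFinSuccAbove_symm_apply]
    congr 1
    exact (Fin.insertNth_last' p.2 p.1.ofLp).symm
  rw [e]
  exact h


/-- The standard basis vectors. -/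
noncomputable def bv (i : Fin (m + 1)) : E (m + 1) := EuclideanSpace.single i 1

theorem up_single (i : Fin m) (c : ℝ) :
    up (EuclideanSpace.single i (1 : ℝ)) c = bv (Fin.castSucc i) + c • bv (Fin.last m) := by
  ext j
  refine Fin.lastCases ?_ (fun j => ?_) j
  · simp [bv, Ne.symm (Fin.castSucc_ne_last _)]
  · simp [bv, Fin.castSucc_ne_last]

theorem dv_eq (X : E (m + 1) → E (m + 1)) (x : E (m + 1)) :
    dv X x = ∑ i, (fderiv ℝ X x (bv i)) i := by
  unfold dv
  rw [LinearMap.trace_eq_matrix_trace ℝ (EuclideanSpace.basisFun (Fin (m + 1)) ℝ).toBasis,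
    Matrix.trace]
  refine Finset.sum_congr rfl fun i _ => ?_
  rw [Matrix.diag_apply, LinearMap.toMatrix_apply]
  simp [bv]

theorem compactSupport_slice {F : E (m + 1) → ℝ} (hF : HasCompactSupport F) (φ : E m → ℝ) :
    HasCompactSupport fun y => F (up y (φ y)) := by
  refine HasCompactSupport.intro (hF.isCompact.image (low_continuous (m := m))) fun y hy => ?_
  by_contra h
  refine hy ⟨up y (φ y), subset_tsupport _ h, low_up _ _⟩


theorem upL_lip : LipschitzWith ‖(upL (m := m))‖₊ (upL (m := m)) :=
  (upL (m := m)).lipschitz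

theorem graph_lip {γ : E m → ℝ} {K : ℝ≥0} (hγ : LipschitzWith K γ) (s : ℝ) :
    LipschitzWith (max 1 K) fun y : E m => (y, s + γ y) := by
  refine LipschitzWith.id.prodMk ?_
  intro y y'
  rw [edist_add_left]
  exact hγ y y'

theorem exists_lip {f : E (m + 1) → ℝ} (hf : ContDiff ℝ 1 f) (hc : HasCompactSupport f) :
    ∃ C : ℝ≥0, LipschitzWith C f :=
  ContDiff.lipschitzWith_of_hasCompactSupport hc hf (by simp)

theorem slice_lip {γ : E m → ℝ} {K : ℝ≥0} (hγ : LipschitzWith K γ)
    {f : E (m + 1) → ℝ} (hf : ContDiff ℝ 1 f) (hcs : HasCompactSupport f) (s : ℝ) :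
    ∃ C : ℝ≥0, LipschitzWith C fun y : E m => f (up y (s + γ y)) := by
  obtain ⟨C, hC⟩ := exists_lip hf hcs
  have h1 := (upL_lip (m := m)).comp (graph_lip hγ s)
  have h2 := hC.comp h1
  exact ⟨_, h2⟩

theorem slice_deriv {γ : E m → ℝ} {f : E (m + 1) → ℝ} (hf : ContDiff ℝ 1 f) (s : ℝ) (i : Fin m)
    {y : E m} (hy : DifferentiableAt ℝ γ y) :
    lineDeriv ℝ (fun y : E m => f (up y (s + γ y))) y (EuclideanSpace.single i 1) =
      fderiv ℝ f (up y (s + γ y)) (bv (Fin.castSucc i)) +
      fderiv ℝ γ y (EuclideanSpace.single i 1) *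
        fderiv ℝ f (up y (s + γ y)) (bv (Fin.last m)) := by
  have h1 : HasFDerivAt (fun y : E m => (y, s + γ y))
      ((ContinuousLinearMap.id ℝ (E m)).prod (fderiv ℝ γ y)) y := by
    refine (hasFDerivAt_id y).prodMk ?_
    exact hy.hasFDerivAt.const_add s
  have h2 : HasFDerivAt (fun y : E m => up y (s + γ y))
      ((upL (m := m)).comp ((ContinuousLinearMap.id ℝ (E m)).prod (fderiv ℝ γ y))) y :=
    (upL (m := m)).hasFDerivAt.comp y h1
  have h3 : HasFDerivAt (fun y : E m => f (up y (s + γ y))) ((fderiv ℝ f (up y (s + γ y))).comp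
      ((upL (m := m)).comp ((ContinuousLinearMap.id ℝ (E m)).prod (fderiv ℝ γ y)))) y :=
    ((hf.differentiable (by simp)).differentiableAt.hasFDerivAt).comp y h2
  rw [h3.differentiableAt.lineDeriv_eq_fderiv, h3.fderiv]
  simp only [ContinuousLinearMap.comp_apply, ContinuousLinearMap.prod_apply,
    ContinuousLinearMap.id_apply, upL_apply, up_single, map_add, map_smul, smul_eq_mul]

theorem integral_lineDeriv_zero {Z : E m → ℝ} {C : ℝ≥0} (hZl : LipschitzWith C Z)
    (hZc : HasCompactSupport Z) (v : E m) : ∫ y, lineDeriv ℝ Z y v = 0 := by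
  have key := LipschitzWith.integral_lineDeriv_mul_eq (μ := (volume : Measure (E m)))
    (LipschitzWith.const (1 : ℝ)) hZl hZc (-v)
  simp only [neg_neg, mul_one] at key
  have h0 : ∀ (y w : E m), lineDeriv ℝ (fun _ : E m => (1 : ℝ)) y w = 0 := by
    intro y w
    simp [lineDeriv]
  simp only [h0, zero_mul, integral_zero] at key
  exact key.symm

/-- The slice. -/
theorem slice_integral (i : Fin m) {γ : E m → ℝ} {K : ℝ≥0} (hγ : LipschitzWith K γ)
    {f : E (m + 1) → ℝ} (hf : ContDiff ℝ 1 f) (hc : HasCompactSupport f) (s : ℝ) :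
    ∫ y : E m, (fderiv ℝ f (up y (s + γ y)) (bv (Fin.castSucc i)) +
      fderiv ℝ γ y (EuclideanSpace.single i 1) *
        fderiv ℝ f (up y (s + γ y)) (bv (Fin.last m))) = 0 := by
  obtain ⟨C, hC⟩ := slice_lip hγ hf hc s
  have hZc := compactSupport_slice hc fun y => s + γ y
  rw [← integral_lineDeriv_zero hC hZc (EuclideanSpace.single i 1)]
  refine integral_congr_ae ?_
  filter_upwards [hγ.ae_differentiableAt] with y hy
  exact (slice_deriv hf s i hy).symm


theorem slice_integrable {γ : E m → ℝ} (hγ : Continuous γ) {h : E (m + 1) → ℝ}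
    (hh : Continuous h) (hc : HasCompactSupport h) :
    Integrable (fun p : E m × ℝ => h (up p.1 (p.2 + γ p.1))) (volume.prod volume) := by
  have hcont : Continuous fun p : E m × ℝ => h (up p.1 (p.2 + γ p.1)) :=
    hh.comp (up_continuous.comp (continuous_fst.prodMk
      (continuous_snd.add (hγ.comp continuous_fst))))
  have hcl : Continuous fun x : E (m + 1) => (low x, x (Fin.last m) - γ (low x)) :=
    low_continuous.prodMk (((by fun_prop : Continuous fun x : E (m + 1) => x (Fin.last m))).sub
      (hγ.comp low_continuous))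
  refine hcont.integrable_of_hasCompactSupport ?_
  refine HasCompactSupport.intro (hc.isCompact.image hcl) fun p hp => ?_
  by_contra hne
  refine hp ⟨up p.1 (p.2 + γ p.1), subset_tsupport _ hne, ?_⟩
  simp

theorem prod_restrict_eq :
    (volume : Measure (E m)).prod ((volume : Measure ℝ).restrict (Iio 0)) =
      ((volume : Measure (E m)).prod (volume : Measure ℝ)).restrict (univ ×ˢ Iio 0) := by
  rw [← Measure.prod_restrict, Measure.restrict_univ]

theorem subgraph_integral {γ : E m → ℝ} (hγ : Continuous γ) {h : E (m + 1) → ℝ}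
    (hh : Continuous h) (hc : HasCompactSupport h) :
    ∫ x in {x : E (m + 1) | x (Fin.last m) < γ (low x)}, h x =
      ∫ y : E m, ∫ s in Iio (0 : ℝ), h (up y (s + γ y)) := by
  set T : Set (E (m + 1)) := {x : E (m + 1) | x (Fin.last m) < γ (low x)} with hT
  have hTo : IsOpen T := isOpen_lt (by fun_prop) (hγ.comp low_continuous)
  have hi : Integrable h := hh.integrable_of_hasCompactSupport hc
  have hmeas : Measurable fun p : E m × ℝ => up p.1 p.2 := up_continuous.measurable
  rw [← integral_indicator hTo.measurableSet]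
  have e1 : ∫ x, T.indicator h x =
      ∫ p : E m × ℝ, T.indicator h (up p.1 p.2) ∂(volume.prod volume) := by
    conv_lhs => rw [← (up_measurePreserving (m := m)).map_eq]
    rw [integral_map hmeas.aemeasurable]
    exact (hh.measurable.indicator hTo.measurableSet).aestronglyMeasurable
  have hint : Integrable (fun p : E m × ℝ => T.indicator h (up p.1 p.2))
      (volume.prod volume) := by
    have := (up_measurePreserving (m := m)).integrable_comp_of_integrable
      (hi.indicator hTo.measurableSet)
    exact this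
  rw [e1, integral_prod _ hint]
  refine integral_congr_ae (Eventually.of_forall fun y => ?_)
  change ∫ t, T.indicator h (up y t) = ∫ s in Iio (0 : ℝ), h (up y (s + γ y))
  rw [← integral_indicator measurableSet_Iio,
    ← integral_add_right_eq_self (fun t => T.indicator h (up y t)) (γ y)]
  refine integral_congr_ae (Eventually.of_forall fun s => ?_)
  change T.indicator h (up y (s + γ y)) = (Iio (0 : ℝ)).indicator (fun s => h (up y (s + γ y))) s
  by_cases hs : s < 0
  · rw [indicator_of_mem (show s ∈ Iio (0 : ℝ) from hs), indicator_of_mem]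
    change up y (s + γ y) (Fin.last m) < γ (low (up y (s + γ y)))
    rw [up_last, low_up]
    linarith
  · rw [indicator_of_notMem (show s ∉ Iio (0 : ℝ) from hs), indicator_of_notMem]
    change ¬ (up y (s + γ y) (Fin.last m) < γ (low (up y (s + γ y))))
    rw [up_last, low_up]
    linarith

theorem vertical {f : E (m + 1) → ℝ} (hf : ContDiff ℝ 1 f) (hc : HasCompactSupport f)
    (y : E m) (c : ℝ) :
    ∫ s in Iio (0 : ℝ), fderiv ℝ f (up y (s + c)) (bv (Fin.last m)) = f (up y c) := by
  have hline : ∀ s : ℝ, HasDerivAt (fun s : ℝ => up y (s + c)) (bv (Fin.last m)) s := by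
    intro s
    have h1 : HasDerivAt (fun s : ℝ => (y, s + c)) ((0 : E m), (1 : ℝ)) s :=
      (hasDerivAt_const s y).prodMk ((hasDerivAt_id s).add_const c)
    have h2 := (upL (m := m)).hasFDerivAt.comp_hasDerivAt s h1
    have e : upL (m := m) ((0 : E m), (1 : ℝ)) = bv (Fin.last m) := by
      ext j
      refine Fin.lastCases ?_ (fun j => ?_) j
      · simp [bv]
      · simp [bv, Fin.castSucc_ne_last]
    rw [e] at h2
    exact h2
  have hd : ∀ s : ℝ, HasDerivAt (fun s : ℝ => f (up y (s + c)))
      (fderiv ℝ f (up y (s + c)) (bv (Fin.last m))) s := fun s =>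
    ((hf.differentiable (by simp)).differentiableAt.hasFDerivAt).comp_hasDerivAt s (hline s)
  have hcl : ContDiff ℝ 1 fun s : ℝ => up y (s + c) :=
    (upL (m := m)).contDiff.comp (contDiff_const.prodMk (contDiff_id.add contDiff_const))
  have hcd : ContDiff ℝ 1 fun s : ℝ => f (up y (s + c)) := hf.comp hcl
  have hcomp : HasCompactSupport fun s : ℝ => f (up y (s + c)) := by
    have hcc : Continuous fun x : E (m + 1) => x (Fin.last m) - c := by fun_prop
    refine HasCompactSupport.intro (hc.isCompact.image hcc) fun s hs => ?_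
    by_contra hne
    refine hs ⟨up y (s + c), subset_tsupport _ hne, ?_⟩
    simp
  have key := HasCompactSupport.integral_Iic_deriv_eq hcd hcomp 0
  rw [integral_Iic_eq_integral_Iio] at key
  simp only [zero_add] at key
  rw [← key]
  refine setIntegral_congr_fun measurableSet_Iio fun s _ => ?_
  exact (hd s).deriv.symm

theorem horizontal (i : Fin m) {γ : E m → ℝ} {K : ℝ≥0} (hγ : LipschitzWith K γ)
    {f : E (m + 1) → ℝ} (hf : ContDiff ℝ 1 f) (hc : HasCompactSupport f) :
    ∫ y : E m, ∫ s in Iio (0 : ℝ), fderiv ℝ f (up y (s + γ y)) (bv (Fin.castSucc i)) =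
      ∫ y : E m, -(fderiv ℝ γ y (EuclideanSpace.single i 1) * f (up y (γ y))) := by
  have hA : Integrable (fun p : E m × ℝ => fderiv ℝ f (up p.1 (p.2 + γ p.1))
      (bv (Fin.castSucc i))) (volume.prod volume) :=
    slice_integrable (h := fun x => fderiv ℝ f x (bv (Fin.castSucc i))) hγ.continuous
      ((hf.continuous_fderiv (by simp)).clm_apply continuous_const) (hc.fderiv_apply ℝ _)
  have hB : Integrable (fun p : E m × ℝ => fderiv ℝ f (up p.1 (p.2 + γ p.1))
      (bv (Fin.last m))) (volume.prod volume) :=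
    slice_integrable (h := fun x => fderiv ℝ f x (bv (Fin.last m))) hγ.continuous
      ((hf.continuous_fderiv (by simp)).clm_apply continuous_const) (hc.fderiv_apply ℝ _)
  have hBm : Integrable (fun p : E m × ℝ => fderiv ℝ γ p.1 (EuclideanSpace.single i 1) *
      fderiv ℝ f (up p.1 (p.2 + γ p.1)) (bv (Fin.last m))) (volume.prod volume) := by
    refine hB.bdd_mul (c := K) ?_ ?_
    · exact ((measurable_fderiv_apply_const ℝ γ _).comp measurable_fst).aestronglyMeasurable
    · refine Eventually.of_forall fun p => ?_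
      refine ((fderiv ℝ γ p.1).le_opNorm _).trans ?_
      have h1 : ‖(EuclideanSpace.single i (1 : ℝ) : E m)‖ = 1 := by simp
      rw [h1, mul_one]
      exact norm_fderiv_le_of_lipschitz ℝ hγ
  have hA' : Integrable (fun p : E m × ℝ => fderiv ℝ f (up p.1 (p.2 + γ p.1))
      (bv (Fin.castSucc i))) (volume.prod (volume.restrict (Iio 0))) := by
    rw [prod_restrict_eq]
    exact hA.restrict
  have hB' : Integrable (fun p : E m × ℝ => fderiv ℝ γ p.1 (EuclideanSpace.single i 1) *
      fderiv ℝ f (up p.1 (p.2 + γ p.1)) (bv (Fin.last m)))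
      (volume.prod (volume.restrict (Iio 0))) := by
    rw [prod_restrict_eq]
    exact hBm.restrict
  have hsum : ∫ y : E m, ∫ s in Iio (0 : ℝ), (fderiv ℝ f (up y (s + γ y))
      (bv (Fin.castSucc i)) + fderiv ℝ γ y (EuclideanSpace.single i 1) *
        fderiv ℝ f (up y (s + γ y)) (bv (Fin.last m))) = 0 := by
    rw [integral_integral_swap (hA'.add hB')]
    have h0 : ∀ s : ℝ, ∫ y : E m, (fderiv ℝ f (up y (s + γ y))
      (bv (Fin.castSucc i)) + fderiv ℝ γ y (EuclideanSpace.single i 1) *
        fderiv ℝ f (up y (s + γ y)) (bv (Fin.last m))) = 0 := slice_integral i hγ hf hc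
    simp only [h0, integral_zero]
  have hsplit : ∫ y : E m, ∫ s in Iio (0 : ℝ), (fderiv ℝ f (up y (s + γ y))
      (bv (Fin.castSucc i)) + fderiv ℝ γ y (EuclideanSpace.single i 1) *
        fderiv ℝ f (up y (s + γ y)) (bv (Fin.last m))) =
      (∫ y : E m, ∫ s in Iio (0 : ℝ), fderiv ℝ f (up y (s + γ y)) (bv (Fin.castSucc i))) +
      ∫ y : E m, ∫ s in Iio (0 : ℝ), fderiv ℝ γ y (EuclideanSpace.single i 1) *
        fderiv ℝ f (up y (s + γ y)) (bv (Fin.last m)) :=
    integral_integral_add hA' hB'
  rw [hsplit] at hsum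
  have hlast : ∫ y : E m, fderiv ℝ γ y (EuclideanSpace.single i 1) * f (up y (γ y)) =
      ∫ y : E m, ∫ s in Iio (0 : ℝ), fderiv ℝ γ y (EuclideanSpace.single i 1) *
        fderiv ℝ f (up y (s + γ y)) (bv (Fin.last m)) := by
    refine integral_congr_ae (Eventually.of_forall fun y => ?_)
    change _ = ∫ s in Iio (0 : ℝ), fderiv ℝ γ y (EuclideanSpace.single i 1) *
        fderiv ℝ f (up y (s + γ y)) (bv (Fin.last m))
    rw [integral_const_mul, vertical hf hc]
  rw [integral_neg]
  linarith


theorem comp_fderiv {X : E (m + 1) → E (m + 1)} (hX : ContDiff ℝ 1 X) (i : Fin (m + 1))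
    (x v : E (m + 1)) : fderiv ℝ (fun x => X x i) x v = (fderiv ℝ X x v) i := by
  have h1 : HasFDerivAt (fun x => X x i)
      ((EuclideanSpace.proj i : E (m + 1) →L[ℝ] ℝ).comp (fderiv ℝ X x)) x :=
    (EuclideanSpace.proj i : E (m + 1) →L[ℝ] ℝ).hasFDerivAt.comp x
      ((hX.differentiable (by simp)).differentiableAt.hasFDerivAt)
  rw [h1.fderiv]
  rfl

theorem comp_contDiff {X : E (m + 1) → E (m + 1)} (hX : ContDiff ℝ 1 X) (i : Fin (m + 1)) :
    ContDiff ℝ 1 fun x => X x i :=
  (EuclideanSpace.proj i : E (m + 1) →L[ℝ] ℝ).contDiff.comp hX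

theorem comp_compact {X : E (m + 1) → E (m + 1)} (hX : HasCompactSupport X) (i : Fin (m + 1)) :
    HasCompactSupport fun x => X x i :=
  hX.comp_left (g := fun v : E (m + 1) => v i) rfl

theorem gradient_apply {γ : E m → ℝ} (y : E m) (i : Fin m) :
    (gradient γ y) i = fderiv ℝ γ y (EuclideanSpace.single i 1) := by
  have h1 : inner ℝ (gradient γ y) (EuclideanSpace.single i (1 : ℝ)) =
      fderiv ℝ γ y (EuclideanSpace.single i 1) := by
    unfold gradient
    rw [InnerProductSpace.toDual_symm_apply]
  rw [← h1, EuclideanSpace.inner_single_right]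
  simp

theorem integral_sum_add {α : Type*} [MeasurableSpace α] (μ : Measure α) (F : Fin m → α → ℝ)
    (G : α → ℝ) (hF : ∀ i, Integrable (F i) μ) (hG : Integrable G μ) :
    ∫ x, ((∑ i, F i x) + G x) ∂μ = (∑ i, ∫ x, F i x ∂μ) + ∫ x, G x ∂μ := by
  rw [integral_add (integrable_finsetSum _ fun i _ => hF i) hG,
    integral_finsetSum _ fun i _ => hF i]

end Pool.Agent.ROB.SubGG

namespace Pool.Agent.ROB

open MeasureTheory Set Filter Topology SubGG

theorem subGG_proof : Stmt_SubGG := by
  intro m _hm γ K hγ X hX hc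
  have hdv : ∀ x, dv X x = (∑ i : Fin m, fderiv ℝ (fun x => X x (Fin.castSucc i)) x
      (bv (Fin.castSucc i))) + fderiv ℝ (fun x => X x (Fin.last m)) x (bv (Fin.last m)) := by
    intro x
    rw [dv_eq, Fin.sum_univ_castSucc]
    simp only [comp_fderiv hX]
  have hcf : ∀ i j : Fin (m + 1), Continuous fun x => fderiv ℝ (fun x => X x i) x (bv j) :=
    fun i j => ((comp_contDiff hX i).continuous_fderiv (by simp)).clm_apply continuous_const
  have hcs : ∀ i j : Fin (m + 1), HasCompactSupport fun x => fderiv ℝ (fun x => X x i) x (bv j) :=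
    fun i j => (comp_compact hc i).fderiv_apply ℝ _
  simp only [hdv]
  have hint : ∀ i j : Fin (m + 1), Integrable fun x => fderiv ℝ (fun x => X x i) x (bv j) :=
    fun i j => (hcf i j).integrable_of_hasCompactSupport (hcs i j)
  rw [integral_sum_add (volume.restrict {x : E (m + 1) | x (Fin.last m) < γ (low x)})
    (fun (i : Fin m) x => fderiv ℝ (fun x => X x (Fin.castSucc i)) x (bv (Fin.castSucc i)))
    (fun x => fderiv ℝ (fun x => X x (Fin.last m)) x (bv (Fin.last m)))
    (fun i => (hint _ _).restrict) (hint _ _).restrict]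
  have h1 : ∀ i : Fin m, ∫ x in {x : E (m + 1) | x (Fin.last m) < γ (low x)},
      fderiv ℝ (fun x => X x (Fin.castSucc i)) x (bv (Fin.castSucc i)) =
      ∫ y : E m, -(fderiv ℝ γ y (EuclideanSpace.single i 1) *
        X (up y (γ y)) (Fin.castSucc i)) := by
    intro i
    rw [subgraph_integral hγ.continuous (hcf _ _) (hcs _ _),
      horizontal i hγ (comp_contDiff hX _) (comp_compact hc _)]
  have h2 : ∫ x in {x : E (m + 1) | x (Fin.last m) < γ (low x)},
      fderiv ℝ (fun x => X x (Fin.last m)) x (bv (Fin.last m)) =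
      ∫ y : E m, X (up y (γ y)) (Fin.last m) := by
    rw [subgraph_integral hγ.continuous (hcf _ _) (hcs _ _)]
    refine integral_congr_ae (Eventually.of_forall fun y => ?_)
    exact vertical (comp_contDiff hX _) (comp_compact hc _) y (γ y)
  rw [h2, Finset.sum_congr rfl fun i _ => h1 i]
  have hXi : ∀ i : Fin (m + 1), Integrable fun y : E m => X (up y (γ y)) i := by
    intro i
    refine Continuous.integrable_of_hasCompactSupport ?_ (compactSupport_slice
      (comp_compact hc i) γ)
    exact (comp_contDiff hX i).continuous.comp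
      (up_continuous.comp (continuous_id.prodMk hγ.continuous))
  have hXi' : ∀ i : Fin m, Integrable fun y : E m =>
      -(fderiv ℝ γ y (EuclideanSpace.single i 1) * X (up y (γ y)) (Fin.castSucc i)) := by
    intro i
    refine ((hXi _).bdd_mul (c := K) ?_ ?_).neg
    · exact (measurable_fderiv_apply_const ℝ γ _).aestronglyMeasurable
    · refine Eventually.of_forall fun p => ?_
      refine ((fderiv ℝ γ p).le_opNorm _).trans ?_
      have h1 : ‖(EuclideanSpace.single i (1 : ℝ) : E m)‖ = 1 := by simp
      rw [h1, mul_one]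
      exact norm_fderiv_le_of_lipschitz ℝ hγ
  rw [← integral_sum_add volume (fun (i : Fin m) (y : E m) =>
    -(fderiv ℝ γ y (EuclideanSpace.single i 1) * X (up y (γ y)) (Fin.castSucc i)))
    (fun y => X (up y (γ y)) (Fin.last m)) hXi' (hXi _)]
  refine integral_congr_ae (Eventually.of_forall fun y => ?_)
  change _ = inner ℝ (X (up y (γ y))) (up (-(gradient γ y)) 1)
  rw [PiLp.inner_apply, Fin.sum_univ_castSucc]
  simp only [up_castSucc, up_last, PiLp.neg_apply, gradient_apply]
  congr 1
  · refine Finset.sum_congr rfl fun i _ => ?_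
    simp [mul_comm]
  · simp

end Pool.Agent.ROB
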