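import Pool.Agent.ROB.Statement
import Pool.Agent.ROB.SubGG

/-!
MP_7b7880_an: the main theorem.
-/

namespace Pool.Agent.ROB

open MeasureTheory Set

theorem main (n : ℕ) (hn : 2 ≤ n) (Ω : Set (E n)) (hΩ : IsLipDomain Ω) (α : ℝ) (hα : α < 0)
    (R : ℝ) (hR : 0 < R)
    (hS : (μHE[n - 1] : Measure (E n)) (frontier Ω) ≤ μHE[n - 1] (Metric.sphere (0 : E n) R)) :
    robinEigenvalue α Ω ≤ robinEigenvalue α (Metric.ball (0 : E n) R) := by
  rw [← robin_eq hn, ← robin_eq hn]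
  refine main_of_subGG subGG_proof n hn Ω hΩ α hα R hR ?_
  rw [surf_eq_muHE hn]
  exact hS

end Pool.Agent.ROB
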