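import Pool.Agent.ROB.Stmts

/-!
MP_7b7880_an: basic facts on the soft-max weights.
-/

namespace Pool.Agent.ROB

open MeasureTheory Set
open scoped ContDiff ENNReal

section

variable {n : ℕ} {ι : Type} [Fintype ι] (ξ : ι → E n) (c : ι → ℝ) (τ : ℝ)

omit [Fintype ι] in
theorem ell_contDiff {m : WithTop ℕ∞} (i : ι) : ContDiff ℝ m (ell ξ c i) := by
  unfold ell
  exact (contDiff_const.inner ℝ contDiff_id).sub contDiff_const

omit [Fintype ι] in
theorem ell_continuous (i : ι) : Continuous (ell ξ c i) :=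
  (ell_contDiff (m := 1) ξ c i).continuous

omit [Fintype ι] in
theorem ell_hasFDerivAt (i : ι) (x : E n) : HasFDerivAt (ell ξ c i) (innerSL ℝ (ξ i)) x := by
  have h := ((innerSL ℝ (ξ i)).hasFDerivAt (x := x)).sub_const (c i)
  exact h

theorem ZZ_pos [Nonempty ι] (x : E n) : 0 < ZZ ξ c τ x :=
  Finset.sum_pos (fun _ _ => Real.exp_pos _) Finset.univ_nonempty

theorem ZZ_contDiff {m : WithTop ℕ∞} : ContDiff ℝ m (ZZ ξ c τ) := by
  unfold ZZ
  exact ContDiff.sum fun i _ => Real.contDiff_exp.comp ((ell_contDiff ξ c i).div_const τ)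

theorem sp_pos [Nonempty ι] (i : ι) (x : E n) : 0 < sp ξ c τ i x :=
  div_pos (Real.exp_pos _) (ZZ_pos ξ c τ x)

theorem sp_sum [Nonempty ι] (x : E n) : ∑ i, sp ξ c τ i x = 1 := by
  unfold sp
  rw [← Finset.sum_div]
  exact div_self (ZZ_pos ξ c τ x).ne'

theorem sp_le_one [Nonempty ι] (i : ι) (x : E n) : sp ξ c τ i x ≤ 1 := by
  rw [← sp_sum ξ c τ x]
  exact Finset.single_le_sum (fun j _ => (sp_pos ξ c τ j x).le) (Finset.mem_univ i)

theorem sp_contDiff [Nonempty ι] {m : WithTop ℕ∞} (i : ι) : ContDiff ℝ m (sp ξ c τ i) := by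
  unfold sp
  exact (Real.contDiff_exp.comp ((ell_contDiff ξ c i).div_const τ)).div (ZZ_contDiff ξ c τ)
    fun x => (ZZ_pos ξ c τ x).ne'

theorem Psi_contDiff [Nonempty ι] {m : WithTop ℕ∞} : ContDiff ℝ m (Psi ξ c τ) := by
  unfold Psi
  exact contDiff_const.mul ((ZZ_contDiff ξ c τ).log fun x => (ZZ_pos ξ c τ x).ne')

theorem ell_le_Psi [Nonempty ι] (hτ : 0 < τ) (i : ι) (x : E n) : ell ξ c i x ≤ Psi ξ c τ x := by
  unfold Psi
  have h : Real.exp (ell ξ c i x / τ) ≤ ZZ ξ c τ x :=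
    Finset.single_le_sum (f := fun j => Real.exp (ell ξ c j x / τ))
      (fun j _ => (Real.exp_pos _).le) (Finset.mem_univ i)
  have h2 : ell ξ c i x / τ ≤ Real.log (ZZ ξ c τ x) :=
    (Real.le_log_iff_exp_le (ZZ_pos ξ c τ x)).2 h
  rw [div_le_iff₀ hτ] at h2
  linarith

/-- If `i` is a maximiser at `x`, then `Psi` exceeds `ell i` by at most `τ log #ι`. -/
theorem Psi_le_of_max [Nonempty ι] (hτ : 0 < τ) (i : ι) (x : E n)
    (hi : ∀ j, ell ξ c j x ≤ ell ξ c i x) :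
    Psi ξ c τ x ≤ ell ξ c i x + τ * Real.log (Fintype.card ι) := by
  unfold Psi
  have hcard : (0 : ℝ) < Fintype.card ι := by exact_mod_cast Fintype.card_pos
  have h : ZZ ξ c τ x ≤ (Fintype.card ι : ℝ) * Real.exp (ell ξ c i x / τ) := by
    unfold ZZ
    calc ∑ j, Real.exp (ell ξ c j x / τ) ≤ ∑ _j : ι, Real.exp (ell ξ c i x / τ) := by
          refine Finset.sum_le_sum fun j _ => Real.exp_le_exp.2 ?_
          exact div_le_div_of_nonneg_right (hi j) hτ.le
      _ = _ := by simp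
  have h2 : Real.log (ZZ ξ c τ x) ≤ Real.log (Fintype.card ι) + ell ξ c i x / τ := by
    calc Real.log (ZZ ξ c τ x) ≤ Real.log ((Fintype.card ι : ℝ) * Real.exp (ell ξ c i x / τ)) :=
          Real.log_le_log (ZZ_pos ξ c τ x) h
      _ = _ := by rw [Real.log_mul hcard.ne' (Real.exp_pos _).ne', Real.log_exp]
  have h3 : τ * Real.log (ZZ ξ c τ x) ≤ τ * (Real.log (Fintype.card ι) + ell ξ c i x / τ) :=
    mul_le_mul_of_nonneg_left h2 hτ.le
  have h4 : τ * (ell ξ c i x / τ) = ell ξ c i x := by field_simp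
  linarith [h3, h4, mul_add τ (Real.log (Fintype.card ι)) (ell ξ c i x / τ)]

theorem sp_le_exp [Nonempty ι] (i j : ι) (x : E n) :
    sp ξ c τ i x ≤ Real.exp ((ell ξ c i x - ell ξ c j x) / τ) := by
  unfold sp
  rw [div_le_iff₀ (ZZ_pos ξ c τ x), sub_div, Real.exp_sub]
  have h : Real.exp (ell ξ c j x / τ) ≤ ZZ ξ c τ x :=
    Finset.single_le_sum (f := fun j => Real.exp (ell ξ c j x / τ))
      (fun j _ => (Real.exp_pos _).le) (Finset.mem_univ j)
  have h1 := Real.exp_pos (ell ξ c i x / τ)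
  have h2 := Real.exp_pos (ell ξ c j x / τ)
  calc Real.exp (ell ξ c i x / τ)
      = Real.exp (ell ξ c i x / τ) / Real.exp (ell ξ c j x / τ) * Real.exp (ell ξ c j x / τ) := by
        field_simp
    _ ≤ _ := by gcongr

/-- The mean slope. -/
noncomputable def xbar (x : E n) : E n := ∑ j, sp ξ c τ j x • ξ j

theorem ZZ_hasFDerivAt (x : E n) :
    HasFDerivAt (ZZ ξ c τ)
      (∑ j, Real.exp (ell ξ c j x / τ) • ((1 / τ) • innerSL ℝ (ξ j))) x := by
  unfold ZZ
  refine HasFDerivAt.fun_sum fun j _ => ?_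
  have h := ((ell_hasFDerivAt ξ c j x).mul_const (1 / τ)).exp
  simpa [div_eq_mul_inv, one_div] using h

theorem Psi_hasFDerivAt [Nonempty ι] (hτ : 0 < τ) (x : E n) :
    HasFDerivAt (Psi ξ c τ) (innerSL ℝ (xbar ξ c τ x)) x := by
  have h := ((ZZ_hasFDerivAt ξ c τ x).log (ZZ_pos ξ c τ x).ne').const_mul τ
  refine h.congr_fderiv ?_
  ext v
  have hz := (ZZ_pos ξ c τ x).ne'
  simp only [xbar, sp, ContinuousLinearMap.smul_apply, ContinuousLinearMap.sum_apply,
    innerSL_apply_apply, smul_eq_mul, sum_inner, real_inner_smul_left, Finset.mul_sum]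
  refine Finset.sum_congr rfl fun j _ => ?_
  field_simp

theorem sp_hasFDerivAt [Nonempty ι] (hτ : 0 < τ) (i : ι) (x : E n) :
    HasFDerivAt (sp ξ c τ i) ((sp ξ c τ i x / τ) • innerSL ℝ (ξ i - xbar ξ c τ x)) x := by
  have h1 : HasFDerivAt (fun x => Real.exp ((ell ξ c i x - Psi ξ c τ x) * (1 / τ)))
      (Real.exp ((ell ξ c i x - Psi ξ c τ x) * (1 / τ)) •
        ((1 / τ) • (innerSL ℝ (ξ i) - innerSL ℝ (xbar ξ c τ x)))) x :=
    (((ell_hasFDerivAt ξ c i x).sub (Psi_hasFDerivAt ξ c τ hτ x)).mul_const (1 / τ)).exp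
  have heq : ∀ z, Real.exp ((ell ξ c i z - Psi ξ c τ z) * (1 / τ)) = sp ξ c τ i z := by
    intro z
    unfold sp Psi
    have hz := ZZ_pos ξ c τ z
    rw [show (ell ξ c i z - τ * Real.log (ZZ ξ c τ z)) * (1 / τ) =
      ell ξ c i z / τ - Real.log (ZZ ξ c τ z) by field_simp, Real.exp_sub, Real.exp_log hz]
  have h2 : HasFDerivAt (sp ξ c τ i)
      (Real.exp ((ell ξ c i x - Psi ξ c τ x) * (1 / τ)) •
        ((1 / τ) • (innerSL ℝ (ξ i) - innerSL ℝ (xbar ξ c τ x)))) x := by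
    refine h1.congr_of_eventuallyEq (Filter.Eventually.of_forall fun z => ?_)
    exact (heq z).symm
  refine h2.congr_fderiv ?_
  rw [heq x]
  ext v
  simp only [ContinuousLinearMap.smul_apply, ContinuousLinearMap.sub_apply, innerSL_apply_apply,
    smul_eq_mul, inner_sub_left]
  ring

theorem sp_fderiv_apply [Nonempty ι] (hτ : 0 < τ) (i : ι) (x v : E n) :
    fderiv ℝ (sp ξ c τ i) x v =
      1 / τ * (sp ξ c τ i x * ∑ j, sp ξ c τ j x * inner ℝ (ξ i - ξ j) v) := by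
  rw [(sp_hasFDerivAt ξ c τ hτ i x).fderiv]
  simp only [ContinuousLinearMap.smul_apply, innerSL_apply_apply, smul_eq_mul, inner_sub_left,
    xbar, sum_inner, real_inner_smul_left, mul_sub, Finset.sum_sub_distrib]
  rw [← Finset.sum_mul, sp_sum]
  ring

end

end Pool.Agent.ROB
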