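import Pool.Agent.ROB.All

/-!
MP_7b7880_an: the definitions used in the final statement, and the bridge to the working ones.
`E n` (Euclidean space) and `IsLipDomain` (bounded Lipschitz domain) are in `Defs.lean`.
`μHE[n - 1]` is Mathlib's Euclidean Hausdorff measure of dimension `n - 1` (the Hausdorff measure
normalised so that it is Lebesgue measure on `ℝ^{n-1}`), i.e. surface measure.
-/

namespace Pool.Agent.ROB

open MeasureTheory Set
open scoped ContDiff

/-- The Rayleigh quotient of the Robin Laplacian with parameter `α` on `Ω`. -/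
noncomputable def robinQuotient {n : ℕ} (α : ℝ) (Ω : Set (E n)) (u : E n → ℝ) : ℝ :=
  ((∫ x in Ω, ‖fderiv ℝ u x‖ ^ 2) + α * ∫ x in frontier Ω, u x ^ 2 ∂μHE[n - 1]) /
    ∫ x in Ω, u x ^ 2

/-- The first Robin eigenvalue `λ₁^α(Ω)`: the infimum of the Rayleigh quotient over the smooth
functions on `ℝ^n` which do not vanish in `L^2(Ω)`.  (For a bounded Lipschitz domain the
restrictions of smooth functions are dense in `H^1(Ω)` and the trace is continuous, so this is the
infimum over `H^1(Ω)`.) -/
noncomputable def robinEigenvalue {n : ℕ} (α : ℝ) (Ω : Set (E n)) : EReal :=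
  ⨅ (u : E n → ℝ) (_ : ContDiff ℝ ∞ u) (_ : 0 < ∫ x in Ω, u x ^ 2),
    ((robinQuotient α Ω u : ℝ) : EReal)

theorem surf_eq_muHE {n : ℕ} (hn : 2 ≤ n) : surf n = (μHE[n - 1] : Measure (E n)) := by
  obtain ⟨m, rfl⟩ : ∃ m, n = m + 1 := ⟨n - 1, by omega⟩
  exact Area.surf_eq m

theorem robin_eq {n : ℕ} (hn : 2 ≤ n) (α : ℝ) (Ω : Set (E n)) :
    robin α Ω = robinEigenvalue α Ω := by
  unfold robin robinEigenvalue rayleigh robinQuotient
  rw [surf_eq_muHE hn]

end Pool.Agent.ROB
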