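import Pool.Agent.ROB.Defs

/-!
MP_7b7880_an: statements of the modules.  Paper proofs: /team-store/MP_7b7880_PROOF.md
-/

namespace Pool.Agent.ROB

open MeasureTheory Set
open scoped ContDiff ENNReal

/-! ### Part A: analysis on the domain -/

/-- A1 (LW): sharp Gagliardo-Nirenberg inequality (Loomis-Whitney) in an orthonormal frame. -/
def Stmt_LW : Prop :=
  ∀ (n : ℕ), 2 ≤ n → ∀ (b : OrthonormalBasis (Fin n) ℝ (E n)) (f : E n → ℝ),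
    ContDiff ℝ 1 f → HasCompactSupport f → (∀ x, 0 ≤ f x) →
    2 * (∫ x, f x ^ ((n : ℝ) / ((n : ℝ) - 1))) ^ (((n : ℝ) - 1) / n) ≤
      (∏ l, ∫ x, |fderiv ℝ f x (b l)|) ^ (1 / (n : ℝ))

/-- A2 (BV): the same for `p * 1_Ω`, with the boundary term. -/
def Stmt_BV : Prop :=
  ∀ (n : ℕ), 2 ≤ n → ∀ (Ω : Set (E n)) (σ : Measure (E n)), Dom Ω σ →
    ∀ (b : OrthonormalBasis (Fin n) ℝ (E n)) (β : Fin n → ℝ), (∀ l, 0 ≤ β l) →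
    ∀ p : E n → ℝ, ContDiff ℝ 1 p → (∀ x, 0 ≤ p x) →
    2 * n * (∏ l, β l) ^ (1 / (n : ℝ)) *
        (∫ x in Ω, p x ^ ((n : ℝ) / ((n : ℝ) - 1))) ^ (((n : ℝ) - 1) / n) ≤
      ∑ l, β l * ((∫ x in Ω, |fderiv ℝ p x (b l)|) + ∫ x, p x ∂σ)

/-- A3 (SOFT): the total inequality for soft-max test functions. -/
def Stmt_Soft : Prop :=
  ∀ (n : ℕ) (Ω : Set (E n)) (σ : Measure (E n)), Dom Ω σ →
    ∀ k a : ℝ, 0 < k → 0 < a → RobinHyp Ω σ k a →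
    ∀ (ι : Type) [Fintype ι] [Nonempty ι] (ξ : ι → E n) (c : ι → ℝ) (X : ι → E n)
      (A₀ N τ : ℝ), (∀ i, ‖ξ i‖ ≤ a) → (∀ i, ‖X i‖ ≤ A₀) → 0 ≤ N → 0 < τ → τ < 1 →
    (∫ x in Ω, 1 / (2 * τ) * ∑ i, ∑ j, sp ξ c τ i x * sp ξ c τ j x *
        (inner ℝ (ξ i - ξ j) (X i - X j) +
          N * (1 - τ) * Real.exp (2 * Psi ξ c τ x) * ‖ξ i - ξ j‖ ^ 2)) ≤
      A₀ * (σ univ).toReal +
        N * ∫ x in Ω, Real.exp (2 * Psi ξ c τ x) *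
          ∑ i, sp ξ c τ i x * (k ^ 2 - ‖ξ i‖ ^ 2)

/-- A4 (ABS): limit `τ → 0`: inequality for the cells of `max (ξ_i x - c_i)`. -/
def Stmt_Abs : Prop :=
  ∀ (n : ℕ), 2 ≤ n → ∀ (Ω : Set (E n)) (σ : Measure (E n)), Dom Ω σ →
    ∀ k a : ℝ, 0 < k → 0 < a → RobinHyp Ω σ k a →
    ∀ (ι : Type) [Fintype ι] [Nonempty ι] (ξ : ι → E n), Function.Injective ξ →
    ∀ (c : ι → ℝ) (X : ι → E n) (b : ι → OrthonormalBasis (Fin n) ℝ (E n))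
      (lam : ι → Fin n → ℝ) (h A₀ Λ M : ℝ) (e : ι → ℝ),
    (∀ i, ‖ξ i‖ ≤ a) → (∀ i, ‖X i‖ ≤ A₀) → 0 < h →
    (∀ i l, 0 ≤ lam i l ∧ lam i l ≤ Λ) →
    (∀ i, 0 ≤ e i ∧ e i ≤ M) →
    (∀ i, ∀ x ∈ cell (closure Ω) ξ c i, e i ≤ Real.exp (2 * ell ξ c i x)) →
    (∀ i j, h / 2 * ((∑ l, lam i l * |inner ℝ (b i l) (ξ i - ξ j)|) +
        ∑ l, lam j l * |inner ℝ (b j l) (ξ i - ξ j)|) ≤ inner ℝ (ξ i - ξ j) (X i - X j)) →
    (∀ i j, h / 2 * ((∑ l, |inner ℝ (b i l) (ξ i - ξ j)|) +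
        ∑ l, |inner ℝ (b j l) (ξ i - ξ j)|) ≤ ‖ξ i - ξ j‖ ^ 2) →
    h * n * ∑ i, (∏ l, (lam i l + ((n : ℝ) - 1) * e i)) ^ (1 / (n : ℝ)) *
        (volume (cell Ω ξ c i)).toReal ^ (((n : ℝ) - 1) / n) ≤
      (A₀ + h / 2 * n * (Λ + ((n : ℝ) - 1) * M)) * (σ univ).toReal +
        ((n : ℝ) - 1) * ∑ i, (k ^ 2 - ‖ξ i‖ ^ 2) *
          ∫ x in cell Ω ξ c i, Real.exp (2 * ell ξ c i x)

/-- A5 (MASS): cells with prescribed masses. -/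
def Stmt_Mass : Prop :=
  ∀ (n : ℕ) (Ω : Set (E n)), IsOpen Ω → Bornology.IsBounded Ω → Ω.Nonempty →
    ∀ (ι : Type) [Fintype ι] [Nonempty ι] (ξ : ι → E n), Function.Injective ξ →
    ∀ m : ι → ℝ, (∀ i, 0 < m i) →
    ∃ c : ι → ℝ, ∀ i, ∫ x in cell Ω ξ c i, Real.exp (2 * ell ξ c i x) = m i

/-- A6 (WIDTH): on a line of slopes only few cells are wide in the direction of the line. -/
def Stmt_Width : Prop :=
  ∀ (n : ℕ) (K : Set (E n)) (Δ : ℝ), (∀ x ∈ K, ∀ y ∈ K, dist x y ≤ Δ) → 0 ≤ Δ →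
    ∀ (ι : Type) (ξ : ι → E n) (c : ι → ℝ) (N : ℕ) (i : Fin N → ι) (o v : E n) (δ η : ℝ),
    ‖v‖ = 1 → 0 < δ → 0 < η → (∀ s : Fin N, ξ (i s) = o + ((s : ℝ) * δ) • v) →
    (Nat.card {s : Fin N // ∃ x ∈ cell K ξ c (i s), ∃ y ∈ cell K ξ c (i s),
      η ≤ inner ℝ v (y - x)} : ℝ) * η ≤ Δ

/-- A7 (FIX): the inequality for a finite disjoint family of patches (limit of fine grids). -/
def Stmt_Fix : Prop :=
  ∀ (n : ℕ), 2 ≤ n → ∀ (Ω : Set (E n)) (σ : Measure (E n)), Dom Ω σ →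
    ∀ k a : ℝ, 0 < k → 0 < a → RobinHyp Ω σ k a →
    ∀ (P : Type) [Fintype P] [Nonempty P] (p : P → Patch n) (X : E n → E n)
      (A₀ κ c0 : ℝ), 0 < κ → κ ≤ 1 → 0 < c0 →
    (∀ q, (p q).OK k a A₀ κ X) →
    (∀ q r, q ≠ r → Disjoint (p q).cube (p r).cube) →
    (∀ q r, ∀ x ∈ (p q).cube, ∀ y ∈ (p r).cube,
      c0 * ‖x - y‖ ^ 2 ≤ inner ℝ (x - y) (X x - X y)) →
    ∑ q, (p q).mu * (p q).s ^ n * (n * κ * (p q).D - ((n : ℝ) - 1) * (p q).Dp) ≤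
      A₀ * (σ univ).toReal

/-! ### Part B: profiles and coverings -/

/-- The vector field on the space of slopes. -/
noncomputable def fieldOf {n : ℕ} (H : ℝ → ℝ) (ξ : E n) : E n := H ‖ξ‖ • ξ

/-- B1 (CROSS): strong monotonicity of the field. -/
def Stmt_Cross : Prop :=
  ∀ (n : ℕ) (k a A₀ : ℝ) (H H' mu : ℝ → ℝ), Profile n k a A₀ H H' mu →
    ∃ c0 : ℝ, 0 < c0 ∧ ∀ x y : E n, 0 < ‖x‖ → ‖x‖ < a → 0 < ‖y‖ → ‖y‖ < a →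
      c0 * ‖x - y‖ ^ 2 ≤ inner ℝ (x - y) (fieldOf H x - fieldOf H y)

/-- B2 (LOC): near every slope there are arbitrarily small good patches. -/
def Stmt_Loc : Prop :=
  ∀ (n : ℕ), 2 ≤ n → ∀ (k a A₀ : ℝ) (H H' mu : ℝ → ℝ), Profile n k a A₀ H H' mu →
    ∀ (ξ0 : E n) (ε : ℝ), 0 < ‖ξ0‖ → ‖ξ0‖ < a → 0 < ε → ε < 1 →
    ∃ r0 : ℝ, 0 < r0 ∧ ∀ r : ℝ, 0 < r → r ≤ r0 → ∃ p : Patch n,
      p.OK k a A₀ (1 - ε) (fieldOf H) ∧ p.s = 2 * r / Real.sqrt n ∧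
      (∀ l, inner ℝ (p.b l) (ξ0 - p.o) = r / Real.sqrt n) ∧ 0 < p.D ∧
      p.Dp ≤ (1 + ε) * p.D ∧
      ∀ x ∈ p.cube, 0 < ‖x‖ ∧ ‖x‖ < a ∧ mu ‖x‖ * (k ^ 2 - ‖x‖ ^ 2) ≤ (1 + ε) * (p.mu * p.D)

/-- B3 (VIT): Vitali covering by patches; from `Stmt_Fix`, `Stmt_Cross`, `Stmt_Loc`. -/
def Stmt_Vit : Prop :=
  ∀ (n : ℕ), 2 ≤ n → ∀ (Ω : Set (E n)) (σ : Measure (E n)), Dom Ω σ →
    ∀ k a : ℝ, 0 < k → 0 < a → RobinHyp Ω σ k a →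
    ∀ (A₀ : ℝ) (H H' mu : ℝ → ℝ), Profile n k a A₀ H H' mu →
    ∀ s0 s1 : ℝ, 0 < s0 → s0 < s1 → s1 < a →
    n * (volume (Metric.ball (0 : E n) 1)).toReal *
        ∫ s in s0..s1, s ^ (n - 1) * (mu s * (k ^ 2 - s ^ 2)) ≤
      A₀ * (σ univ).toReal

/-! ### Part C: radial functions -/

/-- C1 (RAD): the radial data exist. -/
def Stmt_Rad : Prop := ∀ n : ℕ, 2 ≤ n → ∃ y f g gd : ℝ → ℝ, Radial n y f g gd

/-- C2 (PROF): the profile attached to the radial data with parameters `k, R`. -/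
def Stmt_Prof : Prop :=
  ∀ (n : ℕ), 2 ≤ n → ∀ (y f g gd : ℝ → ℝ), Radial n y f g gd → ∀ k R : ℝ, 0 < k → 0 < R →
    ∃ H H' mu : ℝ → ℝ,
      Profile n k (k * g (k * R)) (R * (k ^ 2 * gd (k * R)) * f (k * R) ^ 2) H H' mu ∧
      ∀ r : ℝ, 0 < r → r < R →
        mu (k * g (k * r)) =
          f (k * r) ^ 2 / (k ^ 2 * gd (k * r) * (k * g (k * r) / r) ^ (n - 1))

/-- C3 (MT): main theorem for domains; from `Stmt_Vit`, `Stmt_Prof`. -/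
def Stmt_MT : Prop :=
  ∀ (n : ℕ), 2 ≤ n → ∀ (y f g gd : ℝ → ℝ), Radial n y f g gd →
    ∀ (Ω : Set (E n)) (σ : Measure (E n)), Dom Ω σ → ∀ k R : ℝ, 0 < k → 0 < R →
    RobinHyp Ω σ k (k * g (k * R)) →
    n * (volume (Metric.ball (0 : E n) 1)).toReal * R ^ (n - 1) ≤ (σ univ).toReal

/-- C4 (KMON): solving `k g(kR) = a` for `k`, and the perturbation argument. -/
def Stmt_KMon : Prop :=
  ∀ (n : ℕ), 2 ≤ n → ∀ (y f g gd : ℝ → ℝ), Radial n y f g gd → ∀ R a : ℝ, 0 < R → 0 < a →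
    ∃ k : ℝ, 0 < k ∧ k * g (k * R) = a ∧
      ∀ l : ℝ, l < k → ∃ k' R' : ℝ, 0 < k' ∧ l < k' ∧ k' < k ∧ R < R' ∧ k' * g (k' * R') = a

/-! ### Part D: geometry of Lipschitz domains -/

/-- The point of `E (m+1)` with the first `m` coordinates `y` and last coordinate `t`. -/
noncomputable def up {m : ℕ} (y : E m) (t : ℝ) : E (m + 1) := WithLp.toLp 2 (Fin.snoc y.ofLp t)

/-- The first `m` coordinates. -/
noncomputable def low {m : ℕ} (x : E (m + 1)) : E m := WithLp.toLp 2 (fun i => x (Fin.castSucc i))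

/-- D1 (AREA): surface integrals over Lipschitz graphs in standard position. -/
def Stmt_Area : Prop :=
  ∀ (m : ℕ), 1 ≤ m → ∀ (γ : E m → ℝ) (K : NNReal), LipschitzWith K γ →
    ∀ h : E (m + 1) → ℝ≥0∞, Measurable h →
    ∫⁻ x in {x : E (m + 1) | x (Fin.last m) = γ (low x)}, h x ∂(surf (m + 1)) =
      ∫⁻ y : E m, h (up y (γ y)) * ENNReal.ofReal (Real.sqrt (1 + ‖fderiv ℝ γ y‖ ^ 2))

/-- D2 (SUBGG): divergence theorem on a Lipschitz subgraph in standard position. -/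
def Stmt_SubGG : Prop :=
  ∀ (m : ℕ), 1 ≤ m → ∀ (γ : E m → ℝ) (K : NNReal), LipschitzWith K γ →
    ∀ X : E (m + 1) → E (m + 1), ContDiff ℝ 1 X → HasCompactSupport X →
    ∫ x in {x : E (m + 1) | x (Fin.last m) < γ (low x)}, dv X x =
      ∫ y : E m, inner ℝ (X (up y (γ y))) (up (-(gradient γ y)) 1)

/-- D3 (LGG): divergence theorem on a Lipschitz subgraph in general position; from
`Stmt_Area`, `Stmt_SubGG` by a rotation. -/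
def Stmt_LGG : Prop :=
  ∀ (n : ℕ), 2 ≤ n → ∀ (e : E n) (γ : E n → ℝ) (K : NNReal), ‖e‖ = 1 → LipschitzWith K γ →
    (∀ (y : E n) (t : ℝ), γ (y + t • e) = γ y) →
    (∀ r : ℝ, surf n ({x : E n | inner ℝ x e = γ x} ∩ Metric.closedBall 0 r) < ⊤) ∧
    ∀ X : E n → E n, ContDiff ℝ 1 X → HasCompactSupport X →
      ∫ x in {x : E n | inner ℝ x e < γ x}, dv X x =
        ∫ x in {x : E n | inner ℝ x e = γ x},
          inner ℝ (X x) ((1 / Real.sqrt (1 + ‖gradient γ x‖ ^ 2)) • (e - gradient γ x)) ∂(surf n)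

/-- D4 (LIP): Lipschitz domains are admissible; from `Stmt_LGG`. -/
def Stmt_Lip : Prop :=
  ∀ (n : ℕ), 2 ≤ n → ∀ Ω : Set (E n), IsLipDomain Ω → Dom Ω ((surf n).restrict (frontier Ω))

/-- D5 (BALLGG): divergence theorem on balls; from `Stmt_LGG`. -/
def Stmt_BallGG : Prop :=
  ∀ (n : ℕ), 2 ≤ n → ∀ R : ℝ, 0 < R →
    surf n (Metric.sphere (0 : E n) R) < ⊤ ∧
    ∀ X : E n → E n, ContDiff ℝ 1 X →
      ∫ x in Metric.ball (0 : E n) R, dv X x =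
        ∫ x in Metric.sphere (0 : E n) R, inner ℝ (X x) x / R ∂(surf n)

/-- D6 (BALL): area of the sphere and the Robin inequality on the ball; from `Stmt_BallGG`. -/
def Stmt_Ball : Prop :=
  ∀ (n : ℕ), 2 ≤ n → ∀ (y f g gd : ℝ → ℝ), Radial n y f g gd → ∀ R : ℝ, 0 < R →
    (surf n (Metric.sphere (0 : E n) R)).toReal =
      n * (volume (Metric.ball (0 : E n) 1)).toReal * R ^ (n - 1) ∧
    ∀ k : ℝ, 0 < k → ∀ v : E n → ℝ, ContDiff ℝ ∞ v →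
      k * g (k * R) * ∫ x in Metric.sphere (0 : E n) R, v x ^ 2 ∂(surf n) ≤
        (∫ x in Metric.ball (0 : E n) R, ‖fderiv ℝ v x‖ ^ 2) +
          k ^ 2 * ∫ x in Metric.ball (0 : E n) R, v x ^ 2

end Pool.Agent.ROB
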