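import Pool.Agent.ROB.Stmts

/-!
MP_7b7880_an: module WIDTH (on a line of slopes only few cells are wide).
-/

set_option autoImplicit false

namespace Pool.Agent.ROB

open MeasureTheory Set

theorem width_mono {n : ℕ} {K : Set (E n)} {ι : Type} {ξ : ι → E n} {c : ι → ℝ} {i j : ι}
    {v : E n} {t : ℝ} (ht : 0 < t) (h : ξ j - ξ i = t • v) {x y : E n}
    (hx : x ∈ cell K ξ c i) (hy : y ∈ cell K ξ c j) : 0 ≤ inner ℝ v (y - x) := by
  have h1 := hx.2 j
  have h2 := hy.2 i
  unfold ell at h1 h2
  have h3 : 0 ≤ inner ℝ (ξ j - ξ i) (y - x) := by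
    rw [inner_sub_left, inner_sub_right, inner_sub_right]
    linarith
  rw [h, inner_smul_left] at h3
  simp only [conj_trivial] at h3
  by_contra hc
  push Not at hc
  nlinarith

theorem Width_proof : Stmt_Width := by
  intro n K Δ hK hΔ ι ξ c N i o v δ η hv hδ hη hξ
  classical
  have key : ∀ W : Finset (Fin N), (∀ s ∈ W, ∃ x ∈ cell K ξ c (i s), ∃ y ∈ cell K ξ c (i s),
      η ≤ inner ℝ v (y - x)) → W.Nonempty →
      ∃ x ∈ K, ∃ m ∈ W, ∃ y ∈ cell K ξ c (i m), (W.card : ℝ) * η ≤ inner ℝ v (y - x) := by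
    intro W
    induction W using Finset.induction_on_max with
    | empty => intro _ h; exact absurd h Finset.not_nonempty_empty
    | insert a W hlt ih =>
      intro hW _
      have ha : a ∉ W := fun h => lt_irrefl _ (hlt a h)
      obtain ⟨xa, hxa, ya, hya, hxya⟩ := hW a (Finset.mem_insert_self a W)
      rcases W.eq_empty_or_nonempty with rfl | hne
      · refine ⟨xa, hxa.1, a, Finset.mem_insert_self _ _, ya, hya, ?_⟩
        simpa using hxya
      · obtain ⟨x, hx, m, hm, y, hy, hxy⟩ :=
          ih (fun s hs => hW s (Finset.mem_insert_of_mem hs)) hne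
        refine ⟨x, hx, a, Finset.mem_insert_self _ _, ya, hya, ?_⟩
        have hma : m < a := hlt m hm
        have hma' : (m : ℝ) < (a : ℝ) := by exact_mod_cast hma
        have h1 : 0 ≤ inner ℝ v (xa - y) := by
          refine width_mono (t := ((a : ℝ) - m) * δ) (mul_pos (by linarith) hδ) ?_ hy hxa
          rw [hξ a, hξ m, sub_mul, sub_smul]
          abel
        have h2 : inner ℝ v (ya - x) = inner ℝ v (ya - xa) + inner ℝ v (xa - y) +
            inner ℝ v (y - x) := by
          rw [← inner_add_right, ← inner_add_right]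
          congr 1
          abel
        rw [Finset.card_insert_of_notMem ha, h2]
        push_cast
        linarith
  have hcard : Nat.card {s : Fin N // ∃ x ∈ cell K ξ c (i s), ∃ y ∈ cell K ξ c (i s),
      η ≤ inner ℝ v (y - x)} = (Finset.univ.filter (fun s : Fin N =>
        ∃ x ∈ cell K ξ c (i s), ∃ y ∈ cell K ξ c (i s), η ≤ inner ℝ v (y - x))).card := by
    rw [Nat.card_eq_fintype_card, Fintype.card_subtype]
  rw [hcard]
  rcases (Finset.univ.filter (fun s : Fin N =>
        ∃ x ∈ cell K ξ c (i s), ∃ y ∈ cell K ξ c (i s),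
          η ≤ inner ℝ v (y - x))).eq_empty_or_nonempty with he | hne
  · rw [he]; simpa using hΔ
  · obtain ⟨x, hx, m, hm, y, hy, hxy⟩ := key _ (fun s hs => (Finset.mem_filter.1 hs).2) hne
    refine hxy.trans ?_
    calc inner ℝ v (y - x) ≤ ‖v‖ * ‖y - x‖ := real_inner_le_norm _ _
      _ = dist y x := by rw [hv, one_mul, dist_eq_norm]
      _ ≤ Δ := hK y hy.1 x hx

end Pool.Agent.ROB
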